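import Pool.Agent.Helper32.PG.Final
import Pool.Agent.Helper32.LV.Stmt2

/-! The main theorem for `LPA`. -/

set_option autoImplicit false

universe k a b

namespace Pool.Agent.Helper32.PG

open Pool.Agent.Helper32.LV

variable {V V' : Type a} {E E' : Type b}

theorem main_LPA {K : Type k} [Field K] [StarRing K] {G : Gr V E} {G' : Gr V' E'} [Finite V]
    [Finite E] [Finite V'] [Finite E'] (hG : DisjCycles G) (hG' : DisjCycles G')
    (h : Nonempty (LPA K G ≃+* LPA K G')) : Nonempty (LPA K G ≃⋆ₐ[K] LPA K G') :=
  lpa_star (main K G G' hG hG' (lpa_ring h))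

end Pool.Agent.Helper32.PG
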