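import Pool.Agent.Helper32.LV.Mat

/-! An idempotent matrix over a ring which looks like a ring of infinite matrices over `Λ`. PIECE 3.

Only finitely many `y` occur in the entries of `E`; let `F` be a finite set of them and let `R₀` be the matrix
with rows `ι` and columns `ι × F`, `R₀ a (a', y) = if a = a' then p y else 0`, `R₀'` the matrix of
the `q y`. Then `B = R₀' * E * R₀` has entries in the image of `ev`, is the image of an idempotent
matrix over `Λ` (`ev` is injective), and `E = R₀ * B * R₀'`. Apply `idem_diag` to it. -/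

set_option autoImplicit false
set_option linter.unusedSectionVars false

namespace Pool.Agent.Helper32.PG

open Pool.Agent.Helper32.LV

theorem algl_unit {R Λ : Type*} [Ring R] [CommRing Λ]
    (v : R) (ev : Λ →+ R) (ev_mul : ∀ f g, ev (f * g) = ev f * ev g) (ev_one : ev 1 = v)
    {Y : Type*} (p q : Y → R) (hp : ∀ y, p y * v = p y)
    (hq : ∀ y, v * q y = q y) (hqp : ∀ y, q y * p y = v)
    (hqp' : ∀ y y', y ≠ y' → q y * p y' = 0) (x : R)
    (hx : x ∈ AddSubgroup.closure {x | ∃ y f y', x = p y * ev f * q y'}) :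
    ∃ F₀ : Finset Y, ∀ F : Finset Y, F₀ ⊆ F →
      (∑ y ∈ F, p y * q y) * x = x ∧ x * (∑ y ∈ F, p y * q y) = x := by
  classical
  induction hx using AddSubgroup.closure_induction with
  | mem x h =>
    obtain ⟨y, f, y', rfl⟩ := h
    refine ⟨{y, y'}, fun F hF => ⟨?_, ?_⟩⟩
    · rw [Finset.sum_mul, Finset.sum_eq_single y]
      · rw [show p y * q y * (p y * ev f * q y') = p y * (q y * p y) * ev f * q y' by
          simp only [mul_assoc], hqp, hp]
      · intro z _ hz
        rw [show p z * q z * (p y * ev f * q y') = p z * (q z * p y) * ev f * q y' by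
          simp only [mul_assoc], hqp' z y hz, mul_zero, zero_mul, zero_mul]
      · intro h
        exact absurd (hF (by simp)) h
    · rw [Finset.mul_sum, Finset.sum_eq_single y']
      · rw [show p y * ev f * q y' * (p y' * q y') = p y * ev f * ((q y' * p y') * q y') by
          simp only [mul_assoc], hqp, hq]
      · intro z _ hz
        rw [show p y * ev f * q y' * (p z * q z) = p y * ev f * ((q y' * p z) * q z) by
          simp only [mul_assoc], hqp' y' z hz.symm, zero_mul, mul_zero]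
      · intro h
        exact absurd (hF (by simp)) h
  | zero => exact ⟨∅, fun F _ => ⟨mul_zero _, zero_mul _⟩⟩
  | add x y _ _ ihx ihy =>
    obtain ⟨F₁, h₁⟩ := ihx
    obtain ⟨F₂, h₂⟩ := ihy
    refine ⟨F₁ ∪ F₂, fun F hF => ⟨?_, ?_⟩⟩
    · rw [mul_add, (h₁ F (Finset.union_subset_left hF)).1,
        (h₂ F (Finset.union_subset_right hF)).1]
    · rw [add_mul, (h₁ F (Finset.union_subset_left hF)).2,
        (h₂ F (Finset.union_subset_right hF)).2]
  | neg x _ ihx =>
    obtain ⟨F₁, h₁⟩ := ihx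
    refine ⟨F₁, fun F hF => ⟨?_, ?_⟩⟩
    · rw [mul_neg, (h₁ F hF).1]
    · rw [neg_mul, (h₁ F hF).2]

theorem algl_entry {R Λ : Type*} [Ring R] [CommRing Λ]
    (v : R) (ev : Λ →+ R) (ev_mul : ∀ f g, ev (f * g) = ev f * ev g) (ev_one : ev 1 = v)
    {Y : Type*} (p q : Y → R) (hqp : ∀ y, q y * p y = v)
    (hqp' : ∀ y y', y ≠ y' → q y * p y' = 0) (x : R)
    (hx : x ∈ AddSubgroup.closure {x | ∃ y f y', x = p y * ev f * q y'}) (z z' : Y) :
    ∃ f, ev f = q z * x * p z' := by
  classical
  induction hx using AddSubgroup.closure_induction with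
  | mem x h =>
    obtain ⟨y, f, y', rfl⟩ := h
    by_cases h1 : z = y
    · by_cases h2 : y' = z'
      · subst h1
        subst h2
        refine ⟨f, ?_⟩
        rw [show q z * (p z * ev f * q y') * p y' = (q z * p z) * ev f * (q y' * p y') by
          simp only [mul_assoc], hqp, hqp, ← ev_one, ← ev_mul, ← ev_mul, one_mul, mul_one]
      · refine ⟨0, ?_⟩
        rw [show q z * (p y * ev f * q y') * p z' = (q z * p y) * ev f * (q y' * p z') by
          simp only [mul_assoc], hqp' y' z' h2, mul_zero, map_zero]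
    · refine ⟨0, ?_⟩
      rw [show q z * (p y * ev f * q y') * p z' = (q z * p y) * ev f * (q y' * p z') by
          simp only [mul_assoc], hqp' z y h1, zero_mul, zero_mul, map_zero]
  | zero => exact ⟨0, by rw [map_zero, mul_zero, zero_mul]⟩
  | add x y _ _ ihx ihy =>
    obtain ⟨f, hf⟩ := ihx
    obtain ⟨g, hg⟩ := ihy
    exact ⟨f + g, by rw [map_add, hf, hg, mul_add, add_mul]⟩
  | neg x _ ihx =>
    obtain ⟨f, hf⟩ := ihx
    exact ⟨-f, by rw [map_neg, hf, mul_neg, neg_mul]⟩

theorem algLevel {R Λ : Type*} [Ring R] [CommRing Λ] [IsDomain Λ] [IsPrincipalIdealRing Λ]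
    (v : R) (ev : Λ →+ R) (ev_mul : ∀ f g, ev (f * g) = ev f * ev g) (ev_one : ev 1 = v)
    (ev_inj : ∀ f, ev f = 0 → f = 0) {Y : Type*} (p q : Y → R) (hp : ∀ y, p y * v = p y)
    (hq : ∀ y, v * q y = q y) (hqp : ∀ y, q y * p y = v)
    (hqp' : ∀ y y', y ≠ y' → q y * p y' = 0) {ι : Type*} [Fintype ι] [DecidableEq ι]
    (E : Matrix ι ι R) (hE : E * E = E)
    (hs : ∀ a b, E a b ∈ AddSubgroup.closure {x | ∃ y f y', x = p y * ev f * q y'}) :
    ∃ (r : ℕ) (X : Matrix ι (Fin r) R) (Y : Matrix (Fin r) ι R), X * Y = E ∧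
      Y * X = Matrix.diagonal (fun _ => v) ∧ X * Matrix.diagonal (fun _ => v) = X ∧
      Matrix.diagonal (fun _ => v) * Y = Y := by
  classical
  choose F₀ hF₀ using fun a b => algl_unit v ev ev_mul ev_one p q hp hq hqp hqp' (E a b) (hs a b)
  let F : Finset Y := Finset.univ.biUnion fun a => Finset.univ.biUnion (F₀ a)
  have hF : ∀ a b, F₀ a b ⊆ F := fun a b y hy =>
    Finset.mem_biUnion.2 ⟨a, Finset.mem_univ _, Finset.mem_biUnion.2 ⟨b, Finset.mem_univ _, hy⟩⟩
  have hE1 : ∀ a b, (∑ y ∈ F, p y * q y) * E a b = E a b := fun a b => (hF₀ a b F (hF a b)).1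
  have hE2 : ∀ a b, E a b * (∑ y ∈ F, p y * q y) = E a b := fun a b => (hF₀ a b F (hF a b)).2
  choose f hf using fun a b => algl_entry v ev ev_mul ev_one p q hqp hqp' (E a b) (hs a b)
  let M : Matrix (ι × F) (ι × F) Λ := fun i j => f i.1 j.1 i.2 j.2
  have hM : ∀ i j, ev (M i j) = q i.2 * E i.1 j.1 * p j.2 := fun i j => hf i.1 j.1 i.2 j.2
  have hMM : M * M = M := by
    ext i j
    apply sub_eq_zero.1
    apply ev_inj
    rw [map_sub, sub_eq_zero, Matrix.mul_apply, map_sum, hM]
    have h1 : ∀ k : ι × F, ev (M i k * M k j) =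
        q i.2 * (E i.1 k.1 * (p k.2 * q k.2) * E k.1 j.1) * p j.2 := by
      intro k
      rw [ev_mul, hM, hM]
      simp only [mul_assoc]
    rw [Finset.sum_congr rfl fun k _ => h1 k, Fintype.sum_prod_type]
    have h2 : ∀ c : ι, ∑ z : F, q i.2 * (E i.1 c * (p z * q z) * E c j.1) * p j.2 =
        q i.2 * (E i.1 c * E c j.1) * p j.2 := by
      intro c
      rw [← Finset.sum_mul, ← Finset.mul_sum, ← Finset.sum_mul, ← Finset.mul_sum,
        Finset.sum_coe_sort F (fun z => p z * q z), hE2]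
    rw [Finset.sum_congr rfl fun c _ => h2 c, ← Finset.sum_mul, ← Finset.mul_sum,
      ← Matrix.mul_apply, hE]
  obtain ⟨S, ⟨X₀, Y₀, hXY, hYX⟩, -⟩ := idem_diag M hMM
  have hXSY : ∀ i j, ∑ k ∈ S, X₀ i k * Y₀ k j = M i j := by
    intro i j
    have h1 : X₀ * Matrix.diagonal (fun i => if i ∈ S then 1 else 0) * Y₀ = M := by
      rw [← hYX, show X₀ * (Y₀ * X₀) * Y₀ = (X₀ * Y₀) * (X₀ * Y₀) by
        simp only [Matrix.mul_assoc], hXY, hMM]
    rw [← congrFun (congrFun h1 i) j, Matrix.mul_apply]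
    simp only [Matrix.mul_diagonal, mul_ite, mul_one, mul_zero, ite_mul, zero_mul]
    rw [← Finset.sum_filter]
    refine Finset.sum_congr ?_ fun _ _ => rfl
    ext k
    simp
  have hv1 : ∀ g, ev g * v = ev g := fun g => by rw [← ev_one, ← ev_mul, mul_one]
  have hv2 : ∀ g, v * ev g = ev g := fun g => by rw [← ev_one, ← ev_mul, one_mul]
  let s : Fin S.card ≃ S := S.equivFin.symm
  let X₁ : Matrix ι (Fin S.card) R := fun a k => ∑ y : F, p y * ev (X₀ (a, y) (s k))
  let Y₁ : Matrix (Fin S.card) ι R := fun k b => ∑ y : F, ev (Y₀ (s k) (b, y)) * q y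
  refine ⟨S.card, X₁, Y₁, ?_, ?_, ?_, ?_⟩
  · ext a b
    rw [Matrix.mul_apply]
    have h1 : ∀ k : Fin S.card, (∑ y : F, p y * ev (X₀ (a, y) (s k))) *
        (∑ y : F, ev (Y₀ (s k) (b, y)) * q y) =
        ∑ y : F, ∑ z : F, p y * ev (X₀ (a, y) (s k) * Y₀ (s k) (b, z)) * q z := by
      intro k
      rw [Finset.sum_mul_sum]
      refine Finset.sum_congr rfl fun y _ => Finset.sum_congr rfl fun z _ => ?_
      rw [ev_mul]
      simp only [mul_assoc]
    rw [Finset.sum_congr rfl fun k _ => h1 k, Finset.sum_comm]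
    have h2 : ∀ y : F, ∑ k : Fin S.card, ∑ z : F,
        p y * ev (X₀ (a, y) (s k) * Y₀ (s k) (b, z)) * q z =
        ∑ z : F, p y * (q y * E a b * p z) * q z := by
      intro y
      rw [Finset.sum_comm]
      refine Finset.sum_congr rfl fun z _ => ?_
      rw [← Finset.sum_mul, ← Finset.mul_sum, ← map_sum]
      congr 2
      rw [← hM (a, y) (b, z), ← hXSY, ← Finset.sum_coe_sort S]
      congr 1
      exact Equiv.sum_comp s (fun k : S => X₀ (a, y) k * Y₀ k (b, z))
    rw [Finset.sum_congr rfl fun y _ => h2 y]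
    have h3 : ∀ y : F, ∑ z : F, p y * (q y * E a b * p z) * q z = p y * q y * E a b := by
      intro y
      have : ∀ z : F, p y * (q y * E a b * p z) * q z = p y * q y * E a b * (p z * q z) := by
        intro z
        simp only [mul_assoc]
      rw [Finset.sum_congr rfl fun z _ => this z, ← Finset.mul_sum,
        Finset.sum_coe_sort F (fun z => p z * q z), mul_assoc (p y * q y), hE2]
    rw [Finset.sum_congr rfl fun y _ => h3 y, ← Finset.sum_mul,
      Finset.sum_coe_sort F (fun z => p z * q z), hE1]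
  · ext k l
    rw [Matrix.mul_apply, Matrix.diagonal_apply]
    have h1 : ∀ a : ι, (∑ y : F, ev (Y₀ (s k) (a, y)) * q y) *
        (∑ y : F, p y * ev (X₀ (a, y) (s l))) =
        ∑ y : F, ev (Y₀ (s k) (a, y) * X₀ (a, y) (s l)) := by
      intro a
      rw [Finset.sum_mul_sum]
      refine Finset.sum_congr rfl fun y _ => ?_
      rw [Finset.sum_eq_single y]
      · rw [show ev (Y₀ (s k) (a, y)) * q y * (p y * ev (X₀ (a, y) (s l))) =
          ev (Y₀ (s k) (a, y)) * (q y * p y) * ev (X₀ (a, y) (s l)) by simp only [mul_assoc],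
          hqp, hv1, ev_mul]
      · intro z _ hz
        rw [show ev (Y₀ (s k) (a, y)) * q y * (p z * ev (X₀ (a, z) (s l))) =
          ev (Y₀ (s k) (a, y)) * (q y * p z) * ev (X₀ (a, z) (s l)) by simp only [mul_assoc],
          hqp' y z (fun h => hz (Subtype.ext h.symm)), mul_zero, zero_mul]
      · intro h
        exact absurd (Finset.mem_univ _) h
    rw [Finset.sum_congr rfl fun a _ => h1 a,
      ← Fintype.sum_prod_type' (fun a y => ev (Y₀ (s k) (a, y) * X₀ (a, y) (s l))), ← map_sum,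
      ← Matrix.mul_apply, hYX, Matrix.diagonal_apply]
    by_cases h : k = l
    · subst h
      rw [if_pos rfl, if_pos (s k).2, if_pos rfl, ev_one]
    · rw [if_neg h, if_neg (fun h' => h (s.injective (Subtype.ext h'))), map_zero]
  · ext a k
    refine (Matrix.mul_diagonal (fun _ => v) X₁ a k).trans ?_
    change (∑ y : F, p y * ev (X₀ (a, y) (s k))) * v = ∑ y : F, p y * ev (X₀ (a, y) (s k))
    rw [Finset.sum_mul]
    refine Finset.sum_congr rfl fun y _ => ?_
    rw [mul_assoc, hv1]
  · ext k b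
    refine (Matrix.diagonal_mul (fun _ => v) Y₁ k b).trans ?_
    change v * (∑ y : F, ev (Y₀ (s k) (b, y)) * q y) = ∑ y : F, ev (Y₀ (s k) (b, y)) * q y
    rw [Finset.mul_sum]
    refine Finset.sum_congr rfl fun y _ => ?_
    rw [← mul_assoc, hv2]

end Pool.Agent.Helper32.PG
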