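import Pool.Agent.Helper32.PG.Arith0

/-! The matrix `Q` is made the identity matrix. PIECE 23. See `Arith0.lean`. -/

set_option autoImplicit false
set_option linter.unusedSectionVars false

universe k a a'

namespace Pool.Agent.Helper32.PG

open Pool.Agent.Helper32.LV

variable {I : Type a} [Fintype I] [DecidableEq I] (K : Type k) [Field K] [StarRing K]

theorem arithQ_ext {D D' : Dat I} (h1 : D.cyc = D'.cyc) (h2 : D.n = D'.n) (h3 : D.a = D'.a) :
    D = D' := by
  cases D; cases D'; simp only at h1 h2 h3; subst h1 h2 h3; rfl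

/-- the row `k` added `c` times to the row `i` -/
def arithQ_rows (D : Dat I) (i k : I) (c : ℕ) : Dat I where
  cyc := D.cyc
  n j l := if j = i then D.n i l + c * D.n k l else D.n j l
  a := D.a

theorem arithQ_rows_zero (D : Dat I) (i k : I) : arithQ_rows D i k 0 = D := by
  apply arithQ_ext
  · rfl
  · funext j l
    by_cases hj : j = i
    · simp [arithQ_rows, hj]
    · simp [arithQ_rows, hj]
  · rfl

theorem arithQ_rows_succ (D : Dat I) (i k : I) (hik : k ≠ i) (c : ℕ) :
    arithQ_rows D i k (c + 1) = (arithQ_rows D i k c).row i k := by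
  apply arithQ_ext
  · rfl
  · funext j l
    by_cases hj : j = i
    · subst hj
      simp only [arithQ_rows, Dat.row, if_true, if_neg hik]
      ring
    · simp [arithQ_rows, Dat.row, hj]
  · rfl

theorem arithQ_ne {D : Dat I} (hD : D.Ok) {i k : I} (h : D.n i k ≠ 0) : k ≠ i := by
  obtain ⟨ρ, hρ⟩ := hD.hr
  intro hki
  have := hρ i k h
  rw [hki] at this
  exact lt_irrefl _ this

theorem arithQ_rows_spec (D : Dat I) (hD : D.Full) (i k : I) (h : D.n i k ≠ 0) (c : ℕ) :
    (arithQ_rows D i k c).Full ∧ (∀ j l, (arithQ_rows D i k c).n j l ≠ 0 ↔ D.n j l ≠ 0) ∧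
      Iso K D (arithQ_rows D i k c) := by
  have hik : k ≠ i := arithQ_ne hD.toOk h
  induction c with
  | zero =>
    rw [arithQ_rows_zero]
    exact ⟨hD, fun _ _ => Iff.rfl, Iso.refl K D⟩
  | succ c ih =>
    obtain ⟨h1, h2, h3⟩ := ih
    have h' : (arithQ_rows D i k c).n i k ≠ 0 := (h2 i k).2 h
    obtain ⟨h4, h5⟩ := Dat.Full.row h1 i k h'
    rw [arithQ_rows_succ D i k hik c]
    refine ⟨h4, fun j l => (h5 j l).trans (h2 j l), ?_⟩
    exact h3.trans K (move_row K _ h1.toOk i k h')

/-- one entry is made zero by row moves on `D` -/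
theorem arithQ_stepD {D D' : Dat I} {Q : I → I → ℤ} {y : I → ℤ} (h : Rl D D' one1 Q y)
    (i k : I) (hik : D.n i k ≠ 0) (c : ℕ) :
    Rl (arithQ_rows D i k c) D' one1 (fun j l => if j = i then Q i l + c * Q k l else Q j l) y := by
  have hne : k ≠ i := arithQ_ne h.fD.toOk hik
  obtain ⟨r1, r2, -⟩ := arithQ_rows_spec ℚ D h.fD i k hik c
  have hLe : ∀ j, Le (arithQ_rows D i k c) j = Le D j := by
    intro j
    ext l
    simp only [Le, Set.mem_ofPred_eq, r2 j l]
  refine ⟨r1, h.fD', h.cyc, fun j l => (h.supp j l).trans (r2 j l).symm, h.P1, ?_, ?_, ?_, ?_, h.eu⟩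
  · intro j
    by_cases hj : j = i
    · subst hj
      have h0 : Q k j = 0 := by
        apply h.Q0
        intro hmem
        rcases hmem with hmem | hmem
        · exact hne hmem.symm
        · obtain ⟨ρ, hρ⟩ := h.fD.hr
          have e1 := hρ j k hik
          have e2 := hρ k j hmem
          omega
      simp [h0, h.Q1]
    · simp [hj, h.Q1]
  · intro j l hl
    rw [hLe] at hl
    exact h.P0 j l hl
  · intro j l hl
    rw [hLe] at hl
    by_cases hj : j = i
    · subst hj
      have e1 : Q j l = 0 := h.Q0 j l hl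
      have e2 : Q k l = 0 := by
        apply h.Q0
        intro hmem
        apply hl
        rcases hmem with hmem | hmem
        · right
          rw [hmem]
          exact hik
        · right
          exact h.fD.tr j k l hik hmem
      simp [e1, e2]
    · simp only [if_neg hj]
      exact h.Q0 j l hl
  · intro j l
    have e0 : ∀ m, ∑ k', ((D.n m k' : ℤ)) * one1 k' l = D.n m l := by
      intro m
      simp [one1]
    have e0' : ∀ m, ∑ k', (((arithQ_rows D i k c).n m k' : ℤ)) * one1 k' l =
        (arithQ_rows D i k c).n m l := by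
      intro m
      simp [one1]
    have e1 := h.eq
    rw [e0']
    by_cases hj : j = i
    · subst hj
      have a1 := e1 j l
      have a2 := e1 k l
      rw [e0] at a1 a2
      simp only [arithQ_rows, if_true]
      push_cast
      rw [a1, a2, Finset.mul_sum, ← Finset.sum_add_distrib]
      apply Finset.sum_congr rfl
      intro m _
      ring
    · have a1 := e1 j l
      rw [e0] at a1
      simp only [arithQ_rows, if_neg hj]
      exact a1

/-- one entry is made zero by row moves on `D'` -/
theorem arithQ_stepD' {D D' : Dat I} {Q : I → I → ℤ} {y : I → ℤ} (h : Rl D D' one1 Q y)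
    (i k : I) (hik : D.n i k ≠ 0) (c : ℕ) :
    Rl D (arithQ_rows D' i k c) one1 (fun j l => if l = k then Q j k - c * Q j i else Q j l)
      (fun l => if l = k then y k - c * y i else y l) := by
  have hne : k ≠ i := arithQ_ne h.fD.toOk hik
  have hik' : D'.n i k ≠ 0 := (h.supp i k).2 hik
  obtain ⟨r1, r2, -⟩ := arithQ_rows_spec ℚ D' h.fD' i k hik' c
  have key : ∀ (x : I → ℤ) (l : I),
      ∑ m, (if m = k then x k - c * x i else x m) * ((arithQ_rows D' i k c).n m l : ℤ) =
        ∑ m, x m * (D'.n m l : ℤ) := by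
    intro x l
    have t1 : ∀ m, (if m = k then x k - c * x i else x m) * ((arithQ_rows D' i k c).n m l : ℤ) =
        x m * (D'.n m l : ℤ) + ((if m = i then (c : ℤ) * x i * D'.n k l else 0) +
          (if m = k then - ((c : ℤ) * x i * D'.n k l) else 0)) := by
      intro m
      by_cases hm : m = k
      · subst hm
        simp only [arithQ_rows, if_true, if_neg hne]
        ring
      · by_cases hm' : m = i
        · subst hm'
          simp only [arithQ_rows, if_true, if_neg hm]
          push_cast
          ring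
        · simp [arithQ_rows, hm, hm']
    rw [Finset.sum_congr rfl (fun m _ => t1 m), Finset.sum_add_distrib, Finset.sum_add_distrib]
    simp
  refine ⟨h.fD, r1, h.cyc, fun j l => (r2 j l).trans (h.supp j l), h.P1, ?_, h.P0, ?_, ?_, ?_⟩
  · intro j
    by_cases hj : j = k
    · subst hj
      have h0 : Q j i = 0 := by
        apply h.Q0
        intro hmem
        rcases hmem with hmem | hmem
        · exact hne hmem.symm
        · obtain ⟨ρ, hρ⟩ := h.fD.hr
          have e1 := hρ i j hik
          have e2 := hρ j i hmem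
          omega
      simp [h0, h.Q1]
    · simp [hj, h.Q1]
  · intro j l hl
    by_cases hj : l = k
    · subst hj
      have e1 : Q j l = 0 := h.Q0 j l hl
      have e2 : Q j i = 0 := by
        apply h.Q0
        intro hmem
        apply hl
        rcases hmem with hmem | hmem
        · right
          rw [← hmem]
          exact hik
        · right
          exact h.fD.tr j i l hmem hik
      simp [e1, e2]
    · simp only [if_neg hj]
      exact h.Q0 j l hl
  · intro j l
    rw [h.eq j l]
    exact (key (Q j) l).symm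
  · intro l
    rw [h.eu l]
    have := key y l
    rw [this]
    rfl

theorem arithQ_step {D D' : Dat I} {Q : I → I → ℤ} {y : I → ℤ} (h : Rl D D' one1 Q y)
    (ρ : I → ℕ) (hρ : ∀ i k, D.n i k ≠ 0 → ρ k < ρ i)
    (i k : I) (hik : D.n i k ≠ 0) :
    ∃ (D1 D1' : Dat I) (Q1 : I → I → ℤ) (y1 : I → ℤ), Iso K D D1 ∧ Iso K D' D1' ∧
      Rl D1 D1' one1 Q1 y1 ∧ (∀ i k, D1.n i k ≠ 0 → ρ k < ρ i) ∧ Q1 i k = 0 ∧
      ∀ j l, ρ j + ρ k ≤ ρ i + ρ l → (j, l) ≠ (i, k) → Q1 j l = Q j l := by
  have hne : k ≠ i := arithQ_ne h.fD.toOk hik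
  rcases le_or_gt (Q i k) 0 with hneg | hpos
  · obtain ⟨c, hc⟩ : ∃ c : ℕ, (c : ℤ) = - Q i k := ⟨(- Q i k).toNat, by
      rw [Int.toNat_of_nonneg]; omega⟩
    obtain ⟨r1, r2, r3⟩ := arithQ_rows_spec K D h.fD i k hik c
    refine ⟨arithQ_rows D i k c, D', _, y, r3, Iso.refl K D', arithQ_stepD h i k hik c, ?_, ?_, ?_⟩
    · intro j l hjl
      exact hρ j l ((r2 j l).1 hjl)
    · simp only [if_true, h.Q1]
      rw [hc]
      ring
    · intro j l hjl hne2
      by_cases hj : j = i
      · subst hj
        have hlk : l ≠ k := fun hh => hne2 (by rw [hh])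
        have e2 : Q k l = 0 := by
          apply h.Q0
          intro hmem
          rcases hmem with hmem | hmem
          · exact hlk hmem
          · have := hρ k l hmem
            omega
        simp [e2]
      · simp [hj]
  · obtain ⟨c, hc⟩ : ∃ c : ℕ, (c : ℤ) = Q i k := ⟨(Q i k).toNat, by
      rw [Int.toNat_of_nonneg]; omega⟩
    have hik' : D'.n i k ≠ 0 := (h.supp i k).2 hik
    obtain ⟨r1, r2, r3⟩ := arithQ_rows_spec K D' h.fD' i k hik' c
    refine ⟨D, arithQ_rows D' i k c, _, _, Iso.refl K D, r3, arithQ_stepD' h i k hik c, hρ, ?_, ?_⟩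
    · simp only [if_true, h.Q1]
      rw [hc]
      ring
    · intro j l hjl hne2
      by_cases hl : l = k
      · subst hl
        have hji : j ≠ i := fun hh => hne2 (by rw [hh])
        have e2 : Q j i = 0 := by
          apply h.Q0
          intro hmem
          rcases hmem with hmem | hmem
          · exact hji hmem.symm
          · have := hρ j i hmem
            omega
        simp [e2]
      · simp [hl]

/-- the pairs of height at most `t` with nonzero entries -/
noncomputable def arithQ_bad (ρ : I → ℕ) (Q : I → I → ℤ) (t : ℕ) : Finset (I × I) :=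
  Finset.univ.filter (fun p : I × I => p.1 ≠ p.2 ∧ Q p.1 p.2 ≠ 0 ∧ ρ p.1 ≤ ρ p.2 + t)

theorem arithQ_level (ρ : I → ℕ) (t : ℕ) (m : ℕ) : ∀ {D D' : Dat I} {Q : I → I → ℤ} {y : I → ℤ}
    (_ : Rl D D' one1 Q y) (_ : ∀ i k, D.n i k ≠ 0 → ρ k < ρ i)
    (_ : arithQ_bad ρ Q t = ∅) (_ : (arithQ_bad ρ Q (t + 1)).card ≤ m),
    ∃ (D1 D1' : Dat I) (Q1 : I → I → ℤ) (y1 : I → ℤ), Iso K D D1 ∧ Iso K D' D1' ∧
      Rl D1 D1' one1 Q1 y1 ∧ (∀ i k, D1.n i k ≠ 0 → ρ k < ρ i) ∧
      arithQ_bad ρ Q1 (t + 1) = ∅ := by
  induction m with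
  | zero =>
    intro D D' Q y h hρ h0 hm
    exact ⟨D, D', Q, y, Iso.refl K D, Iso.refl K D', h, hρ, by
      rw [← Finset.card_eq_zero]; omega⟩
  | succ m ih =>
    intro D D' Q y h hρ h0 hm
    by_cases hemp : arithQ_bad ρ Q (t + 1) = ∅
    · exact ⟨D, D', Q, y, Iso.refl K D, Iso.refl K D', h, hρ, hemp⟩
    · obtain ⟨⟨i, k⟩, hp⟩ := Finset.nonempty_iff_ne_empty.2 hemp
      have hp' := hp
      simp only [arithQ_bad, Finset.mem_filter, Finset.mem_univ, true_and] at hp'
      obtain ⟨hik, hQ, hh⟩ := hp'
      have hn : D.n i k ≠ 0 := by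
        by_contra hcon
        apply hQ
        apply h.Q0
        intro hmem
        rcases hmem with hmem | hmem
        · exact hik hmem.symm
        · exact hmem hcon
      have hh2 : ρ i = ρ k + (t + 1) := by
        by_contra hcon
        have : ((i, k) : I × I) ∈ arithQ_bad ρ Q t := by
          simp only [arithQ_bad, Finset.mem_filter, Finset.mem_univ, true_and]
          exact ⟨hik, hQ, by omega⟩
        rw [h0] at this
        simp at this
      obtain ⟨D1, D1', Q1, y1, i1, i2, h1, hρ1, hz, hsame⟩ := arithQ_step K h ρ hρ i k hn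
      have hsub : arithQ_bad ρ Q1 (t + 1) ⊆ (arithQ_bad ρ Q (t + 1)).erase (i, k) := by
        rintro ⟨j, l⟩ hjl
        simp only [arithQ_bad, Finset.mem_filter, Finset.mem_univ, true_and,
          Finset.mem_erase] at hjl ⊢
        obtain ⟨b1, b2, b3⟩ := hjl
        have hne2 : (j, l) ≠ (i, k) := by
          intro heq
          rw [Prod.mk.injEq] at heq
          rw [heq.1, heq.2] at b2
          exact b2 hz
        refine ⟨hne2, b1, ?_, b3⟩
        rw [← hsame j l (by omega) hne2]
        exact b2
      have h0' : arithQ_bad ρ Q1 t = ∅ := by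
        rw [Finset.eq_empty_iff_forall_notMem]
        rintro ⟨j, l⟩ hjl
        have hjl' : ((j, l) : I × I) ∈ arithQ_bad ρ Q t := by
          simp only [arithQ_bad, Finset.mem_filter, Finset.mem_univ, true_and] at hjl ⊢
          obtain ⟨b1, b2, b3⟩ := hjl
          have hne2 : (j, l) ≠ (i, k) := by
            intro heq
            rw [Prod.mk.injEq] at heq
            rw [heq.1, heq.2] at b2
            exact b2 hz
          refine ⟨b1, ?_, b3⟩
          rw [← hsame j l (by omega) hne2]
          exact b2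
        rw [h0] at hjl'
        simp at hjl'
      have hcard : (arithQ_bad ρ Q1 (t + 1)).card ≤ m := by
        have e1 := Finset.card_le_card hsub
        rw [Finset.card_erase_of_mem hp] at e1
        omega
      obtain ⟨D2, D2', Q2, y2, j1, j2, h2, hρ2, hfin⟩ := ih h1 hρ1 h0' hcard
      exact ⟨D2, D2', Q2, y2, i1.trans K j1, i2.trans K j2, h2, hρ2, hfin⟩

theorem arithQ_all (ρ : I → ℕ) (t : ℕ) {D D' : Dat I} {Q : I → I → ℤ} {y : I → ℤ}
    (h : Rl D D' one1 Q y) (hρ : ∀ i k, D.n i k ≠ 0 → ρ k < ρ i) :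
    ∃ (D1 D1' : Dat I) (Q1 : I → I → ℤ) (y1 : I → ℤ), Iso K D D1 ∧ Iso K D' D1' ∧
      Rl D1 D1' one1 Q1 y1 ∧ (∀ i k, D1.n i k ≠ 0 → ρ k < ρ i) ∧
      arithQ_bad ρ Q1 t = ∅ := by
  induction t with
  | zero =>
    refine ⟨D, D', Q, y, Iso.refl K D, Iso.refl K D', h, hρ, ?_⟩
    rw [Finset.eq_empty_iff_forall_notMem]
    rintro ⟨i, k⟩ hp
    simp only [arithQ_bad, Finset.mem_filter, Finset.mem_univ, true_and] at hp
    obtain ⟨hik, hQ, hh⟩ := hp
    apply hQ
    apply h.Q0
    intro hmem
    rcases hmem with hmem | hmem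
    · exact hik hmem.symm
    · have := hρ i k hmem
      omega
  | succ t ih =>
    obtain ⟨D1, D1', Q1, y1, i1, i2, h1, hρ1, h0⟩ := ih
    obtain ⟨D2, D2', Q2, y2, j1, j2, h2, hρ2, h3⟩ :=
      arithQ_level K ρ t _ h1 hρ1 h0 le_rfl
    exact ⟨D2, D2', Q2, y2, i1.trans K j1, i2.trans K j2, h2, hρ2, h3⟩

theorem kill_Q {D D' : Dat I} {Q : I → I → ℤ} {y : I → ℤ} (h : Rl D D' one1 Q y) :
    ∃ (D1 D1' : Dat I) (y1 : I → ℤ), Iso K D D1 ∧ Iso K D' D1' ∧ Rl D1 D1' one1 one1 y1 := by
  obtain ⟨ρ, hρ⟩ := h.fD.hr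
  obtain ⟨D1, D1', Q1, y1, i1, i2, h1, -, h0⟩ :=
    arithQ_all K ρ (∑ i, ρ i) h hρ
  have hQ : Q1 = one1 := by
    funext i k
    by_cases hik : i = k
    · subst hik
      simp [one1, h1.Q1]
    · by_contra hcon
      have : ((i, k) : I × I) ∈ arithQ_bad ρ Q1 (∑ i, ρ i) := by
        simp only [arithQ_bad, Finset.mem_filter, Finset.mem_univ, true_and]
        refine ⟨hik, ?_, ?_⟩
        · intro hz
          apply hcon
          rw [hz]
          simp [one1, hik]
        · have := Finset.single_le_sum (f := ρ) (fun _ _ => Nat.zero_le _) (Finset.mem_univ i)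
          omega
      rw [h0] at this
      simp at this
  rw [hQ] at h1
  exact ⟨D1, D1', y1, i1, i2, h1⟩

/-- a combination of unit moves -/
def arithQ_units (D : Dat I) (s : Finset I) (w : I → ℕ) : Dat I where
  cyc := D.cyc
  n := D.n
  a l := D.a l + ∑ k ∈ s, w k * D.n k l

theorem arithQ_unit1 (D : Dat I) (hD : D.Ok) (i : I) (c : ℕ) :
    Iso K D ⟨D.cyc, D.n, fun l => D.a l + c * D.n i l⟩ := by
  by_cases hi : D.cyc i
  · induction c with
    | zero =>
      have : D = ⟨D.cyc, D.n, fun l => D.a l + 0 * D.n i l⟩ := by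
        apply arithQ_ext
        · rfl
        · rfl
        · funext l
          simp
      rw [← this]
      exact Iso.refl K D
    | succ c ih =>
      have hok : (⟨D.cyc, D.n, fun l => D.a l + c * D.n i l⟩ : Dat I).Ok := ⟨hD.hc, hD.hr⟩
      have h2 := move_unit K _ hok i hi
      have : (⟨D.cyc, D.n, fun l => D.a l + (c + 1) * D.n i l⟩ : Dat I) =
          (⟨D.cyc, D.n, fun l => D.a l + c * D.n i l⟩ : Dat I).unit i := by
        apply arithQ_ext
        · rfl
        · rfl
        · funext l
          simp only [Dat.unit]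
          ring
      rw [this]
      exact ih.trans K h2
  · have h0 : ∀ l, D.n i l = 0 := by
      intro l
      by_contra hcon
      exact hi (hD.hc i l hcon)
    have : D = ⟨D.cyc, D.n, fun l => D.a l + c * D.n i l⟩ := by
      apply arithQ_ext
      · rfl
      · rfl
      · funext l
        simp [h0]
    rw [← this]
    exact Iso.refl K D

theorem arithQ_units_iso (D : Dat I) (hD : D.Ok) (s : Finset I) (w : I → ℕ) :
    Iso K D (arithQ_units D s w) := by
  induction s using Finset.induction_on with
  | empty =>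
    have : D = arithQ_units D ∅ w := by
      apply arithQ_ext
      · rfl
      · rfl
      · funext l
        simp [arithQ_units]
    rw [← this]
    exact Iso.refl K D
  | insert i s his ih =>
    have hok : (arithQ_units D s w).Ok := ⟨hD.hc, hD.hr⟩
    have h2 := arithQ_unit1 K _ hok i (w i)
    have : arithQ_units D (insert i s) w = ⟨(arithQ_units D s w).cyc, (arithQ_units D s w).n,
        fun l => (arithQ_units D s w).a l + w i * (arithQ_units D s w).n i l⟩ := by
      apply arithQ_ext
      · rfl
      · rfl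
      · funext l
        simp only [arithQ_units]
        rw [Finset.sum_insert his]
        ring
    rw [this]
    exact ih.trans K h2

theorem last {D D' : Dat I} {y : I → ℤ} (h : Rl D D' one1 one1 y) : Iso K D D' := by
  have hn : D.n = D'.n := by
    funext i l
    have := h.eq i l
    simp [one1] at this
    exact_mod_cast this
  have hc : D.cyc = D'.cyc := by
    funext i
    exact propext (h.cyc i).symm
  have e1 := arithQ_units_iso K D h.fD.toOk Finset.univ (fun i => (- y i).toNat)
  have e2 := arithQ_units_iso K D' h.fD'.toOk Finset.univ (fun i => (y i).toNat)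
  have e3 : arithQ_units D Finset.univ (fun i => (- y i).toNat) =
      arithQ_units D' Finset.univ (fun i => (y i).toNat) := by
    apply arithQ_ext
    · exact hc
    · exact hn
    · funext l
      have h3 := h.eu l
      have h4 : ∑ i, ((D.a i : ℤ) + 1) * one1 i l = (D.a l : ℤ) + 1 := by
        simp [one1]
      rw [h4] at h3
      have h5 : ∑ k, y k * (D'.n k l : ℤ) =
          ∑ k, ((y k).toNat : ℤ) * (D'.n k l : ℤ) - ∑ k, ((- y k).toNat : ℤ) * (D'.n k l : ℤ) := by
        rw [← Finset.sum_sub_distrib]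
        apply Finset.sum_congr rfl
        intro m _
        have : y m = ((y m).toNat : ℤ) - ((- y m).toNat : ℤ) := by omega
        rw [← sub_mul, ← this]
      simp only [arithQ_units]
      rw [hn]
      rw [h5] at h3
      have h6 : ((D.a l + ∑ k, (- y k).toNat * D'.n k l : ℕ) : ℤ) =
          ((D'.a l + ∑ k, (y k).toNat * D'.n k l : ℕ) : ℤ) := by
        push_cast
        linarith
      exact_mod_cast h6
  rw [e3] at e1
  exact e1.trans K (e2.symm K)

end Pool.Agent.Helper32.PG
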