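import Pool.Agent.Helper32.PG.ArithP
import Pool.Agent.Helper32.PG.ArithQ

/-! Combination of the moves. -/

set_option autoImplicit false
set_option linter.unusedSectionVars false

universe k a a'

namespace Pool.Agent.Helper32.PG

open Pool.Agent.Helper32.LV

variable {I : Type a} [Fintype I] [DecidableEq I] (K : Type k) [Field K] [StarRing K]

theorem iso_of_Rl {D D' : Dat I} {P Q : I → I → ℤ} {y : I → ℤ} (h : Rl D D' P Q y) :
    Iso K D D' := by
  obtain ⟨D1, D1', Q1, y1, h1, h2, h3⟩ := kill_P K h
  obtain ⟨D2, D2', y2, h4, h5, h6⟩ := kill_Q K h3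
  exact ((h1.trans K h4).trans K (last K h6)).trans K ((h2.trans K h5).symm K)

end Pool.Agent.Helper32.PG
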