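import Pool.Agent.Helper32.PG.Fill

/-! From the matrices to an isomorphism. PIECES 22 (`kill_P` in `ArithP.lean`), 23 (`kill_Q`,
`last` in `ArithQ.lean`). This file contains the definitions.

Let `E` be the matrix unit at `(i, k)` with `n i k ≠ 0` and `c ≥ 0`. `c` column moves on `D`
replace `N`, `u`, `P` (`u = a + 1`) by `N (1 + c E)`, `u (1 + c E)`, `(1 - c E) P`; on `D'` they
replace `N'`, `u'`, `P` by `N' (1 + c E)`, `u' (1 + c E)`, `P (1 + c E)`. `c` row moves on `D`
replace `N`, `Q` by `(1 + c E) N`, `(1 + c E) Q`; on `D'` they replace `N'`, `Q`, `y` by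
`(1 + c E) N'`, `Q (1 - c E)`, `y (1 - c E)`. With `ρ` from `hr` let the height of `(i, k)` be
`ρ i - ρ k`. Kill the entries of `P` (of `Q`) one after the other in the order of the heights: these moves
with `c = |P i k|` make the entry at `(i, k)` zero and change only entries of greater height (row
`i` at the `l` below `k`, column `k` at the `l` above `i`). `last`: now `N = N'` and
`u = u' + y N'`; apply unit moves, `-y i` times to `D` if `y i < 0`, `y i` times to `D'` if
`y i > 0` (for a sink `i` the row `N' i` is zero). -/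

set_option autoImplicit false
set_option linter.unusedSectionVars false

universe k a a'

namespace Pool.Agent.Helper32.PG

open Pool.Agent.Helper32.LV

variable {I : Type a} [Fintype I] [DecidableEq I]

/-- the relation between two data on the same set -/
structure Rl (D D' : Dat I) (P Q : I → I → ℤ) (y : I → ℤ) : Prop where
  fD : D.Full
  fD' : D'.Full
  cyc : ∀ i, D'.cyc i ↔ D.cyc i
  supp : ∀ i k, D'.n i k ≠ 0 ↔ D.n i k ≠ 0
  P1 : ∀ i, P i i = 1
  Q1 : ∀ i, Q i i = 1
  P0 : ∀ i k, k ∉ Le D i → P i k = 0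
  Q0 : ∀ i k, k ∉ Le D i → Q i k = 0
  eq : ∀ i l, ∑ k, (D.n i k : ℤ) * P k l = ∑ k, Q i k * D'.n k l
  eu : ∀ l, ∑ i, ((D.a i : ℤ) + 1) * P i l = (D'.a l + 1) + ∑ k, y k * D'.n k l

/-- the identity matrix -/
def one1 (i k : I) : ℤ := if i = k then 1 else 0

end Pool.Agent.Helper32.PG
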