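import Pool.Agent.Helper32.PG.Arith0

/-! The matrix `P` is made the identity matrix. PIECE 22. See `Arith0.lean`. -/

set_option autoImplicit false
set_option linter.unusedSectionVars false

universe k a a'

namespace Pool.Agent.Helper32.PG

open Pool.Agent.Helper32.LV

variable {I : Type a} [Fintype I] [DecidableEq I] (K : Type k) [Field K] [StarRing K]

theorem arithP_ext {D D' : Dat I} (h1 : D.cyc = D'.cyc) (h2 : D.n = D'.n) (h3 : D.a = D'.a) :
    D = D' := by
  cases D; cases D'; simp only at h1 h2 h3; subst h1 h2 h3; rfl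

/-- the column `i` added `c` times to the column `k` -/
def arithP_cols (D : Dat I) (i k : I) (c : ℕ) : Dat I where
  cyc := D.cyc
  n j l := if l = k then D.n j k + c * D.n j i else D.n j l
  a l := if l = k then D.a k + c * (D.a i + 1) else D.a l

theorem arithP_cols_zero (D : Dat I) (i k : I) : arithP_cols D i k 0 = D := by
  apply arithP_ext
  · rfl
  · funext j l
    by_cases hj : l = k
    · simp [arithP_cols, hj]
    · simp [arithP_cols, hj]
  · funext l
    by_cases hj : l = k
    · simp [arithP_cols, hj]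
    · simp [arithP_cols, hj]

theorem arithP_cols_succ (D : Dat I) (i k : I) (hik : k ≠ i) (c : ℕ) :
    arithP_cols D i k (c + 1) = (arithP_cols D i k c).col i k := by
  apply arithP_ext
  · rfl
  · funext j l
    by_cases hj : l = k
    · subst hj
      simp only [arithP_cols, Dat.col, if_true, if_neg (Ne.symm hik)]
      ring
    · simp [arithP_cols, Dat.col, hj]
  · funext l
    by_cases hj : l = k
    · subst hj
      simp only [arithP_cols, Dat.col, if_true, if_neg (Ne.symm hik)]
      ring
    · simp [arithP_cols, Dat.col, hj]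

theorem arithP_ne {D : Dat I} (hD : D.Ok) {i k : I} (h : D.n i k ≠ 0) : k ≠ i := by
  obtain ⟨ρ, hρ⟩ := hD.hr
  intro hki
  have := hρ i k h
  rw [hki] at this
  exact lt_irrefl _ this

theorem arithP_cols_spec (D : Dat I) (hD : D.Full) (i k : I) (h : D.n i k ≠ 0) (c : ℕ) :
    (arithP_cols D i k c).Full ∧ (∀ j l, (arithP_cols D i k c).n j l ≠ 0 ↔ D.n j l ≠ 0) ∧
      Iso K D (arithP_cols D i k c) := by
  have hik : k ≠ i := arithP_ne hD.toOk h
  induction c with
  | zero =>
    rw [arithP_cols_zero]
    exact ⟨hD, fun _ _ => Iff.rfl, Iso.refl K D⟩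
  | succ c ih =>
    obtain ⟨h1, h2, h3⟩ := ih
    have h' : (arithP_cols D i k c).n i k ≠ 0 := (h2 i k).2 h
    obtain ⟨h4, h5⟩ := Dat.Full.col h1 i k h'
    rw [arithP_cols_succ D i k hik c]
    refine ⟨h4, fun j l => (h5 j l).trans (h2 j l), ?_⟩
    exact h3.trans K (move_col K _ h1.toOk i k h')

/-- one entry is changed by column moves on `D` -/
theorem arithP_stepD {D D' : Dat I} {P Q : I → I → ℤ} {y : I → ℤ} (h : Rl D D' P Q y)
    (i k : I) (hik : D.n i k ≠ 0) (c : ℕ) :
    Rl (arithP_cols D i k c) D' (fun j l => if j = i then P i l - c * P k l else P j l) Q y := by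
  have hne : k ≠ i := arithP_ne h.fD.toOk hik
  obtain ⟨r1, r2, -⟩ := arithP_cols_spec ℚ D h.fD i k hik c
  have hLe : ∀ j, Le (arithP_cols D i k c) j = Le D j := by
    intro j
    ext l
    simp only [Le, Set.mem_ofPred_eq, r2 j l]
  have key : ∀ (x x' : I → ℤ) (l : I), (∀ m, m ≠ k → x' m = x m) → x' k = x k + c * x i →
      ∑ m, x' m * (if m = i then P i l - c * P k l else P m l) = ∑ m, x m * P m l := by
    intro x x' l hx hxk
    have t1 : ∀ m, x' m * (if m = i then P i l - c * P k l else P m l) =
        x m * P m l + ((if m = k then (c : ℤ) * x i * P k l else 0) +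
          (if m = i then - ((c : ℤ) * x i * P k l) else 0)) := by
      intro m
      by_cases hm : m = k
      · subst hm
        rw [hxk]
        simp only [if_true, if_neg hne]
        ring
      · rw [hx m hm]
        by_cases hm' : m = i
        · subst hm'
          simp only [if_true, if_neg hm]
          ring
        · simp [hm, hm']
    rw [Finset.sum_congr rfl (fun m _ => t1 m), Finset.sum_add_distrib, Finset.sum_add_distrib]
    simp
  refine ⟨r1, h.fD', h.cyc, fun j l => (h.supp j l).trans (r2 j l).symm, ?_, h.Q1, ?_, ?_, ?_, ?_⟩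
  · intro j
    by_cases hj : j = i
    · subst hj
      have h0 : P k j = 0 := by
        apply h.P0
        intro hmem
        rcases hmem with hmem | hmem
        · exact hne hmem.symm
        · obtain ⟨ρ, hρ⟩ := h.fD.hr
          have e1 := hρ j k hik
          have e2 := hρ k j hmem
          omega
      simp [h0, h.P1]
    · simp [hj, h.P1]
  · intro j l hl
    rw [hLe] at hl
    by_cases hj : j = i
    · subst hj
      have e1 : P j l = 0 := h.P0 j l hl
      have e2 : P k l = 0 := by
        apply h.P0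
        intro hmem
        apply hl
        rcases hmem with hmem | hmem
        · right
          rw [hmem]
          exact hik
        · right
          exact h.fD.tr j k l hik hmem
      simp [e1, e2]
    · simp only [if_neg hj]
      exact h.P0 j l hl
  · intro j l hl
    rw [hLe] at hl
    exact h.Q0 j l hl
  · intro j l
    rw [← h.eq j l]
    refine key (fun m => (D.n j m : ℤ)) (fun m => ((arithP_cols D i k c).n j m : ℤ)) l ?_ ?_
    · intro m hm
      simp [arithP_cols, hm]
    · simp [arithP_cols]
  · intro l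
    rw [← h.eu l]
    refine key (fun m => (D.a m : ℤ) + 1) (fun m => ((arithP_cols D i k c).a m : ℤ) + 1) l ?_ ?_
    · intro m hm
      simp [arithP_cols, hm]
    · simp only [arithP_cols, if_true]
      push_cast
      ring

/-- one entry is changed by column moves on `D'` -/
theorem arithP_stepD' {D D' : Dat I} {P Q : I → I → ℤ} {y : I → ℤ} (h : Rl D D' P Q y)
    (i k : I) (hik : D.n i k ≠ 0) (c : ℕ) :
    Rl D (arithP_cols D' i k c) (fun j l => if l = k then P j k + c * P j i else P j l) Q y := by
  have hne : k ≠ i := arithP_ne h.fD.toOk hik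
  have hik' : D'.n i k ≠ 0 := (h.supp i k).2 hik
  obtain ⟨r1, r2, -⟩ := arithP_cols_spec ℚ D' h.fD' i k hik' c
  refine ⟨h.fD, r1, h.cyc, fun j l => (r2 j l).trans (h.supp j l), ?_, h.Q1, ?_, h.Q0, ?_, ?_⟩
  · intro j
    by_cases hj : j = k
    · subst hj
      have h0 : P j i = 0 := by
        apply h.P0
        intro hmem
        rcases hmem with hmem | hmem
        · exact hne hmem.symm
        · obtain ⟨ρ, hρ⟩ := h.fD.hr
          have e1 := hρ i j hik
          have e2 := hρ j i hmem
          omega
      simp [h0, h.P1]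
    · simp [hj, h.P1]
  · intro j l hl
    by_cases hj : l = k
    · subst hj
      have e1 : P j l = 0 := h.P0 j l hl
      have e2 : P j i = 0 := by
        apply h.P0
        intro hmem
        apply hl
        rcases hmem with hmem | hmem
        · right
          rw [← hmem]
          exact hik
        · right
          exact h.fD.tr j i l hmem hik
      simp [e1, e2]
    · simp only [if_neg hj]
      exact h.P0 j l hl
  · intro j l
    by_cases hl : l = k
    · subst hl
      have a1 := h.eq j l
      have a2 := h.eq j i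
      simp only [arithP_cols, if_true]
      push_cast
      simp only [mul_add, Finset.sum_add_distrib]
      rw [a1]
      congr 1
      have e1 : ∑ m, (D.n j m : ℤ) * ((c : ℤ) * P m i) = c * ∑ m, (D.n j m : ℤ) * P m i := by
        rw [Finset.mul_sum]
        exact Finset.sum_congr rfl fun m _ => by ring
      have e2 : ∑ m, Q j m * ((c : ℤ) * (D'.n m i : ℤ)) = c * ∑ m, Q j m * (D'.n m i : ℤ) := by
        rw [Finset.mul_sum]
        exact Finset.sum_congr rfl fun m _ => by ring
      rw [e1, e2, a2]
    · simp only [arithP_cols, if_neg hl]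
      exact h.eq j l
  · intro l
    by_cases hl : l = k
    · subst hl
      have a1 := h.eu l
      have a2 := h.eu i
      simp only [arithP_cols, if_true]
      push_cast
      simp only [mul_add, Finset.sum_add_distrib]
      rw [a1]
      have e1 : ∑ m, ((D.a m : ℤ) + 1) * ((c : ℤ) * P m i) =
          c * ∑ m, ((D.a m : ℤ) + 1) * P m i := by
        rw [Finset.mul_sum]
        exact Finset.sum_congr rfl fun m _ => by ring
      have e2 : ∑ m, y m * ((c : ℤ) * (D'.n m i : ℤ)) = c * ∑ m, y m * (D'.n m i : ℤ) := by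
        rw [Finset.mul_sum]
        exact Finset.sum_congr rfl fun m _ => by ring
      rw [e1, e2, a2]
      ring
    · simp only [arithP_cols, if_neg hl]
      exact h.eu l

theorem arithP_step {D D' : Dat I} {P Q : I → I → ℤ} {y : I → ℤ} (h : Rl D D' P Q y)
    (ρ : I → ℕ) (hρ : ∀ i k, D.n i k ≠ 0 → ρ k < ρ i)
    (i k : I) (hik : D.n i k ≠ 0) :
    ∃ (D1 D1' : Dat I) (P1 : I → I → ℤ), Iso K D D1 ∧ Iso K D' D1' ∧
      Rl D1 D1' P1 Q y ∧ (∀ i k, D1.n i k ≠ 0 → ρ k < ρ i) ∧ P1 i k = 0 ∧
      ∀ j l, ρ j + ρ k ≤ ρ i + ρ l → (j, l) ≠ (i, k) → P1 j l = P j l := by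
  have hne : k ≠ i := arithP_ne h.fD.toOk hik
  rcases le_or_gt 0 (P i k) with hpos | hneg
  · obtain ⟨c, hc⟩ : ∃ c : ℕ, (c : ℤ) = P i k := ⟨(P i k).toNat, by
      rw [Int.toNat_of_nonneg]; omega⟩
    obtain ⟨r1, r2, r3⟩ := arithP_cols_spec K D h.fD i k hik c
    refine ⟨arithP_cols D i k c, D', _, r3, Iso.refl K D', arithP_stepD h i k hik c, ?_, ?_, ?_⟩
    · intro j l hjl
      exact hρ j l ((r2 j l).1 hjl)
    · simp only [if_true, h.P1]
      rw [hc]
      ring
    · intro j l hjl hne2
      by_cases hj : j = i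
      · subst hj
        have hlk : l ≠ k := fun hh => hne2 (by rw [hh])
        have e2 : P k l = 0 := by
          apply h.P0
          intro hmem
          rcases hmem with hmem | hmem
          · exact hlk hmem
          · have := hρ k l hmem
            omega
        simp [e2]
      · simp [hj]
  · obtain ⟨c, hc⟩ : ∃ c : ℕ, (c : ℤ) = - P i k := ⟨(- P i k).toNat, by
      rw [Int.toNat_of_nonneg]; omega⟩
    have hik' : D'.n i k ≠ 0 := (h.supp i k).2 hik
    obtain ⟨r1, r2, r3⟩ := arithP_cols_spec K D' h.fD' i k hik' c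
    refine ⟨D, arithP_cols D' i k c, _, Iso.refl K D, r3, arithP_stepD' h i k hik c, hρ, ?_, ?_⟩
    · simp only [if_true, h.P1]
      rw [hc]
      ring
    · intro j l hjl hne2
      by_cases hl : l = k
      · subst hl
        have hji : j ≠ i := fun hh => hne2 (by rw [hh])
        have e2 : P j i = 0 := by
          apply h.P0
          intro hmem
          rcases hmem with hmem | hmem
          · exact hji hmem.symm
          · have := hρ j i hmem
            omega
        simp [e2]
      · simp [hl]

/-- the pairs of height at most `t` with nonzero entries -/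
noncomputable def arithP_bad (ρ : I → ℕ) (P : I → I → ℤ) (t : ℕ) : Finset (I × I) :=
  Finset.univ.filter (fun p : I × I => p.1 ≠ p.2 ∧ P p.1 p.2 ≠ 0 ∧ ρ p.1 ≤ ρ p.2 + t)

theorem arithP_level (ρ : I → ℕ) (t : ℕ) (m : ℕ) : ∀ {D D' : Dat I} {P Q : I → I → ℤ} {y : I → ℤ}
    (_ : Rl D D' P Q y) (_ : ∀ i k, D.n i k ≠ 0 → ρ k < ρ i)
    (_ : arithP_bad ρ P t = ∅) (_ : (arithP_bad ρ P (t + 1)).card ≤ m),
    ∃ (D1 D1' : Dat I) (P1 : I → I → ℤ), Iso K D D1 ∧ Iso K D' D1' ∧
      Rl D1 D1' P1 Q y ∧ (∀ i k, D1.n i k ≠ 0 → ρ k < ρ i) ∧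
      arithP_bad ρ P1 (t + 1) = ∅ := by
  induction m with
  | zero =>
    intro D D' P Q y h hρ h0 hm
    exact ⟨D, D', P, Iso.refl K D, Iso.refl K D', h, hρ, by
      rw [← Finset.card_eq_zero]; omega⟩
  | succ m ih =>
    intro D D' P Q y h hρ h0 hm
    by_cases hemp : arithP_bad ρ P (t + 1) = ∅
    · exact ⟨D, D', P, Iso.refl K D, Iso.refl K D', h, hρ, hemp⟩
    · obtain ⟨⟨i, k⟩, hp⟩ := Finset.nonempty_iff_ne_empty.2 hemp
      have hp' := hp
      simp only [arithP_bad, Finset.mem_filter, Finset.mem_univ, true_and] at hp'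
      obtain ⟨hik, hQ, hh⟩ := hp'
      have hn : D.n i k ≠ 0 := by
        by_contra hcon
        apply hQ
        apply h.P0
        intro hmem
        rcases hmem with hmem | hmem
        · exact hik hmem.symm
        · exact hmem hcon
      have hh2 : ρ i = ρ k + (t + 1) := by
        by_contra hcon
        have : ((i, k) : I × I) ∈ arithP_bad ρ P t := by
          simp only [arithP_bad, Finset.mem_filter, Finset.mem_univ, true_and]
          exact ⟨hik, hQ, by omega⟩
        rw [h0] at this
        simp at this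
      obtain ⟨D1, D1', P1, i1, i2, h1, hρ1, hz, hsame⟩ := arithP_step K h ρ hρ i k hn
      have hsub : arithP_bad ρ P1 (t + 1) ⊆ (arithP_bad ρ P (t + 1)).erase (i, k) := by
        rintro ⟨j, l⟩ hjl
        simp only [arithP_bad, Finset.mem_filter, Finset.mem_univ, true_and,
          Finset.mem_erase] at hjl ⊢
        obtain ⟨b1, b2, b3⟩ := hjl
        have hne2 : (j, l) ≠ (i, k) := by
          intro heq
          rw [Prod.mk.injEq] at heq
          rw [heq.1, heq.2] at b2
          exact b2 hz
        refine ⟨hne2, b1, ?_, b3⟩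
        rw [← hsame j l (by omega) hne2]
        exact b2
      have h0' : arithP_bad ρ P1 t = ∅ := by
        rw [Finset.eq_empty_iff_forall_notMem]
        rintro ⟨j, l⟩ hjl
        have hjl' : ((j, l) : I × I) ∈ arithP_bad ρ P t := by
          simp only [arithP_bad, Finset.mem_filter, Finset.mem_univ, true_and] at hjl ⊢
          obtain ⟨b1, b2, b3⟩ := hjl
          have hne2 : (j, l) ≠ (i, k) := by
            intro heq
            rw [Prod.mk.injEq] at heq
            rw [heq.1, heq.2] at b2
            exact b2 hz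
          refine ⟨b1, ?_, b3⟩
          rw [← hsame j l (by omega) hne2]
          exact b2
        rw [h0] at hjl'
        simp at hjl'
      have hcard : (arithP_bad ρ P1 (t + 1)).card ≤ m := by
        have e1 := Finset.card_le_card hsub
        rw [Finset.card_erase_of_mem hp] at e1
        omega
      obtain ⟨D2, D2', P2, j1, j2, h2, hρ2, hfin⟩ := ih h1 hρ1 h0' hcard
      exact ⟨D2, D2', P2, i1.trans K j1, i2.trans K j2, h2, hρ2, hfin⟩

theorem arithP_all (ρ : I → ℕ) (t : ℕ) {D D' : Dat I} {P Q : I → I → ℤ} {y : I → ℤ}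
    (h : Rl D D' P Q y) (hρ : ∀ i k, D.n i k ≠ 0 → ρ k < ρ i) :
    ∃ (D1 D1' : Dat I) (P1 : I → I → ℤ), Iso K D D1 ∧ Iso K D' D1' ∧
      Rl D1 D1' P1 Q y ∧ (∀ i k, D1.n i k ≠ 0 → ρ k < ρ i) ∧
      arithP_bad ρ P1 t = ∅ := by
  induction t with
  | zero =>
    refine ⟨D, D', P, Iso.refl K D, Iso.refl K D', h, hρ, ?_⟩
    rw [Finset.eq_empty_iff_forall_notMem]
    rintro ⟨i, k⟩ hp
    simp only [arithP_bad, Finset.mem_filter, Finset.mem_univ, true_and] at hp
    obtain ⟨hik, hQ, hh⟩ := hp
    apply hQ
    apply h.P0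
    intro hmem
    rcases hmem with hmem | hmem
    · exact hik hmem.symm
    · have := hρ i k hmem
      omega
  | succ t ih =>
    obtain ⟨D1, D1', P1, i1, i2, h1, hρ1, h0⟩ := ih
    obtain ⟨D2, D2', P2, j1, j2, h2, hρ2, h3⟩ :=
      arithP_level K ρ t _ h1 hρ1 h0 le_rfl
    exact ⟨D2, D2', P2, i1.trans K j1, i2.trans K j2, h2, hρ2, h3⟩

theorem kill_P {D D' : Dat I} {P Q : I → I → ℤ} {y : I → ℤ} (h : Rl D D' P Q y) :
    ∃ (D1 D1' : Dat I) (Q1 : I → I → ℤ) (y1 : I → ℤ), Iso K D D1 ∧ Iso K D' D1' ∧
      Rl D1 D1' one1 Q1 y1 := by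
  obtain ⟨ρ, hρ⟩ := h.fD.hr
  obtain ⟨D1, D1', P1, i1, i2, h1, -, h0⟩ :=
    arithP_all K ρ (∑ i, ρ i) h hρ
  have hP : P1 = one1 := by
    funext i k
    by_cases hik : i = k
    · subst hik
      simp [one1, h1.P1]
    · by_contra hcon
      have : ((i, k) : I × I) ∈ arithP_bad ρ P1 (∑ i, ρ i) := by
        simp only [arithP_bad, Finset.mem_filter, Finset.mem_univ, true_and]
        refine ⟨hik, ?_, ?_⟩
        · intro hz
          apply hcon
          rw [hz]
          simp [one1, hik]
        · have := Finset.single_le_sum (f := ρ) (fun _ _ => Nat.zero_le _) (Finset.mem_univ i)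
          omega
      rw [h0] at this
      simp at this
  rw [hP] at h1
  exact ⟨D1, D1', Q, y, i1, i2, h1⟩

end Pool.Agent.Helper32.PG
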