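import Pool.Agent.Helper32.LV.Star

/-! Branching systems and their representations. PIECE 11. -/

set_option autoImplicit false
set_option linter.unusedSectionVars false

universe k a b c

namespace Pool.Agent.Helper32.PG

open Pool.Agent.Helper32.LV

/-- a set `B` over the vertices on which the edges act injectively, with disjoint images which
cover the part over every regular vertex; `act e b` only matters if `st b` is the range of `e` -/
structure Br {V : Type a} {E : Type b} (G : Gr V E) (B : Type c) where
  st : B → V
  act : E → B → B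
  st_act : ∀ e b, st b = G.r e → st (act e b) = G.s e
  inj : ∀ e e' b b', st b = G.r e → st b' = G.r e' → act e b = act e' b' → e = e' ∧ b = b'
  sur : ∀ b, (∃ e, G.s e = st b) → {e | G.s e = st b}.Finite →
    ∃ e b', st b' = G.r e ∧ act e b' = b

variable {V : Type a} {E : Type b} {G : Gr V E} {B : Type c} (K : Type k) [Field K]

open Classical in
/-- the operator of a map with values in `Option` -/
noncomputable def pm {B B' : Type*} (p : B → Option B') : (B →₀ K) →ₗ[K] (B' →₀ K) :=
  Finsupp.linearCombination K fun x => match p x with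
    | none => 0
    | some y => Finsupp.single y 1

theorem pm_some {B B' : Type*} {p : B → Option B'} {x : B} {y : B'} (h : p x = some y) :
    pm K p (Finsupp.single x 1) = Finsupp.single y 1 := by
  simp [pm, h]

theorem pm_none {B B' : Type*} {p : B → Option B'} {x : B} (h : p x = none) :
    pm K p (Finsupp.single x 1) = 0 := by
  simp [pm, h]

theorem br_ext {T T' : Module.End K (B →₀ K)}
    (h : ∀ b, T (Finsupp.single b 1) = T' (Finsupp.single b 1)) : T = T' :=
  Finsupp.lhom_ext' fun b => LinearMap.ext_ring (h b)

open Classical in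
/-- the operator of a vertex -/
noncomputable def br_Q (β : Br G B) (v : V) : Module.End K (B →₀ K) :=
  pm K fun b => if β.st b = v then some b else none

open Classical in
/-- the operator of an edge -/
noncomputable def br_U (β : Br G B) (e : E) : Module.End K (B →₀ K) :=
  pm K fun b => if β.st b = G.r e then some (β.act e b) else none

open Classical in
/-- the operator of a ghost edge -/
noncomputable def br_U' (β : Br G B) (e : E) : Module.End K (B →₀ K) :=
  pm K fun b' => if h : ∃ b, β.st b = G.r e ∧ β.act e b = b' then some h.choose else none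

theorem br_Q_pos (β : Br G B) (b : B) : br_Q K β (β.st b) (Finsupp.single b 1) = Finsupp.single b 1 :=
  pm_some K (by simp)

theorem br_Q_neg (β : Br G B) (v : V) (b : B) (h : β.st b ≠ v) :
    br_Q K β v (Finsupp.single b 1) = 0 :=
  pm_none K (by simp [h])

theorem br_U_pos (β : Br G B) (e : E) (b : B) (h : β.st b = G.r e) :
    br_U K β e (Finsupp.single b 1) = Finsupp.single (β.act e b) 1 :=
  pm_some K (by simp [h])

theorem br_U_neg (β : Br G B) (e : E) (b : B) (h : β.st b ≠ G.r e) :
    br_U K β e (Finsupp.single b 1) = 0 :=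
  pm_none K (by simp [h])

theorem br_U'_pos (β : Br G B) (e : E) (b : B) (h : β.st b = G.r e) :
    br_U' K β e (Finsupp.single (β.act e b) 1) = Finsupp.single b 1 := by
  apply pm_some K
  have h1 : ∃ b', β.st b' = G.r e ∧ β.act e b' = β.act e b := ⟨b, h, rfl⟩
  rw [dif_pos h1]
  exact congrArg some (β.inj e e _ _ h1.choose_spec.1 h h1.choose_spec.2).2

theorem br_U'_neg (β : Br G B) (e : E) (b' : B) (h : ∀ b, β.st b = G.r e → β.act e b ≠ b') :
    br_U' K β e (Finsupp.single b' 1) = 0 := by
  apply pm_none K
  rw [dif_neg]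
  rintro ⟨b, h1, h2⟩
  exact h b h1 h2

theorem br_isRep (β : Br G B) : IsRep K G (br_Q K β) (br_U K β) (br_U' K β) where
  vv v := by
    refine br_ext K fun b => ?_
    rw [Module.End.mul_apply]
    by_cases h : β.st b = v
    · subst h
      rw [br_Q_pos, br_Q_pos]
    · rw [br_Q_neg K β v b h, map_zero]
  vw v w hvw := by
    refine br_ext K fun b => ?_
    rw [Module.End.mul_apply, LinearMap.zero_apply]
    by_cases h : β.st b = w
    · subst h
      rw [br_Q_pos, br_Q_neg K β v b (Ne.symm hvw)]
    · rw [br_Q_neg K β w b h, map_zero]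
  se e := by
    refine br_ext K fun b => ?_
    rw [Module.End.mul_apply]
    by_cases h : β.st b = G.r e
    · rw [br_U_pos K β e b h, ← β.st_act e b h, br_Q_pos]
    · rw [br_U_neg K β e b h, map_zero]
  er e := by
    refine br_ext K fun b => ?_
    rw [Module.End.mul_apply]
    by_cases h : β.st b = G.r e
    · rw [← h, br_Q_pos]
    · rw [br_Q_neg K β _ b h, map_zero, br_U_neg K β e b h]
  rg e := by
    refine br_ext K fun b' => ?_
    rw [Module.End.mul_apply]
    by_cases h : ∃ b, β.st b = G.r e ∧ β.act e b = b'
    · obtain ⟨b, h1, rfl⟩ := h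
      rw [br_U'_pos K β e b h1, ← h1, br_Q_pos]
    · rw [br_U'_neg K β e b' (fun b h1 h2 => h ⟨b, h1, h2⟩), map_zero]
  gs e := by
    refine br_ext K fun b' => ?_
    rw [Module.End.mul_apply]
    by_cases h : ∃ b, β.st b = G.r e ∧ β.act e b = b'
    · obtain ⟨b, h1, rfl⟩ := h
      rw [← β.st_act e b h1, br_Q_pos]
    · have h1 := br_U'_neg K β e b' (fun b h1 h2 => h ⟨b, h1, h2⟩)
      by_cases h2 : β.st b' = G.s e
      · rw [← h2, br_Q_pos]
      · rw [br_Q_neg K β _ b' h2, map_zero, h1]
  ge e := by
    refine br_ext K fun b => ?_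
    rw [Module.End.mul_apply]
    by_cases h : β.st b = G.r e
    · rw [br_U_pos K β e b h, br_U'_pos K β e b h, ← h, br_Q_pos]
    · rw [br_U_neg K β e b h, map_zero, br_Q_neg K β _ b h]
  gf e f hef := by
    refine br_ext K fun b => ?_
    rw [Module.End.mul_apply, LinearMap.zero_apply]
    by_cases h : β.st b = G.r f
    · rw [br_U_pos K β f b h, br_U'_neg K β e _ (fun b' h1 h2 => hef (β.inj e f b' b h1 h h2).1)]
    · rw [br_U_neg K β f b h, map_zero]
  ck v hf h0 := by
    refine br_ext K fun b => ?_
    rw [LinearMap.sum_apply]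
    by_cases h : β.st b = v
    · subst h
      obtain ⟨e₀, b', h1, h2⟩ := β.sur b h0 hf
      have h3 : G.s e₀ = β.st b := by rw [← β.st_act e₀ b' h1, h2]
      rw [br_Q_pos, Finset.sum_eq_single e₀]
      · rw [Module.End.mul_apply]
        subst h2
        rw [br_U'_pos K β e₀ b' h1, br_U_pos K β e₀ b' h1]
      · intro e _ he
        rw [Module.End.mul_apply, br_U'_neg K β e b, map_zero]
        intro b'' h4 h5
        exact he (β.inj e e₀ b'' b' h4 h1 (h5.trans h2.symm)).1
      · intro h4
        exact absurd (hf.mem_toFinset.2 h3) h4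
    · rw [br_Q_neg K β v b h, Finset.sum_eq_zero]
      intro e he
      have h3 : G.s e = v := hf.mem_toFinset.1 he
      rw [Module.End.mul_apply, br_U'_neg K β e b, map_zero]
      intro b'' h4 h5
      exact h (by rw [← h5, β.st_act e b'' h4, h3])

open Classical in
/-- the representation -/
theorem Br.exists_hom (β : Br G B) : ∃ T : U K G →ₐ[K] Module.End K (B →₀ K),
    (∀ v b, T (vx K G v) (Finsupp.single b 1) = if β.st b = v then Finsupp.single b 1 else 0) ∧
    (∀ e b, T (ed K G e) (Finsupp.single b 1) =
      if β.st b = G.r e then Finsupp.single (β.act e b) 1 else 0) ∧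
    (∀ e b, β.st b = G.r e → T (gh K G e) (Finsupp.single (β.act e b) 1) = Finsupp.single b 1) ∧
    ∀ e b', (∀ b, β.st b = G.r e → β.act e b ≠ b') → T (gh K G e) (Finsupp.single b' 1) = 0 := by
  refine ⟨lift (br_isRep K β), ?_, ?_, ?_, ?_⟩
  · intro v b
    rw [lift_vx]
    split_ifs with h
    · subst h
      exact br_Q_pos K β b
    · exact br_Q_neg K β v b h
  · intro e b
    rw [lift_ed]
    split_ifs with h
    · exact br_U_pos K β e b h
    · exact br_U_neg K β e b h
  · intro e b h
    rw [lift_gh]
    exact br_U'_pos K β e b h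
  · intro e b' h
    rw [lift_gh]
    exact br_U'_neg K β e b' h

end Pool.Agent.Helper32.PG
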