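import Pool.Agent.Helper32.PG.Km

/-! Lifting of equivalences. PIECE 2.

If `E = X * Y + S * T` then the row `(X, S)` and the column `(Y, T)` make `E` equivalent to an
idempotent `P` below `F ⊕ G`, and the matrix `Q` below is `F ⊕ G - P`. -/

set_option autoImplicit false
set_option linter.unusedSectionVars false

universe u

namespace Pool.Agent.Helper32.PG

variable {R : Type u} [Ring R]

theorem claim1 {ι κ τ : Type*} [Fintype ι] [Fintype κ] [Fintype τ] {E : Matrix ι ι R}
    {F : Matrix κ κ R} {G : Matrix τ τ R} (hE : E * E = E) (hF : F * F = F) (hG : G * G = G)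
    {X : Matrix ι κ R} {Y : Matrix κ ι R} {S : Matrix ι τ R} {T : Matrix τ ι R}
    (h1 : E * X = X) (h2 : X * F = X) (h3 : F * Y = Y) (h4 : Y * E = Y)
    (h5 : E * S = S) (h6 : S * G = S) (h7 : G * T = T) (h8 : T * E = T)
    (h : E = X * Y + S * T) :
    Matrix.fromBlocks (F - Y * X) (-(Y * S)) (-(T * X)) (G - T * S) *
      Matrix.fromBlocks (F - Y * X) (-(Y * S)) (-(T * X)) (G - T * S) =
        Matrix.fromBlocks (F - Y * X) (-(Y * S)) (-(T * X)) (G - T * S) ∧
    cls E + cls (Matrix.fromBlocks (F - Y * X) (-(Y * S)) (-(T * X)) (G - T * S)) =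
      cls F + cls G := by
  have hD : Matrix.fromBlocks F 0 0 G * Matrix.fromBlocks F 0 0 G = Matrix.fromBlocks F 0 0 G := by
    rw [Matrix.fromBlocks_multiply]
    simp [hF, hG]
  have hrc : Matrix.fromCols X S * Matrix.fromRows Y T = E := by
    rw [Matrix.fromCols_mul_fromRows, h]
  have hcr : Matrix.fromRows Y T * Matrix.fromCols X S =
      Matrix.fromBlocks (Y * X) (Y * S) (T * X) (T * S) := by
    rw [Matrix.fromRows_mul_fromCols]
  have hcE : Matrix.fromRows Y T * E = Matrix.fromRows Y T := by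
    rw [Matrix.fromRows_mul, h4, h8]
  have hP : Matrix.fromBlocks (Y * X) (Y * S) (T * X) (T * S) *
      Matrix.fromBlocks (Y * X) (Y * S) (T * X) (T * S) =
        Matrix.fromBlocks (Y * X) (Y * S) (T * X) (T * S) := by
    rw [← hcr, Matrix.mul_assoc, ← Matrix.mul_assoc (Matrix.fromCols X S), hrc,
      ← Matrix.mul_assoc, hcE]
  have hDP : Matrix.fromBlocks F 0 0 G * Matrix.fromBlocks (Y * X) (Y * S) (T * X) (T * S) =
      Matrix.fromBlocks (Y * X) (Y * S) (T * X) (T * S) := by
    rw [Matrix.fromBlocks_multiply]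
    simp [← Matrix.mul_assoc, h3, h7]
  have hPD : Matrix.fromBlocks (Y * X) (Y * S) (T * X) (T * S) * Matrix.fromBlocks F 0 0 G =
      Matrix.fromBlocks (Y * X) (Y * S) (T * X) (T * S) := by
    rw [Matrix.fromBlocks_multiply]
    simp [Matrix.mul_assoc, h2, h6]
  have hQ : Matrix.fromBlocks (F - Y * X) (-(Y * S)) (-(T * X)) (G - T * S) =
      Matrix.fromBlocks F 0 0 G - Matrix.fromBlocks (Y * X) (Y * S) (T * X) (T * S) := by
    ext i j
    rcases i with i | i <;> rcases j with j | j <;> simp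
  rw [hQ]
  generalize hPdef : Matrix.fromBlocks (Y * X) (Y * S) (T * X) (T * S) = P at *
  generalize hDdef : Matrix.fromBlocks F 0 0 G = D at *
  have hQQ : (D - P) * (D - P) = D - P := by
    rw [Matrix.sub_mul, Matrix.mul_sub, Matrix.mul_sub, hD, hDP, hPD, hP]
    simp
  refine ⟨hQQ, ?_⟩
  have e1 : cls E = cls P := by
    rw [cls_eq_iff hE hP]
    exact ⟨Matrix.fromCols X S, Matrix.fromRows Y T, hrc, hcr⟩
  have e2 : cls (P + (D - P)) = cls P + cls (D - P) := by
    refine cls_add hP hQQ ?_ ?_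
    · rw [Matrix.mul_sub, hPD, hP, sub_self]
    · rw [Matrix.sub_mul, hDP, hP, sub_self]
  rw [e1, ← e2, add_sub_cancel, ← hDdef, cls_blocks hF hG]

end Pool.Agent.Helper32.PG
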