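import Pool.Agent.Helper32.LV.Basic

/-! Leavitt path algebras of finite graphs with pairwise disjoint cycles.

Normal form: a set `I` of components, `cyc i`: the component `i` is a cycle (otherwise it is a
sink), `n i k`: the number of edges from `i` to `k`, `a i + 1`: the multiplicity of `i`. The graph
`NG D` has the vertices `⟨i, none⟩`, `⟨i, some s⟩` with `s : Fin (a i)`, and the edges
`z i : ⟨i, none⟩ → ⟨i, none⟩` if `cyc i`, `f i k m : ⟨i, none⟩ → ⟨k, none⟩` with `m : Fin (n i k)`,
and `g i s : ⟨i, some s⟩ → ⟨i, none⟩`. -/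

set_option autoImplicit false

universe k a

namespace Pool.Agent.Helper32.PG

open Pool.Agent.Helper32.LV

/-- data of a normal form -/
structure Dat (I : Type a) where
  cyc : I → Prop
  n : I → I → ℕ
  a : I → ℕ

variable {I : Type a}

/-- vertices -/
abbrev NV (D : Dat I) : Type a := Σ i : I, Option (Fin (D.a i))

/-- edges -/
inductive NE (D : Dat I) : Type a
  | z (i : I) (h : D.cyc i) : NE D
  | f (i k : I) (m : Fin (D.n i k)) : NE D
  | g (i : I) (s : Fin (D.a i)) : NE D

/-- the graph -/
def NG (D : Dat I) : Gr (NV D) (NE D) where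
  s e := match e with
    | .z i _ => ⟨i, none⟩
    | .f i _ _ => ⟨i, none⟩
    | .g i s => ⟨i, some s⟩
  r e := match e with
    | .z i _ => ⟨i, none⟩
    | .f _ k _ => ⟨k, none⟩
    | .g i _ => ⟨i, none⟩

/-- only cycles have exits, and there are no other cycles than the `z i` -/
structure Dat.Ok (D : Dat I) : Prop where
  hc : ∀ i k, D.n i k ≠ 0 → D.cyc i
  hr : ∃ ρ : I → ℕ, ∀ i k, D.n i k ≠ 0 → ρ k < ρ i

/-- moreover all pairs `i`, `k` such that `k` can be reached from `i` are joined by an edge -/
structure Dat.Full (D : Dat I) : Prop extends D.Ok where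
  tr : ∀ i j k, D.n i j ≠ 0 → D.n j k ≠ 0 → D.n i k ≠ 0

/-- the elements below `i` -/
def Lt (D : Dat I) (i : I) : Set I := {k | D.n i k ≠ 0}

/-- the elements below or equal to `i` -/
def Le (D : Dat I) (i : I) : Set I := {k | k = i ∨ D.n i k ≠ 0}

/-- lower sets -/
def Low (D : Dat I) (H : Set I) : Prop := ∀ i ∈ H, ∀ k, D.n i k ≠ 0 → k ∈ H

/-- the paths from `⟨i, none⟩` to `⟨l, none⟩` not ending in `z l`: `nil` is the trivial path,
`cons i k j m y` is the path `z i ^ j * f i k m * y` -/
inductive Yp (D : Dat I) (l : I) : I → Type a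
  | nil : Yp D l l
  | cons (i k : I) (j : ℕ) (m : Fin (D.n i k)) (y : Yp D l k) : Yp D l i

/-- all paths to `⟨l, none⟩` not ending in `z l` (any starting vertex) -/
abbrev YY (D : Dat I) (l : I) : Type a := Σ p : NV D, Yp D l p.1

/-- add the edge `f k l m` after the loops `z k ^ j` at the end of a path to `k` -/
def Yp.snoc {D : Dat I} {k l : I} (j : ℕ) (m : Fin (D.n k l)) : {i : I} → Yp D k i → Yp D l i
  | _, .nil => .cons k l j m .nil
  | _, .cons i k' j' m' y => .cons i k' j' m' (Yp.snoc j m y)

variable (K : Type k) [Field K] (D : Dat I)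

/-- the vertex `⟨i, none⟩` -/
noncomputable abbrev vn (i : I) : U K (NG D) := vx K (NG D) ⟨i, none⟩

/-- the link from `⟨i, s⟩` to `⟨i, none⟩` -/
noncomputable def lk (p : NV D) : U K (NG D) :=
  match p with
  | ⟨i, none⟩ => vx K (NG D) ⟨i, none⟩
  | ⟨i, some s⟩ => ed K (NG D) (.g i s)

open Classical in
/-- powers of the loop at `i` (`z ^ m` for `m ≥ 0`, `z* ^ |m|` for `m < 0`); for a sink only the
power `0` -/
noncomputable def zi (i : I) (m : ℤ) : U K (NG D) :=
  if h : D.cyc i then zp K (NG D) (.z i h) m else if m = 0 then vn K D i else 0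

/-- the path in the algebra -/
noncomputable def pp {l : I} : {i : I} → Yp D l i → U K (NG D)
  | _, .nil => vn K D l
  | _, .cons i k j m y => zi K D i j * ed K (NG D) (.f i k m) * pp y

/-- the path in the algebra -/
noncomputable def pth {l : I} (p : YY D l) : U K (NG D) := lk K D p.1 * pp K D p.2

/-- the two-sided ideal generated by the vertices in `H` -/
noncomputable def J (H : Set I) : Submodule K (U K (NG D)) :=
  Submodule.span K {x | ∃ i ∈ H, ∃ a b, x = a * vn K D i * b}

/-- the two-sided ideal generated by an element -/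
noncomputable def gn (e : U K (NG D)) : Submodule K (U K (NG D)) :=
  Submodule.span K {x | ∃ a b, x = a * e * b}

/-- the unit of `L` -/
noncomputable def one [Fintype I] : U K (NG D) := ∑ p : NV D, vx K (NG D) p

end Pool.Agent.Helper32.PG
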