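import Pool.Agent.Helper32.LV.Star

/-! Graphs with disjoint cycles. -/

set_option autoImplicit false

universe a b

namespace Pool.Agent.Helper32.PG

open Pool.Agent.Helper32.LV

variable {V : Type a} {E : Type b}

/-- cycles with a common vertex have the same edges -/
def DisjCycles (G : Gr V E) : Prop :=
  ∀ l l', G.IsCycle l → G.IsCycle l' → (∃ e ∈ l, ∃ e' ∈ l', G.s e = G.s e') → ∀ e' ∈ l', e' ∈ l

end Pool.Agent.Helper32.PG
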