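import Pool.Agent.Helper32.PG.Mv
import Pool.Agent.Helper32.TP.Move2

/-! The column move. PIECE 20.

Compare `TP/Move2.lean` (`Mv2.equiv` may apply directly). Let `f0 = f i k 0`, `p = v i - f0 f0*`.
The projection `v i` is cut into `p` and `y none = f0 f0*`, every `v ⟨i, some s⟩` into
`g p g*` and `y (some s) = g f0 f0* g*`, and every edge `φ` with range `i` (from other components,
`φ = f l i m`) into `φ p` and `φ f0`; `z i` becomes `z p`, and `f0` is replaced by `z f0`. In
`D.col i k` the multiplicity of `k` grows by `a i + 1` (the `y s`, with links `f0`, `g f0`), and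
`n l k` by `n l i` (the edges `φ f0`); the number of edges from `i` to `k` stays the same
(`D.n i i = 0`). In the other direction `v i ↦ v' + y none`, `z i ↦ z' + f' i k 0 * (link of y none)*`,
`f i k 0 ↦ link of y none`, `v ⟨i, some s⟩ ↦ v' ⟨i, some s⟩ + y (some s)`,
`g i s ↦ g' + link (y (some s)) * (link (y none))*`, `f l i m ↦ f' l i m + φ'' * (link (y none))*`
with `φ''` the corresponding additional edge from `l` to `k`. Use `mkEquiv`. -/

set_option autoImplicit false
set_option linter.unusedSectionVars false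

universe k a b w

namespace Pool.Agent.Helper32.PG

open Pool.Agent.Helper32.LV

section mvcaux

variable {V : Type a} {E : Type b} {K : Type k} [Field K] {G : Gr V E}

theorem mvc_ved {v : V} {e : E} (h : v ≠ G.s e) : vx K G v * ed K G e = 0 := by
  rw [← vx_ed e, ← mul_assoc, vx_vx_of_ne h, zero_mul]

theorem mvc_edv {v : V} {e : E} (h : G.r e ≠ v) : ed K G e * vx K G v = 0 := by
  rw [← ed_vx e, mul_assoc, vx_vx_of_ne h, mul_zero]

theorem mvc_ee {e f : E} (h : G.r e ≠ G.s f) : ed K G e * ed K G f = 0 := by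
  rw [← ed_vx e, mul_assoc, mvc_ved h, mul_zero]

/-- the data of the move: `vt t` are the copies, `et (inl t)` the loop and the links, `et (inr w)`
the other edges to `vt t0` -/
structure mvc_M (G : Gr V E) (T : Type) (W : Type w) where
  vt : T → V
  et : T ⊕ W → E
  t0 : T
  f0 : E
  vt_inj : Function.Injective vt
  et_inj : Function.Injective et
  s_et : ∀ t, G.s (et (.inl t)) = vt t
  s_ew : ∀ w t, G.s (et (.inr w)) ≠ vt t
  r_et : ∀ x, G.r (et x) = vt t0
  into : ∀ e t, G.r e = vt t → t = t0 ∧ ∃ x, et x = e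
  s_f0 : G.s f0 = vt t0
  r_f0 : ∀ t, G.r f0 ≠ vt t

variable {T : Type} {W : Type w} [DecidableEq E] [DecidableEq V] [DecidableEq T]

/-- the new graph -/
def mvc_M.gr (M : mvc_M G T W) : Gr (V ⊕ T) (E ⊕ (T ⊕ W)) where
  s x := match x with
    | .inl e => if e = M.f0 then .inr M.t0 else .inl (G.s e)
    | .inr (.inl t) => if t = M.t0 then .inl (M.vt M.t0) else .inr t
    | .inr (.inr w) => .inl (G.s (M.et (.inr w)))
  r x := match x with
    | .inl e => .inl (G.r e)
    | .inr _ => .inl (G.r M.f0)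

variable (M : mvc_M G T W)

theorem mvc_M.s_f : M.gr.s (.inl M.f0) = .inr M.t0 := if_pos rfl
theorem mvc_M.s_e {e : E} (h : e ≠ M.f0) : M.gr.s (.inl e) = .inl (G.s e) := if_neg h
theorem mvc_M.s_0 : M.gr.s (.inr (.inl M.t0)) = .inl (M.vt M.t0) := if_pos rfl
theorem mvc_M.s_t {t : T} (h : t ≠ M.t0) : M.gr.s (.inr (.inl t)) = .inr t := if_neg h
theorem mvc_M.s_w (w : W) : M.gr.s (.inr (.inr w)) = .inl (G.s (M.et (.inr w))) := rfl
theorem mvc_M.r_l (e : E) : M.gr.r (.inl e) = .inl (G.r e) := rfl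
theorem mvc_M.r_r (x : T ⊕ W) : M.gr.r (.inr x) = .inl (G.r M.f0) := rfl

/-- the projection of vertices -/
def mvc_M.pr (M : mvc_M G T W) : V ⊕ T → V
  | .inl v => v
  | .inr t => M.vt t

theorem mvc_M.pr_s_l (e : E) : M.pr (M.gr.s (.inl e)) = G.s e := by
  by_cases h : e = M.f0
  · subst h; rw [M.s_f, M.s_f0]; rfl
  · rw [M.s_e h]; rfl

theorem mvc_M.pr_s_r (x : T ⊕ W) : M.pr (M.gr.s (.inr x)) = G.s (M.et x) := by
  rcases x with t | w
  · rw [M.s_et]
    by_cases h : t = M.t0
    · subst h; rw [M.s_0]; rfl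
    · rw [M.s_t h]; rfl
  · rfl

variable [Fintype T] [Fintype W] (K)

/-- image of a vertex -/
noncomputable def mvc_M.q (M : mvc_M G T W) (v : V) : U K M.gr :=
  vx K M.gr (.inl v) + ∑ t, if M.vt t = v then vx K M.gr (.inr t) else 0

/-- the new part of an edge -/
noncomputable def mvc_M.la (M : mvc_M G T W) (e : E) : U K M.gr :=
  ∑ x, if M.et x = e then ed K M.gr (.inr x) else 0

/-- image of an edge -/
noncomputable def mvc_M.u (M : mvc_M G T W) (e : E) : U K M.gr :=
  ed K M.gr (.inl e) + M.la K e * gh K M.gr (.inl M.f0)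

variable {K}

theorem mvc_M.vx_q (x : V ⊕ T) (v : V) :
    vx K M.gr x * M.q K v = if M.pr x = v then vx K M.gr x else 0 := by
  unfold mvc_M.q
  rw [mul_add, Finset.mul_sum]
  cases x with
  | inl w =>
    have h1 : ∑ t, vx K M.gr (.inl w) * (if M.vt t = v then vx K M.gr (.inr t) else 0) = 0 := by
      refine Finset.sum_eq_zero fun t _ => ?_
      split_ifs
      · exact vx_vx_of_ne (by simp)
      · rw [mul_zero]
    rw [h1, add_zero]
    change _ = if w = v then _ else _
    split_ifs with h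
    · rw [h, vx_vx]
    · exact vx_vx_of_ne (by simpa using h)
  | inr t' =>
    rw [vx_vx_of_ne (by simp), zero_add, Finset.sum_eq_single t']
    · change _ = if M.vt t' = v then _ else _
      split_ifs
      · rw [vx_vx]
      · rw [mul_zero]
    · intro t _ ht
      split_ifs
      · exact vx_vx_of_ne (by simpa using Ne.symm ht)
      · rw [mul_zero]
    · intro h; exact absurd (Finset.mem_univ _) h

theorem mvc_M.q_vx (x : V ⊕ T) (v : V) :
    M.q K v * vx K M.gr x = if M.pr x = v then vx K M.gr x else 0 := by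
  unfold mvc_M.q
  rw [add_mul, Finset.sum_mul]
  cases x with
  | inl w =>
    have h1 : ∑ t, (if M.vt t = v then vx K M.gr (.inr t) else 0) * vx K M.gr (.inl w) = 0 := by
      refine Finset.sum_eq_zero fun t _ => ?_
      split_ifs
      · exact vx_vx_of_ne (by simp)
      · rw [zero_mul]
    rw [h1, add_zero]
    change _ = if w = v then _ else _
    split_ifs with h
    · rw [h, vx_vx]
    · exact vx_vx_of_ne (by simpa using Ne.symm h)
  | inr t' =>
    rw [vx_vx_of_ne (by simp), zero_add, Finset.sum_eq_single t']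
    · change _ = if M.vt t' = v then _ else _
      split_ifs
      · rw [vx_vx]
      · rw [zero_mul]
    · intro t _ ht
      split_ifs
      · exact vx_vx_of_ne (by simpa using ht)
      · rw [zero_mul]
    · intro h; exact absurd (Finset.mem_univ _) h

theorem mvc_M.q_q (v w : V) : M.q K v * M.q K w = if v = w then M.q K v else 0 := by
  conv_lhs => rw [mvc_M.q]
  rw [add_mul, Finset.sum_mul, M.vx_q]
  have h1 : ∀ t, (if M.vt t = v then vx K M.gr (.inr t) else 0) * M.q K w =
      if v = w then (if M.vt t = v then vx K M.gr (.inr t) else 0) else 0 := by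
    intro t
    by_cases h : M.vt t = v
    · rw [if_pos h, M.vx_q]
      change (if M.vt t = w then _ else _) = _
      rw [h]
    · rw [if_neg h, zero_mul]
      split_ifs <;> rfl
  rw [Finset.sum_congr rfl fun t _ => h1 t]
  change (if v = w then _ else _) + _ = _
  split_ifs with h
  · rfl
  · simp

theorem mvc_M.q_ed (v : V) (x : E ⊕ (T ⊕ W)) :
    M.q K v * ed K M.gr x = if M.pr (M.gr.s x) = v then ed K M.gr x else 0 := by
  rw [← vx_ed x, ← mul_assoc, M.q_vx]
  split_ifs
  · rfl
  · rw [zero_mul]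

theorem mvc_M.ed_q (v : V) (x : E ⊕ (T ⊕ W)) :
    ed K M.gr x * M.q K v = if M.pr (M.gr.r x) = v then ed K M.gr x else 0 := by
  rw [← ed_vx x, mul_assoc, M.vx_q]
  split_ifs
  · rfl
  · rw [mul_zero]

theorem mvc_M.la_et (t : T ⊕ W) : M.la K (M.et t) = ed K M.gr (.inr t) := by
  unfold mvc_M.la
  rw [Finset.sum_eq_single t]
  · rw [if_pos rfl]
  · intro t' _ h
    rw [if_neg fun h' => h (M.et_inj h')]
  · intro h; exact absurd (Finset.mem_univ _) h

theorem mvc_M.la_ne {e : E} (h : ∀ t, M.et t ≠ e) : M.la K e = 0 := by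
  unfold mvc_M.la
  refine Finset.sum_eq_zero fun t _ => ?_
  rw [if_neg (h t)]

variable [StarRing K]

theorem mvc_M.q_star (v : V) : star (M.q K v) = M.q K v := by
  unfold mvc_M.q
  rw [star_add, star_vx, star_sum]
  congr 1
  refine Finset.sum_congr rfl fun t _ => ?_
  split_ifs
  · rw [star_vx]
  · rw [star_zero]

theorem mvc_M.star_u (e : E) : star (M.u K e) =
    gh K M.gr (.inl e) + ed K M.gr (.inl M.f0) * star (M.la K e) := by
  unfold mvc_M.u
  rw [star_add, star_ed, star_mul, star_gh]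

theorem mvc_M.q_u (e : E) : M.q K (G.s e) * M.u K e = M.u K e := by
  unfold mvc_M.u
  rw [mul_add, M.q_ed, if_pos (M.pr_s_l e), ← mul_assoc]
  by_cases h : ∃ t, M.et t = e
  · obtain ⟨t, rfl⟩ := h
    rw [M.la_et, M.q_ed, if_pos]
    rw [M.pr_s_r]
  · rw [M.la_ne fun t ht => h ⟨t, ht⟩]; simp

theorem mvc_M.gh_q (v : V) (x : E ⊕ (T ⊕ W)) :
    gh K M.gr x * M.q K v = if M.pr (M.gr.s x) = v then gh K M.gr x else 0 := by
  have h := congrArg star (M.q_ed (K := K) v x)
  rw [star_mul, M.q_star, star_ed] at h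
  rw [h]
  split_ifs
  · rw [star_ed]
  · rw [star_zero]

theorem mvc_M.u_q (e : E) : M.u K e * M.q K (G.r e) = M.u K e := by
  unfold mvc_M.u
  rw [add_mul, M.ed_q]
  rw [if_pos (show M.pr (M.gr.r (.inl e)) = G.r e from rfl), mul_assoc]
  by_cases h : ∃ t, M.et t = e
  · obtain ⟨t, rfl⟩ := h
    rw [M.gh_q, if_pos]
    rw [M.pr_s_l, M.s_f0, M.r_et]
  · rw [M.la_ne fun t ht => h ⟨t, ht⟩]; simp

/-- the vertex `inr t0` -/
theorem mvc_M.f_f [Fintype E] : ed K M.gr (.inl M.f0) * gh K M.gr (.inl M.f0) =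
    vx K M.gr (.inr M.t0) := by
  have h1 : {x | M.gr.s x = .inr M.t0} = {.inl M.f0} := by
    ext x
    rw [Set.mem_ofPred_eq, Set.mem_singleton_iff]
    constructor
    · intro h
      cases x with
      | inl e =>
        by_cases he : e = M.f0
        · rw [he]
        · rw [M.s_e he] at h; exact absurd h (by simp)
      | inr x =>
        rcases x with t | w
        · by_cases ht : t = M.t0
          · rw [ht, M.s_0] at h; exact absurd h (by simp)
          · rw [M.s_t ht] at h; exact absurd (Sum.inr_injective h) ht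
        · rw [M.s_w] at h; exact absurd h (by simp)
    · rintro rfl; exact M.s_f
  have h2 : {x | M.gr.s x = .inr M.t0}.Finite := Set.toFinite _
  rw [vx_eq_sum _ h2 ⟨.inl M.f0, M.s_f⟩]
  have h3 : h2.toFinset = {.inl M.f0} := by
    ext x
    rw [Set.Finite.mem_toFinset, h1]; simp
  rw [h3, Finset.sum_singleton]

theorem mvc_M.t_t [Fintype E] {t : T} (ht : t ≠ M.t0) :
    ed K M.gr (.inr (.inl t)) * gh K M.gr (.inr (.inl t)) = vx K M.gr (.inr t) := by
  have h1 : {x | M.gr.s x = .inr t} = {.inr (.inl t)} := by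
    ext x
    rw [Set.mem_ofPred_eq, Set.mem_singleton_iff]
    constructor
    · intro h
      cases x with
      | inl e =>
        by_cases he : e = M.f0
        · rw [he, M.s_f] at h; exact absurd (Sum.inr_injective h).symm ht
        · rw [M.s_e he] at h; exact absurd h (by simp)
      | inr x =>
        rcases x with t' | w
        · by_cases ht' : t' = M.t0
          · rw [ht', M.s_0] at h; exact absurd h (by simp)
          · rw [M.s_t ht'] at h; rw [Sum.inr_injective h]
        · rw [M.s_w] at h; exact absurd h (by simp)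
    · rintro rfl; exact M.s_t ht
  have h2 : {x | M.gr.s x = .inr t}.Finite := Set.toFinite _
  rw [vx_eq_sum _ h2 ⟨.inr (.inl t), M.s_t ht⟩]
  have h3 : h2.toFinset = {.inr (.inl t)} := by
    ext x
    rw [Set.Finite.mem_toFinset, h1]; simp
  rw [h3, Finset.sum_singleton]

theorem mvc_M.ed_f (e : E) : ed K M.gr (.inl e) * ed K M.gr (.inl M.f0) = 0 := by
  refine mvc_ee ?_
  rw [M.s_f, M.r_l]
  simp

theorem mvc_M.f_star_la (e : E) : ed K M.gr (.inl M.f0) * star (M.la K e) = 
    ed K M.gr (.inl M.f0) * star (M.la K e) := rfl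

/-- `la` is orthogonal to the old edges -/
theorem mvc_M.gh_la (e e' : E) : gh K M.gr (.inl e) * M.la K e' = 0 := by
  unfold mvc_M.la
  rw [Finset.mul_sum]
  refine Finset.sum_eq_zero fun t _ => ?_
  split_ifs
  · exact gh_ed_of_ne (by simp)
  · rw [mul_zero]

theorem mvc_M.la_ed (e e' : E) : star (M.la K e') * ed K M.gr (.inl e) = 0 := by
  have h := congrArg star (M.gh_la (K := K) e e')
  rwa [star_mul, star_gh, star_zero] at h

theorem mvc_M.u_u (e e' : E) : star (M.u K e) * M.u K e' =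
    gh K M.gr (.inl e) * ed K M.gr (.inl e') +
      ed K M.gr (.inl M.f0) * (star (M.la K e) * M.la K e') * gh K M.gr (.inl M.f0) := by
  rw [M.star_u, mvc_M.u]
  have h1 : gh K M.gr (.inl e) * (M.la K e' * gh K M.gr (.inl M.f0)) = 0 := by
    rw [← mul_assoc, M.gh_la, zero_mul]
  have h2 : ed K M.gr (.inl M.f0) * star (M.la K e) * ed K M.gr (.inl e') = 0 := by
    rw [mul_assoc, M.la_ed, mul_zero]
  rw [add_mul, mul_add, mul_add, h1, h2, add_zero, zero_add]
  simp only [mul_assoc]

theorem mvc_M.u_u' (e : E) : M.u K e * star (M.u K e) =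
    ed K M.gr (.inl e) * gh K M.gr (.inl e) + M.la K e * star (M.la K e) := by
  rw [M.star_u, mvc_M.u]
  have h1 : ed K M.gr (.inl e) * (ed K M.gr (.inl M.f0) * star (M.la K e)) = 0 := by
    rw [← mul_assoc, M.ed_f, zero_mul]
  have h2 : M.la K e * gh K M.gr (.inl M.f0) * gh K M.gr (.inl e) = 0 := by
    have h := congrArg star (M.ed_f (K := K) e)
    rw [star_mul, star_ed, star_ed, star_zero] at h
    rw [mul_assoc, h, mul_zero]
  have h3 : M.la K e * gh K M.gr (.inl M.f0) * (ed K M.gr (.inl M.f0) * star (M.la K e)) =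
      M.la K e * star (M.la K e) := by
    have h4 : M.la K e * gh K M.gr (.inl M.f0) * (ed K M.gr (.inl M.f0) * star (M.la K e)) =
      M.la K e * (gh K M.gr (.inl M.f0) * ed K M.gr (.inl M.f0)) * star (M.la K e) := by
      simp only [mul_assoc]
    rw [h4, gh_ed]
    congr 1
    by_cases h : ∃ t, M.et t = e
    · obtain ⟨t, rfl⟩ := h
      rw [M.la_et, M.r_l, ← M.r_r t, ed_vx]
    · rw [M.la_ne fun t ht => h ⟨t, ht⟩, zero_mul]
  rw [add_mul, mul_add, mul_add, h1, h2, h3, add_zero, zero_add]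

variable [Fintype E]

theorem mvc_M.q_r (e : E) : M.q K (G.r e) = vx K M.gr (.inl (G.r e)) +
    (if ∃ t, M.et t = e then vx K M.gr (.inr M.t0) else 0) := by
  unfold mvc_M.q
  congr 1
  split_ifs with h
  · obtain ⟨t, rfl⟩ := h
    rw [M.r_et, Finset.sum_eq_single M.t0]
    · rw [if_pos rfl]
    · intro t' _ h
      rw [if_neg fun h' => h (M.vt_inj h')]
    · intro h; exact absurd (Finset.mem_univ _) h
  · refine Finset.sum_eq_zero fun t _ => ?_
    rw [if_neg]
    intro ht
    exact h (M.into e t ht.symm).2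

theorem mvc_M.ex_s (x : V ⊕ T) (h0 : ∃ e, G.s e = M.pr x) : ∃ y, M.gr.s y = x := by
  cases x with
  | inl v =>
    obtain ⟨e, he⟩ := h0
    change G.s e = v at he
    by_cases h : v = M.vt M.t0
    · subst h
      exact ⟨.inr (.inl M.t0), M.s_0⟩
    · refine ⟨.inl e, ?_⟩
      rw [M.s_e, he]
      rintro rfl
      exact h (he.symm.trans M.s_f0)
  | inr t =>
    by_cases h : t = M.t0
    · subst h
      exact ⟨.inl M.f0, M.s_f⟩
    · exact ⟨.inr (.inl t), M.s_t h⟩

theorem mvc_M.vx_sum (x : V ⊕ T) (h0 : ∃ e, G.s e = M.pr x) :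
    vx K M.gr x = ∑ y, if M.gr.s y = x then ed K M.gr y * gh K M.gr y else 0 := by
  have h2 : {y | M.gr.s y = x}.Finite := Set.toFinite _
  rw [vx_eq_sum _ h2 (M.ex_s x h0), ← Finset.sum_filter]
  refine Finset.sum_congr ?_ fun _ _ => rfl
  ext y
  simp

theorem mvc_M.la_la (e : E) : M.la K e * star (M.la K e) =
    ∑ t, if M.et t = e then ed K M.gr (.inr t) * gh K M.gr (.inr t) else 0 := by
  by_cases h : ∃ t, M.et t = e
  · obtain ⟨t, rfl⟩ := h
    rw [M.la_et, star_ed, Finset.sum_eq_single t]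
    · rw [if_pos rfl]
    · intro t' _ h
      rw [if_neg fun h' => h (M.et_inj h')]
    · intro h; exact absurd (Finset.mem_univ _) h
  · rw [M.la_ne fun t ht => h ⟨t, ht⟩, zero_mul]
    symm
    refine Finset.sum_eq_zero fun t _ => ?_
    rw [if_neg fun ht => h ⟨t, ht⟩]

theorem mvc_M.ck (v : V) (h0 : ∃ e, G.s e = v) :
    M.q K v = ∑ e, if G.s e = v then M.u K e * star (M.u K e) else 0 := by
  have h1 : M.q K v = ∑ y, if M.pr (M.gr.s y) = v then ed K M.gr y * gh K M.gr y else 0 := by
    unfold mvc_M.q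
    rw [M.vx_sum (.inl v) h0]
    have h2 : ∀ t, (if M.vt t = v then vx K M.gr (.inr t) else 0) =
        ∑ y, if M.gr.s y = .inr t ∧ M.vt t = v then ed K M.gr y * gh K M.gr y else 0 := by
      intro t
      by_cases h : M.vt t = v
      · rw [if_pos h, M.vx_sum (.inr t)]
        · refine Finset.sum_congr rfl fun y _ => ?_
          simp [h]
        · change ∃ e, G.s e = M.vt t
          rw [h]
          exact h0
      · rw [if_neg h]
        symm
        refine Finset.sum_eq_zero fun y _ => ?_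
        rw [if_neg fun h' => h h'.2]
    rw [Finset.sum_congr rfl fun t _ => h2 t, Finset.sum_comm, ← Finset.sum_add_distrib]
    refine Finset.sum_congr rfl fun y _ => ?_
    rcases hy : M.gr.s y with w | t'
    · have h3 : ∑ t, (if (.inl w : V ⊕ T) = .inr t ∧ M.vt t = v then
          ed K M.gr y * gh K M.gr y else 0) = 0 := by
        refine Finset.sum_eq_zero fun t _ => ?_
        rw [if_neg (by simp)]
      rw [h3, add_zero]
      change (if (Sum.inl w : V ⊕ T) = Sum.inl v then _ else _) = (if w = v then _ else _)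
      simp only [Sum.inl.injEq]
    · rw [if_neg (by simp), zero_add, Finset.sum_eq_single t']
      · change _ = (if M.vt t' = v then _ else _)
        simp only [true_and]
      · intro t _ ht
        rw [if_neg]
        rintro ⟨h4, -⟩
        exact ht (Sum.inr_injective h4).symm
      · intro h; exact absurd (Finset.mem_univ _) h
  rw [h1, Fintype.sum_sum_type]
  have h5 : ∀ e, (if G.s e = v then M.u K e * star (M.u K e) else 0) =
      (if G.s e = v then ed K M.gr (.inl e) * gh K M.gr (.inl e) else 0) +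
      ∑ t, if M.et t = e ∧ G.s (M.et t) = v then ed K M.gr (.inr t) * gh K M.gr (.inr t)
        else 0 := by
    intro e
    by_cases h : G.s e = v
    · rw [if_pos h, if_pos h, M.u_u', M.la_la]
      congr 1
      refine Finset.sum_congr rfl fun t _ => ?_
      by_cases ht : M.et t = e
      · rw [if_pos ht, if_pos]
        refine ⟨ht, ?_⟩
        rw [ht, h]
      · rw [if_neg ht, if_neg fun h' => ht h'.1]
    · rw [if_neg h, if_neg h, zero_add]
      symm
      refine Finset.sum_eq_zero fun t _ => ?_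
      rw [if_neg]
      rintro ⟨h6, h7⟩
      rw [h6] at h7
      exact h h7
  rw [Finset.sum_congr rfl fun e _ => h5 e, Finset.sum_add_distrib]
  congr 1
  · refine Finset.sum_congr rfl fun e _ => ?_
    rw [M.pr_s_l]
  · rw [Finset.sum_comm]
    refine Finset.sum_congr rfl fun t _ => ?_
    rw [M.pr_s_r, Finset.sum_eq_single (M.et t)]
    · simp only [true_and]
    · intro e _ he
      rw [if_neg fun h => he h.1.symm]
    · intro h; exact absurd (Finset.mem_univ _) h

theorem mvc_M.rep : IsRep K G (M.q K) (M.u K) (fun e => star (M.u K e)) where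
  vv v := by rw [M.q_q, if_pos rfl]
  vw v w h := by rw [M.q_q, if_neg h]
  se := M.q_u
  er := M.u_q
  rg e := by
    rw [← M.q_star, ← star_mul, M.u_q]
  gs e := by
    rw [← M.q_star, ← star_mul, M.q_u]
  ge e := by
    rw [M.u_u, gh_ed, M.r_l, M.q_r]
    congr 1
    split_ifs with h
    · obtain ⟨t, rfl⟩ := h
      rw [M.la_et, star_ed, gh_ed, M.r_r, ← M.r_l M.f0, ed_vx, M.f_f]
    · rw [M.la_ne fun t ht => h ⟨t, ht⟩]; simp
  gf e f hef := by
    rw [M.u_u, gh_ed_of_ne (by simpa using hef), zero_add]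
    have h1 : star (M.la K e) * M.la K f = 0 := by
      by_cases h : ∃ t, M.et t = e
      · obtain ⟨t, rfl⟩ := h
        by_cases h' : ∃ t, M.et t = f
        · obtain ⟨t', rfl⟩ := h'
          rw [M.la_et, M.la_et, star_ed, gh_ed_of_ne]
          simp only [ne_eq, Sum.inr.injEq]
          rintro rfl
          exact hef rfl
        · rw [M.la_ne (e := f) fun t ht => h' ⟨t, ht⟩, mul_zero]
      · rw [M.la_ne (e := e) fun t ht => h ⟨t, ht⟩]; simp
    rw [h1, mul_zero, zero_mul]
  ck v h h0 := by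
    rw [M.ck v h0, ← Finset.sum_filter]
    refine Finset.sum_congr ?_ fun _ _ => rfl
    ext e
    simp


variable (K)

/-- `f0` transported to the source of the link -/
noncomputable def mvc_M.F (M : mvc_M G T W) (t : T) : U K G :=
  if t = M.t0 then ed K G M.f0 else ed K G (M.et (.inl t)) * ed K G M.f0

/-- the new part of the vertex `v` -/
noncomputable def mvc_M.R (M : mvc_M G T W) (v : V) : U K G :=
  ∑ t, if M.vt t = v then M.F K t * star (M.F K t) else 0

/-- image of a vertex -/
noncomputable def mvc_M.q' (M : mvc_M G T W) (x : V ⊕ T) : U K G :=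
  match x with
  | .inl v => vx K G v - M.R K v
  | .inr t => M.F K t * star (M.F K t)

/-- image of an edge -/
noncomputable def mvc_M.u' (M : mvc_M G T W) (x : E ⊕ (T ⊕ W)) : U K G :=
  match x with
  | .inl e => ed K G e - ed K G e * (ed K G M.f0 * gh K G M.f0)
  | .inr t => ed K G (M.et t) * ed K G M.f0

variable {K}

theorem mvc_M.F_F (t : T) : star (M.F K t) * M.F K t = vx K G (G.r M.f0) := by
  unfold mvc_M.F
  split_ifs
  · rw [star_ed, gh_ed]
  · rw [star_mul, star_ed, star_ed]
    have h : gh K G M.f0 * gh K G (M.et (.inl t)) * (ed K G (M.et (.inl t)) * ed K G M.f0) =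
      gh K G M.f0 * (gh K G (M.et (.inl t)) * ed K G (M.et (.inl t)) * ed K G M.f0) := by
      simp only [mul_assoc]
    rw [h, gh_ed, M.r_et, ← M.s_f0, vx_ed, gh_ed]

theorem mvc_M.vx_F (t : T) : vx K G (M.vt t) * M.F K t = M.F K t := by
  unfold mvc_M.F
  split_ifs with h
  · subst h
    rw [← M.s_f0, vx_ed]
  · rw [← mul_assoc, ← M.s_et, vx_ed]

theorem mvc_M.F_star_vx (t : T) : star (M.F K t) * vx K G (M.vt t) = star (M.F K t) := by
  have h := congrArg star (M.vx_F (K := K) t)
  rwa [star_mul, star_vx] at h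

theorem mvc_M.F_w (t : T) : M.F K t * vx K G (G.r M.f0) = M.F K t := by
  unfold mvc_M.F
  split_ifs with h
  · rw [ed_vx]
  · rw [mul_assoc, ed_vx]

theorem mvc_M.FFF (t : T) : M.F K t * star (M.F K t) * M.F K t = M.F K t := by
  rw [mul_assoc, M.F_F, M.F_w]

theorem mvc_M.FF_star (t : T) : star (M.F K t * star (M.F K t)) = M.F K t * star (M.F K t) := by
  rw [star_mul, star_star]

theorem mvc_M.FF_FF (t : T) : M.F K t * star (M.F K t) * (M.F K t * star (M.F K t)) =
    M.F K t * star (M.F K t) := by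
  rw [← mul_assoc, M.FFF]

theorem mvc_M.FF_vx (t : T) (v : V) : M.F K t * star (M.F K t) * vx K G v =
    if M.vt t = v then M.F K t * star (M.F K t) else 0 := by
  rw [mul_assoc, ← M.F_star_vx, mul_assoc]
  split_ifs with h
  · rw [h, vx_vx]
  · rw [vx_vx_of_ne h, mul_zero, mul_zero]

theorem mvc_M.FF_FF' {t t' : T} (h : t ≠ t') :
    M.F K t * star (M.F K t) * (M.F K t' * star (M.F K t')) = 0 := by
  rw [← M.vx_F t', ← mul_assoc, ← mul_assoc, M.FF_vx, if_neg fun h' => h (M.vt_inj h'), zero_mul,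
    zero_mul]

theorem mvc_M.R_vt (t : T) : M.R K (M.vt t) = M.F K t * star (M.F K t) := by
  unfold mvc_M.R
  rw [Finset.sum_eq_single t]
  · rw [if_pos rfl]
  · intro t' _ h
    rw [if_neg fun h' => h (M.vt_inj h')]
  · intro h; exact absurd (Finset.mem_univ _) h

theorem mvc_M.R_ne {v : V} (h : ∀ t, M.vt t ≠ v) : M.R K v = 0 := by
  unfold mvc_M.R
  refine Finset.sum_eq_zero fun t _ => ?_
  rw [if_neg (h t)]

theorem mvc_M.R_star (v : V) : star (M.R K v) = M.R K v := by
  by_cases h : ∃ t, M.vt t = v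
  · obtain ⟨t, rfl⟩ := h
    rw [M.R_vt, M.FF_star]
  · rw [M.R_ne fun t ht => h ⟨t, ht⟩, star_zero]

theorem mvc_M.q'_star (x : V ⊕ T) : star (M.q' K x) = M.q' K x := by
  cases x with
  | inl v => change star (vx K G v - M.R K v) = vx K G v - M.R K v; rw [star_sub, star_vx, M.R_star]
  | inr t => exact M.FF_star t

theorem mvc_M.R_vx (v w : V) : M.R K v * vx K G w = if v = w then M.R K v else 0 := by
  by_cases h : ∃ t, M.vt t = v
  · obtain ⟨t, rfl⟩ := h
    rw [M.R_vt, M.FF_vx]
  · rw [M.R_ne fun t ht => h ⟨t, ht⟩, zero_mul]; simp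

theorem mvc_M.vx_R (v w : V) : vx K G w * M.R K v = if v = w then M.R K v else 0 := by
  have h := congrArg star (M.R_vx (K := K) v w)
  rw [star_mul, star_vx, M.R_star] at h
  rw [h]
  split_ifs
  · rw [M.R_star]
  · rw [star_zero]

theorem mvc_M.R_R (v w : V) : M.R K v * M.R K w = if v = w then M.R K v else 0 := by
  by_cases h : ∃ t, M.vt t = v
  · obtain ⟨t, rfl⟩ := h
    by_cases h' : ∃ t, M.vt t = w
    · obtain ⟨t', rfl⟩ := h'
      rw [M.R_vt, M.R_vt]
      by_cases ht : t = t'
      · subst ht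
        rw [if_pos rfl, M.FF_FF]
      · rw [M.FF_FF' ht, if_neg fun h => ht (M.vt_inj h)]
    · rw [M.R_ne (v := w) fun t ht => h' ⟨t, ht⟩, mul_zero, if_neg]
      rintro rfl
      exact h' ⟨t, rfl⟩
  · rw [M.R_ne (v := v) fun t ht => h ⟨t, ht⟩, zero_mul]; simp

theorem mvc_M.R_w : M.R K (G.r M.f0) = 0 := M.R_ne fun t ht => M.r_f0 t ht.symm

/-- the projections are orthogonal -/
theorem mvc_M.q'_q' (x y : V ⊕ T) : M.q' K x * M.q' K y = if x = y then M.q' K x else 0 := by
  cases x with
  | inl v =>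
    cases y with
    | inl w =>
      change (vx K G v - M.R K v) * (vx K G w - M.R K w) = _
      rw [sub_mul, mul_sub, mul_sub, M.vx_R, M.R_vx, M.R_R]
      by_cases h : v = w
      · subst h
        rw [vx_vx]; simp [mvc_M.q']
      · rw [vx_vx_of_ne h, if_neg h, if_neg (Ne.symm h)]; simp [h]
    | inr t =>
      change (vx K G v - M.R K v) * (M.F K t * star (M.F K t)) = _
      rw [if_neg (by simp), ← M.R_vt, sub_mul, M.vx_R, M.R_R]
      by_cases h : v = M.vt t
      · subst h; simp
      · rw [if_neg h, if_neg (Ne.symm h), sub_zero]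
  | inr t =>
    cases y with
    | inl w =>
      change (M.F K t * star (M.F K t)) * (vx K G w - M.R K w) = _
      rw [if_neg (by simp), ← M.R_vt, mul_sub, M.R_vx, M.R_R]
      simp
    | inr t' =>
      change (M.F K t * star (M.F K t)) * (M.F K t' * star (M.F K t')) = _
      by_cases h : t = t'
      · subst h; rw [M.FF_FF, if_pos rfl]; rfl
      · rw [M.FF_FF' h, if_neg (by simpa using h)]


theorem mvc_M.a_a : ed K G M.f0 * ed K G M.f0 = 0 := mvc_ee (by rw [M.s_f0]; exact M.r_f0 _)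

theorem mvc_M.et_ne (t : T ⊕ W) : M.et t ≠ M.f0 := by
  intro h
  have h1 := M.r_et t
  rw [h] at h1
  exact M.r_f0 _ h1

theorem mvc_M.e_a {e : E} (h : ∀ t, M.et t ≠ e) : ed K G e * ed K G M.f0 = 0 := by
  refine mvc_ee ?_
  rw [M.s_f0]
  intro h1
  obtain ⟨-, t', ht'⟩ := M.into e _ h1
  exact h t' ht'

theorem mvc_M.u'_f : M.u' K (.inl M.f0) = ed K G M.f0 := by
  change ed K G M.f0 - ed K G M.f0 * (ed K G M.f0 * gh K G M.f0) = _
  rw [← mul_assoc, M.a_a, zero_mul, sub_zero]

theorem mvc_M.u'_ne {e : E} (h : ∀ t, M.et t ≠ e) : M.u' K (.inl e) = ed K G e := by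
  change ed K G e - ed K G e * (ed K G M.f0 * gh K G M.f0) = _
  rw [← mul_assoc, M.e_a h, zero_mul, sub_zero]

theorem mvc_M.F_t0 : M.F K M.t0 = ed K G M.f0 := if_pos rfl
theorem mvc_M.F_t {t : T} (h : t ≠ M.t0) : M.F K t = ed K G (M.et (.inl t)) * ed K G M.f0 :=
  if_neg h

theorem mvc_M.vx_u' (e : E) : vx K G (G.s e) * M.u' K (.inl e) = M.u' K (.inl e) := by
  change vx K G (G.s e) * (ed K G e - ed K G e * (ed K G M.f0 * gh K G M.f0)) =
    ed K G e - ed K G e * (ed K G M.f0 * gh K G M.f0)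
  rw [mul_sub, ← mul_assoc, vx_ed]

theorem mvc_M.Fs_u' {e : E} (h : e ≠ M.f0) (t : T) : star (M.F K t) * M.u' K (.inl e) = 0 := by
  change _ * (ed K G e - ed K G e * (ed K G M.f0 * gh K G M.f0)) = 0
  by_cases ht : t = M.t0
  · subst ht
    rw [M.F_t0, star_ed, mul_sub, ← mul_assoc, gh_ed_of_ne (Ne.symm h), zero_mul, sub_zero]
  · rw [M.F_t ht, star_mul, star_ed, star_ed]
    by_cases he : M.et (.inl t) = e
    · subst he
      have h1 : gh K G M.f0 * gh K G (M.et (.inl t)) * (ed K G (M.et (.inl t)) -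
          ed K G (M.et (.inl t)) * (ed K G M.f0 * gh K G M.f0)) =
          gh K G M.f0 * (gh K G (M.et (.inl t)) * ed K G (M.et (.inl t))) - gh K G M.f0 *
          (gh K G (M.et (.inl t)) * ed K G (M.et (.inl t))) * (ed K G M.f0 * gh K G M.f0) := by
        noncomm_ring
      rw [h1, gh_ed, M.r_et, ← M.s_f0, gh_vx, ← mul_assoc, gh_ed, vx_gh, sub_self]
    · have h1 : gh K G M.f0 * gh K G (M.et (.inl t)) * (ed K G e -
          ed K G e * (ed K G M.f0 * gh K G M.f0)) =
          gh K G M.f0 * (gh K G (M.et (.inl t)) * ed K G e) - gh K G M.f0 *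
          (gh K G (M.et (.inl t)) * ed K G e) * (ed K G M.f0 * gh K G M.f0) := by
        noncomm_ring
      rw [h1, gh_ed_of_ne he, mul_zero, zero_mul, sub_zero]

theorem mvc_M.R_u' {e : E} (h : e ≠ M.f0) (v : V) : M.R K v * M.u' K (.inl e) = 0 := by
  unfold mvc_M.R
  rw [Finset.sum_mul]
  refine Finset.sum_eq_zero fun t _ => ?_
  split_ifs
  · rw [mul_assoc, M.Fs_u' h, mul_zero]
  · rw [zero_mul]

theorem mvc_M.se' (x : E ⊕ (T ⊕ W)) : M.q' K (M.gr.s x) * M.u' K x = M.u' K x := by
  cases x with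
  | inl e =>
    by_cases h : e = M.f0
    · subst h
      rw [M.s_f, M.u'_f]
      change M.F K M.t0 * star (M.F K M.t0) * _ = _
      rw [← M.F_t0, M.FFF]
    · rw [M.s_e h]
      change (vx K G (G.s e) - M.R K (G.s e)) * _ = _
      rw [sub_mul, M.vx_u', M.R_u' h, sub_zero]
  | inr x =>
    rcases x with t | w
    · by_cases h : t = M.t0
      · subst h
        rw [M.s_0]
        change (vx K G (M.vt M.t0) - M.R K (M.vt M.t0)) *
          (ed K G (M.et (.inl M.t0)) * ed K G M.f0) = ed K G (M.et (.inl M.t0)) * ed K G M.f0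
        rw [M.R_vt, sub_mul, ← mul_assoc, ← M.s_et, vx_ed, M.F_t0, star_ed]
        have h1 : ed K G M.f0 * gh K G M.f0 * (ed K G (M.et (.inl M.t0)) * ed K G M.f0) = 0 := by
          rw [mul_assoc, ← mul_assoc (gh K G M.f0), gh_ed_of_ne (Ne.symm (M.et_ne _)), zero_mul,
            mul_zero]
        rw [h1, sub_zero]
      · rw [M.s_t h]
        change M.F K t * star (M.F K t) * (ed K G (M.et (.inl t)) * ed K G M.f0) =
          ed K G (M.et (.inl t)) * ed K G M.f0
        rw [← M.F_t h, M.FFF]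
    · rw [M.s_w]
      change (vx K G (G.s (M.et (.inr w))) - M.R K (G.s (M.et (.inr w)))) *
        (ed K G (M.et (.inr w)) * ed K G M.f0) = ed K G (M.et (.inr w)) * ed K G M.f0
      rw [sub_mul, ← mul_assoc, vx_ed, M.R_ne fun t ht => M.s_ew w t ht.symm, zero_mul, sub_zero]

theorem mvc_M.R_r (e : E) : M.R K (G.r e) =
    if ∃ t, M.et t = e then ed K G M.f0 * gh K G M.f0 else 0 := by
  split_ifs with h
  · obtain ⟨t, rfl⟩ := h
    rw [M.r_et, M.R_vt, M.F_t0, star_ed]
  · exact M.R_ne fun t ht => h (M.into e t ht.symm).2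

theorem mvc_M.er' (x : E ⊕ (T ⊕ W)) : M.u' K x * M.q' K (M.gr.r x) = M.u' K x := by
  cases x with
  | inl e =>
    rw [M.r_l]
    change _ * (vx K G (G.r e) - M.R K (G.r e)) = _
    rw [M.R_r]
    by_cases h : ∃ t, M.et t = e
    · rw [if_pos h]
      obtain ⟨t, rfl⟩ := h
      change (ed K G (M.et t) - ed K G (M.et t) * (ed K G M.f0 * gh K G M.f0)) *
        (vx K G (G.r (M.et t)) - ed K G M.f0 * gh K G M.f0) =
        ed K G (M.et t) - ed K G (M.et t) * (ed K G M.f0 * gh K G M.f0)
      have h1 : gh K G M.f0 * vx K G (G.r (M.et t)) = gh K G M.f0 := by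
        rw [M.r_et, ← M.s_f0, gh_vx]
      have h2 : gh K G M.f0 * ed K G M.f0 * gh K G M.f0 = gh K G M.f0 := by
        rw [gh_ed, vx_gh]
      have h3 : (ed K G (M.et t) - ed K G (M.et t) * (ed K G M.f0 * gh K G M.f0)) *
          (vx K G (G.r (M.et t)) - ed K G M.f0 * gh K G M.f0) =
          ed K G (M.et t) * vx K G (G.r (M.et t)) - ed K G (M.et t) * ed K G M.f0 *
          (gh K G M.f0 * vx K G (G.r (M.et t))) - ed K G (M.et t) * (ed K G M.f0 * gh K G M.f0) +
          ed K G (M.et t) * ed K G M.f0 * (gh K G M.f0 * ed K G M.f0 * gh K G M.f0) := by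
        noncomm_ring
      rw [h3, h1, h2, ed_vx]
      noncomm_ring
    · rw [if_neg h, M.u'_ne fun t ht => h ⟨t, ht⟩, sub_zero, ed_vx]
  | inr t =>
    rw [M.r_r]
    change ed K G (M.et t) * ed K G M.f0 * (vx K G (G.r M.f0) - M.R K (G.r M.f0)) =
      ed K G (M.et t) * ed K G M.f0
    rw [M.R_w, sub_zero, mul_assoc, ed_vx]

theorem mvc_M.ge' (x : E ⊕ (T ⊕ W)) : star (M.u' K x) * M.u' K x = M.q' K (M.gr.r x) := by
  cases x with
  | inl e =>
    rw [M.r_l]
    change _ = vx K G (G.r e) - M.R K (G.r e)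
    rw [M.R_r]
    by_cases h : ∃ t, M.et t = e
    · rw [if_pos h]
      obtain ⟨t, rfl⟩ := h
      change star (ed K G (M.et t) - ed K G (M.et t) * (ed K G M.f0 * gh K G M.f0)) *
        (ed K G (M.et t) - ed K G (M.et t) * (ed K G M.f0 * gh K G M.f0)) = _
      rw [star_sub, star_mul, star_mul, star_ed, star_ed, star_gh]
      have h3 : (gh K G (M.et t) - ed K G M.f0 * gh K G M.f0 * gh K G (M.et t)) *
          (ed K G (M.et t) - ed K G (M.et t) * (ed K G M.f0 * gh K G M.f0)) =
          gh K G (M.et t) * ed K G (M.et t) -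
          gh K G (M.et t) * ed K G (M.et t) * ed K G M.f0 * gh K G M.f0 -
          ed K G M.f0 * (gh K G M.f0 * (gh K G (M.et t) * ed K G (M.et t))) +
          ed K G M.f0 * (gh K G M.f0 * (gh K G (M.et t) * ed K G (M.et t))) * ed K G M.f0 *
          gh K G M.f0 := by
        noncomm_ring
      have h1 : vx K G (G.r (M.et t)) * ed K G M.f0 = ed K G M.f0 := by
        rw [M.r_et, ← M.s_f0, vx_ed]
      have h2 : gh K G M.f0 * vx K G (G.r (M.et t)) = gh K G M.f0 := by
        rw [M.r_et, ← M.s_f0, gh_vx]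
      have h4 : ed K G M.f0 * gh K G M.f0 * ed K G M.f0 * gh K G M.f0 =
          ed K G M.f0 * gh K G M.f0 := by
        rw [mul_assoc (ed K G M.f0), gh_ed, ed_vx]
      rw [h3, gh_ed, h1, h2, h4]
      noncomm_ring
    · rw [if_neg h, M.u'_ne fun t ht => h ⟨t, ht⟩, sub_zero, star_ed, gh_ed]
  | inr t =>
    rw [M.r_r]
    change star (ed K G (M.et t) * ed K G M.f0) * (ed K G (M.et t) * ed K G M.f0) =
      (vx K G (G.r M.f0) - M.R K (G.r M.f0))
    rw [M.R_w, sub_zero, star_mul, star_ed, star_ed]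
    have h : gh K G M.f0 * gh K G (M.et t) * (ed K G (M.et t) * ed K G M.f0) =
      gh K G M.f0 * (gh K G (M.et t) * ed K G (M.et t) * ed K G M.f0) := by
      simp only [mul_assoc]
    rw [h, gh_ed, M.r_et, ← M.s_f0, vx_ed, gh_ed]

theorem mvc_M.lr' (e : E) (t : T ⊕ W) : star (M.u' K (.inl e)) * M.u' K (.inr t) = 0 := by
  change star (ed K G e - ed K G e * (ed K G M.f0 * gh K G M.f0)) *
    (ed K G (M.et t) * ed K G M.f0) = 0
  rw [star_sub, star_mul, star_mul, star_ed, star_ed, star_gh]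
  have h1 : (gh K G e - ed K G M.f0 * gh K G M.f0 * gh K G e) *
      (ed K G (M.et t) * ed K G M.f0) = gh K G e * ed K G (M.et t) * ed K G M.f0 -
      ed K G M.f0 * gh K G M.f0 * (gh K G e * ed K G (M.et t) * ed K G M.f0) := by
    noncomm_ring
  rw [h1]
  by_cases h : M.et t = e
  · subst h
    have h2 : vx K G (G.r (M.et t)) * ed K G M.f0 = ed K G M.f0 := by
      rw [M.r_et, ← M.s_f0, vx_ed]
    rw [gh_ed, h2, mul_assoc, gh_ed, ed_vx, sub_self]
  · rw [gh_ed_of_ne (Ne.symm h)]; simp

theorem mvc_M.gf' (x y : E ⊕ (T ⊕ W)) (hxy : x ≠ y) : star (M.u' K x) * M.u' K y = 0 := by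
  cases x with
  | inl e =>
    cases y with
    | inl e' =>
      change star (ed K G e - ed K G e * (ed K G M.f0 * gh K G M.f0)) *
        (ed K G e' - ed K G e' * (ed K G M.f0 * gh K G M.f0)) = 0
      rw [star_sub, star_mul, star_mul, star_ed, star_ed, star_gh]
      have h3 : (gh K G e - ed K G M.f0 * gh K G M.f0 * gh K G e) *
          (ed K G e' - ed K G e' * (ed K G M.f0 * gh K G M.f0)) =
          gh K G e * ed K G e' -
          gh K G e * ed K G e' * ed K G M.f0 * gh K G M.f0 -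
          ed K G M.f0 * (gh K G M.f0 * (gh K G e * ed K G e')) +
          ed K G M.f0 * (gh K G M.f0 * (gh K G e * ed K G e')) * ed K G M.f0 *
          gh K G M.f0 := by
        noncomm_ring
      rw [h3, gh_ed_of_ne (by simpa using hxy)]
      simp
    | inr t => exact M.lr' e t
  | inr t =>
    cases y with
    | inl e =>
      have h := congrArg star (M.lr' (K := K) e t)
      rwa [star_mul, star_star, star_zero] at h
    | inr t' =>
      change star (ed K G (M.et t) * ed K G M.f0) * (ed K G (M.et t') * ed K G M.f0) = 0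
      rw [star_mul, star_ed, star_ed]
      have h : gh K G M.f0 * gh K G (M.et t) * (ed K G (M.et t') * ed K G M.f0) =
        gh K G M.f0 * (gh K G (M.et t) * ed K G (M.et t') * ed K G M.f0) := by
        simp only [mul_assoc]
      rw [h, gh_ed_of_ne, zero_mul, mul_zero]
      intro h'
      have := M.et_inj h'
      exact hxy (by rw [this])


/-- `et t` transported -/
theorem mvc_M.uu'_l (e : E) : M.u' K (.inl e) * star (M.u' K (.inl e)) =
    ed K G e * gh K G e -
      ∑ t, if M.et t = e then M.u' K (.inr t) * star (M.u' K (.inr t)) else 0 := by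
  by_cases h : ∃ t, M.et t = e
  · obtain ⟨t, rfl⟩ := h
    rw [Finset.sum_eq_single t]
    · rw [if_pos rfl]
      change (ed K G (M.et t) - ed K G (M.et t) * (ed K G M.f0 * gh K G M.f0)) *
        star (ed K G (M.et t) - ed K G (M.et t) * (ed K G M.f0 * gh K G M.f0)) =
        ed K G (M.et t) * gh K G (M.et t) -
        (ed K G (M.et t) * ed K G M.f0) * star (ed K G (M.et t) * ed K G M.f0)
      rw [star_sub, star_mul, star_mul, star_mul, star_ed, star_ed, star_gh]
      have h1 : (ed K G (M.et t) - ed K G (M.et t) * (ed K G M.f0 * gh K G M.f0)) *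
          (gh K G (M.et t) - ed K G M.f0 * gh K G M.f0 * gh K G (M.et t)) =
          ed K G (M.et t) * gh K G (M.et t) -
          ed K G (M.et t) * ed K G M.f0 * gh K G M.f0 * gh K G (M.et t) -
          ed K G (M.et t) * ed K G M.f0 * gh K G M.f0 * gh K G (M.et t) +
          ed K G (M.et t) * ed K G M.f0 * (gh K G M.f0 * ed K G M.f0 * gh K G M.f0) *
          gh K G (M.et t) := by
        noncomm_ring
      have h2 : gh K G M.f0 * ed K G M.f0 * gh K G M.f0 = gh K G M.f0 := by
        rw [gh_ed, vx_gh]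
      rw [h1, h2]
      noncomm_ring
    · intro t' _ h
      rw [if_neg fun h' => h (M.et_inj h')]
    · intro h; exact absurd (Finset.mem_univ _) h
  · have h1 : ∑ t, (if M.et t = e then M.u' K (.inr t) * star (M.u' K (.inr t)) else 0) = 0 := by
      refine Finset.sum_eq_zero fun t _ => ?_
      rw [if_neg fun ht => h ⟨t, ht⟩]
    rw [h1, sub_zero, M.u'_ne fun t ht => h ⟨t, ht⟩, star_ed]

theorem mvc_M.uu'_t {t : T} (h : t ≠ M.t0) :
    M.u' K (.inr (.inl t)) * star (M.u' K (.inr (.inl t))) = M.F K t * star (M.F K t) := by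
  rw [M.F_t h]; rfl

theorem mvc_vx_sum (v : V) (h0 : ∃ e, G.s e = v) :
    vx K G v = ∑ e, if G.s e = v then ed K G e * gh K G e else 0 := by
  have h2 : {y | G.s y = v}.Finite := Set.toFinite _
  rw [vx_eq_sum _ h2 h0, ← Finset.sum_filter]
  refine Finset.sum_congr ?_ fun _ _ => rfl
  ext y
  simp

theorem mvc_M.ck' (x : V ⊕ T) (h0 : ∃ y, M.gr.s y = x) :
    M.q' K x = ∑ y, if M.gr.s y = x then M.u' K y * star (M.u' K y) else 0 := by
  rw [Fintype.sum_sum_type]
  cases x with
  | inl v =>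
    have h1 : ∃ e, G.s e = v := by
      obtain ⟨y, hy⟩ := h0
      cases y with
      | inl e =>
        by_cases he : e = M.f0
        · rw [he, M.s_f] at hy; exact absurd hy (by simp)
        · rw [M.s_e he] at hy; exact ⟨e, Sum.inl_injective hy⟩
      | inr y =>
        rcases y with t | w
        · by_cases ht : t = M.t0
          · rw [ht, M.s_0] at hy; exact ⟨M.f0, M.s_f0.trans (Sum.inl_injective hy)⟩
          · rw [M.s_t ht] at hy; exact absurd hy (by simp)
        · rw [M.s_w] at hy; exact ⟨_, Sum.inl_injective hy⟩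
    -- the sum over the old edges
    have h2 : ∀ e, (if M.gr.s (.inl e) = .inl v then M.u' K (.inl e) * star (M.u' K (.inl e))
        else 0) = (if G.s e = v then ed K G e * gh K G e else 0) -
        (if e = M.f0 then (if M.vt M.t0 = v then ed K G M.f0 * gh K G M.f0 else 0) else 0) -
        ∑ t, if M.et t = e ∧ G.s (M.et t) = v then M.u' K (.inr t) * star (M.u' K (.inr t))
          else 0 := by
      intro e
      by_cases he : e = M.f0
      · subst he
        rw [M.s_f, if_neg (by simp), if_pos rfl, M.s_f0, sub_self, zero_sub, eq_comm, neg_eq_zero]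
        refine Finset.sum_eq_zero fun t _ => ?_
        rw [if_neg fun h => M.et_ne t h.1]
      · rw [M.s_e he, if_neg he, sub_zero]
        by_cases hv : G.s e = v
        · rw [if_pos (by rw [hv]), if_pos hv, M.uu'_l]
          congr 1
          refine Finset.sum_congr rfl fun t _ => ?_
          by_cases ht : M.et t = e
          · rw [if_pos ht, if_pos]
            refine ⟨ht, ?_⟩
            rw [ht, hv]
          · rw [if_neg ht, if_neg fun h' => ht h'.1]
        · rw [if_neg (by simpa using hv), if_neg hv, zero_sub, eq_comm, neg_eq_zero]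
          refine Finset.sum_eq_zero fun t _ => ?_
          rw [if_neg]
          rintro ⟨h6, h7⟩
          rw [h6] at h7
          exact hv h7
    rw [Finset.sum_congr rfl fun e _ => h2 e, Finset.sum_sub_distrib, Finset.sum_sub_distrib,
      ← mvc_vx_sum v h1]
    have h3 : ∑ e, (if e = M.f0 then (if M.vt M.t0 = v then ed K G M.f0 * gh K G M.f0 else 0)
        else 0) = if M.vt M.t0 = v then ed K G M.f0 * gh K G M.f0 else 0 := by
      rw [Finset.sum_ite_eq' Finset.univ M.f0]
      simp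
    have h4 : ∑ e, (∑ t, if M.et t = e ∧ G.s (M.et t) = v then M.u' K (.inr t) *
        star (M.u' K (.inr t)) else 0) =
        ∑ t, if G.s (M.et t) = v then M.u' K (.inr t) * star (M.u' K (.inr t)) else 0 := by
      rw [Finset.sum_comm]
      refine Finset.sum_congr rfl fun t _ => ?_
      rw [Finset.sum_eq_single (M.et t)]
      · simp only [true_and]
      · intro e _ he
        rw [if_neg fun h => he h.1.symm]
      · intro h; exact absurd (Finset.mem_univ _) h
    have h4' : ∑ t, (if G.s (M.et t) = v then M.u' K (.inr t) * star (M.u' K (.inr t)) else 0) =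
        ∑ t, (if M.vt t = v then M.u' K (.inr (.inl t)) * star (M.u' K (.inr (.inl t))) else 0) +
        ∑ w, (if G.s (M.et (.inr w)) = v then M.u' K (.inr (.inr w)) *
          star (M.u' K (.inr (.inr w))) else 0) := by
      rw [Fintype.sum_sum_type]
      congr 1
      refine Finset.sum_congr rfl fun t _ => ?_
      rw [M.s_et]
    have h5' : ∑ t, (if M.gr.s (.inr t) = .inl v then M.u' K (.inr t) * star (M.u' K (.inr t))
        else 0) = ∑ t, (if M.gr.s (.inr (.inl t)) = .inl v then M.u' K (.inr (.inl t)) *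
          star (M.u' K (.inr (.inl t))) else 0) +
        ∑ w, (if G.s (M.et (.inr w)) = v then M.u' K (.inr (.inr w)) *
          star (M.u' K (.inr (.inr w))) else 0) := by
      rw [Fintype.sum_sum_type]
      congr 1
      refine Finset.sum_congr rfl fun w _ => ?_
      rw [M.s_w]
      simp only [Sum.inl.injEq]
    have h5 : ∑ t, (if M.gr.s (.inr (.inl t)) = .inl v then M.u' K (.inr (.inl t)) *
        star (M.u' K (.inr (.inl t))) else 0) = if M.vt M.t0 = v then
          M.u' K (.inr (.inl M.t0)) * star (M.u' K (.inr (.inl M.t0))) else 0 := by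
      rw [Finset.sum_eq_single M.t0]
      · rw [M.s_0]
        simp only [Sum.inl.injEq]
      · intro t _ ht
        rw [M.s_t ht, if_neg (by simp)]
      · intro h; exact absurd (Finset.mem_univ _) h
    have h6 : M.R K v = (∑ t, if M.vt t = v then M.u' K (.inr (.inl t)) *
          star (M.u' K (.inr (.inl t))) else 0)
        - (if M.vt M.t0 = v then M.u' K (.inr (.inl M.t0)) * star (M.u' K (.inr (.inl M.t0)))
          else 0) +
        (if M.vt M.t0 = v then ed K G M.f0 * gh K G M.f0 else 0) := by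
      unfold mvc_M.R
      rw [← Finset.add_sum_erase _ _ (Finset.mem_univ M.t0),
        ← Finset.add_sum_erase _ (fun t => if M.vt t = v then M.u' K (.inr (.inl t)) *
          star (M.u' K (.inr (.inl t))) else 0) (Finset.mem_univ M.t0), M.F_t0, star_ed]
      have h7 : ∑ t ∈ Finset.univ.erase M.t0, (if M.vt t = v then M.F K t * star (M.F K t) else 0)
          = ∑ t ∈ Finset.univ.erase M.t0,
            (if M.vt t = v then M.u' K (.inr (.inl t)) * star (M.u' K (.inr (.inl t)))
              else 0) := by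
        refine Finset.sum_congr rfl fun t ht => ?_
        rw [M.uu'_t (Finset.ne_of_mem_erase ht)]
      rw [h7]
      abel
    rw [h3, h4, h4', h5', h5]
    change vx K G v - M.R K v = _
    rw [h6]
    abel
  | inr t =>
    change M.F K t * star (M.F K t) = _
    have hw : ∀ t', (M.gr.s (.inr t') = .inr t ↔ t ≠ M.t0 ∧ t' = .inl t) := by
      intro t'
      rcases t' with t' | w
      · by_cases h : t' = M.t0
        · rw [h, M.s_0]
          constructor
          · intro h'; exact absurd h' (by simp)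
          · rintro ⟨h1, h2⟩; exact absurd (Sum.inl_injective h2).symm h1
        · rw [M.s_t h]
          constructor
          · intro h'
            have h3 := Sum.inr_injective h'
            subst h3
            exact ⟨h, rfl⟩
          · rintro ⟨-, h2⟩; rw [Sum.inl_injective h2]
      · rw [M.s_w]; simp
    by_cases ht : t = M.t0
    · subst ht
      have h1 : ∑ t, (if M.gr.s (.inr t) = .inr M.t0 then M.u' K (.inr t) *
          star (M.u' K (.inr t)) else 0) = 0 := by
        refine Finset.sum_eq_zero fun t _ => ?_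
        rw [if_neg]
        intro h
        exact ((hw t).1 h).1 rfl
      rw [h1, add_zero, Finset.sum_eq_single M.f0]
      · rw [if_pos M.s_f, M.u'_f, M.F_t0]
      · intro e _ he
        rw [M.s_e he, if_neg (by simp)]
      · intro h; exact absurd (Finset.mem_univ _) h
    · have h1 : ∑ e, (if M.gr.s (.inl e) = .inr t then M.u' K (.inl e) *
          star (M.u' K (.inl e)) else 0) = 0 := by
        refine Finset.sum_eq_zero fun e _ => ?_
        rw [if_neg]
        by_cases he : e = M.f0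
        · rw [he, M.s_f]; intro h; exact ht (Sum.inr_injective h).symm
        · rw [M.s_e he]; simp
      rw [h1, zero_add, Finset.sum_eq_single (.inl t)]
      · rw [if_pos (M.s_t ht), M.uu'_t ht]
      · intro t' _ ht'
        rw [if_neg]
        intro h
        exact ht' ((hw t').1 h).2
      · intro h; exact absurd (Finset.mem_univ _) h

theorem mvc_M.rep' : IsRep K M.gr (M.q' K) (M.u' K) (fun e => star (M.u' K e)) where
  vv v := by rw [M.q'_q', if_pos rfl]
  vw v w h := by rw [M.q'_q', if_neg h]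
  se := M.se'
  er := M.er'
  rg e := by
    rw [← M.q'_star, ← star_mul, M.er']
  gs e := by
    rw [← M.q'_star, ← star_mul, M.se']
  ge := M.ge'
  gf := M.gf'
  ck v h h0 := by
    rw [M.ck' v h0, ← Finset.sum_filter]
    refine Finset.sum_congr ?_ fun _ _ => rfl
    ext e
    simp

theorem mvc_M.q_mem (v : V) : M.q K v ∈ L K M.gr := by
  unfold mvc_M.q
  refine (L K M.gr).add_mem (vx_mem _) ((L K M.gr).sum_mem fun t _ => ?_)
  split_ifs
  · exact vx_mem _
  · exact (L K M.gr).zero_mem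

theorem mvc_M.u_mem (e : E) : M.u K e ∈ L K M.gr := by
  unfold mvc_M.u mvc_M.la
  refine (L K M.gr).add_mem (ed_mem _) ((L K M.gr).mul_mem ((L K M.gr).sum_mem fun t _ => ?_)
    (gh_mem _))
  split_ifs
  · exact ed_mem _
  · exact (L K M.gr).zero_mem

theorem mvc_M.F_mem (t : T) : M.F K t ∈ L K G := by
  unfold mvc_M.F
  split_ifs
  · exact ed_mem _
  · exact (L K G).mul_mem (ed_mem _) (ed_mem _)

theorem mvc_M.q'_mem (x : V ⊕ T) : M.q' K x ∈ L K G := by
  cases x with
  | inl v =>
    change vx K G v - M.R K v ∈ _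
    refine (L K G).sub_mem (vx_mem _) ?_
    unfold mvc_M.R
    refine (L K G).sum_mem fun t _ => ?_
    split_ifs
    · exact (L K G).mul_mem (M.F_mem t) (star_mem_L (M.F_mem t))
    · exact (L K G).zero_mem
  | inr t => exact (L K G).mul_mem (M.F_mem t) (star_mem_L (M.F_mem t))

theorem mvc_M.u'_mem (x : E ⊕ (T ⊕ W)) : M.u' K x ∈ L K G := by
  cases x with
  | inl e =>
    exact (L K G).sub_mem (ed_mem _) ((L K G).mul_mem (ed_mem _)
      ((L K G).mul_mem (ed_mem _) (gh_mem _)))
  | inr t => exact (L K G).mul_mem (ed_mem _) (ed_mem _)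

theorem mvc_M.u_f : M.u K M.f0 = ed K M.gr (.inl M.f0) := by
  unfold mvc_M.u
  rw [M.la_ne M.et_ne, zero_mul, add_zero]

theorem mvc_M.u_et_f (t : T ⊕ W) : M.u K (M.et t) * M.u K M.f0 = ed K M.gr (.inr t) := by
  rw [M.u_f, mvc_M.u, M.la_et, add_mul, M.ed_f, zero_add, mul_assoc, gh_ed, M.r_l, ← M.r_r t, ed_vx]

theorem mvc_M.lift_F (t : T) :
    lift M.rep (M.F K t * star (M.F K t)) = vx K M.gr (.inr t) := by
  rw [map_mul, lift_star M.rep M.q_star]
  by_cases h : t = M.t0
  · subst h
    rw [M.F_t0, lift_ed, M.u_f, star_ed, M.f_f]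
  · rw [M.F_t h, map_mul, lift_ed, lift_ed, M.u_et_f, star_ed, M.t_t h]

theorem mvc_M.h1 (v : V) : lift M.rep' (M.q K v) = vx K G v := by
  unfold mvc_M.q
  rw [map_add, lift_vx, map_sum]
  have h : ∀ t, lift M.rep' (if M.vt t = v then vx K M.gr (.inr t) else 0) =
      if M.vt t = v then M.F K t * star (M.F K t) else 0 := by
    intro t
    split_ifs
    · rw [lift_vx]; rfl
    · rw [map_zero]
  rw [Finset.sum_congr rfl fun t _ => h t]
  change vx K G v - M.R K v + M.R K v = _
  rw [sub_add_cancel]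

theorem mvc_M.h2 (e : E) : lift M.rep' (M.u K e) = ed K G e := by
  unfold mvc_M.u
  rw [map_add, lift_ed, map_mul, lift_gh]
  rw [M.u'_f, star_ed]
  by_cases h : ∃ t, M.et t = e
  · obtain ⟨t, rfl⟩ := h
    rw [M.la_et, lift_ed]
    change ed K G (M.et t) - ed K G (M.et t) * (ed K G M.f0 * gh K G M.f0) +
      ed K G (M.et t) * ed K G M.f0 * gh K G M.f0 = _
    rw [mul_assoc, sub_add_cancel]
  · rw [M.la_ne fun t ht => h ⟨t, ht⟩, M.u'_ne fun t ht => h ⟨t, ht⟩, map_zero, zero_mul, add_zero]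

theorem mvc_M.h1' (x : V ⊕ T) : lift M.rep (M.q' K x) = vx K M.gr x := by
  cases x with
  | inl v =>
    change lift M.rep (vx K G v - M.R K v) = _
    unfold mvc_M.R
    rw [map_sub, lift_vx, map_sum]
    have h : ∀ t, lift M.rep (if M.vt t = v then M.F K t * star (M.F K t) else 0) =
        if M.vt t = v then vx K M.gr (.inr t) else 0 := by
      intro t
      split_ifs
      · rw [M.lift_F]
      · rw [map_zero]
    rw [Finset.sum_congr rfl fun t _ => h t, mvc_M.q, add_sub_cancel_right]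
  | inr t => exact M.lift_F t

theorem mvc_M.h2' (x : E ⊕ (T ⊕ W)) : lift M.rep (M.u' K x) = ed K M.gr x := by
  cases x with
  | inl e =>
    change lift M.rep (ed K G e - ed K G e * (ed K G M.f0 * gh K G M.f0)) = _
    rw [map_sub, map_mul, ← star_ed M.f0, map_mul, lift_star M.rep M.q_star, lift_ed, lift_ed,
      M.u_f, star_ed, M.f_f, mvc_M.u, add_mul, mvc_edv (by rw [M.r_l]; simp), zero_add, mul_assoc,
      ← M.s_f, gh_vx, add_sub_cancel_right]
  | inr t =>
    change lift M.rep (ed K G (M.et t) * ed K G M.f0) = _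
    rw [map_mul, lift_ed, lift_ed, M.u_et_f]

theorem mvc_M.equiv : Nonempty (L K G ≃⋆ₐ[K] L K M.gr) :=
  mkEquiv M.rep M.rep' M.q_mem M.u_mem M.q'_mem M.u'_mem M.h1 M.h2 M.h1' M.h2' M.q_star M.q'_star

end mvcaux

section mvcnf

variable {I : Type a} [DecidableEq I] {D : Dat I}

/-- the data of the move for the normal form -/
def mvc_d (D : Dat I) (i k : I) (hc : D.cyc i) (h0 : D.n i i = 0) (hik : k ≠ i)
    (m0 : Fin (D.n i k)) : mvc_M (NG D) (Option (Fin (D.a i))) (Σ l : I, Fin (D.n l i)) where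
  vt t := ⟨i, t⟩
  et x := match x with
    | .inl none => .z i hc
    | .inl (some s) => .g i s
    | .inr x => .f x.1 i x.2
  t0 := none
  f0 := .f i k m0
  vt_inj := by
    intro s t h
    injection h with h1 h2
  et_inj := by
    rintro ((_ | s) | ⟨l, m⟩) ((_ | t) | ⟨l', m'⟩) h
    · rfl
    · exact absurd h (by simp)
    · exact absurd h (by simp)
    · exact absurd h (by simp)
    · injection h with h1 h2
      rw [h2]
    · exact absurd h (by simp)
    · exact absurd h (by simp)
    · exact absurd h (by simp)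
    · injection h with h1 h2 h3
      have h1' : l = l' := h1
      subst h1'
      have h4 : m = m' := eq_of_heq h3
      rw [h4]
  s_et := by rintro (_ | t) <;> rfl
  s_ew := by
    rintro ⟨l, m⟩ t h
    have h' : (⟨l, none⟩ : NV D) = ⟨i, t⟩ := h
    injection h' with h1 h2
    subst h1
    have := m.2
    omega
  r_et := by rintro ((_ | t) | ⟨l, m⟩) <;> rfl
  into := by
    rintro (⟨i', h'⟩ | ⟨i', j', k'⟩ | ⟨i', s'⟩) t h
    · have h' : (⟨i', none⟩ : NV D) = ⟨i, t⟩ := h
      injection h' with h1 h2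
      subst h1
      exact ⟨(eq_of_heq h2).symm, .inl none, rfl⟩
    · have h' : (⟨j', none⟩ : NV D) = ⟨i, t⟩ := h
      injection h' with h1 h2
      subst h1
      exact ⟨(eq_of_heq h2).symm, .inr ⟨i', k'⟩, rfl⟩
    · have h' : (⟨i', none⟩ : NV D) = ⟨i, t⟩ := h
      injection h' with h1 h2
      subst h1
      exact ⟨(eq_of_heq h2).symm, .inl (some s'), rfl⟩
  s_f0 := rfl
  r_f0 t h := by
    have h' : (⟨k, none⟩ : NV D) = ⟨i, t⟩ := h
    injection h' with h1 h2
    exact hik h1

/-- the number of a copy -/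
def mvc_idx {n : ℕ} : Option (Fin n) → ℕ
  | none => n
  | some s => s.1

theorem mvc_idx_lt {n : ℕ} (t : Option (Fin n)) : mvc_idx t < n + 1 := by
  cases t with
  | none => exact Nat.lt_succ_self _
  | some s => exact Nat.lt_succ_of_lt s.2

theorem mvc_idx_inj {n : ℕ} {t t' : Option (Fin n)} (h : mvc_idx t = mvc_idx t') : t = t' := by
  cases t with
  | none =>
    cases t' with
    | none => rfl
    | some s => exact absurd h.symm (Nat.ne_of_lt s.2)
  | some s =>
    cases t' with
    | none => exact absurd h (Nat.ne_of_lt s.2)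
    | some s' => rw [Fin.ext h]

theorem mvc_idx_surj {n m : ℕ} (h : m < n + 1) : ∃ t : Option (Fin n), mvc_idx t = m := by
  rcases Nat.lt_succ_iff_lt_or_eq.1 h with h1 | h1
  · exact ⟨some ⟨m, h1⟩, rfl⟩
  · exact ⟨none, h1.symm⟩

/-- code of a vertex -/
def mvc_cv : NV D → I × ℕ
  | ⟨l, none⟩ => (l, 0)
  | ⟨l, some s⟩ => (l, s.1 + 1)

theorem mvc_cv_inj : Function.Injective (mvc_cv (D := D)) := by
  rintro ⟨l, _ | s⟩ ⟨l', _ | s'⟩ h
  · have h1 : l = l' := congrArg Prod.fst h
    subst h1; rfl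
  · have h1 : 0 = s'.1 + 1 := congrArg Prod.snd h
    exact absurd h1 (by omega)
  · have h1 : s.1 + 1 = 0 := congrArg Prod.snd h
    exact absurd h1 (by omega)
  · have h1 : l = l' := congrArg Prod.fst h
    subst h1
    have h2 : s.1 + 1 = s'.1 + 1 := congrArg Prod.snd h
    have h3 : s = s' := Fin.ext (by omega)
    rw [h3]

/-- code of an edge -/
def mvc_ce : NE D → ℕ × I × I × ℕ
  | .z l _ => (0, l, l, 0)
  | .f j l m => (1, j, l, m.1)
  | .g l s => (2, l, l, s.1)

theorem mvc_ce_inj : Function.Injective (mvc_ce (D := D)) := by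
  rintro (⟨l, h⟩ | ⟨j, l, m⟩ | ⟨l, s⟩) (⟨l', h'⟩ | ⟨j', l', m'⟩ | ⟨l', s'⟩) h <;>
    simp only [mvc_ce, Prod.mk.injEq] at h
  · obtain ⟨-, h1, -, -⟩ := h
    subst h1; rfl
  · omega
  · omega
  · omega
  · obtain ⟨-, h1, h2, h3⟩ := h
    subst h1 h2
    rw [Fin.ext h3]
  · omega
  · omega
  · omega
  · obtain ⟨-, h1, -, h3⟩ := h
    subst h1
    rw [Fin.ext h3]

/-- the old index -/
def mvc_cr (D : Dat I) (i k l : I) (s : Fin (D.a l)) : Fin ((D.col i k).a l) :=
  ⟨s.1, lt_of_lt_of_le s.2 (by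
    change D.a l ≤ if l = k then D.a k + (D.a i + 1) else D.a l
    split_ifs with h
    · subst h; exact Nat.le_add_right _ _
    · exact le_rfl)⟩

/-- the old number of an edge -/
def mvc_cf (D : Dat I) (i k j l : I) (m : Fin (D.n j l)) : Fin ((D.col i k).n j l) :=
  ⟨m.1, lt_of_lt_of_le m.2 (by
    change D.n j l ≤ if l = k then D.n j k + D.n j i else D.n j l
    split_ifs with h
    · subst h; exact Nat.le_add_right _ _
    · exact le_rfl)⟩

/-- the new index -/
def mvc_ex (D : Dat I) (i k : I) (t : Option (Fin (D.a i))) : Fin ((D.col i k).a k) :=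
  ⟨D.a k + mvc_idx t, by
    change _ < if k = k then D.a k + (D.a i + 1) else D.a k
    rw [if_pos rfl]
    exact Nat.add_lt_add_left (mvc_idx_lt t) _⟩

/-- the new number of an edge -/
def mvc_ef (D : Dat I) (i k l : I) (m : Fin (D.n l i)) : Fin ((D.col i k).n l k) :=
  ⟨D.n l k + m.1, by
    change _ < if k = k then D.n l k + D.n l i else D.n l k
    rw [if_pos rfl]
    exact Nat.add_lt_add_left m.2 _⟩

/-- the map on vertices -/
def mvc_fv (D : Dat I) (i k : I) : NV D ⊕ Option (Fin (D.a i)) → NV (D.col i k)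
  | .inl ⟨l, none⟩ => ⟨l, none⟩
  | .inl ⟨l, some s⟩ => ⟨l, some (mvc_cr D i k l s)⟩
  | .inr t => ⟨k, some (mvc_ex D i k t)⟩

theorem mvc_fv_bij (i k : I) : Function.Bijective (mvc_fv D i k) := by
  constructor
  · intro x y h
    have h' := congrArg mvc_cv h
    rcases x with (⟨l1, _ | s1⟩ | t1) <;> rcases y with (⟨l2, _ | s2⟩ | t2) <;>
      simp only [mvc_fv, mvc_cv, mvc_cr, mvc_ex, Prod.mk.injEq] at h'
    · obtain ⟨h1, -⟩ := h'
      subst h1; rfl
    · omega
    · omega
    · omega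
    · obtain ⟨h1, h2⟩ := h'
      subst h1
      have h3 : s1 = s2 := Fin.ext (by omega)
      rw [h3]
    · obtain ⟨h1, h2⟩ := h'
      subst h1
      have := s1.2
      omega
    · omega
    · obtain ⟨h1, h2⟩ := h'
      subst h1
      have := s2.2
      omega
    · obtain ⟨-, h2⟩ := h'
      rw [mvc_idx_inj (t := t1) (t' := t2) (by omega)]
  · rintro ⟨l, _ | s⟩
    · exact ⟨.inl ⟨l, none⟩, rfl⟩
    · have hs : s.1 < if l = k then D.a k + (D.a i + 1) else D.a l := s.2
      by_cases hl : l = k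
      · subst hl
        rw [if_pos rfl] at hs
        by_cases h : s.1 < D.a l
        · exact ⟨.inl ⟨l, some ⟨s.1, h⟩⟩, rfl⟩
        · obtain ⟨t, ht⟩ := mvc_idx_surj (n := D.a i) (m := s.1 - D.a l) (by omega)
          refine ⟨.inr t, mvc_cv_inj ?_⟩
          simp only [mvc_fv, mvc_cv, mvc_ex, Prod.mk.injEq, true_and]
          omega
      · rw [if_neg hl] at hs
        exact ⟨.inl ⟨l, some ⟨s.1, hs⟩⟩, rfl⟩

open Classical in
/-- the map on edges -/
noncomputable def mvc_fe (D : Dat I) (i k : I) (m0 : Fin (D.n i k)) :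
    NE D ⊕ (Option (Fin (D.a i)) ⊕ Σ l : I, Fin (D.n l i)) → NE (D.col i k)
  | .inl (.z l h) => .z l h
  | .inl (.f j l m) => if (NE.f j l m : NE D) = .f i k m0 then .g k (mvc_ex D i k none)
      else .f j l (mvc_cf D i k j l m)
  | .inl (.g l s) => .g l (mvc_cr D i k l s)
  | .inr (.inl none) => .f i k (mvc_cf D i k i k m0)
  | .inr (.inl (some s)) => .g k (mvc_ex D i k (some s))
  | .inr (.inr x) => .f x.1 k (mvc_ef D i k x.1 x.2)

theorem mvc_fe_f (i k : I) (m0 : Fin (D.n i k)) :
    mvc_fe D i k m0 (.inl (.f i k m0)) = .g k (mvc_ex D i k none) := if_pos rfl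

theorem mvc_fe_f' (i k : I) (m0 : Fin (D.n i k)) (j l : I) (m : Fin (D.n j l))
    (h : (NE.f j l m : NE D) ≠ .f i k m0) :
    mvc_fe D i k m0 (.inl (.f j l m)) = .f j l (mvc_cf D i k j l m) := if_neg h

open Classical in
theorem mvc_key (i k : I) (m0 : Fin (D.n i k))
    (x : NE D ⊕ (Option (Fin (D.a i)) ⊕ Σ l : I, Fin (D.n l i))) :
    (∃ l h, x = .inl (.z l h) ∧ mvc_ce (mvc_fe D i k m0 x) = (0, l, l, 0)) ∨
    (∃ y : NE D, (x = if y = .f i k m0 then .inr (.inl none) else .inl y) ∧
      (∃ j l m, y = .f j l m) ∧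
      mvc_ce (mvc_fe D i k m0 x) = mvc_ce y) ∨
    (∃ w : Σ l : I, Fin (D.n l i), x = .inr (.inr w) ∧
      mvc_ce (mvc_fe D i k m0 x) = (1, w.1, k, D.n w.1 k + w.2.1)) ∨
    (∃ l, ∃ s : Fin (D.a l), x = .inl (.g l s) ∧
      mvc_ce (mvc_fe D i k m0 x) = (2, l, l, s.1)) ∨
    (∃ t, (x = match t with
        | none => .inl (.f i k m0)
        | some s => .inr (.inl (some s))) ∧
      mvc_ce (mvc_fe D i k m0 x) = (2, k, k, D.a k + mvc_idx t)) := by
  classical
  rcases x with ((⟨l, h⟩ | ⟨j, l, m⟩ | ⟨l, s⟩) | ((_ | s) | w))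
  · exact .inl ⟨l, h, rfl, rfl⟩
  · by_cases h : (NE.f j l m : NE D) = .f i k m0
    · rw [h]
      refine .inr (.inr (.inr (.inr ⟨none, rfl, ?_⟩)))
      rw [mvc_fe_f]; rfl
    · refine .inr (.inl ⟨.f j l m, by rw [if_neg h], ⟨j, l, m, rfl⟩, ?_⟩)
      rw [mvc_fe_f' _ _ _ _ _ _ h]; rfl
  · exact .inr (.inr (.inr (.inl ⟨l, s, rfl, rfl⟩)))
  · exact .inr (.inl ⟨.f i k m0, by rw [if_pos rfl], ⟨i, k, m0, rfl⟩, rfl⟩)
  · exact .inr (.inr (.inr (.inr ⟨some s, rfl, rfl⟩)))
  · exact .inr (.inr (.inl ⟨w, rfl, rfl⟩))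

theorem mvc_fe_inj (i k : I) (m0 : Fin (D.n i k)) : Function.Injective (mvc_fe D i k m0) := by
  intro x y hxy
  have hc := congrArg mvc_ce hxy
  rcases mvc_key i k m0 x with ⟨l1, h1, hx, e1⟩ | ⟨x', hx, ⟨j1, l1, m1, hx'⟩, e1⟩ | ⟨w1, hx, e1⟩ |
    ⟨l1, s1, hx, e1⟩ | ⟨t1, hx, e1⟩ <;>
  rcases mvc_key i k m0 y with ⟨l2, h2, hy, e2⟩ | ⟨y', hy, ⟨j2, l2, m2, hy'⟩, e2⟩ | ⟨w2, hy, e2⟩ |
    ⟨l2, s2, hy, e2⟩ | ⟨t2, hy, e2⟩ <;>
  rw [e1, e2] at hc
  · simp only [Prod.mk.injEq] at hc
    obtain ⟨-, h3, -, -⟩ := hc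
    subst h3
    rw [hx, hy]
  · rw [hy'] at hc; simp [mvc_ce] at hc
  · simp at hc
  · simp at hc
  · simp at hc
  · rw [hx'] at hc; simp [mvc_ce] at hc
  · rw [hx, hy, mvc_ce_inj hc]
  · rw [hx'] at hc
    simp only [mvc_ce, Prod.mk.injEq] at hc
    obtain ⟨-, h3, h4, h5⟩ := hc
    subst h3 h4
    have := m1.2
    omega
  · rw [hx'] at hc; simp [mvc_ce] at hc
  · rw [hx'] at hc; simp [mvc_ce] at hc
  · simp at hc
  · rw [hy'] at hc
    simp only [mvc_ce, Prod.mk.injEq] at hc
    obtain ⟨-, h3, h4, h5⟩ := hc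
    subst h3 h4
    have := m2.2
    omega
  · obtain ⟨l1, m1⟩ := w1
    obtain ⟨l2, m2⟩ := w2
    simp only [Prod.mk.injEq] at hc
    obtain ⟨-, h3, -, h5⟩ := hc
    subst h3
    have h6 : m1 = m2 := Fin.ext (by omega)
    rw [hx, hy, h6]
  · simp at hc
  · simp at hc
  · simp at hc
  · rw [hy'] at hc; simp [mvc_ce] at hc
  · simp at hc
  · simp only [Prod.mk.injEq] at hc
    obtain ⟨-, h3, -, h5⟩ := hc
    subst h3
    rw [hx, hy, Fin.ext h5]
  · simp only [Prod.mk.injEq] at hc
    obtain ⟨-, h3, -, h5⟩ := hc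
    subst h3
    have := s1.2
    omega
  · simp at hc
  · rw [hy'] at hc; simp [mvc_ce] at hc
  · simp at hc
  · simp only [Prod.mk.injEq] at hc
    obtain ⟨-, h3, -, h5⟩ := hc
    subst h3
    have := s2.2
    omega
  · simp only [Prod.mk.injEq] at hc
    obtain ⟨-, -, -, h5⟩ := hc
    rw [hx, hy, mvc_idx_inj (t := t1) (t' := t2) (by omega)]

theorem mvc_fe_surj (i k : I) (m0 : Fin (D.n i k)) : Function.Surjective (mvc_fe D i k m0) := by
  classical
  rintro (⟨l, h⟩ | ⟨j, l, m⟩ | ⟨l, s⟩)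
  · exact ⟨.inl (.z l h), rfl⟩
  · have hm : m.1 < if l = k then D.n j k + D.n j i else D.n j l := m.2
    by_cases h : m.1 < D.n j l
    · by_cases h' : (NE.f j l ⟨m.1, h⟩ : NE D) = .f i k m0
      · refine ⟨.inr (.inl none), mvc_ce_inj ?_⟩
        have h2 := congrArg mvc_ce h'
        simp only [mvc_ce, Prod.mk.injEq] at h2
        obtain ⟨-, h3, h4, h5⟩ := h2
        subst h3 h4
        simp only [mvc_fe, mvc_ce, mvc_cf, Prod.mk.injEq, true_and]
        exact h5.symm
      · refine ⟨.inl (.f j l ⟨m.1, h⟩), ?_⟩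
        rw [mvc_fe_f' _ _ _ _ _ _ h']
        rfl
    · by_cases hl : l = k
      · subst hl
        rw [if_pos rfl] at hm
        refine ⟨.inr (.inr ⟨j, ⟨m.1 - D.n j l, by omega⟩⟩), mvc_ce_inj ?_⟩
        simp only [mvc_fe, mvc_ce, mvc_ef, Prod.mk.injEq, true_and]
        omega
      · rw [if_neg hl] at hm
        exact absurd hm h
  · have hs : s.1 < if l = k then D.a k + (D.a i + 1) else D.a l := s.2
    by_cases h : s.1 < D.a l
    · exact ⟨.inl (.g l ⟨s.1, h⟩), rfl⟩
    · by_cases hl : l = k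
      · subst hl
        rw [if_pos rfl] at hs
        obtain ⟨t, ht⟩ := mvc_idx_surj (n := D.a i) (m := s.1 - D.a l) (by omega)
        cases t with
        | none =>
          refine ⟨.inl (.f i l m0), mvc_ce_inj ?_⟩
          rw [mvc_fe_f]
          simp only [mvc_ce, mvc_ex, Prod.mk.injEq, true_and]
          omega
        | some s' =>
          refine ⟨.inr (.inl (some s')), mvc_ce_inj ?_⟩
          simp only [mvc_fe, mvc_ce, mvc_ex, Prod.mk.injEq, true_and]
          omega
      · rw [if_neg hl] at hs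
        exact absurd hs h

theorem mvc_finE [Fintype I] : Finite (NE D) := by
  classical
  refine Finite.of_surjective (fun x : {i : I // D.cyc i} ⊕ ((Σ j : I, Σ l : I, Fin (D.n j l)) ⊕
    (Σ i : I, Fin (D.a i))) => match x with
      | .inl i => NE.z i.1 i.2
      | .inr (.inl x) => NE.f x.1 x.2.1 x.2.2
      | .inr (.inr x) => NE.g x.1 x.2) ?_
  rintro (⟨l, h⟩ | ⟨j, l, m⟩ | ⟨l, s⟩)
  · exact ⟨.inl ⟨l, h⟩, rfl⟩
  · exact ⟨.inr (.inl ⟨j, l, m⟩), rfl⟩
  · exact ⟨.inr (.inr ⟨l, s⟩), rfl⟩

end mvcnf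

variable {I : Type a} [Fintype I] [DecidableEq I] (K : Type k) [Field K] [StarRing K]

theorem move_col (D : Dat I) (hD : D.Ok) (i k : I) (h : D.n i k ≠ 0) : Iso K D (D.col i k) := by
  classical
  obtain ⟨ρ, hρ⟩ := hD.hr
  have hc : D.cyc i := hD.hc i k h
  have h0 : D.n i i = 0 := by
    by_contra h'
    exact lt_irrefl _ (hρ i i h')
  have hik : k ≠ i := by
    rintro rfl
    exact h h0
  let m0 : Fin (D.n i k) := ⟨0, Nat.pos_of_ne_zero h⟩
  have := mvc_finE (D := D)
  have : Fintype (NE D) := Fintype.ofFinite _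
  let M := mvc_d D i k hc h0 hik m0
  obtain ⟨Φ⟩ := M.equiv (K := K)
  have h2 : Nonempty (L K M.gr ≃⋆ₐ[K] L K (NG (D.col i k))) := by
    refine TP.graph_iso K M.gr (NG (D.col i k)) (Equiv.ofBijective _ (mvc_fv_bij i k))
      (Equiv.ofBijective _ ⟨mvc_fe_inj i k m0, mvc_fe_surj i k m0⟩) ?_ ?_
    · intro x
      change (NG (D.col i k)).s (mvc_fe D i k m0 x) = mvc_fv D i k (M.gr.s x)
      rcases x with ((⟨l, h⟩ | ⟨j, l, m⟩ | ⟨l, s⟩) | ((_ | s) | w))
      · rw [M.s_e (by simp [M, mvc_d])]; rfl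
      · by_cases h : (NE.f j l m : NE D) = .f i k m0
        · rw [h, mvc_fe_f]
          have h3 : M.gr.s (.inl (.f i k m0)) = .inr none := M.s_f
          rw [h3]; rfl
        · rw [mvc_fe_f' i k m0 j l m h, M.s_e h]; rfl
      · rw [M.s_e (by simp [M, mvc_d])]; rfl
      · have h3 : M.gr.s (.inr (.inl none)) = .inl ⟨i, none⟩ := M.s_0
        rw [h3]; rfl
      · have h3 : M.gr.s (.inr (.inl (some s))) = .inr (some s) := M.s_t (by simp [M, mvc_d])
        rw [h3]; rfl
      · rfl
    · intro x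
      change (NG (D.col i k)).r (mvc_fe D i k m0 x) = mvc_fv D i k (M.gr.r x)
      rcases x with ((⟨l, h⟩ | ⟨j, l, m⟩ | ⟨l, s⟩) | ((_ | s) | w))
      · rfl
      · by_cases h : (NE.f j l m : NE D) = .f i k m0
        · rw [h, mvc_fe_f]; rfl
        · rw [mvc_fe_f' i k m0 j l m h]; rfl
      · rfl
      · rfl
      · rfl
      · rfl
  obtain ⟨Ψ⟩ := h2
  exact ⟨Φ.trans Ψ⟩

end Pool.Agent.Helper32.PG
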