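import Pool.Agent.Helper32.PG.Mv

/-! The row move. PIECE 19.

If `k` is a sink then `D.row i k = D`. Let `k` be a cycle, `f = f i k 0`. Write `v, z, f, g` for the
generators of `L K (NG D)` and `v', z', f', g'` for those of `L K (NG (D.row i k))`, whose edges
from `i` to `l` are the `f' i l m` with `m < D.n i l` and the additional `ε l m`, `m < D.n k l`.
Put `w = v i - f f* + f z_k f*` (so `w* w = v i`, `w w* = v i - ∑ (f f_kl)(f f_kl)*`). The map from
`D.row i k` to `D`: `z' i ↦ z_i w`, `ε l m ↦ z_i f f_klm`, all other generators to themselves. The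
map from `D` to `D.row i k`, with `w' = v' i - f' f'* + f' z'_k f'*`:
`z i ↦ z'_i w'* + ∑ ε l m * (f'_klm)* * f'*`, all other generators to themselves. Use `mkEquiv`. -/

set_option autoImplicit false
set_option linter.unusedSectionVars false

universe k a b w

namespace Pool.Agent.Helper32.PG

open Pool.Agent.Helper32.LV

section mvraux

variable {V : Type a} {E : Type b} {G : Gr V E} {W : Type w}

/-- the data of the move: the loops `z0`, `zk`, the edge `f0` and the other edges `ew` from the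
source of `zk` -/
structure mvr_M (G : Gr V E) (W : Type w) where
  z0 : E
  f0 : E
  zk : E
  ew : W → E
  ew_inj : Function.Injective ew
  rz0 : G.r z0 = G.s z0
  sf0 : G.s f0 = G.s z0
  rf0 : G.r f0 = G.s zk
  rzk : G.r zk = G.s zk
  ne : G.s zk ≠ G.s z0
  fz : f0 ≠ z0
  out : ∀ e, G.s e = G.s zk ↔ e = zk ∨ ∃ x, ew x = e
  ewk : ∀ x, ew x ≠ zk

/-- the new graph -/
def mvr_M.gr (M : mvr_M G W) : Gr V (E ⊕ W) where
  s x := match x with
    | .inl e => G.s e
    | .inr _ => G.s M.z0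
  r x := match x with
    | .inl e => G.r e
    | .inr x => G.r (M.ew x)

/-- the same data in the new graph -/
def mvr_M.lft (M : mvr_M G W) : mvr_M M.gr W where
  z0 := .inl M.z0
  f0 := .inl M.f0
  zk := .inl M.zk
  ew x := .inl (M.ew x)
  ew_inj x y h := M.ew_inj (Sum.inl_injective h)
  rz0 := M.rz0
  sf0 := M.sf0
  rf0 := M.rf0
  rzk := M.rzk
  ne := M.ne
  fz h := M.fz (Sum.inl_injective h)
  out e := by
    cases e with
    | inl e =>
      change G.s e = G.s M.zk ↔ _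
      rw [M.out e]
      simp
    | inr x =>
      change G.s M.z0 = G.s M.zk ↔ _
      constructor
      · intro h; exact absurd h.symm M.ne
      · rintro (h | ⟨y, h⟩) <;> simp at h
  ewk x h := M.ewk x (Sum.inl_injective h)

variable {K : Type k} [Field K] (M : mvr_M G W)

theorem mvr_M.s_ew (x : W) : G.s (M.ew x) = G.s M.zk := (M.out _).mpr (.inr ⟨x, rfl⟩)

theorem mvr_M.ewz (x : W) : M.ew x ≠ M.z0 := by
  intro h
  exact M.ne ((M.s_ew x).symm.trans (by rw [h]))

theorem mvr_M.zkz : M.zk ≠ M.z0 := by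
  intro h
  exact M.ne (by rw [h])

theorem mvr_M.vf : vx K G (G.s M.z0) * ed K G M.f0 = ed K G M.f0 := by
  rw [← M.sf0]; exact vx_ed _

theorem mvr_M.fu : ed K G M.f0 * vx K G (G.s M.zk) = ed K G M.f0 := by
  rw [← M.rf0]; exact ed_vx _

theorem mvr_M.uz : vx K G (G.s M.zk) * ed K G M.zk = ed K G M.zk := vx_ed _

theorem mvr_M.zu : ed K G M.zk * vx K G (G.s M.zk) = ed K G M.zk := by
  conv_lhs => rw [← M.rzk]
  exact ed_vx _

theorem mvr_M.ff : gh K G M.f0 * ed K G M.f0 = vx K G (G.s M.zk) := by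
  rw [gh_ed, M.rf0]

theorem mvr_M.zz : gh K G M.zk * ed K G M.zk = vx K G (G.s M.zk) := by
  rw [gh_ed, M.rzk]

theorem mvr_M.zv : ed K G M.z0 * vx K G (G.s M.z0) = ed K G M.z0 := by
  conv_lhs => rw [← M.rz0]
  exact ed_vx _

theorem mvr_M.zz0 : gh K G M.z0 * ed K G M.z0 = vx K G (G.s M.z0) := by
  rw [gh_ed, M.rz0]

variable (K) in
/-- the isometry -/
noncomputable def mvr_M.w (M : mvr_M G W) : U K G :=
  vx K G (G.s M.z0) - ed K G M.f0 * gh K G M.f0 + ed K G M.f0 * ed K G M.zk * gh K G M.f0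

theorem mvr_M.vw : vx K G (G.s M.z0) * M.w K = M.w K := by
  unfold mvr_M.w
  rw [mul_add, mul_sub, vx_vx, ← mul_assoc, ← mul_assoc, ← mul_assoc, M.vf]

theorem mvr_M.fv : gh K G M.f0 * vx K G (G.s M.z0) = gh K G M.f0 := by
  rw [← M.sf0]; exact gh_vx _

theorem mvr_M.uf : vx K G (G.s M.zk) * gh K G M.f0 = gh K G M.f0 := by
  rw [← M.rf0]; exact vx_gh _

theorem mvr_M.wv : M.w K * vx K G (G.s M.z0) = M.w K := by
  unfold mvr_M.w
  rw [add_mul, sub_mul, vx_vx, mul_assoc, mul_assoc, M.fv]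

theorem mvr_M.wf : M.w K * ed K G M.f0 = ed K G M.f0 * ed K G M.zk := by
  unfold mvr_M.w
  rw [add_mul, sub_mul, M.vf, mul_assoc, M.ff, mul_assoc, M.ff, M.fu, sub_self, zero_add, mul_assoc,
    M.zu]

variable [StarRing K]

theorem mvr_M.w_star : star (M.w K) = vx K G (G.s M.z0) - ed K G M.f0 * gh K G M.f0 +
    ed K G M.f0 * gh K G M.zk * gh K G M.f0 := by
  unfold mvr_M.w
  rw [star_add, star_sub, star_vx, star_mul, star_mul, star_mul, star_gh, star_ed, star_ed,
    mul_assoc]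

theorem mvr_M.vws : vx K G (G.s M.z0) * star (M.w K) = star (M.w K) := by
  have h := congrArg star (M.wv (K := K))
  rwa [star_mul, star_vx] at h

theorem mvr_M.wsv : star (M.w K) * vx K G (G.s M.z0) = star (M.w K) := by
  have h := congrArg star (M.vw (K := K))
  rwa [star_mul, star_vx] at h

theorem mvr_M.wsf : star (M.w K) * ed K G M.f0 = ed K G M.f0 * gh K G M.zk := by
  have h : gh K G M.zk * vx K G (G.s M.zk) = gh K G M.zk := gh_vx _
  rw [M.w_star, add_mul, sub_mul, M.vf, mul_assoc, M.ff, mul_assoc, M.ff, M.fu, sub_self, zero_add,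
    mul_assoc, h]

theorem mvr_M.wsw : star (M.w K) * M.w K = vx K G (G.s M.z0) := by
  have h0 : ∀ x : U K G, x * M.w K = x * (vx K G (G.s M.z0) - ed K G M.f0 * gh K G M.f0 +
    ed K G M.f0 * ed K G M.zk * gh K G M.f0) := fun _ => rfl
  rw [h0, mul_add, mul_sub, M.wsv, ← mul_assoc, ← mul_assoc, ← mul_assoc, M.wsf]
  rw [mul_assoc (ed K G M.f0) (gh K G M.zk) (ed K G M.zk), M.zz, M.fu, M.w_star]
  abel

theorem mvr_M.wws : M.w K * star (M.w K) = vx K G (G.s M.z0) - ed K G M.f0 * gh K G M.f0 +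
    ed K G M.f0 * (ed K G M.zk * gh K G M.zk) * gh K G M.f0 := by
  conv_lhs => rw [M.w_star]
  rw [mul_add, mul_sub, M.wv, ← mul_assoc, ← mul_assoc, ← mul_assoc, M.wf]
  unfold mvr_M.w
  rw [← mul_assoc]
  abel

theorem mvr_M.wse (x : W) : star (M.w K) * ed K G M.f0 * ed K G (M.ew x) = 0 := by
  rw [M.wsf, mul_assoc, gh_ed_of_ne (M.ewk x).symm, mul_zero]

theorem mvr_M.esw (x : W) : gh K G (M.ew x) * gh K G M.f0 * M.w K = 0 := by
  have h := congrArg star (M.wse (K := K) x)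
  rwa [star_mul, star_mul, star_star, star_ed, star_ed, star_zero, ← mul_assoc] at h

theorem mvr_M.w_mem : M.w K ∈ L K G := by
  unfold mvr_M.w
  exact (L K G).add_mem ((L K G).sub_mem (vx_mem _) ((L K G).mul_mem (ed_mem _) (gh_mem _)))
    ((L K G).mul_mem ((L K G).mul_mem (ed_mem _) (ed_mem _)) (gh_mem _))

variable [Fintype E] [Fintype W]

theorem mvr_sum {V : Type a} {E : Type b} {G : Gr V E} [Fintype E] [DecidableEq V] (v : V)
    (h0 : ∃ e, G.s e = v) :
    vx K G v = ∑ e, if G.s e = v then ed K G e * gh K G e else 0 := by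
  have h2 : {e | G.s e = v}.Finite := Set.toFinite _
  rw [vx_eq_sum _ h2 h0, ← Finset.sum_filter]
  refine Finset.sum_congr ?_ fun _ _ => rfl
  ext y
  simp

theorem mvr_M.usum : vx K G (G.s M.zk) = ed K G M.zk * gh K G M.zk +
    ∑ x, ed K G (M.ew x) * gh K G (M.ew x) := by
  classical
  have h2 : {e | G.s e = G.s M.zk}.Finite := Set.toFinite _
  rw [vx_eq_sum _ h2 ⟨M.zk, rfl⟩]
  have h3 : h2.toFinset = insert M.zk (Finset.univ.map ⟨M.ew, M.ew_inj⟩) := by
    ext e
    rw [Set.Finite.mem_toFinset, Finset.mem_insert, Finset.mem_map, Set.mem_ofPred_eq, M.out e]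
    simp
  rw [h3, Finset.sum_insert, Finset.sum_map]
  · rfl
  · intro h
    obtain ⟨x, -, hx⟩ := Finset.mem_map.mp h
    exact M.ewk x hx

theorem mvr_M.wsum : M.w K * star (M.w K) +
    ∑ x, ed K G M.f0 * ed K G (M.ew x) * (gh K G (M.ew x) * gh K G M.f0) = vx K G (G.s M.z0) := by
  have h1 : ed K G M.f0 * gh K G M.f0 = ed K G M.f0 * (ed K G M.zk * gh K G M.zk) * gh K G M.f0 +
      ∑ x, ed K G M.f0 * ed K G (M.ew x) * (gh K G (M.ew x) * gh K G M.f0) := by
    conv_lhs => rw [← M.fu, M.usum]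
    rw [mul_add, add_mul, Finset.mul_sum, Finset.sum_mul]
    congr 1
    refine Finset.sum_congr rfl fun x _ => ?_
    simp only [mul_assoc]
  rw [M.wws]
  nth_rewrite 1 [h1]
  abel

variable (K) [DecidableEq E] [DecidableEq V]

/-- images of the edges of the new graph -/
noncomputable def mvr_M.u' (M : mvr_M G W) : E ⊕ W → U K G
  | .inl e => if e = M.z0 then ed K G M.z0 * M.w K else ed K G e
  | .inr x => ed K G M.z0 * ed K G M.f0 * ed K G (M.ew x)

/-- the new part of the image of `z0` -/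
noncomputable def mvr_M.T (M : mvr_M G W) : U K M.gr :=
  ∑ x, ed K M.gr (.inr x) * (gh K M.gr (.inl (M.ew x)) * gh K M.gr (.inl M.f0))

/-- the image of `z0` -/
noncomputable def mvr_M.Z (M : mvr_M G W) : U K M.gr :=
  ed K M.gr (.inl M.z0) * star (M.lft.w K) + M.T K

/-- images of the edges of the old graph -/
noncomputable def mvr_M.u (M : mvr_M G W) (e : E) : U K M.gr :=
  if e = M.z0 then M.Z K else ed K M.gr (.inl e)

variable {K}

theorem mvr_M.u'_z : M.u' K (.inl M.z0) = ed K G M.z0 * M.w K := if_pos rfl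
theorem mvr_M.u'_e {e : E} (h : e ≠ M.z0) : M.u' K (.inl e) = ed K G e := if_neg h
theorem mvr_M.u'_w (x : W) : M.u' K (.inr x) = ed K G M.z0 * ed K G M.f0 * ed K G (M.ew x) := rfl
theorem mvr_M.u_z : M.u K M.z0 = M.Z K := if_pos rfl
theorem mvr_M.u_e {e : E} (h : e ≠ M.z0) : M.u K e = ed K M.gr (.inl e) := if_neg h

theorem mvr_M.se' (x : E ⊕ W) : vx K G (M.gr.s x) * M.u' K x = M.u' K x := by
  cases x with
  | inl e =>
    change vx K G (G.s e) * _ = _
    by_cases h : e = M.z0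
    · subst h
      rw [M.u'_z, ← mul_assoc, vx_ed]
    · rw [M.u'_e h, vx_ed]
  | inr x =>
    change vx K G (G.s M.z0) * _ = _
    rw [M.u'_w, ← mul_assoc, ← mul_assoc, vx_ed]

theorem mvr_M.er' (x : E ⊕ W) : M.u' K x * vx K G (M.gr.r x) = M.u' K x := by
  cases x with
  | inl e =>
    change _ * vx K G (G.r e) = _
    by_cases h : e = M.z0
    · subst h
      rw [M.u'_z, mul_assoc, M.rz0, M.wv]
    · rw [M.u'_e h, ed_vx]
  | inr x =>
    change _ * vx K G (G.r (M.ew x)) = _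
    rw [M.u'_w, mul_assoc, ed_vx]

theorem mvr_M.ge' (x : E ⊕ W) : star (M.u' K x) * M.u' K x = vx K G (M.gr.r x) := by
  cases x with
  | inl e =>
    change _ = vx K G (G.r e)
    by_cases h : e = M.z0
    · subst h
      rw [M.u'_z, star_mul, star_ed]
      calc star (M.w K) * gh K G M.z0 * (ed K G M.z0 * M.w K)
          = star (M.w K) * (gh K G M.z0 * ed K G M.z0) * M.w K := by simp only [mul_assoc]
        _ = _ := by rw [M.zz0, M.wsv, M.wsw, M.rz0]
    · rw [M.u'_e h, star_ed, gh_ed]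
  | inr x =>
    change _ = vx K G (G.r (M.ew x))
    rw [M.u'_w, star_mul, star_mul, star_ed, star_ed, star_ed]
    calc gh K G (M.ew x) * (gh K G M.f0 * gh K G M.z0) * (ed K G M.z0 * ed K G M.f0 *
          ed K G (M.ew x))
        = gh K G (M.ew x) * (gh K G M.f0 * ((gh K G M.z0 * ed K G M.z0) * ed K G M.f0)) *
          ed K G (M.ew x) := by simp only [mul_assoc]
      _ = _ := by rw [M.zz0, M.vf, M.ff, ← M.s_ew x, gh_vx, gh_ed]

theorem mvr_M.gf'1 {e : E} (h : e ≠ M.z0) (x : W) :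
    star (M.u' K (.inl e)) * M.u' K (.inr x) = 0 := by
  rw [M.u'_e h, M.u'_w, star_ed, mul_assoc, ← mul_assoc, gh_ed_of_ne h, zero_mul]

theorem mvr_M.gf'2 (x : W) : star (M.u' K (.inl M.z0)) * M.u' K (.inr x) = 0 := by
  rw [M.u'_z, M.u'_w, star_mul, star_ed]
  calc star (M.w K) * gh K G M.z0 * (ed K G M.z0 * ed K G M.f0 * ed K G (M.ew x))
      = star (M.w K) * (gh K G M.z0 * ed K G M.z0) * ed K G M.f0 * ed K G (M.ew x) := by
        simp only [mul_assoc]
    _ = 0 := by rw [M.zz0, M.wsv, M.wse]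

theorem mvr_M.gf'3 (e : E) (x : W) : star (M.u' K (.inl e)) * M.u' K (.inr x) = 0 := by
  by_cases h : e = M.z0
  · rw [h]; exact M.gf'2 x
  · exact M.gf'1 h x

theorem mvr_M.gf'4 {e : E} (h : e ≠ M.z0) :
    star (M.u' K (.inl e)) * M.u' K (.inl M.z0) = 0 := by
  rw [M.u'_e h, M.u'_z, star_ed, ← mul_assoc, gh_ed_of_ne h, zero_mul]

theorem mvr_st {A : Type*} [Ring A] [StarRing A] {x y : A} (h : star x * y = 0) :
    star y * x = 0 := by
  have h1 := congrArg star h
  rwa [star_mul, star_star, star_zero] at h1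

theorem mvr_M.gf' (x y : E ⊕ W) (hxy : x ≠ y) : star (M.u' K x) * M.u' K y = 0 := by
  rcases x with e | x <;> rcases y with e' | y
  · by_cases h : e = M.z0
    · by_cases h' : e' = M.z0
      · exact absurd (by rw [h, h']) hxy
      · rw [h]; exact mvr_st (M.gf'4 h')
    · by_cases h' : e' = M.z0
      · rw [h']; exact M.gf'4 h
      · rw [M.u'_e h, M.u'_e h', star_ed, gh_ed_of_ne fun h2 => hxy (by rw [h2])]
  · exact M.gf'3 e y
  · exact mvr_st (M.gf'3 e' x)
  · have h : x ≠ y := fun h => hxy (by rw [h])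
    rw [M.u'_w, M.u'_w, star_mul, star_mul, star_ed, star_ed, star_ed]
    calc gh K G (M.ew x) * (gh K G M.f0 * gh K G M.z0) * (ed K G M.z0 * ed K G M.f0 *
          ed K G (M.ew y))
        = gh K G (M.ew x) * (gh K G M.f0 * ((gh K G M.z0 * ed K G M.z0) * ed K G M.f0)) *
          ed K G (M.ew y) := by simp only [mul_assoc]
      _ = _ := by rw [M.zz0, M.vf, M.ff, ← M.s_ew x, gh_vx, gh_ed_of_ne (M.ew_inj.ne h)]

theorem mvr_M.ck' (v : V) (h0 : ∃ x, M.gr.s x = v) :
    vx K G v = ∑ x, if M.gr.s x = v then M.u' K x * star (M.u' K x) else 0 := by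
  have h1 : ∃ e, G.s e = v := by
    obtain ⟨x, hx⟩ := h0
    cases x with
    | inl e => exact ⟨e, hx⟩
    | inr x => exact ⟨M.z0, hx⟩
  have h2 : ∀ e, (if M.gr.s (.inl e) = v then M.u' K (.inl e) * star (M.u' K (.inl e)) else 0) =
      (if G.s e = v then ed K G e * gh K G e else 0) -
      (if e = M.z0 then (if G.s M.z0 = v then ed K G M.z0 * (∑ x, ed K G M.f0 * ed K G (M.ew x) *
        (gh K G (M.ew x) * gh K G M.f0)) * gh K G M.z0 else 0) else 0) := by
    intro e
    change (if G.s e = v then _ else _) = _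
    by_cases h : e = M.z0
    · subst h
      rw [if_pos rfl]
      by_cases hv : G.s M.z0 = v
      · rw [if_pos hv, if_pos hv, if_pos hv, M.u'_z, star_mul, star_ed]
        have h3 := eq_sub_of_add_eq (M.wsum (K := K))
        calc ed K G M.z0 * M.w K * (star (M.w K) * gh K G M.z0)
            = ed K G M.z0 * (M.w K * star (M.w K)) * gh K G M.z0 := by simp only [mul_assoc]
          _ = _ := by rw [h3, mul_sub, sub_mul, M.zv]
      · rw [if_neg hv, if_neg hv, if_neg hv, sub_zero]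
    · rw [if_neg h, sub_zero, M.u'_e h, star_ed]
  have h4 : ∀ x : W, (if M.gr.s (.inr x) = v then M.u' K (.inr x) * star (M.u' K (.inr x)) else 0) =
      (if G.s M.z0 = v then ed K G M.z0 * (ed K G M.f0 * ed K G (M.ew x) *
        (gh K G (M.ew x) * gh K G M.f0)) * gh K G M.z0 else 0) := by
    intro x
    change (if G.s M.z0 = v then _ else _) = _
    rw [M.u'_w, star_mul, star_mul, star_ed, star_ed, star_ed]
    simp only [mul_assoc]
  rw [Fintype.sum_sum_type, Finset.sum_congr rfl fun e _ => h2 e,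
    Finset.sum_congr rfl fun x _ => h4 x, Finset.sum_sub_distrib, ← mvr_sum v h1,
    Finset.sum_ite_eq' Finset.univ M.z0, if_pos (Finset.mem_univ _)]
  by_cases hv : G.s M.z0 = v
  · simp only [if_pos hv]
    rw [← Finset.sum_mul, ← Finset.mul_sum]
    abel
  · simp only [if_neg hv]
    simp

theorem mvr_M.rep' : IsRep K M.gr (vx K G) (M.u' K) (fun x => star (M.u' K x)) where
  vv := vx_vx
  vw _ _ h := vx_vx_of_ne h
  se := M.se'
  er := M.er'
  rg x := by
    have h := congrArg star (M.er' (K := K) x)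
    rwa [star_mul, star_vx] at h
  gs x := by
    have h := congrArg star (M.se' (K := K) x)
    rwa [star_mul, star_vx] at h
  ge := M.ge'
  gf := M.gf'
  ck v h h0 := by
    rw [M.ck' v h0, ← Finset.sum_filter]
    refine Finset.sum_congr ?_ fun _ _ => rfl
    ext y
    simp

theorem mvr_M.vT : vx K M.gr (G.s M.z0) * M.T K = M.T K := by
  unfold mvr_M.T
  rw [Finset.mul_sum]
  refine Finset.sum_congr rfl fun x _ => ?_
  rw [← mul_assoc]
  congr 1
  exact vx_ed (G := M.gr) (.inr x)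

theorem mvr_M.Tv : M.T K * vx K M.gr (G.s M.z0) = M.T K := by
  unfold mvr_M.T
  rw [Finset.sum_mul]
  refine Finset.sum_congr rfl fun x _ => ?_
  rw [mul_assoc, mul_assoc]
  congr 2
  exact M.lft.fv

theorem mvr_M.Tw : M.T K * M.lft.w K = 0 := by
  unfold mvr_M.T
  rw [Finset.sum_mul]
  refine Finset.sum_eq_zero fun x _ => ?_
  rw [mul_assoc]
  have h := M.lft.esw (K := K) x
  change gh K M.gr (.inl (M.ew x)) * gh K M.gr (.inl M.f0) * M.lft.w K = 0 at h
  rw [h, mul_zero]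

theorem mvr_M.zT : gh K M.gr (.inl M.z0) * M.T K = 0 := by
  unfold mvr_M.T
  rw [Finset.mul_sum]
  refine Finset.sum_eq_zero fun x _ => ?_
  rw [← mul_assoc, gh_ed_of_ne (by simp), zero_mul]

theorem mvr_M.eT (e : E) : gh K M.gr (.inl e) * M.T K = 0 := by
  unfold mvr_M.T
  rw [Finset.mul_sum]
  refine Finset.sum_eq_zero fun x _ => ?_
  rw [← mul_assoc, gh_ed_of_ne (by simp), zero_mul]

theorem mvr_M.Tstar : star (M.T K) =
    ∑ x, ed K M.gr (.inl M.f0) * ed K M.gr (.inl (M.ew x)) * gh K M.gr (.inr x) := by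
  unfold mvr_M.T
  rw [star_sum]
  refine Finset.sum_congr rfl fun x _ => ?_
  rw [star_mul, star_mul, star_gh, star_gh, star_ed]

theorem mvr_M.TsT : star (M.T K) * M.T K = ∑ x, ed K M.gr (.inl M.f0) *
    ed K M.gr (.inl (M.ew x)) * (gh K M.gr (.inl (M.ew x)) * gh K M.gr (.inl M.f0)) := by
  classical
  rw [M.Tstar, Finset.sum_mul]
  refine Finset.sum_congr rfl fun x _ => ?_
  unfold mvr_M.T
  rw [Finset.mul_sum, Finset.sum_eq_single x]
  · have h1 : gh K M.gr (.inr x) * ed K M.gr (.inr x) = vx K M.gr (G.r (M.ew x)) :=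
      gh_ed (G := M.gr) (.inr x)
    have h2 : ed K M.gr (.inl (M.ew x)) * vx K M.gr (G.r (M.ew x)) = ed K M.gr (.inl (M.ew x)) :=
      ed_vx (G := M.gr) (.inl (M.ew x))
    calc ed K M.gr (.inl M.f0) * ed K M.gr (.inl (M.ew x)) * gh K M.gr (.inr x) *
          (ed K M.gr (.inr x) * (gh K M.gr (.inl (M.ew x)) * gh K M.gr (.inl M.f0)))
        = ed K M.gr (.inl M.f0) * (ed K M.gr (.inl (M.ew x)) * (gh K M.gr (.inr x) *
          ed K M.gr (.inr x))) * (gh K M.gr (.inl (M.ew x)) * gh K M.gr (.inl M.f0)) := by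
          simp only [mul_assoc]
      _ = _ := by rw [h1, h2]
  · intro y _ hy
    have h1 : gh K M.gr (.inr x) * ed K M.gr (.inr y) = 0 :=
      gh_ed_of_ne (fun h => hy (Sum.inr_injective h).symm)
    rw [mul_assoc, ← mul_assoc (gh K M.gr (.inr x)), h1, zero_mul, mul_zero]
  · intro h; exact absurd (Finset.mem_univ _) h

theorem mvr_M.Tfe (x : W) : M.T K * (ed K M.gr (.inl M.f0) * ed K M.gr (.inl (M.ew x))) =
    ed K M.gr (.inr x) := by
  classical
  unfold mvr_M.T
  have h0 : gh K M.gr (.inl M.f0) * ed K M.gr (.inl M.f0) = vx K M.gr (G.s M.zk) := M.lft.ff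
  have h1 : vx K M.gr (G.s M.zk) * ed K M.gr (.inl (M.ew x)) = ed K M.gr (.inl (M.ew x)) := by
    rw [← M.s_ew x]
    exact vx_ed (G := M.gr) (.inl (M.ew x))
  have h2 : ∀ y, ed K M.gr (.inr y) * (gh K M.gr (.inl (M.ew y)) * gh K M.gr (.inl M.f0)) *
      (ed K M.gr (.inl M.f0) * ed K M.gr (.inl (M.ew x))) =
      ed K M.gr (.inr y) * (gh K M.gr (.inl (M.ew y)) * ed K M.gr (.inl (M.ew x))) := by
    intro y
    calc ed K M.gr (.inr y) * (gh K M.gr (.inl (M.ew y)) * gh K M.gr (.inl M.f0)) *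
      (ed K M.gr (.inl M.f0) * ed K M.gr (.inl (M.ew x)))
        = ed K M.gr (.inr y) * (gh K M.gr (.inl (M.ew y)) * ((gh K M.gr (.inl M.f0) *
          ed K M.gr (.inl M.f0)) * ed K M.gr (.inl (M.ew x)))) := by simp only [mul_assoc]
      _ = _ := by rw [h0, h1]
  rw [Finset.sum_mul, Finset.sum_congr rfl fun y _ => h2 y, Finset.sum_eq_single x]
  · rw [gh_ed]
    exact ed_vx (G := M.gr) (.inr x)
  · intro y _ hy
    rw [gh_ed_of_ne (fun h => hy (M.ew_inj (Sum.inl_injective h))), mul_zero]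
  · intro h; exact absurd (Finset.mem_univ _) h

theorem mvr_M.TTs : M.T K * star (M.T K) = ∑ x, ed K M.gr (.inr x) * gh K M.gr (.inr x) := by
  rw [M.Tstar, Finset.mul_sum]
  refine Finset.sum_congr rfl fun x _ => ?_
  rw [← mul_assoc, M.Tfe]

theorem mvr_M.vZ : vx K M.gr (G.s M.z0) * M.Z K = M.Z K := by
  unfold mvr_M.Z
  rw [mul_add, M.vT, ← mul_assoc]
  congr 2
  exact vx_ed (G := M.gr) (.inl M.z0)

theorem mvr_M.Zv : M.Z K * vx K M.gr (G.s M.z0) = M.Z K := by
  unfold mvr_M.Z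
  rw [add_mul, M.Tv, mul_assoc]
  congr 2
  exact M.lft.wsv

theorem mvr_M.Zstar : star (M.Z K) = M.lft.w K * gh K M.gr (.inl M.z0) + star (M.T K) := by
  unfold mvr_M.Z
  rw [star_add, star_mul, star_star, star_ed]

theorem mvr_M.Tz : star (M.T K) * ed K M.gr (.inl M.z0) = 0 := by
  have h := congrArg star (M.zT (K := K))
  rwa [star_mul, star_gh, star_zero] at h

theorem mvr_M.wT : star (M.lft.w K) * star (M.T K) = 0 := by
  have h := congrArg star (M.Tw (K := K))
  rwa [star_mul, star_zero] at h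

theorem mvr_M.ZsZ : star (M.Z K) * M.Z K = vx K M.gr (G.s M.z0) := by
  rw [M.Zstar, mvr_M.Z, add_mul, mul_add, mul_add]
  have h1 : M.lft.w K * gh K M.gr (.inl M.z0) * (ed K M.gr (.inl M.z0) * star (M.lft.w K)) =
      M.lft.w K * star (M.lft.w K) := by
    calc M.lft.w K * gh K M.gr (.inl M.z0) * (ed K M.gr (.inl M.z0) * star (M.lft.w K))
        = M.lft.w K * (gh K M.gr (.inl M.z0) * ed K M.gr (.inl M.z0)) * star (M.lft.w K) := by
          simp only [mul_assoc]
      _ = M.lft.w K * vx K M.gr (G.s M.z0) * star (M.lft.w K) := by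
          rw [show gh K M.gr (.inl M.z0) * ed K M.gr (.inl M.z0) = vx K M.gr (G.s M.z0) from
            M.lft.zz0]
      _ = _ := by rw [show M.lft.w K * vx K M.gr (G.s M.z0) = M.lft.w K from M.lft.wv]
  have h2 : M.lft.w K * gh K M.gr (.inl M.z0) * M.T K = 0 := by
    rw [mul_assoc, M.zT, mul_zero]
  have h3 : star (M.T K) * (ed K M.gr (.inl M.z0) * star (M.lft.w K)) = 0 := by
    rw [← mul_assoc, M.Tz, zero_mul]
  rw [h1, h2, h3, M.TsT, add_zero, zero_add]
  exact M.lft.wsum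

theorem mvr_M.ZZs : M.Z K * star (M.Z K) = ed K M.gr (.inl M.z0) * gh K M.gr (.inl M.z0) +
    ∑ x, ed K M.gr (.inr x) * gh K M.gr (.inr x) := by
  rw [M.Zstar, mvr_M.Z, add_mul, mul_add, mul_add, M.TTs]
  have h1 : ed K M.gr (.inl M.z0) * star (M.lft.w K) * (M.lft.w K * gh K M.gr (.inl M.z0)) =
      ed K M.gr (.inl M.z0) * gh K M.gr (.inl M.z0) := by
    calc ed K M.gr (.inl M.z0) * star (M.lft.w K) * (M.lft.w K * gh K M.gr (.inl M.z0))
        = ed K M.gr (.inl M.z0) * (star (M.lft.w K) * M.lft.w K) * gh K M.gr (.inl M.z0) := by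
          simp only [mul_assoc]
      _ = ed K M.gr (.inl M.z0) * vx K M.gr (G.s M.z0) * gh K M.gr (.inl M.z0) := by
          rw [show star (M.lft.w K) * M.lft.w K = vx K M.gr (G.s M.z0) from M.lft.wsw]
      _ = _ := by
          rw [show ed K M.gr (.inl M.z0) * vx K M.gr (G.s M.z0) = ed K M.gr (.inl M.z0) from
            M.lft.zv]
  have h2 : ed K M.gr (.inl M.z0) * star (M.lft.w K) * star (M.T K) = 0 := by
    rw [mul_assoc, M.wT, mul_zero]
  have h3 : M.T K * (M.lft.w K * gh K M.gr (.inl M.z0)) = 0 := by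
    rw [← mul_assoc, M.Tw, zero_mul]
  rw [h1, h2, h3, add_zero, zero_add]

theorem mvr_M.Zw : M.Z K * M.lft.w K = ed K M.gr (.inl M.z0) := by
  rw [mvr_M.Z, add_mul, M.Tw, add_zero, mul_assoc, M.lft.wsw]
  exact M.lft.zv

theorem mvr_M.Zfe (x : W) : M.Z K * (ed K M.gr (.inl M.f0) * ed K M.gr (.inl (M.ew x))) =
    ed K M.gr (.inr x) := by
  rw [mvr_M.Z, add_mul, M.Tfe, mul_assoc, ← mul_assoc (star (M.lft.w K))]
  rw [show star (M.lft.w K) * ed K M.gr (.inl M.f0) * ed K M.gr (.inl (M.ew x)) = 0 from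
    M.lft.wse x, mul_zero, zero_add]

theorem mvr_M.se (e : E) : vx K M.gr (G.s e) * M.u K e = M.u K e := by
  by_cases h : e = M.z0
  · subst h; rw [M.u_z, M.vZ]
  · rw [M.u_e h]; exact vx_ed (G := M.gr) (.inl e)

theorem mvr_M.er (e : E) : M.u K e * vx K M.gr (G.r e) = M.u K e := by
  by_cases h : e = M.z0
  · subst h; rw [M.u_z, M.rz0, M.Zv]
  · rw [M.u_e h]; exact ed_vx (G := M.gr) (.inl e)

theorem mvr_M.ge (e : E) : star (M.u K e) * M.u K e = vx K M.gr (G.r e) := by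
  by_cases h : e = M.z0
  · subst h; rw [M.u_z, M.rz0, M.ZsZ]
  · rw [M.u_e h, star_ed]; exact gh_ed (G := M.gr) (.inl e)

theorem mvr_M.gf1 {e : E} (h : e ≠ M.z0) : star (M.u K e) * M.u K M.z0 = 0 := by
  rw [M.u_e h, M.u_z, star_ed, mvr_M.Z, mul_add, M.eT, add_zero, ← mul_assoc,
    gh_ed_of_ne (fun h' => h (Sum.inl_injective h')), zero_mul]

theorem mvr_M.gf (e f : E) (hef : e ≠ f) : star (M.u K e) * M.u K f = 0 := by
  by_cases h : e = M.z0
  · by_cases h' : f = M.z0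
    · exact absurd (h.trans h'.symm) hef
    · rw [h]; exact mvr_st (M.gf1 h')
  · by_cases h' : f = M.z0
    · rw [h']; exact M.gf1 h
    · rw [M.u_e h, M.u_e h', star_ed, gh_ed_of_ne fun h2 => hef (Sum.inl_injective h2)]

theorem mvr_M.ck (v : V) (h0 : ∃ e, G.s e = v) :
    vx K M.gr v = ∑ e, if G.s e = v then M.u K e * star (M.u K e) else 0 := by
  have h1 : ∃ x, M.gr.s x = v := by
    obtain ⟨e, he⟩ := h0
    exact ⟨.inl e, he⟩
  rw [mvr_sum v h1, Fintype.sum_sum_type]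
  have h2 : ∀ e, (if G.s e = v then M.u K e * star (M.u K e) else 0) =
      (if M.gr.s (.inl e) = v then ed K M.gr (.inl e) * gh K M.gr (.inl e) else 0) +
      (if e = M.z0 then (if G.s M.z0 = v then ∑ x, ed K M.gr (.inr x) * gh K M.gr (.inr x)
        else 0) else 0) := by
    intro e
    change _ = (if G.s e = v then _ else _) + _
    by_cases h : e = M.z0
    · subst h
      rw [if_pos rfl]
      by_cases hv : G.s M.z0 = v
      · rw [if_pos hv, if_pos hv, if_pos hv, M.u_z, M.ZZs]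
      · rw [if_neg hv, if_neg hv, if_neg hv, zero_add]
    · rw [if_neg h, add_zero, M.u_e h, star_ed]
  rw [Finset.sum_congr rfl fun e _ => h2 e, Finset.sum_add_distrib,
    Finset.sum_ite_eq' Finset.univ M.z0, if_pos (Finset.mem_univ _)]
  congr 1
  by_cases hv : G.s M.z0 = v
  · rw [if_pos hv]
    refine Finset.sum_congr rfl fun x _ => ?_
    exact if_pos hv
  · rw [if_neg hv]
    refine Finset.sum_eq_zero fun x _ => ?_
    exact if_neg hv

theorem mvr_M.rep : IsRep K G (vx K M.gr) (M.u K) (fun x => star (M.u K x)) where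
  vv := vx_vx
  vw _ _ h := vx_vx_of_ne h
  se := M.se
  er := M.er
  rg x := by
    have h := congrArg star (M.er (K := K) x)
    rwa [star_mul, star_vx] at h
  gs x := by
    have h := congrArg star (M.se (K := K) x)
    rwa [star_mul, star_vx] at h
  ge := M.ge
  gf := M.gf
  ck v h h0 := by
    rw [M.ck v h0, ← Finset.sum_filter]
    refine Finset.sum_congr ?_ fun _ _ => rfl
    ext y
    simp

theorem mvr_M.u'_mem (x : E ⊕ W) : M.u' K x ∈ L K G := by
  cases x with
  | inl e =>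
    by_cases h : e = M.z0
    · subst h; rw [M.u'_z]; exact (L K G).mul_mem (ed_mem _) M.w_mem
    · rw [M.u'_e h]; exact ed_mem _
  | inr x =>
    rw [M.u'_w]
    exact (L K G).mul_mem ((L K G).mul_mem (ed_mem _) (ed_mem _)) (ed_mem _)

theorem mvr_M.u_mem (e : E) : M.u K e ∈ L K M.gr := by
  by_cases h : e = M.z0
  · subst h
    rw [M.u_z, mvr_M.Z, mvr_M.T]
    refine (L K M.gr).add_mem ((L K M.gr).mul_mem (ed_mem _) (star_mem_L M.lft.w_mem))
      ((L K M.gr).sum_mem fun x _ => ?_)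
    exact (L K M.gr).mul_mem (ed_mem _) ((L K M.gr).mul_mem (gh_mem _) (gh_mem _))
  · rw [M.u_e h]; exact ed_mem _

theorem mvr_M.lw' : lift M.rep' (M.lft.w K) = M.w K := by
  rw [mvr_M.w, mvr_M.w, map_add, map_sub, map_mul, map_mul, map_mul]
  rw [show lift M.rep' (vx K M.gr (M.gr.s M.lft.z0)) = vx K G (G.s M.z0) from lift_vx _ _]
  rw [show lift M.rep' (ed K M.gr M.lft.f0) = ed K G M.f0 from
    (lift_ed _ _).trans (M.u'_e M.fz)]
  rw [show lift M.rep' (gh K M.gr M.lft.f0) = gh K G M.f0 from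
    (lift_gh _ _).trans (by rw [show M.lft.f0 = .inl M.f0 from rfl, M.u'_e M.fz, star_ed])]
  rw [show lift M.rep' (ed K M.gr M.lft.zk) = ed K G M.zk from
    (lift_ed _ _).trans (M.u'_e M.zkz)]

theorem mvr_M.lw : lift M.rep (M.w K) = M.lft.w K := by
  rw [mvr_M.w, mvr_M.w, map_add, map_sub, map_mul, map_mul, map_mul]
  rw [show lift M.rep (vx K G (G.s M.z0)) = vx K M.gr (M.gr.s M.lft.z0) from lift_vx _ _]
  rw [show lift M.rep (ed K G M.f0) = ed K M.gr M.lft.f0 from
    (lift_ed _ _).trans (M.u_e M.fz)]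
  rw [show lift M.rep (gh K G M.f0) = gh K M.gr M.lft.f0 from
    (lift_gh _ _).trans (by rw [M.u_e M.fz, star_ed]; rfl)]
  rw [show lift M.rep (ed K G M.zk) = ed K M.gr M.lft.zk from
    (lift_ed _ _).trans (M.u_e M.zkz)]

theorem mvr_M.h2 (e : E) : lift M.rep' (M.u K e) = ed K G e := by
  by_cases h : e = M.z0
  · subst h
    rw [M.u_z, mvr_M.Z, map_add, map_mul, lift_ed, lift_star M.rep' (fun v => star_vx v), M.lw',
      M.u'_z, mvr_M.T, map_sum]
    have h1 : ∀ x, lift M.rep' (ed K M.gr (.inr x) * (gh K M.gr (.inl (M.ew x)) *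
        gh K M.gr (.inl M.f0))) = ed K G M.z0 * (ed K G M.f0 * ed K G (M.ew x) *
        (gh K G (M.ew x) * gh K G M.f0)) := by
      intro x
      rw [map_mul, map_mul, lift_ed, lift_gh, lift_gh, M.u'_w, M.u'_e (M.ewz x), M.u'_e M.fz,
        star_ed, star_ed]
      simp only [mul_assoc]
    rw [Finset.sum_congr rfl fun x _ => h1 x, ← Finset.mul_sum, mul_assoc, ← mul_add, M.wsum, M.zv]
  · rw [M.u_e h, lift_ed, M.u'_e h]

theorem mvr_M.h2' (x : E ⊕ W) : lift M.rep (M.u' K x) = ed K M.gr x := by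
  cases x with
  | inl e =>
    by_cases h : e = M.z0
    · subst h
      rw [M.u'_z, map_mul, lift_ed, M.lw, M.u_z, M.Zw]
    · rw [M.u'_e h, lift_ed, M.u_e h]
  | inr x =>
    rw [M.u'_w, map_mul, map_mul, lift_ed, lift_ed, lift_ed, M.u_z, M.u_e M.fz, M.u_e (M.ewz x),
      mul_assoc, M.Zfe]

theorem mvr_M.equiv : Nonempty (L K G ≃⋆ₐ[K] L K M.gr) :=
  mkEquiv M.rep M.rep' (fun v => vx_mem v) M.u_mem (fun v => vx_mem v) M.u'_mem
    (fun _ => lift_vx _ _) M.h2 (fun _ => lift_vx _ _) M.h2' (fun v => star_vx v)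
    (fun v => star_vx v)

end mvraux

section mvrnf

variable {I : Type a} [Fintype I] [DecidableEq I] {D : Dat I}

theorem mvr_finE : Finite (NE D) := by
  classical
  refine Finite.of_surjective (fun x : {i : I // D.cyc i} ⊕ ((Σ j : I, Σ l : I, Fin (D.n j l)) ⊕
    (Σ i : I, Fin (D.a i))) => match x with
      | .inl i => NE.z i.1 i.2
      | .inr (.inl x) => NE.f x.1 x.2.1 x.2.2
      | .inr (.inr x) => NE.g x.1 x.2) ?_
  rintro (⟨l, h⟩ | ⟨j, l, m⟩ | ⟨l, s⟩)
  · exact ⟨.inl ⟨l, h⟩, rfl⟩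
  · exact ⟨.inr (.inl ⟨j, l, m⟩), rfl⟩
  · exact ⟨.inr (.inr ⟨l, s⟩), rfl⟩

/-- the data of the row move -/
def mvr_d (D : Dat I) (i k : I) (hi : D.cyc i) (hk : D.cyc k) (hik : k ≠ i) (m0 : Fin (D.n i k)) :
    mvr_M (NG D) (Σ l : I, Fin (D.n k l)) where
  z0 := .z i hi
  f0 := .f i k m0
  zk := .z k hk
  ew x := .f k x.1 x.2
  ew_inj := by
    rintro ⟨l, m⟩ ⟨l', m'⟩ h
    simp only [NE.f.injEq, true_and] at h
    obtain ⟨rfl, h2⟩ := h
    rw [eq_of_heq h2]
  rz0 := rfl
  sf0 := rfl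
  rf0 := rfl
  rzk := rfl
  ne h := hik (congrArg Sigma.fst h)
  fz := by simp
  out e := by
    rcases e with ⟨l, h⟩ | ⟨j, l, m⟩ | ⟨l, s⟩
    · constructor
      · intro h'
        have h1 : l = k := congrArg Sigma.fst h'
        subst h1
        exact .inl rfl
      · rintro (h' | ⟨x, h'⟩)
        · rw [h']
        · simp at h'
    · constructor
      · intro h'
        have h1 : j = k := congrArg Sigma.fst h'
        subst h1
        exact .inr ⟨⟨l, m⟩, rfl⟩
      · rintro (h' | ⟨x, h'⟩)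
        · simp at h'
        · rw [← h']; rfl
    · constructor
      · intro h'
        have h1 : (⟨l, some s⟩ : NV D) = ⟨k, none⟩ := h'
        have h2 : l = k := congrArg Sigma.fst h1
        subst h2
        simp at h1
      · rintro (h' | ⟨x, h'⟩) <;> simp at h'
  ewk x := by simp

theorem mvr_n_i (i k l : I) : (D.row i k).n i l = D.n i l + D.n k l := if_pos rfl

theorem mvr_n_ne {i k j l : I} (h : j ≠ i) : (D.row i k).n j l = D.n j l := if_neg h

theorem mvr_n_le (i k j l : I) : D.n j l ≤ (D.row i k).n j l := by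
  by_cases h : j = i
  · subst h; rw [mvr_n_i]; exact Nat.le_add_right _ _
  · rw [mvr_n_ne h]

/-- the edges -/
def mvr_fe (D : Dat I) (i k : I) : NE D ⊕ (Σ l : I, Fin (D.n k l)) → NE (D.row i k)
  | .inl (.z j h) => .z j h
  | .inl (.f j l m) => .f j l ⟨m.1, lt_of_lt_of_le m.2 (mvr_n_le i k j l)⟩
  | .inl (.g j s) => .g j s
  | .inr x => .f i x.1 ⟨D.n i x.1 + x.2.1, by rw [mvr_n_i]; exact Nat.add_lt_add_left x.2.2 _⟩

/-- a code for the edges -/
def mvr_ce {D : Dat I} : NE D → I × Option I × ℕ ⊕ I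
  | .z j _ => .inr j
  | .f j l m => .inl (j, some l, m.1)
  | .g j s => .inl (j, none, s.1)

theorem mvr_ce_inj {D : Dat I} {e e' : NE D} (h : mvr_ce e = mvr_ce e') : e = e' := by
  rcases e with ⟨l, h1⟩ | ⟨j, l, m⟩ | ⟨l, s⟩ <;> rcases e' with ⟨l', h1'⟩ | ⟨j', l', m'⟩ | ⟨l', s'⟩
  · simp only [mvr_ce, Sum.inr.injEq] at h
    subst h; rfl
  · simp [mvr_ce] at h
  · simp [mvr_ce] at h
  · simp [mvr_ce] at h
  · simp only [mvr_ce, Sum.inl.injEq, Prod.mk.injEq, Option.some.injEq] at h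
    obtain ⟨rfl, rfl, h⟩ := h
    rw [Fin.ext h]
  · simp [mvr_ce] at h
  · simp [mvr_ce] at h
  · simp [mvr_ce] at h
  · simp only [mvr_ce, Sum.inl.injEq, Prod.mk.injEq, true_and] at h
    obtain ⟨rfl, h⟩ := h
    rw [Fin.ext h]

theorem mvr_fe_inj (i k : I) : Function.Injective (mvr_fe D i k) := by
  intro x y h
  have h' := congrArg mvr_ce h
  rcases x with (⟨l, h1⟩ | ⟨j, l, m⟩ | ⟨l, s⟩) | ⟨l, m⟩ <;>
    rcases y with (⟨l', h1'⟩ | ⟨j', l', m'⟩ | ⟨l', s'⟩) | ⟨l', m'⟩ <;>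
    simp only [mvr_fe, mvr_ce, reduceCtorEq, Sum.inl.injEq, Sum.inr.injEq, Prod.mk.injEq,
      Option.some.injEq, true_and, false_and, and_false] at h'
  · subst h'; rfl
  · obtain ⟨rfl, rfl, h'⟩ := h'
    rw [Fin.ext h']
  · obtain ⟨rfl, rfl, h'⟩ := h'
    have := m.2
    omega
  · obtain ⟨rfl, h'⟩ := h'
    rw [Fin.ext h']
  · obtain ⟨rfl, rfl, h'⟩ := h'
    have := m'.2
    omega
  · obtain ⟨rfl, h'⟩ := h'
    rw [Fin.ext (Nat.add_left_cancel h')]

theorem mvr_fe_surj (i k : I) : Function.Surjective (mvr_fe D i k) := by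
  rintro (⟨l, h1⟩ | ⟨j, l, m⟩ | ⟨l, s⟩)
  · exact ⟨.inl (.z l h1), rfl⟩
  · by_cases hm : m.1 < D.n j l
    · exact ⟨.inl (.f j l ⟨m.1, hm⟩), rfl⟩
    · have h2 := m.2
      by_cases hj : j = i
      · subst hj
        have h3 : (D.row j k).n j l = D.n j l + D.n k l := mvr_n_i j k l
        refine ⟨.inr ⟨l, ⟨m.1 - D.n j l, by omega⟩⟩, mvr_ce_inj ?_⟩
        simp only [mvr_fe, mvr_ce]
        congr 3
        omega
      · have h3 : (D.row i k).n j l = D.n j l := mvr_n_ne hj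
        omega
  · exact ⟨.inl (.g l s), rfl⟩

end mvrnf

variable {I : Type a} [Fintype I] [DecidableEq I] (K : Type k) [Field K] [StarRing K]

theorem move_row (D : Dat I) (hD : D.Ok) (i k : I) (h : D.n i k ≠ 0) : Iso K D (D.row i k) := by
  classical
  by_cases hk : D.cyc k
  · obtain ⟨ρ, hρ⟩ := hD.hr
    have hi : D.cyc i := hD.hc i k h
    have hik : k ≠ i := by
      rintro rfl
      exact lt_irrefl _ (hρ k k h)
    let m0 : Fin (D.n i k) := ⟨0, Nat.pos_of_ne_zero h⟩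
    have := mvr_finE (D := D)
    have : Fintype (NE D) := Fintype.ofFinite _
    let M := mvr_d D i k hi hk hik m0
    obtain ⟨Φ⟩ := M.equiv (K := K)
    have h2 : Nonempty (L K M.gr ≃⋆ₐ[K] L K (NG (D.row i k))) := by
      refine TP.graph_iso K M.gr (NG (D.row i k)) (Equiv.refl (NV D))
        (Equiv.ofBijective _ ⟨mvr_fe_inj i k, mvr_fe_surj i k⟩) ?_ ?_
      · intro x
        rcases x with (⟨l, h⟩ | ⟨j, l, m⟩ | ⟨l, s⟩) | ⟨l, m⟩ <;> rfl
      · intro x
        rcases x with (⟨l, h⟩ | ⟨j, l, m⟩ | ⟨l, s⟩) | ⟨l, m⟩ <;> rfl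
    obtain ⟨Ψ⟩ := h2
    exact ⟨Φ.trans Ψ⟩
  · have h0 : ∀ l, D.n k l = 0 := by
      intro l
      by_contra hl
      exact hk (hD.hc k l hl)
    have h1 : D.row i k = D := by
      unfold Dat.row
      have h2 : (fun j l => if j = i then D.n i l + D.n k l else D.n j l) = D.n := by
        funext j l
        by_cases hj : j = i
        · rw [if_pos hj, h0, add_zero, hj]
        · rw [if_neg hj]
      rw [h2]
    rw [h1]
    exact Iso.refl K D

end Pool.Agent.Helper32.PG
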