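import Pool.Agent.Helper32.PG.MvU
import Pool.Agent.Helper32.PG.MvR
import Pool.Agent.Helper32.PG.MvC

/-! Relabelling, filling, and the moves on full data. PIECE 21.

`fill`: as long as there are `i`, `j`, `k` with `n i j ≠ 0`, `n j k ≠ 0`, `n i k = 0`, replace `D` by
`D.row i j`; the number of pairs with `n i k = 0` decreases. -/

set_option autoImplicit false
set_option linter.unusedSectionVars false

universe k a a'

namespace Pool.Agent.Helper32.PG

open Pool.Agent.Helper32.LV

variable {I : Type a} [Fintype I] [DecidableEq I] (K : Type k) [Field K] [StarRing K]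

/-- the map on edges -/
def fill_fe {I' : Type a'} (D' : Dat I') (σ : I ≃ I') : NE (D'.comap σ) → NE D'
  | .z i h => .z (σ i) h
  | .f i j m => .f (σ i) (σ j) m
  | .g i s => .g (σ i) s

theorem fill_fe_bij {I' : Type a'} (D' : Dat I') (σ : I ≃ I') :
    Function.Bijective (fill_fe D' σ) := by
  constructor
  · rintro (⟨i, h⟩ | ⟨i, j, m⟩ | ⟨i, s⟩) (⟨i', h'⟩ | ⟨i', j', m'⟩ | ⟨i', s'⟩) he
    · simp only [fill_fe, NE.z.injEq] at he
      obtain rfl := σ.injective he
      rfl
    · simp [fill_fe] at he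
    · simp [fill_fe] at he
    · simp [fill_fe] at he
    · simp only [fill_fe, NE.f.injEq] at he
      obtain ⟨h1, h2, h3⟩ := he
      obtain rfl := σ.injective h1
      obtain rfl := σ.injective h2
      rw [eq_of_heq h3]
    · simp [fill_fe] at he
    · simp [fill_fe] at he
    · simp [fill_fe] at he
    · simp only [fill_fe, NE.g.injEq] at he
      obtain ⟨h1, h3⟩ := he
      obtain rfl := σ.injective h1
      rw [eq_of_heq h3]
  · rintro (⟨i, h⟩ | ⟨i, j, m⟩ | ⟨i, s⟩)
    · obtain ⟨i, rfl⟩ := σ.surjective i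
      exact ⟨.z i h, rfl⟩
    · obtain ⟨i, rfl⟩ := σ.surjective i
      obtain ⟨j, rfl⟩ := σ.surjective j
      exact ⟨.f i j m, rfl⟩
    · obtain ⟨i, rfl⟩ := σ.surjective i
      exact ⟨.g i s, rfl⟩

theorem relabel {I' : Type a'} (D' : Dat I') (σ : I ≃ I') : Iso K (D'.comap σ) D' := by
  refine Pool.Agent.Helper32.TP.graph_iso K (NG (D'.comap σ)) (NG D')
    (Equiv.sigmaCongrLeft (β := fun i => Option (Fin (D'.a i))) σ)
    (Equiv.ofBijective _ (fill_fe_bij D' σ)) ?_ ?_
  · rintro (⟨i, h⟩ | ⟨i, j, m⟩ | ⟨i, s⟩) <;> rfl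
  · rintro (⟨i, h⟩ | ⟨i, j, m⟩ | ⟨i, s⟩) <;> rfl

theorem Dat.Ok.row {D : Dat I} (hD : D.Ok) (i k : I) (h : D.n i k ≠ 0) : (D.row i k).Ok := by
  obtain ⟨ρ, hρ⟩ := hD.hr
  refine ⟨?_, ρ, ?_⟩
  · intro j l hjl
    change (if j = i then D.n i l + D.n k l else D.n j l) ≠ 0 at hjl
    change D.cyc j
    by_cases hj : j = i
    · rw [hj]
      exact hD.hc i k h
    · rw [if_neg hj] at hjl
      exact hD.hc j l hjl
  · intro j l hjl
    change (if j = i then D.n i l + D.n k l else D.n j l) ≠ 0 at hjl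
    by_cases hj : j = i
    · rw [if_pos hj] at hjl
      rw [hj]
      by_cases h1 : D.n i l = 0
      · have h2 : D.n k l ≠ 0 := by omega
        exact (hρ k l h2).trans (hρ i k h)
      · exact hρ i l h1
    · rw [if_neg hj] at hjl
      exact hρ j l hjl

theorem fill_row_iff {D : Dat I} (hD : D.Full) (i k : I) (h : D.n i k ≠ 0) (j l : I) :
    (D.row i k).n j l ≠ 0 ↔ D.n j l ≠ 0 := by
  change (if j = i then D.n i l + D.n k l else D.n j l) ≠ 0 ↔ D.n j l ≠ 0
  by_cases hj : j = i
  · rw [if_pos hj, hj]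
    constructor
    · intro h1
      by_cases h2 : D.n k l = 0
      · omega
      · exact hD.tr i k l h h2
    · intro h1
      omega
  · rw [if_neg hj]

theorem Dat.Full.row {D : Dat I} (hD : D.Full) (i k : I) (h : D.n i k ≠ 0) :
    (D.row i k).Full ∧ ∀ j l, (D.row i k).n j l ≠ 0 ↔ D.n j l ≠ 0 := by
  refine ⟨⟨hD.toOk.row i k h, ?_⟩, fun j l => fill_row_iff hD i k h j l⟩
  intro a b c h1 h2
  rw [fill_row_iff hD i k h] at h1 h2 ⊢
  exact hD.tr a b c h1 h2

theorem fill_col_iff {D : Dat I} (hD : D.Full) (i k : I) (h : D.n i k ≠ 0) (j l : I) :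
    (D.col i k).n j l ≠ 0 ↔ D.n j l ≠ 0 := by
  change (if l = k then D.n j k + D.n j i else D.n j l) ≠ 0 ↔ D.n j l ≠ 0
  by_cases hl : l = k
  · rw [if_pos hl, hl]
    constructor
    · intro h1
      by_cases h2 : D.n j i = 0
      · omega
      · exact hD.tr j i k h2 h
    · intro h1
      omega
  · rw [if_neg hl]

theorem Dat.Full.col {D : Dat I} (hD : D.Full) (i k : I) (h : D.n i k ≠ 0) :
    (D.col i k).Full ∧ ∀ j l, (D.col i k).n j l ≠ 0 ↔ D.n j l ≠ 0 := by
  have hi := fill_col_iff hD i k h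
  obtain ⟨ρ, hρ⟩ := hD.hr
  refine ⟨⟨⟨?_, ρ, ?_⟩, ?_⟩, hi⟩
  · intro j l hjl
    exact hD.hc j l ((hi j l).1 hjl)
  · intro j l hjl
    exact hρ j l ((hi j l).1 hjl)
  · intro a b c h1 h2
    rw [hi] at h1 h2 ⊢
    exact hD.tr a b c h1 h2

theorem Dat.Full.unit {D : Dat I} (hD : D.Full) (i : I) : (D.unit i).Full :=
  ⟨⟨hD.hc, hD.hr⟩, hD.tr⟩

open Classical in
theorem fill_aux : ∀ (N : ℕ) (D : Dat I), D.Ok →
    (Finset.univ.filter fun p : I × I => D.n p.1 p.2 = 0).card = N →
    ∃ D' : Dat I, D'.Full ∧ Iso K D D' := by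
  intro N
  induction N using Nat.strong_induction_on with
  | _ N ih =>
    intro D hD hN
    by_cases hF : ∀ i j k, D.n i j ≠ 0 → D.n j k ≠ 0 → D.n i k ≠ 0
    · exact ⟨D, ⟨hD, hF⟩, Iso.refl K D⟩
    · push Not at hF
      obtain ⟨i, j, l, h1, h2, h3⟩ := hF
      have hlt : (Finset.univ.filter fun p : I × I => (D.row i j).n p.1 p.2 = 0).card < N := by
        rw [← hN]
        refine Finset.card_lt_card ⟨?_, ?_⟩
        · intro p hp
          rw [Finset.mem_filter] at hp ⊢
          refine ⟨Finset.mem_univ _, ?_⟩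
          have h4 := hp.2
          change (if p.1 = i then D.n i p.2 + D.n j p.2 else D.n p.1 p.2) = 0 at h4
          by_cases h5 : p.1 = i
          · rw [if_pos h5] at h4
            rw [h5]
            omega
          · rw [if_neg h5] at h4
            exact h4
        · intro hs
          have h4 : (i, l) ∈ Finset.univ.filter fun p : I × I => D.n p.1 p.2 = 0 := by
            rw [Finset.mem_filter]
            exact ⟨Finset.mem_univ _, h3⟩
          have h5 := hs h4
          rw [Finset.mem_filter] at h5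
          have h6 := h5.2
          change (if i = i then D.n i l + D.n j l else D.n i l) = 0 at h6
          rw [if_pos rfl] at h6
          omega
      obtain ⟨D', hD', hI⟩ := ih _ hlt (D.row i j) (hD.row i j h1) rfl
      exact ⟨D', hD', (move_row K D hD i j h1).trans K hI⟩

theorem fill (D : Dat I) (hD : D.Ok) : ∃ D' : Dat I, D'.Full ∧ Iso K D D' :=
  fill_aux K _ D hD rfl

end Pool.Agent.Helper32.PG
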