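import Pool.Agent.Helper32.PG.Defs
import Pool.Agent.Helper32.PG.Disj
import Pool.Agent.Helper32.TP.Norm

/-! Reduction of a finite graph with disjoint cycles to its normal form. PIECE 24.

As in `TP/Norm.lean` (`norm_main`): let the set `I` consist of one vertex on every cycle and of
the sinks. For `i` in `I` on a cycle the paths of positive length from `i` to the first return to
`I` are the cycle itself (`z i`) and paths to other elements of `I`; there is no other return to
`i`, since cycles are disjoint. `hr`: there is no closed path through different elements of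
`I` (it would contain a cycle through two elements of `I`, since cycles are disjoint); for `ρ i` take the number of elements of
`I` which can be reached from `i`. -/

set_option autoImplicit false
set_option linter.unusedSectionVars false

universe k a b

namespace Pool.Agent.Helper32.PG

open Pool.Agent.Helper32.LV
open Pool.Agent.Helper32.TP (norm_Hit norm_P norm_HP norm_EQ norm_triv norm_sq norm_tq norm_N
  norm_hit_nil norm_hit_cons norm_sq_of_mem norm_sq_cons norm_HP_ext norm_EQ_ext norm_R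
  norm_R_meet norm_R_out norm_hit_nodup norm_path_eq norm_tg norm_tq_eq norm_sq_inj norm_triv_ne
  norm_main graph_iso Reach)

variable {V : Type a} {E : Type b}

variable {G : Gr V E}

/-! ### combinatorics -/

/-- two cycles that share a vertex have the same edges -/
theorem norm_same (hG : DisjCycles G) {v w : V} {l m : List E} (h : G.Cyc v l) (h' : G.Cyc w m)
    {f g : E} (hf : f ∈ l) (hg : g ∈ m) (hfg : G.s f = G.s g) : ∀ e ∈ m, e ∈ l :=
  hG l m h.isCycle h'.isCycle ⟨f, hf, g, hg, hfg⟩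

/-- there is only one representative on a cycle -/
theorem norm_R_uniq (hG : DisjCycles G) {o : V → ℕ} (ho : Function.Injective o) {w : V}
    {l : List E} (h : G.Cyc w l) {e f : E} (he : e ∈ l) (hf : f ∈ l)
    (he' : G.s e ∈ norm_R G o) (hf' : G.s f ∈ norm_R G o) : G.s e = G.s f := by
  have key : ∀ {e f : E}, e ∈ l → f ∈ l → G.s e ∈ norm_R G o → o (G.s e) ≤ o (G.s f) := by
    rintro e f he hf ⟨m, hm, hmin⟩
    cases m with
    | nil => exact absurd rfl hm.1
    | cons g m =>
      exact hmin f (norm_same hG hm h (by simp : g ∈ g :: m) he hm.2.1.1 f hf)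
  exact ho (le_antisymm (key he hf he') (key hf he hf'))

/-- the first return to a representative exists -/
theorem norm_ret (hG : DisjCycles G) {o : V → ℕ} (ho : Function.Injective o) {H : Set V}
    (hH : norm_R G o ⊆ H) (hH' : ∀ e, G.s e ∈ H → G.s e ∈ norm_R G o) {i : V}
    (hi : i ∈ norm_R G o) :
    ∃ (e : E) (l : List E), G.s e = i ∧ norm_Hit G H (G.r e) l ∧ G.tgt (G.r e) l = i := by
  have hi' := hi
  obtain ⟨l, hl, hmin⟩ := hi
  cases l with
  | nil => exact absurd rfl hl.1
  | cons e l =>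
    obtain ⟨-, ⟨h1, h2⟩, h3, h4⟩ := id hl
    refine ⟨e, l, h1, ⟨h2, fun f hf hfH => ?_, ?_⟩, h3⟩
    · have hfR : G.s f ∈ norm_R G o := hH' f hfH
      have h5 : G.s e = G.s f := norm_R_uniq hG ho hl (by simp) (by simp [hf])
        (by rw [h1]; exact hi') hfR
      rw [List.map_cons, List.nodup_cons] at h4
      exact h4.1 (h5 ▸ List.mem_map_of_mem hf)
    · have h6 : G.tgt (G.r e) l = i := h3
      rw [h6]
      exact hH hi'

/-- a closed hitting path is a cycle -/
theorem norm_ret_cyc {o : V → ℕ} {H : Set V}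
    (hH : norm_R G o ⊆ H) {e : E} {l : List E} (he : G.s e ∈ H)
    (hl : norm_Hit G H (G.r e) l) (ht : G.tgt (G.r e) l = G.s e) :
    G.Cyc (G.s e) (e :: l) := by
  refine ⟨by simp, ⟨rfl, hl.1⟩, ht, ?_⟩
  rw [List.map_cons, List.nodup_cons]
  refine ⟨fun hmem => ?_, norm_hit_nodup hH hl.1 hl.2.1⟩
  obtain ⟨f, hf, hfe⟩ := List.mem_map.1 hmem
  exact hl.2.1 f hf (hfe ▸ he)

/-- the first return to `i` is unique -/
theorem norm_ret_uniq (hG : DisjCycles G) {o : V → ℕ} {H : Set V}
    (hH : norm_R G o ⊆ H) {e e' : E} {l l' : List E} (he : G.s e ∈ H)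
    (hee : G.s e' = G.s e)
    (hl : norm_Hit G H (G.r e) l) (hl' : norm_Hit G H (G.r e') l')
    (ht : G.tgt (G.r e) l = G.s e) (ht' : G.tgt (G.r e') l' = G.s e) :
    e = e' ∧ l = l' := by
  have c := norm_ret_cyc hH he hl ht
  have c' := norm_ret_cyc hH (hee ▸ he) hl' (ht'.trans hee.symm)
  have hsub : ∀ f ∈ e' :: l', f ∈ e :: l :=
    norm_same hG c c' (by simp : e ∈ e :: l) (by simp : e' ∈ e' :: l') hee.symm
  have hZ : ∀ x ∈ {x | x ∈ e :: l}, ∀ y ∈ {x | x ∈ e :: l}, G.s x = G.s y → x = y :=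
    fun x hx y hy hxy => List.inj_on_of_nodup_map c.2.2.2 hx hy hxy
  have h1 : e = e' := hZ e (by simp) e' (hsub e' (by simp)) hee.symm
  subst h1
  refine ⟨rfl, norm_path_eq hZ (i := G.s e) hl.1 hl'.1 c.2.2.1 c'.2.2.1 ?_ ?_⟩
  · intro x hx
    refine ⟨by simp [hx], fun hxe => ?_⟩
    exact hl.2.1 x hx (hxe ▸ he)
  · intro x hx
    refine ⟨hsub x (by simp [hx]), fun hxe => ?_⟩
    exact hl'.2.1 x hx (hxe ▸ he)

/-- a path can be replaced by one with distinct vertices -/
theorem norm_simple (G : Gr V E) (l : List E) : ∀ v, G.IsPath v l →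
    ∃ m, G.IsPath v m ∧ G.tgt v m = G.tgt v l ∧ (m.map G.s).Nodup ∧
      G.tgt v l ∉ m.map G.s := by
  classical
  induction l with
  | nil => intro v _; exact ⟨[], trivial, rfl, by simp, by simp⟩
  | cons e l ih =>
    intro v hp
    obtain ⟨m, h1, h2, h3, h4⟩ := ih _ hp.2
    have ht : G.tgt v (e :: l) = G.tgt (G.r e) l := rfl
    by_cases hv : v = G.tgt (G.r e) l
    · refine ⟨[], trivial, ?_, by simp, by simp⟩
      rw [ht, ← hv]
      rfl
    · by_cases he : v ∈ m.map G.s
      · obtain ⟨f, hf, hfe⟩ := List.mem_map.mp he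
        obtain ⟨b, c, rfl⟩ := List.append_of_mem hf
        rw [Gr.isPath_append'] at h1
        rw [Gr.tgt_append'] at h2
        rw [List.map_append] at h3 h4
        refine ⟨f :: c, ⟨hfe, h1.2.2⟩, h2, (List.nodup_append.mp h3).2.1, fun hh => h4 ?_⟩
        exact List.mem_append_right _ hh
      · refine ⟨e :: m, ⟨hp.1, h1⟩, h2, ?_, ?_⟩
        · rw [List.map_cons, List.nodup_cons, hp.1]
          exact ⟨he, h3⟩
        · rw [List.map_cons, List.mem_cons, hp.1]
          rintro (hh | hh)
          · exact hv hh.symm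
          · exact h4 hh

/-- an edge of a closed path is on a cycle -/
theorem norm_back {e : E} {l : List E} (hp : G.IsPath (G.r e) l)
    (ht : G.tgt (G.r e) l = G.s e) : ∃ m, G.Cyc (G.s e) (e :: m) := by
  obtain ⟨m, h1, h2, h3, h4⟩ := norm_simple G l _ hp
  rw [ht] at h2 h4
  refine ⟨m, by simp, ⟨rfl, h1⟩, h2, ?_⟩
  rw [List.map_cons, List.nodup_cons]
  exact ⟨h4, h3⟩

/-- a path from a vertex on a cycle which can be continued to a closed path stays on the cycle -/
theorem norm_on (hG : DisjCycles G) {i : V} {m : List E} (hm : G.Cyc i m) (l : List E) :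
    ∀ v, (∃ f ∈ m, G.s f = v) → G.IsPath v l →
      (∃ p, G.IsPath (G.tgt v l) p ∧ G.tgt (G.tgt v l) p = v) → ∃ f ∈ m, G.s f = G.tgt v l := by
  induction l with
  | nil => intro v hv _ _; exact hv
  | cons e l ih =>
    rintro v ⟨f, hf, hfv⟩ ⟨he, hl⟩ ⟨p, hp, hpt⟩
    change G.IsPath (G.tgt (G.r e) l) p at hp
    change G.tgt (G.tgt (G.r e) l) p = v at hpt
    obtain ⟨m', hm'⟩ := norm_back (e := e) (l := l ++ p) (Gr.isPath_append'.2 ⟨hl, hp⟩)
      (by rw [Gr.tgt_append', hpt, he])
    have hem : e ∈ m := norm_same hG hm hm' hf (by simp : e ∈ e :: m') (hfv.trans he.symm) e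
      (by simp)
    refine ih _ (hm.range hem) hl ⟨p ++ [e], ?_, ?_⟩
    · rw [Gr.isPath_append', hpt]
      exact ⟨hp, he, trivial⟩
    · rw [Gr.tgt_append', hpt]
      rfl

/-- different representatives cannot be reached from each other -/
theorem norm_mutual (hG : DisjCycles G) {o : V → ℕ} (ho : Function.Injective o) {i k : V}
    (hi : i ∈ norm_R G o) (hk : k ∈ norm_R G o) (h : Reach G i k) (h' : Reach G k i) : i = k := by
  obtain ⟨l, hl, hlk⟩ := h
  obtain ⟨p, hp, hpi⟩ := h'
  obtain ⟨m, hm, -⟩ := id hi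
  cases m with
  | nil => exact absurd rfl hm.1
  | cons g m =>
    obtain ⟨f, hf, hfk⟩ := norm_on hG hm l i ⟨g, by simp, hm.2.1.1⟩ hl
      ⟨p, by rw [hlk]; exact hp, by rw [hlk]; exact hpi⟩
    rw [hlk] at hfk
    rw [← hfk, ← hm.2.1.1]
    refine norm_R_uniq hG ho hm (by simp) hf ?_ ?_
    · rw [hm.2.1.1]; exact hi
    · rw [hfk]; exact hk

section final

variable {o : V → ℕ} {H : Set V} [∀ v, Finite (norm_P G H v)] [Finite E]

variable (G o H) in
/-- the data of the normal form -/
noncomputable def norm_D : Dat H where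
  cyc i := (i : V) ∈ norm_R G o
  n i k := Nat.card {q : norm_EQ G H // G.s q.1 = i ∧ norm_tg q = k ∧ i ≠ k}
  a i := Nat.card {q : norm_EQ G H // G.s q.1 ∉ H ∧ norm_tg q = i}

/-- enumerations -/
noncomputable def norm_en (i k : H) : Fin ((norm_D G o H).n i k) ≃
    {q : norm_EQ G H // G.s q.1 = i ∧ norm_tg q = k ∧ i ≠ k} := (Finite.equivFin _).symm
noncomputable def norm_ea (i : H) : Fin ((norm_D G o H).a i) ≃
    {q : norm_EQ G H // G.s q.1 ∉ H ∧ norm_tg q = i} := (Finite.equivFin _).symm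

/-- the map on edges -/
noncomputable def norm_tau (zc : ∀ i : H, (i : V) ∈ norm_R G o → norm_EQ G H) :
    NE (norm_D G o H) → norm_EQ G H
  | .z i h => zc i h
  | .f i k m => (norm_en i k m).1
  | .g i s => (norm_ea i s).1

/-- the map on vertices -/
noncomputable def norm_sig : NV (norm_D G o H) → norm_HP G H
  | ⟨i, none⟩ => norm_triv i.2
  | ⟨i, some s⟩ => norm_sq (norm_ea i s).1

theorem norm_tau_bij (hout : ∀ e, G.s e ∈ H → G.s e ∈ norm_R G o)
    (zc : ∀ i : H, (i : V) ∈ norm_R G o → norm_EQ G H) (hz1 : ∀ i h, G.s (zc i h).1 = i)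
    (hz2 : ∀ i h, norm_tg (zc i h) = i)
    (hz3 : ∀ (i : H) (h) (q : norm_EQ G H), G.s q.1 = i → norm_tg q = i → q = zc i h) :
    Function.Bijective (norm_tau zc) := by
  have f1 : ∀ i k m, G.s (norm_en (G := G) (o := o) (H := H) i k m).1.1 = i :=
    fun i k m => (norm_en i k m).2.1
  have f2 : ∀ i k m, norm_tg (norm_en (G := G) (o := o) (H := H) i k m).1 = k :=
    fun i k m => (norm_en i k m).2.2.1
  have f3 : ∀ i k, Fin ((norm_D G o H).n i k) → i ≠ k :=
    fun i k m => (norm_en i k m).2.2.2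
  have g1 : ∀ i s, G.s (norm_ea (G := G) (o := o) (H := H) i s).1.1 ∉ H :=
    fun i s => (norm_ea i s).2.1
  have g2 : ∀ i s, norm_tg (norm_ea (G := G) (o := o) (H := H) i s).1 = i :=
    fun i s => (norm_ea i s).2.2
  constructor
  · intro x y hxy
    cases x with
    | z i h =>
      cases y with
      | z i' h' =>
        have h1 : zc i h = zc i' h' := hxy
        have h2 : i = i' := Subtype.ext (by rw [← hz1 i h, ← hz1 i' h', h1])
        subst h2
        rfl
      | f i' k m =>
        have h1 : zc i h = (norm_en i' k m).1 := hxy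
        have h2 : (i : V) = k := by rw [← hz2 i h, h1, f2]
        have h3 : (i : V) = i' := by rw [← hz1 i h, h1, f1]
        exact absurd (Subtype.ext (h3.symm.trans h2)) (f3 i' k m)
      | g i' s =>
        have h1 : zc i h = (norm_ea i' s).1 := hxy
        refine absurd ?_ (g1 i' s)
        rw [← h1, hz1]
        exact i.2
    | f i k m =>
      cases y with
      | z i' h' =>
        have h1 : (norm_en i k m).1 = zc i' h' := hxy
        have h2 : (i' : V) = k := by rw [← hz2 i' h', ← h1, f2]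
        have h3 : (i' : V) = i := by rw [← hz1 i' h', ← h1, f1]
        exact absurd (Subtype.ext (h3.symm.trans h2)) (f3 i k m)
      | f i' k' m' =>
        have h1 : (norm_en i k m).1 = (norm_en i' k' m').1 := hxy
        have h2 : i = i' := Subtype.ext (by rw [← f1 i k m, ← f1 i' k' m', h1])
        have h3 : k = k' := Subtype.ext (by rw [← f2 i k m, ← f2 i' k' m', h1])
        subst h2 h3
        rw [(norm_en i k).injective (Subtype.ext h1)]
      | g i' s =>
        have h1 : (norm_en i k m).1 = (norm_ea i' s).1 := hxy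
        refine absurd ?_ (g1 i' s)
        rw [← h1, f1]
        exact i.2
    | g i s =>
      cases y with
      | z i' h' =>
        have h1 : (norm_ea i s).1 = zc i' h' := hxy
        refine absurd ?_ (g1 i s)
        rw [h1, hz1]
        exact i'.2
      | f i' k m =>
        have h1 : (norm_ea i s).1 = (norm_en i' k m).1 := hxy
        refine absurd ?_ (g1 i s)
        rw [h1, f1]
        exact i'.2
      | g i' s' =>
        have h1 : (norm_ea i s).1 = (norm_ea i' s').1 := hxy
        have h2 : i = i' := Subtype.ext (by rw [← g2 i s, ← g2 i' s', h1])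
        subst h2
        rw [(norm_ea i).injective (Subtype.ext h1)]
  · intro q
    have hq : norm_tg q ∈ H := q.2.2.2.2
    by_cases hs : G.s q.1 ∈ H
    · have hsc := hout _ hs
      by_cases he : G.s q.1 = norm_tg q
      · exact ⟨.z ⟨G.s q.1, hs⟩ hsc, (hz3 ⟨G.s q.1, hs⟩ hsc q rfl he.symm).symm⟩
      · refine ⟨.f ⟨G.s q.1, hs⟩ ⟨norm_tg q, hq⟩ ((norm_en _ _).symm ⟨q, rfl, rfl,
          fun h => he (congrArg Subtype.val h)⟩), ?_⟩
        change (norm_en _ _ ((norm_en _ _).symm _)).1 = q
        rw [Equiv.apply_symm_apply]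
    · refine ⟨.g ⟨norm_tg q, hq⟩ ((norm_ea _).symm ⟨q, hs, rfl⟩), ?_⟩
      change (norm_ea _ ((norm_ea _).symm _)).1 = q
      rw [Equiv.apply_symm_apply]

theorem norm_sig_bij : Function.Bijective (norm_sig (G := G) (o := o) (H := H)) := by
  have g1 : ∀ i s, G.s (norm_ea (G := G) (o := o) (H := H) i s).1.1 ∉ H :=
    fun i s => (norm_ea i s).2.1
  have g2 : ∀ i s, norm_tg (norm_ea (G := G) (o := o) (H := H) i s).1 = i :=
    fun i s => (norm_ea i s).2.2
  have tr : ∀ {v w : V} (hv : v ∈ H) (hw : w ∈ H),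
      norm_triv (G := G) hv = norm_triv hw → v = w := fun hv hw h =>
    congrArg (fun p : norm_HP G H => p.1) h
  constructor
  · rintro ⟨i, s⟩ ⟨i', s'⟩ hxy
    cases s with
    | none =>
      cases s' with
      | none =>
        have h1 : i = i' := Subtype.ext (tr i.2 i'.2 hxy)
        subst h1
        rfl
      | some s' => exact (norm_triv_ne (g1 i' s') i.2 hxy).elim
    | some s =>
      cases s' with
      | none => exact (norm_triv_ne (g1 i s) i'.2 hxy.symm).elim
      | some s' =>
        have h1 := norm_sq_inj (g1 i s) (g1 i' s') hxy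
        have h2 : i = i' := Subtype.ext (by rw [← g2 i s, ← g2 i' s', h1])
        subst h2
        rw [(norm_ea i).injective (Subtype.ext h1)]
  · rintro ⟨v, l, h⟩
    cases l with
    | nil => exact ⟨⟨⟨v, norm_hit_nil.1 h⟩, none⟩, rfl⟩
    | cons e l =>
      have h5 := norm_hit_cons.1 h
      have h6 := norm_sq_cons h
      obtain ⟨q, hq⟩ : ∃ q : norm_EQ G H, q = ⟨e, l, h5.2.2⟩ := ⟨_, rfl⟩
      have hs : G.s q.1 ∉ H := by rw [hq]; exact h5.2.1
      have ht : norm_tg q ∈ H := q.2.2.2.2
      rw [← hq] at h6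
      refine ⟨⟨⟨norm_tg q, ht⟩, some ((norm_ea _).symm ⟨q, hs, rfl⟩)⟩, ?_⟩
      change norm_sq (norm_ea _ ((norm_ea _).symm _)).1 = _
      rw [Equiv.apply_symm_apply, h6]

theorem norm_reach_trans {u v w : V} (h : Reach G u v) (h' : Reach G v w) : Reach G u w := by
  obtain ⟨l, hl, hlt⟩ := h
  obtain ⟨p, hp, hpt⟩ := h'
  exact ⟨l ++ p, Gr.isPath_append'.2 ⟨hl, by rw [hlt]; exact hp⟩, by
    rw [Gr.tgt_append', hlt, hpt]⟩

theorem norm_ok [Finite V] (hG : DisjCycles G) (ho : Function.Injective o)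
    (hout : ∀ e, G.s e ∈ H → G.s e ∈ norm_R G o) : (norm_D G o H).Ok := by
  have key : ∀ i k : H, (norm_D G o H).n i k ≠ 0 →
      ∃ q : norm_EQ G H, G.s q.1 = i ∧ norm_tg q = k ∧ i ≠ k := by
    intro i k h
    have h1 : Nat.card {q : norm_EQ G H // G.s q.1 = i ∧ norm_tg q = k ∧ i ≠ k} ≠ 0 := h
    obtain ⟨⟨q, hq⟩⟩ := (Nat.card_pos_iff.1 (Nat.pos_of_ne_zero h1)).1
    exact ⟨q, hq⟩
  refine ⟨?_, fun i => Set.ncard {k : V | k ∈ H ∧ Reach G i k}, ?_⟩
  · intro i k h
    obtain ⟨q, h1, -, -⟩ := key i k h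
    change (i : V) ∈ norm_R G o
    rw [← h1]
    exact hout _ (by rw [h1]; exact i.2)
  · intro i k h
    obtain ⟨q, h1, h2, h3⟩ := key i k h
    have hik : Reach G i k := ⟨q.1 :: q.2.1, ⟨h1, q.2.2.1⟩, h2⟩
    have hiR : (i : V) ∈ norm_R G o := by
      rw [← h1]
      exact hout _ (by rw [h1]; exact i.2)
    refine Set.ncard_lt_ncard ?_ (Set.toFinite _)
    rw [Set.ssubset_iff_exists]
    refine ⟨?_, i, ⟨i.2, [], trivial, rfl⟩, ?_⟩
    · rintro j ⟨hj, hkj⟩
      exact ⟨hj, norm_reach_trans hik hkj⟩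
    · rintro ⟨-, hki⟩
      have hkR : (k : V) ∈ norm_R G o := by
        obtain ⟨l, hl, hlt⟩ := id hki
        cases l with
        | nil => exact absurd (Subtype.ext hlt).symm h3
        | cons e l =>
          rw [← hl.1]
          exact hout _ (by rw [hl.1]; exact k.2)
      exact h3 (Subtype.ext (norm_mutual hG ho hiR hkR hik hki))

end final

theorem exists_NG (K : Type k) [Field K] [StarRing K] (G : Gr V E) [Finite V] [Finite E]
    (hG : DisjCycles G) : ∃ (I : Set V) (D : Dat I), D.Ok ∧ Nonempty (L K G ≃⋆ₐ[K] L K (NG D)) := by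
  classical
  obtain ⟨n, ⟨eq⟩⟩ := Finite.exists_equiv_fin V
  obtain ⟨o, hoi⟩ : ∃ o : V → ℕ, Function.Injective o :=
    ⟨fun v => (eq v : ℕ), fun v w h => eq.injective (Fin.ext h)⟩
  obtain ⟨H, hHd⟩ : ∃ H : Set V, H = norm_R G o ∪ {v | ∀ e, G.s e ≠ v} := ⟨_, rfl⟩
  have hH : norm_R G o ⊆ H := by rw [hHd]; exact fun v hv => Or.inl hv
  have hout : ∀ e, G.s e ∈ H → G.s e ∈ norm_R G o := by
    intro e he
    rw [hHd] at he
    exact he.resolve_right fun h => h e rfl
  have := Fintype.ofFinite E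
  have hN : ∀ v l, G.IsPath v l → (∀ e ∈ l, G.s e ∉ H) → l.length ≤ Fintype.card E := by
    intro v l hp hl
    exact (norm_hit_nodup hH hp hl).of_map.length_le_card
  have hfin : ∀ v, Finite (norm_P G H v) := by
    intro v
    have h1 : {l : List E | l.length ≤ Fintype.card E}.Finite := List.finite_length_le E _
    exact (h1.subset fun l hl => hN v l hl.1 hl.2.1).to_subtype
  have hout' : ∀ v, v ∉ H → ∃ e, G.s e = v := by
    intro v hv
    by_contra hcc
    push Not at hcc
    rw [hHd] at hv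
    exact hv (Or.inr hcc)
  obtain ⟨F⟩ := norm_main (H := H) K hout' (Fintype.card E) hN
  have hret : ∀ (i : H) (_ : (i : V) ∈ norm_R G o), ∃ q : norm_EQ G H,
      G.s q.1 = i ∧ norm_tg q = i := by
    intro i hi
    obtain ⟨e, l, h1, h2, h3⟩ := norm_ret hG hoi hH hout hi
    exact ⟨⟨e, l, h2⟩, h1, h3⟩
  choose zc hz1 hz2 using hret
  have hz3 : ∀ (i : H) (h : (i : V) ∈ norm_R G o) (q : norm_EQ G H), G.s q.1 = i →
      norm_tg q = i → q = zc i h := by
    intro i h q h1 h2
    have h3 := norm_ret_uniq hG hH (e := q.1) (e' := (zc i h).1) (l := q.2.1)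
      (l' := (zc i h).2.1) (by rw [h1]; exact i.2) (by rw [hz1, h1]) q.2.2 (zc i h).2.2
      (h2.trans h1.symm) ((hz2 i h).trans h1.symm)
    exact norm_EQ_ext h3.1 h3.2
  obtain ⟨F'⟩ := graph_iso K (NG (norm_D G o H)) (norm_N G H)
    (Equiv.ofBijective _ norm_sig_bij)
    (Equiv.ofBijective _ (norm_tau_bij hout zc hz1 hz2 hz3)) (by
      intro e
      cases e with
      | z i h =>
        have h1 : G.s (zc i h).1 ∈ H := by rw [hz1]; exact i.2
        change norm_sq (zc i h) = norm_triv (v := i.1) i.2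
        rw [norm_sq_of_mem h1]
        exact norm_HP_ext (hz1 i h) rfl
      | f i k m =>
        have h0 := (norm_en (G := G) i k m).2.1
        have h1 : G.s (norm_en i k m).1.1 ∈ H := by rw [h0]; exact i.2
        change norm_sq (norm_en i k m).1 = norm_triv (v := i.1) i.2
        rw [norm_sq_of_mem h1]
        exact norm_HP_ext h0 rfl
      | g i s => rfl) (by
      intro e
      cases e with
      | z i h => exact norm_tq_eq (hz2 i h) i.2
      | f i k m => exact norm_tq_eq (norm_en (G := G) i k m).2.2.1 k.2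
      | g i s => exact norm_tq_eq (norm_ea (G := G) i s).2.2 i.2)
  exact ⟨H, norm_D G o H, norm_ok hG hoi hout, ⟨F.trans F'.symm⟩⟩

end Pool.Agent.Helper32.PG
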