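import Pool.Agent.Helper32.PG.Rel
import Pool.Agent.Helper32.PG.Arith
import Pool.Agent.Helper32.PG.Norm
import Pool.Agent.Helper32.LV.Loops

/-! The main theorem for finite graphs with disjoint cycles. -/

set_option autoImplicit false
set_option linter.unusedSectionVars false

universe k a b

namespace Pool.Agent.Helper32.PG

open Pool.Agent.Helper32.LV

/-- the relation `Rl` for the relabelled data -/
theorem PQ.rl {I I' : Type*} [Fintype I] [DecidableEq I] [Fintype I'] [DecidableEq I']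
    {D : Dat I} {D' : Dat I'} (hD : D.Full) (hD' : D'.Full) (p : PQ D D') :
    Rl D (D'.comap p.σ) p.P p.Q p.y where
  fD := hD
  fD' := by
    refine ⟨⟨fun i k h => hD'.hc _ _ h, ?_⟩, fun i j k h h' => hD'.tr _ _ _ h h'⟩
    obtain ⟨ρ, hρ⟩ := hD'.hr
    exact ⟨fun i => ρ (p.σ i), fun i k h => hρ _ _ h⟩
  cyc := p.cyc_iff
  supp := p.n_iff
  P1 := p.P1
  Q1 := p.Q1
  P0 := p.P0
  Q0 := p.Q0
  eq := p.eq
  eu := p.eu

theorem main_NG {I I' : Type a} [Finite I] [Finite I'] (K : Type k) [Field K] [StarRing K]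
    (D : Dat I) (D' : Dat I') (hD : D.Ok) (hD' : D'.Ok)
    (h : Nonempty (L K (NG D) ≃+* L K (NG D'))) : Nonempty (L K (NG D) ≃⋆ₐ[K] L K (NG D')) := by
  classical
  haveI := Fintype.ofFinite I
  haveI := Fintype.ofFinite I'
  obtain ⟨D1, h1, ⟨f1⟩⟩ := fill K D hD
  obtain ⟨D1', h1', ⟨f1'⟩⟩ := fill K D' hD'
  obtain ⟨g⟩ := h
  obtain ⟨φ⟩ := exists_RI (((f1.symm : _ ≃⋆ₐ[K] _).toRingEquiv.trans g).trans f1'.toRingEquiv)
  obtain ⟨p⟩ := exists_PQ h1 h1' φ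
  obtain ⟨F⟩ := (iso_of_Rl K (p.rl h1 h1')).trans K (relabel K D1' p.σ)
  exact ⟨(f1.trans F).trans f1'.symm⟩

theorem main {V : Type a} {E : Type b} {V' : Type a} {E' : Type b} (K : Type k) [Field K]
    [StarRing K] (G : Gr V E) (G' : Gr V' E') [Finite V] [Finite E] [Finite V'] [Finite E']
    (hG : DisjCycles G) (hG' : DisjCycles G') (h : Nonempty (L K G ≃+* L K G')) :
    Nonempty (L K G ≃⋆ₐ[K] L K G') := by
  obtain ⟨I, D, hD, ⟨f⟩⟩ := exists_NG K G hG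
  obtain ⟨I', D', hD', ⟨f'⟩⟩ := exists_NG K G' hG'
  obtain ⟨g⟩ := h
  obtain ⟨F⟩ := main_NG K D D' hD hD'
    ⟨((f.symm : _ ≃⋆ₐ[K] _).toRingEquiv.trans g).trans f'.toRingEquiv⟩
  exact ⟨(f.trans F).trans f'.symm⟩

end Pool.Agent.Helper32.PG
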