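import Pool.Agent.Helper32.PG.Lev

/-! The ideal generated by an idempotent is one of the `J H`. PIECE 8.

Let `H` be a lower set of smallest cardinality with `e ∈ J H`. For a maximal `i` in `H` we have
`e ∉ J (H \ {i})`, so `level` (for the matrix with the single entry `e`) gives `r > 0` and
`v i = w + j` with `w` in `gn e` (an entry of `Y * X = Y * E * X`), `j ∈ J (H \ {i})`, both in the
corner of `v i`. By `kill`, `zi (-m) * j = 0` for some `m`, so
`v i = zi (-m) * zi m = zi (-m) * w * zi m` lies in `gn e` (for a sink use `kill_sink`). Hence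
`gn e` contains all maximal `v i` of `H`, and with them all `v k`, `k ∈ H` (`vn_mem_J_of_n`,
which holds for every two-sided ideal). -/

set_option autoImplicit false
set_option linter.unusedSectionVars false

universe k a

namespace Pool.Agent.Helper32.PG

open Pool.Agent.Helper32.LV

variable {I : Type a} [Fintype I] [DecidableEq I] {K : Type k} [Field K] [StarRing K] {D : Dat I}

/-- the ideal generated by `e` is closed under the relation of reachability -/
theorem gen_vn_of_n {e : U K (NG D)} {i k : I} (h : vn K D i ∈ gn K D e) (hn : D.n i k ≠ 0) :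
    vn K D k ∈ gn K D e := by
  have h1 := pth_gh_f (K := K) i k (⟨0, Nat.pos_of_ne_zero hn⟩ : Fin (D.n i k))
  rw [← h1, ← pth_vn_f (K := K) i k (⟨0, Nat.pos_of_ne_zero hn⟩ : Fin (D.n i k))]
  exact gn_mul_left _ (gn_mul_right h _)

/-- below every element of a lower set there is a maximal one above it -/
theorem gen_exists_max (hD : D.Full) {H : Set I} {k : I} (hk : k ∈ H) :
    ∃ i ∈ H, (i = k ∨ D.n i k ≠ 0) ∧ ∀ j ∈ H, D.n j i = 0 := by
  obtain ⟨ρ, hρ⟩ := hD.hr
  obtain ⟨i, ⟨hi, hik⟩, hmax⟩ := Set.exists_max_image {i | i ∈ H ∧ (i = k ∨ D.n i k ≠ 0)} ρ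
    (Set.toFinite _) ⟨k, hk, Or.inl rfl⟩
  refine ⟨i, hi, hik, fun j hj => ?_⟩
  by_contra hji
  have h1 : j = k ∨ D.n j k ≠ 0 := by
    right
    rcases hik with rfl | h
    · exact hji
    · exact hD.tr j i k hji h
  exact absurd (hρ j i hji) (not_lt.2 (hmax j ⟨hj, h1⟩))

/-- the maximal vertices of a minimal lower set -/
theorem gen_max_mem (hD : D.Full) {e : U K (NG D)} (he : e * e = e) {H : Set I} (hH : Low D H)
    (hJ : e ∈ J K D H) {i : I} (hi : i ∈ H) (hm : ∀ j ∈ H, D.n j i = 0)
    (hlow : Low D (H \ {i})) (hne : e ∉ J K D (H \ {i})) : vn K D i ∈ gn K D e := by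
  obtain ⟨r, X, Y, hEX, hYE, hXd, hdY, h1, h2⟩ := level hD hH hi hm
    (Matrix.of fun _ _ : Unit => e) (by
      ext a b
      rw [Matrix.mul_apply]
      simp [he]) (fun _ _ => hJ)
  rcases Nat.eq_zero_or_pos r with hr | hr
  · exfalso
    subst hr
    apply hne
    have h3 := h1 () ()
    rw [Matrix.sub_apply, Matrix.mul_apply, Fin.sum_univ_zero, sub_zero, Matrix.of_apply] at h3
    exact h3
  · let a0 : Fin r := ⟨0, hr⟩
    have hiH : i ∉ H \ {i} := fun h => h.2 rfl
    have hX : e * X () a0 = X () a0 := by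
      have h3 := congrFun (congrFun hEX ()) a0
      rw [Matrix.mul_apply] at h3
      simpa using h3
    set w : U K (NG D) := Y a0 () * X () a0 with hw
    have hwm : w ∈ gn K D e := by
      rw [hw, ← hX]
      exact gn_mul_left _ (gn_mul_right (self_mem_gn e) _)
    have hj : vn K D i - w ∈ J K D (H \ {i}) := by
      have h3 := h2 a0 a0
      have h4 : dv K D i r a0 a0 = vn K D i := Matrix.diagonal_apply_eq _ _
      rw [Matrix.sub_apply, Matrix.mul_apply, h4] at h3
      simpa using h3
    by_cases hc : D.cyc i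
    · obtain ⟨M, hM⟩ := kill hD i hc hlow hiH hj
      have h4 := hM M le_rfl
      rw [mul_sub, zi_vn, sub_eq_zero] at h4
      have h5 := zi_neg_mul (K := K) i hc M M
      rw [sub_self, zi_zero, h4] at h5
      rw [← h5]
      exact gn_mul_right (gn_mul_left _ hwm) _
    · have h4 := kill_sink hD i hc hlow hiH hj
      rw [mul_sub, sub_eq_zero] at h4
      have h5 : vn K D i * vn K D i = vn K D i := vx_vx _
      rw [h5] at h4
      rw [h4]
      exact gn_mul_left _ hwm

theorem gen_idem (hD : D.Full) {e : U K (NG D)} (he : e * e = e) (hL : e ∈ L K (NG D)) :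
    ∃ H : Set I, Low D H ∧ gn K D e = J K D H := by
  obtain ⟨H, ⟨hH, hJ⟩, hmin⟩ := (Set.toFinite {H : Set I | Low D H ∧ e ∈ J K D H}).exists_minimal
    ⟨Set.univ, fun _ _ _ _ => Set.mem_univ _, L_le_J hL⟩
  refine ⟨H, hH, le_antisymm ?_ ?_⟩
  · refine Submodule.span_le.2 ?_
    rintro _ ⟨b, c, rfl⟩
    exact J_mul_right (J_mul_left b hJ) c
  · intro x hx
    refine J_le_of (W := gn K D e) (fun a y hy => gn_mul_left a hy)
      (fun a y hy => gn_mul_right hy a) ?_ hx
    intro k hk
    obtain ⟨i, hi, hik, hm⟩ := gen_exists_max hD hk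
    have hlow : Low D (H \ {i}) := by
      intro j hj k' hk'
      refine ⟨hH j hj.1 k' hk', ?_⟩
      rintro rfl
      exact hk' (hm j hj.1)
    have hne : e ∉ J K D (H \ {i}) := by
      intro h
      have h3 : H ≤ H \ {i} := hmin ⟨hlow, h⟩ Set.sdiff_subset
      exact (h3 hi).2 rfl
    have h4 := gen_max_mem hD he hH hJ hi hm hlow hne
    rcases hik with rfl | h
    · exact h4
    · exact gen_vn_of_n h4 h

end Pool.Agent.Helper32.PG
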