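import Pool.Agent.Helper32.PG.Defs
import Pool.Agent.Helper32.TP.Fred

/-! Matrices acting modulo finite rank. PIECE 14. -/

set_option autoImplicit false
set_option linter.unusedSectionVars false

universe k a

namespace Pool.Agent.Helper32.PG

open Pool.Agent.Helper32.LV Pool.Agent.Helper32.TP

variable {I : Type a} {K : Type k} [Field K] {D : Dat I} {B : Type*} {Bj : I → Type*}
  (i : ∀ j, Bj j → B) (hi : ∀ j, Function.Injective (i j))
  {ι κ τ : Type*} [Fintype ι] [Fintype κ] [Fintype τ] [DecidableEq ι] [DecidableEq κ]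
  (T : U K (NG D) →ₗ[K] Module.End K (B →₀ K))

/-- the compression of the matrix `T (X a b)` to the parts of `B` over the vertices `μ a`, `lam b`;
here `i j : Bj j → B` is the inclusion of the part of `B` over the vertex `j` -/
noncomputable def Mx (lam : ι → I) (μ : κ → I) (X : Matrix κ ι (U K (NG D))) :
    (∀ a : ι, Bj (lam a) →₀ K) →ₗ[K] (∀ a : κ, Bj (μ a) →₀ K) :=
  LinearMap.pi fun a => ∑ b, Finsupp.lcomapDomain (i (μ a)) (hi (μ a)) ∘ₗ T (X a b) ∘ₗ
    Finsupp.lmapDomain K K (i (lam b)) ∘ₗ LinearMap.proj b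

open Classical in
/-- `T (v j)` is the projection onto the part over `j` -/
def TvOk : Prop := ∀ j b, T (vn K D j) (Finsupp.single b 1) =
  if b ∈ Set.range (i j) then Finsupp.single b 1 else 0

theorem mx_res_incl (j : I) (x : Bj j →₀ K) :
    Finsupp.lcomapDomain (R := K) (i j) (hi j) (Finsupp.lmapDomain K K (i j) x) = x :=
  Finsupp.leftInverse_lcomapDomain_mapDomain (R := K) (i j) (hi j) x

theorem mx_vn (h : TvOk i T) (j : I) : T (vn K D j) =
    Finsupp.lmapDomain K K (i j) ∘ₗ Finsupp.lcomapDomain (R := K) (i j) (hi j) := by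
  classical
  refine Finsupp.lhom_ext' fun b => LinearMap.ext_ring ?_
  rw [LinearMap.comp_apply, LinearMap.comp_apply, LinearMap.comp_apply, Finsupp.lsingle_apply,
    h j b]
  by_cases hb : b ∈ Set.range (i j)
  · obtain ⟨c, rfl⟩ := hb
    rw [if_pos ⟨c, rfl⟩, Finsupp.lcomapDomain_apply, Finsupp.comapDomain_single,
      Finsupp.lmapDomain_apply, Finsupp.mapDomain_single]
  · rw [if_neg hb]
    have : Finsupp.lcomapDomain (R := K) (i j) (hi j) (Finsupp.single b (1 : K)) = 0 := by
      ext c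
      rw [Finsupp.lcomapDomain_apply, Finsupp.comapDomain_apply, Finsupp.zero_apply,
        Finsupp.single_eq_of_ne]
      exact fun e => hb ⟨c, e⟩
    rw [this, map_zero]

theorem mx_finRk_zero {V W : Type*} [AddCommGroup V] [Module K V] [AddCommGroup W]
    [Module K W] : FinRk (0 : V →ₗ[K] W) := by
  unfold FinRk
  rw [LinearMap.range_zero]
  infer_instance

theorem mx_finRk_sum {V W σ : Type*} [AddCommGroup V] [Module K V] [AddCommGroup W]
    [Module K W] (s : Finset σ) (f : σ → (V →ₗ[K] W)) (h : ∀ a, FinRk (f a)) :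
    FinRk (∑ a ∈ s, f a) := by
  classical
  induction s using Finset.induction_on with
  | empty => rw [Finset.sum_empty]; exact mx_finRk_zero
  | insert a s ha ih => rw [Finset.sum_insert ha]; exact (h a).add ih

theorem mx_finRk_pi {V σ : Type*} {W : σ → Type*} [Fintype σ] [AddCommGroup V] [Module K V]
    [∀ a, AddCommGroup (W a)] [∀ a, Module K (W a)] (f : ∀ a, V →ₗ[K] W a)
    (h : ∀ a, FinRk (f a)) : FinRk (LinearMap.pi f) := by
  classical
  have : LinearMap.pi f = ∑ a, LinearMap.single K W a ∘ₗ f a := by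
    refine LinearMap.ext fun x => funext fun b => ?_
    rw [LinearMap.pi_apply, LinearMap.sum_apply, Finset.sum_apply,
      Finset.sum_eq_single b (fun a _ hab => ?_) (fun hb => absurd (Finset.mem_univ b) hb)]
    · rw [LinearMap.comp_apply, LinearMap.single_apply, Pi.single_eq_same]
    · rw [LinearMap.comp_apply, LinearMap.single_apply, Pi.single_eq_of_ne hab.symm]
  rw [this]
  exact mx_finRk_sum _ _ fun a => (h a).comp_left _

theorem mx_diff (h : TvOk i T) (lam : ι → I) (μ : κ → I) (ν : τ → I)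
    (X : Matrix κ ι (U K (NG D))) (Y : Matrix ι τ (U K (NG D))) :
    Mx i hi T ν μ (X * Y) - Mx i hi T lam μ X ∘ₗ Mx i hi T ν lam Y =
      LinearMap.pi fun a => ∑ c, Finsupp.lcomapDomain (i (μ a)) (hi (μ a)) ∘ₗ
        (∑ b, (T (X a b * Y b c) - T (X a b) * T (vn K D (lam b)) * T (Y b c))) ∘ₗ
        Finsupp.lmapDomain K K (i (ν c)) ∘ₗ LinearMap.proj c := by
  refine LinearMap.ext fun x => funext fun a => ?_
  simp only [Mx, mx_vn i hi T h, LinearMap.sub_apply, LinearMap.comp_apply, LinearMap.pi_apply,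
    LinearMap.sum_apply, LinearMap.proj_apply, Matrix.mul_apply, map_sum, Pi.sub_apply,
    Module.End.mul_apply, map_sub, Finset.sum_sub_distrib]
  congr 1
  rw [Finset.sum_comm]

theorem mx_row (lam : ι → I) (Y : Matrix ι τ (U K (NG D)))
    (hY : (Matrix.diagonal fun a => vn K D (lam a)) * Y = Y) (b : ι) (c : τ) :
    vn K D (lam b) * Y b c = Y b c := by
  conv_rhs => rw [← hY]
  rw [Matrix.diagonal_mul]

theorem mx_zero (hT : ∀ x y, T (x * y) = T x * T y) (u v w : U K (NG D)) (hv : v * w = w) :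
    T (u * w) - T u * T v * T w = 0 := by
  rw [mul_assoc, ← hT v w, hv, hT]
  exact sub_self (T u * T w : Module.End K (B →₀ K))

theorem mx_fin (hT : ∀ x y, FinRk (T (x * y) - T x * T y)) (u v w : U K (NG D))
    (hv : v * w = w) : FinRk (T (u * w) - T u * T v * T w) := by
  have e : T (u * w) - T u * T v * T w =
      (T (u * w) - T u * T w) + T u ∘ₗ (T (v * w) - T v * T w) := by
    rw [hv]
    refine LinearMap.ext fun x => ?_
    simp only [LinearMap.sub_apply, LinearMap.add_apply, LinearMap.comp_apply,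
      Module.End.mul_apply, map_sub]
    abel
  rw [e]
  exact (hT _ _).add ((hT _ _).comp_left _)

theorem Mx_dg (h : TvOk i T) (lam : ι → I) :
    Mx i hi T lam lam (Matrix.diagonal fun a => vn K D (lam a)) = LinearMap.id := by
  refine LinearMap.ext fun x => funext fun a => ?_
  rw [Mx, LinearMap.pi_apply, LinearMap.sum_apply,
    Finset.sum_eq_single a (fun b _ hb => ?_) (fun hb => absurd (Finset.mem_univ a) hb)]
  · rw [Matrix.diagonal_apply_eq, mx_vn i hi T h]
    simp only [LinearMap.comp_apply, LinearMap.proj_apply, LinearMap.id_apply]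
    rw [mx_res_incl i hi, mx_res_incl i hi]
  · rw [Matrix.diagonal_apply_ne _ hb.symm, map_zero]
    simp

theorem Mx_mul (h : TvOk i T) (hT : ∀ x y, FinRk (T (x * y) - T x * T y)) (lam : ι → I)
    (μ : κ → I) (ν : τ → I) (X : Matrix κ ι (U K (NG D))) (Y : Matrix ι τ (U K (NG D)))
    (hY : (Matrix.diagonal fun a => vn K D (lam a)) * Y = Y) :
    FinRk (Mx i hi T ν μ (X * Y) - Mx i hi T lam μ X ∘ₗ Mx i hi T ν lam Y) := by
  rw [mx_diff i hi T h]
  refine mx_finRk_pi _ fun a => mx_finRk_sum _ _ fun c => FinRk.comp_left ?_ _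
  refine FinRk.comp_right (mx_finRk_sum _ _ fun b => ?_) _
  exact mx_fin T hT _ _ _ (mx_row lam Y hY b c)

theorem Mx_mul_exact (h : TvOk i T) (hT : ∀ x y, T (x * y) = T x * T y) (lam : ι → I)
    (μ : κ → I) (ν : τ → I) (X : Matrix κ ι (U K (NG D))) (Y : Matrix ι τ (U K (NG D)))
    (hY : (Matrix.diagonal fun a => vn K D (lam a)) * Y = Y) :
    Mx i hi T ν μ (X * Y) = Mx i hi T lam μ X ∘ₗ Mx i hi T ν lam Y := by
  rw [← sub_eq_zero, mx_diff i hi T h]
  refine LinearMap.ext fun x => funext fun a => ?_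
  rw [LinearMap.pi_apply, LinearMap.zero_apply, Pi.zero_apply, LinearMap.sum_apply]
  refine Finset.sum_eq_zero fun c _ => ?_
  have e : (∑ b, (T (X a b * Y b c) - T (X a b) * T (vn K D (lam b)) * T (Y b c))) = 0 := by
    exact Finset.sum_eq_zero fun b _ => mx_zero T hT _ _ _ (mx_row lam Y hY b c)
  rw [e]
  simp

end Pool.Agent.Helper32.PG
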