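import Pool.Agent.Helper32.PG.Lev
import Pool.Agent.Helper32.PG.Cl1

/-! Every idempotent is stably a sum of vertices. PIECE 7.

`stable_of_level`: write `E - X * Y = S * T` with `factor` (and multiply by `E` on both sides),
apply `claim1` with `F = dv K D i r` and `G = dg c`; all entries of the matrix `Q` in `claim1` lie in `J (H \ {i})`;
apply the hypothesis to `Q`. `stable`: induction on the cardinality of `H`, choosing a maximal `i` in `H`
(for `H = ∅` the matrix is `0`). -/

set_option autoImplicit false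
set_option linter.unusedSectionVars false

universe k a

namespace Pool.Agent.Helper32.PG

open Pool.Agent.Helper32.LV

variable {I : Type a} [Fintype I] [DecidableEq I] {K : Type k} [Field K] [StarRing K] {D : Dat I}

variable (K D) in
/-- the diagonal matrix with `c k` entries `v k` -/
noncomputable abbrev dg (c : I → ℕ) :
    Matrix (Σ k, Fin (c k)) (Σ k, Fin (c k)) (U K (NG D)) :=
  Matrix.diagonal fun x => vn K D x.1

variable (K D) in
/-- the class of a sum of vertices -/
noncomputable def cv (c : I → ℕ) : VM (U K (NG D)) := ∑ k, c k • cl (vn K D k)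

theorem cls_dg' (c : I → ℕ) : cls (dg K D c) = cv K D c :=
  cls_dg (fun k => vn K D k) (fun _ => vx_vx _) c

theorem stab_cv_add (c d : I → ℕ) : cv K D (fun k => c k + d k) = cv K D c + cv K D d := by
  unfold cv
  rw [← Finset.sum_add_distrib]
  exact Finset.sum_congr rfl fun k _ => add_nsmul _ _ _

theorem stab_cv_single (i : I) (r : ℕ) :
    cv K D (fun k => if k = i then r else 0) = r • cl (vn K D i) := by
  unfold cv
  rw [Finset.sum_eq_single i]
  · simp only [if_true]
  · intro k _ hk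
    simp only [if_neg hk, zero_nsmul]
  · intro h
    exact absurd (Finset.mem_univ i) h

theorem stab_cls_dv (i : I) (r : ℕ) : cls (dv K D i r) = r • cl (vn K D i) := by
  rw [cls_diag _ (fun _ => vx_vx _), Finset.sum_const, Finset.card_univ, Fintype.card_fin]

theorem stab_vn_mem {G : Set I} {c : I → ℕ} (hc : ∀ k, k ∉ G → c k = 0)
    (x : Σ k, Fin (c k)) : vn K D x.1 ∈ J K D G := by
  refine pth_vn_mem_J ?_
  by_contra h
  have h1 := hc _ h
  have h2 := x.2
  rw [h1] at h2
  exact h2.elim0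

theorem stab_dg_mem {G : Set I} {c : I → ℕ} (hc : ∀ k, k ∉ G → c k = 0)
    (x y : Σ k, Fin (c k)) : (dg K D c) x y ∈ J K D G := by
  by_cases h : x = y
  · subst h
    have h1 : (dg K D c) x x = vn K D x.1 := Matrix.diagonal_apply_eq _ x
    rw [h1]
    exact stab_vn_mem hc x
  · have h1 : (dg K D c) x y = 0 := Matrix.diagonal_apply_ne _ h
    rw [h1]
    exact Submodule.zero_mem _

theorem stab_mul_dg {G : Set I} {c : I → ℕ} (hc : ∀ k, k ∉ G → c k = 0) {κ : Type*}
    (A : Matrix κ (Σ k, Fin (c k)) (U K (NG D))) (hA : A * dg K D c = A) (x : κ)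
    (y : Σ k, Fin (c k)) : A x y ∈ J K D G := by
  rw [← hA, Matrix.mul_diagonal]
  exact J_mul_left _ (stab_vn_mem hc y)

theorem stab_dg_mul {G : Set I} {c : I → ℕ} (hc : ∀ k, k ∉ G → c k = 0) {κ : Type*}
    (A : Matrix (Σ k, Fin (c k)) κ (U K (NG D))) (hA : dg K D c * A = A)
    (y : Σ k, Fin (c k)) (x : κ) : A y x ∈ J K D G := by
  rw [← hA, Matrix.diagonal_mul]
  exact J_mul_right (stab_vn_mem hc y) _

theorem stab_mul_left {G : Set I} {κ κ' τ : Type*} [Fintype κ'] (A : Matrix κ κ' (U K (NG D)))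
    (B : Matrix κ' τ (U K (NG D))) (hB : ∀ x y, B x y ∈ J K D G) (x : κ) (y : τ) :
    (A * B) x y ∈ J K D G := by
  rw [Matrix.mul_apply]
  exact Submodule.sum_mem _ fun z _ => J_mul_left _ (hB z y)

theorem stab_mul_right {G : Set I} {κ κ' τ : Type*} [Fintype κ'] (A : Matrix κ κ' (U K (NG D)))
    (B : Matrix κ' τ (U K (NG D))) (hA : ∀ x y, A x y ∈ J K D G) (x : κ) (y : τ) :
    (A * B) x y ∈ J K D G := by
  rw [Matrix.mul_apply]
  exact Submodule.sum_mem _ fun z _ => J_mul_right (hA x z) _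

theorem factor {G : Set I} {ι : Type*} [Fintype ι] [DecidableEq ι]
    (M : Matrix ι ι (U K (NG D))) (h : ∀ a b, M a b ∈ J K D G) :
    ∃ (c : I → ℕ) (S : Matrix ι (Σ k, Fin (c k)) (U K (NG D)))
      (T : Matrix (Σ k, Fin (c k)) ι (U K (NG D))), (∀ k, k ∉ G → c k = 0) ∧
      S * dg K D c = S ∧ dg K D c * T = T ∧ M = S * T := by
  classical
  choose n t b c ht hM using fun p : ι × ι => J_sum (h p.1 p.2)
  let σ : Type _ := Σ p : ι × ι, Fin (n p)
  let t' : σ → I := fun x => t x.1 x.2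
  let c' : I → ℕ := fun k => Fintype.card {x : σ // t' x = k}
  let e : σ ≃ Σ k, Fin (c' k) := (Equiv.sigmaFiberEquiv t').symm.trans
    (Equiv.sigmaCongrRight fun k => Fintype.equivFin _)
  have he : ∀ x, (e x).1 = t' x := fun x => rfl
  have he' : ∀ y, t' (e.symm y) = y.1 := fun y => by
    rw [← he, Equiv.apply_symm_apply]
  have hv : ∀ k, vn K D k * vn K D k = vn K D k := fun k => vx_vx _
  refine ⟨c', Matrix.of fun a y => if a = (e.symm y).1.1 then
      b (e.symm y).1 (e.symm y).2 * vn K D (t' (e.symm y)) else 0,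
    Matrix.of fun y a => if (e.symm y).1.2 = a then
      vn K D (t' (e.symm y)) * c (e.symm y).1 (e.symm y).2 else 0, ?_, ?_, ?_, ?_⟩
  · intro k hk
    refine Fintype.card_eq_zero_iff.2 ⟨?_⟩
    rintro ⟨x, hx⟩
    exact hk (hx ▸ ht x.1 x.2)
  · ext a y
    rw [Matrix.mul_diagonal, Matrix.of_apply, ← he' y]
    split_ifs
    · rw [mul_assoc, hv]
    · rw [zero_mul]
  · ext y a
    rw [Matrix.diagonal_mul, Matrix.of_apply, ← he' y]
    split_ifs
    · rw [← mul_assoc, hv]
    · rw [mul_zero]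
  · ext a d
    rw [Matrix.mul_apply, ← Equiv.sum_comp e]
    have hs : ∀ x : σ, (Matrix.of (fun a y => if a = (e.symm y).1.1 then
        b (e.symm y).1 (e.symm y).2 * vn K D (t' (e.symm y)) else 0) :
          Matrix ι (Σ k, Fin (c' k)) (U K (NG D))) a (e x) *
        (Matrix.of (fun y a => if (e.symm y).1.2 = a then
        vn K D (t' (e.symm y)) * c (e.symm y).1 (e.symm y).2 else 0) :
          Matrix (Σ k, Fin (c' k)) ι (U K (NG D))) (e x) d =
        (if a = x.1.1 then b x.1 x.2 * vn K D (t x.1 x.2) else 0) *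
        (if x.1.2 = d then vn K D (t x.1 x.2) * c x.1 x.2 else 0) := by
      intro x
      rw [Matrix.of_apply, Matrix.of_apply, Equiv.symm_apply_apply]
    rw [Finset.sum_congr rfl fun x _ => hs x, Fintype.sum_sigma, Finset.sum_eq_single (a, d)]
    · rw [hM (a, d)]
      refine Finset.sum_congr rfl fun s _ => ?_
      rw [if_pos rfl, if_pos rfl, mul_assoc (b _ _) (vn K D _) (_ * _),
        ← mul_assoc (vn K D _) (vn K D _), hv, ← mul_assoc]
    · intro p _ hp
      refine Finset.sum_eq_zero fun s _ => ?_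
      by_cases h1 : a = p.1
      · rw [if_neg (c := p.2 = d), mul_zero]
        intro h2
        exact hp (Prod.ext h1.symm h2)
      · rw [if_neg h1, zero_mul]
    · intro h1
      exact absurd (Finset.mem_univ _) h1

/-- the induction step -/
theorem stable_of_level {H : Set I} (hH : Low D H) {i : I} (hi : i ∈ H)
    (hm : ∀ j ∈ H, D.n j i = 0)
    (ih : ∀ {τ : Type a} [Fintype τ] [DecidableEq τ] (Q : Matrix τ τ (U K (NG D))), Q * Q = Q →
      (∀ a b, Q a b ∈ J K D (H \ {i})) → ∃ c d : I → ℕ,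
        (∀ k, k ∉ H \ {i} → c k = 0 ∧ d k = 0) ∧ cls Q + cv K D c = cv K D d)
    {ι : Type*} [Fintype ι] [DecidableEq ι] (E : Matrix ι ι (U K (NG D))) (hE : E * E = E) {r : ℕ}
    (X : Matrix ι (Fin r) (U K (NG D))) (Y : Matrix (Fin r) ι (U K (NG D)))
    (h1 : E * X = X) (h2 : Y * E = Y) (h3 : X * dv K D i r = X) (h4 : dv K D i r * Y = Y)
    (h5 : ∀ a b, (E - X * Y) a b ∈ J K D (H \ {i}))
    (h6 : ∀ a b, (dv K D i r - Y * X) a b ∈ J K D (H \ {i})) :
    ∃ c d : I → ℕ, (∀ k, k ∉ H → c k = 0 ∧ d k = 0) ∧ d i = c i + r ∧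
      cls E + cv K D c = cv K D d := by
  obtain ⟨c0, S0, T0, hc0, hS0, hT0, hM⟩ := factor (E - X * Y) h5
  have hv : ∀ k, vn K D k * vn K D k = vn K D k := fun k => vx_vx _
  have hF : dv K D i r * dv K D i r = dv K D i r := km_diag_idem _ fun _ => hv _
  have hG : dg K D c0 * dg K D c0 = dg K D c0 := km_diag_idem _ fun _ => hv _
  have hS1 : E * S0 * dg K D c0 = E * S0 := by rw [Matrix.mul_assoc, hS0]
  have hT1 : dg K D c0 * (T0 * E) = T0 * E := by rw [← Matrix.mul_assoc, hT0]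
  have hEE : E = X * Y + E * S0 * (T0 * E) := by
    have e1 : E * S0 * (T0 * E) = E * (S0 * T0) * E := by
      rw [← Matrix.mul_assoc, Matrix.mul_assoc E S0 T0]
    rw [e1, ← hM, Matrix.mul_sub, Matrix.sub_mul, hE, hE, ← Matrix.mul_assoc, h1,
      Matrix.mul_assoc X, h2]
    abel
  obtain ⟨hQ, hcl⟩ := claim1 (F := dv K D i r) (G := dg K D c0) hE hF hG h1 h3 h4 h2
    (S := E * S0) (T := T0 * E) (by rw [← Matrix.mul_assoc, hE]) hS1 hT1
    (by rw [Matrix.mul_assoc, hE]) hEE
  have hSJ := stab_mul_dg hc0 _ hS1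
  have hTJ := stab_dg_mul hc0 _ hT1
  obtain ⟨c1, d1, hz, h7⟩ := ih _ hQ (by
    rintro (x | x) (y | y)
    · exact h6 x y
    · rw [Matrix.fromBlocks_apply₁₂, Matrix.neg_apply]
      exact Submodule.neg_mem _ (stab_mul_left _ _ hSJ x y)
    · rw [Matrix.fromBlocks_apply₂₁, Matrix.neg_apply]
      exact Submodule.neg_mem _ (stab_mul_right _ _ hTJ x y)
    · rw [Matrix.fromBlocks_apply₂₂, Matrix.sub_apply]
      refine Submodule.sub_mem _ ?_ (stab_mul_left _ _ hSJ x y)
      exact stab_dg_mem hc0 x y)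
  have hni : i ∉ H \ {i} := fun h => h.2 rfl
  refine ⟨d1, fun k => (if k = i then r else 0) + c0 k + c1 k, ?_, ?_, ?_⟩
  · intro k hk
    have hk1 : k ∉ H \ {i} := fun h => hk h.1
    have hki : k ≠ i := by
      rintro rfl
      exact hk hi
    refine ⟨(hz k hk1).2, ?_⟩
    simp only [if_neg hki, hc0 k hk1, (hz k hk1).1]
  · simp only [if_true, hc0 i hni, (hz i hni).1, (hz i hni).2]
    omega
  · rw [stab_cv_add (fun k => (if k = i then r else 0) + c0 k) c1,
      stab_cv_add (fun k => if k = i then r else 0) c0, stab_cv_single, ← h7, ← add_assoc, hcl,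
      stab_cls_dv, cls_dg']

/-- one step -/
theorem stab_step (hD : D.Full) {H : Set I} (hH : Low D H)
    (IH : ∀ i ∈ H, Low D (H \ {i}) → ∀ {τ : Type a} [Fintype τ] [DecidableEq τ]
      (Q : Matrix τ τ (U K (NG D))), Q * Q = Q →
      (∀ a b, Q a b ∈ J K D (H \ {i})) → ∃ c d : I → ℕ,
        (∀ k, k ∉ H \ {i} → c k = 0 ∧ d k = 0) ∧ cls Q + cv K D c = cv K D d)
    {ι : Type*} [Fintype ι] [DecidableEq ι]
    (E : Matrix ι ι (U K (NG D))) (hE : E * E = E) (hJ : ∀ a b, E a b ∈ J K D H) :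
    ∃ c d : I → ℕ, (∀ k, k ∉ H → c k = 0 ∧ d k = 0) ∧ cls E + cv K D c = cv K D d := by
  classical
  rcases H.eq_empty_or_nonempty with h0 | h0
  · subst h0
    have hz : E = 0 := by
      ext x y
      exact lev_J_empty (hJ x y)
    refine ⟨fun _ => 0, fun _ => 0, fun _ _ => ⟨rfl, rfl⟩, ?_⟩
    rw [hz, cls_zero, zero_add]
  · obtain ⟨ρ, hρ⟩ := hD.hr
    obtain ⟨i, hi, hmax⟩ := Set.exists_max_image H ρ (Set.toFinite H) h0
    have hm : ∀ j ∈ H, D.n j i = 0 := by
      intro j hj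
      by_contra h
      exact absurd (hρ j i h) (not_lt.2 (hmax j hj))
    have hlow : Low D (H \ {i}) := by
      intro j hj k' hk'
      refine ⟨hH j hj.1 k' hk', ?_⟩
      rintro h
      have h' : k' = i := h
      rw [h'] at hk'
      exact hk' (hm j hj.1)
    obtain ⟨r, X, Y, h1, h2, h3, h4, h5, h6⟩ := level hD hH hi hm E hE hJ
    obtain ⟨c, d, h7, -, h8⟩ := stable_of_level hH hi hm (IH i hi hlow) E hE X Y h1 h2 h3 h4 h5 h6
    exact ⟨c, d, h7, h8⟩

theorem stab_aux (hD : D.Full) (n : ℕ) : ∀ {H : Set I}, Low D H → H.ncard ≤ n →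
    ∀ {τ : Type a} [Fintype τ] [DecidableEq τ]
      (Q : Matrix τ τ (U K (NG D))), Q * Q = Q →
      (∀ a b, Q a b ∈ J K D H) → ∃ c d : I → ℕ,
        (∀ k, k ∉ H → c k = 0 ∧ d k = 0) ∧ cls Q + cv K D c = cv K D d := by
  induction n with
  | zero =>
    intro H hH hn τ _ _ Q hQ hJ
    refine stab_step hD hH ?_ Q hQ hJ
    intro i hi
    have h := (Set.ncard_pos (Set.toFinite H)).2 ⟨i, hi⟩
    omega
  | succ n ih =>
    intro H hH hn τ _ _ Q hQ hJ
    refine stab_step hD hH ?_ Q hQ hJ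
    intro i hi hlow
    refine ih hlow ?_
    have h := Set.ncard_sdiff_singleton_lt_of_mem hi (Set.toFinite H)
    omega

theorem stable (hD : D.Full) {H : Set I} (hH : Low D H) {ι : Type*} [Fintype ι] [DecidableEq ι]
    (E : Matrix ι ι (U K (NG D))) (hE : E * E = E) (hJ : ∀ a b, E a b ∈ J K D H) :
    ∃ c d : I → ℕ, (∀ k, k ∉ H → c k = 0 ∧ d k = 0) ∧ cls E + cv K D c = cv K D d :=
  stab_step hD hH (fun _ _ hlow => stab_aux hD _ hlow le_rfl) E hE hJ

end Pool.Agent.Helper32.PG
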