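import Pool.Agent.Helper32.PG.Tk
import Pool.Agent.Helper32.PG.Mx
import Pool.Agent.Helper32.PG.Stab

/-! The index theorem. PIECE 15.

By `cls_dg'`, `cls_eq_iff` and `ME.norm` there are matrices `X`, `Y` with `Y * X = dg c`,
`X * Y = dg d`. With `lam = Sigma.fst` let `βX l = Mx (fun j y => ⟨⟨j, none⟩, y⟩) _ (β l) X`
(`Bj j = Yp D l j`, `B = YY D l`) and, for a cycle `k`, `TX k = Mx (fun j y => (⟨⟨j, none⟩, y.1⟩, y.2)) _ (T k) X`
(`Bj j = Yp D k j × ℕ`, `B = YY D k × ℕ`). By `Mx_mul_exact`, `βX l` is bijective; by `Mx_mul` and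
`Fr.of_par`, `TX k` is Fredholm. Put `x k = fi (TX k)` for a cycle `k` and `0` for a sink. By
`exists_snocE` the space of `βX l` for `c` is isomorphic to `({a : Σ j, Fin (c j) // a.1 = l} → K)`
times the product over all `k`, `m : Fin (D.n k l)` of the space of `TX k` for `c`, and by `βT` the
map `βX l` is the direct sum of the zero map and the `TX k` up to a map of finite rank. So
`0 = fi (βX l) = (c l - d l) + ∑ k, n k l * x k` by `fi_pi`, `fi_finite`, `fi_add`. If no `j` with
`c j ≠ 0` or `d j ≠ 0` is above or equal to `k` then the spaces of `TX k` are zero (`Yp_lt`). -/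

set_option autoImplicit false
set_option linter.unusedSectionVars false

universe k a

namespace Pool.Agent.Helper32.PG

open Pool.Agent.Helper32.LV Pool.Agent.Helper32.TP

section aux

variable {I : Type a}

/-- the paths starting at `⟨j, none⟩` -/
def index_iB (D : Dat I) (l j : I) (y : Yp D l j) : YY D l := ⟨⟨j, none⟩, y⟩

/-- the paths starting at `⟨j, none⟩`, with a power at the end -/
def index_iT (D : Dat I) (l j : I) (y : Yp D l j × ℕ) : YY D l × ℕ := (⟨⟨j, none⟩, y.1⟩, y.2)

theorem index_iB_inj (D : Dat I) (l j : I) : Function.Injective (index_iB D l j) := by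
  intro y y' h
  simpa [index_iB] using h

theorem index_iT_inj (D : Dat I) (l j : I) : Function.Injective (index_iT D l j) := by
  rintro ⟨y, r⟩ ⟨y', r'⟩ h
  simpa [index_iT] using h

/-- append the last edge -/
def index_sn (D : Dat I) (l i : I) (p : Σ k, Fin (D.n k l)) (y : Yp D p.1 i × ℕ) : Yp D l i :=
  Yp.snoc y.2 p.2 y.1

theorem index_sn_inj (D : Dat I) (l i : I) (p : Σ k, Fin (D.n k l)) :
    Function.Injective (index_sn D l i p) := by
  obtain ⟨e, -, h2⟩ := exists_snocE D l i
  rintro ⟨y, j⟩ ⟨y', j'⟩ h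
  have h3 : e (.inr ⟨p.1, p.2, y, j⟩) = e (.inr ⟨p.1, p.2, y', j'⟩) := by
    rw [h2, h2]
    exact h
  have h4 := e.injective h3
  simpa using h4

theorem index_sn_ne {D : Dat I} {l i : I} {p p' : Σ k, Fin (D.n k l)} (h : p ≠ p')
    (y : Yp D p.1 i × ℕ) (y' : Yp D p'.1 i × ℕ) :
    index_sn D l i p y ≠ index_sn D l i p' y' := by
  obtain ⟨e, -, h2⟩ := exists_snocE D l i
  obtain ⟨k, m⟩ := p
  obtain ⟨k', m'⟩ := p'
  obtain ⟨y, j⟩ := y
  obtain ⟨y', j'⟩ := y'
  intro h3
  have h4 : e (.inr ⟨k, m, y, j⟩) = e (.inr ⟨k', m', y', j'⟩) := by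
    rw [h2, h2]
    exact h3
  have h5 := e.injective h4
  simp only [Sum.inr.injEq, Sigma.mk.injEq] at h5
  obtain ⟨h6, h7⟩ := h5
  subst h6
  have h8 := eq_of_heq h7
  simp only [Prod.mk.injEq] at h8
  exact h (by rw [h8.1])

theorem index_sn_nil {D : Dat I} {l : I} (p : Σ k, Fin (D.n k l)) (y : Yp D p.1 l × ℕ) :
    index_sn D l l p y ≠ .nil := by
  obtain ⟨e, h1, h2⟩ := exists_snocE D l l
  obtain ⟨k, m⟩ := p
  obtain ⟨y, j⟩ := y
  intro h3
  have h4 : e (.inr ⟨k, m, y, j⟩) = e (.inl ⟨rfl⟩) := by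
    rw [h2, h1]
    exact h3
  have h5 := e.injective h4
  simp at h5

theorem index_sn_sur {D : Dat I} {l i : I} (x : Yp D l i) :
    (∃ p y, index_sn D l i p y = x) ∨ ∃ h : i = l, h ▸ Yp.nil = x := by
  obtain ⟨e, h1, h2⟩ := exists_snocE D l i
  obtain ⟨z, rfl⟩ := e.surjective x
  rcases z with h | ⟨k, m, y, j⟩
  · right
    obtain ⟨h⟩ := h
    exact ⟨h, (h1 h).symm⟩
  · left
    exact ⟨⟨k, m⟩, (y, j), (h2 k m y j).symm⟩

variable (K : Type k) [Field K] (D : Dat I)

/-- exchange of the indices -/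
def index_sw {σ τ : Type*} (A : σ → τ → Type*) [∀ s t, AddCommGroup (A s t)]
    [∀ s t, Module K (A s t)] : (∀ s t, A s t) ≃ₗ[K] (∀ t s, A s t) :=
  { toFun := fun x t s => x s t
    invFun := fun x s t => x t s
    map_add' := fun _ _ => rfl
    map_smul' := fun _ _ => rfl
    left_inv := fun _ => rfl
    right_inv := fun _ => rfl }

/-- from the paths with a last edge to all paths -/
noncomputable def index_J [Fintype I] (l i : I) :
    (∀ p : (Σ k, Fin (D.n k l)), (Yp D p.1 i × ℕ →₀ K)) →ₗ[K] (Yp D l i →₀ K) :=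
  ∑ p, Finsupp.lmapDomain K K (index_sn D l i p) ∘ₗ LinearMap.proj p

theorem index_J_apply [Fintype I] (l i : I)
    (x : ∀ p : (Σ k, Fin (D.n k l)), (Yp D p.1 i × ℕ →₀ K)) :
    index_J K D l i x = ∑ p, Finsupp.mapDomain (index_sn D l i p) (x p) := by
  simp [index_J, LinearMap.sum_apply]

/-- the left inverse -/
noncomputable def index_A (l i : I) :
    (Yp D l i →₀ K) →ₗ[K] (∀ p : (Σ k, Fin (D.n k l)), (Yp D p.1 i × ℕ →₀ K)) :=
  LinearMap.pi fun p => Finsupp.lcomapDomain (index_sn D l i p) (index_sn_inj D l i p)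

theorem index_AJ [Fintype I] (l i : I) :
    index_A K D l i ∘ₗ index_J K D l i = LinearMap.id := by
  classical
  refine LinearMap.ext fun x => funext fun q => Finsupp.ext fun c => ?_
  rw [LinearMap.comp_apply, index_J_apply, LinearMap.id_apply]
  change (∑ p, Finsupp.mapDomain (index_sn D l i p) (x p)) (index_sn D l i q c) = x q c
  rw [Finsupp.finsetSum_apply, Finset.sum_eq_single q]
  · rw [Finsupp.mapDomain_apply (index_sn_inj D l i q)]
  · intro p _ hp
    rw [Finsupp.mapDomain_of_notMem_range]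
    rintro ⟨y, hy⟩
    exact index_sn_ne hp y c hy
  · intro h
    exact absurd (Finset.mem_univ q) h

theorem index_J_fi [Fintype I] [DecidableEq I] (l i : I) :
    Fr (index_J K D l i) ∧ fi (index_J K D l i) = - (if i = l then (1 : ℤ) else 0) := by
  classical
  set P := (LinearMap.id - index_J K D l i ∘ₗ index_A K D l i :
    (Yp D l i →₀ K) →ₗ[K] (Yp D l i →₀ K)) with hP
  have h1 : ∀ p y, P (Finsupp.single (index_sn D l i p y) 1) = 0 := by
    intro p y
    have h2 : index_J K D l i (Pi.single p (Finsupp.single y 1)) =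
        Finsupp.single (index_sn D l i p y) 1 := by
      rw [index_J_apply, Finset.sum_eq_single p]
      · rw [Pi.single_eq_same, Finsupp.mapDomain_single]
      · intro q _ hq
        rw [Pi.single_eq_of_ne hq, Finsupp.mapDomain_zero]
      · intro h
        exact absurd (Finset.mem_univ p) h
    have h3 := LinearMap.congr_fun (index_AJ K D l i) (Pi.single p (Finsupp.single y 1))
    rw [LinearMap.comp_apply, h2, LinearMap.id_apply] at h3
    rw [hP, LinearMap.sub_apply, LinearMap.id_apply, LinearMap.comp_apply, h3, h2, sub_self]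
  by_cases hil : i = l
  · subst hil
    have h2 : P (Finsupp.single Yp.nil 1) = Finsupp.single Yp.nil 1 := by
      have h3 : index_A K D i i (Finsupp.single Yp.nil 1) = 0 := by
        refine funext fun q => Finsupp.ext fun c => ?_
        change (Finsupp.single Yp.nil (1 : K)) (index_sn D i i q c) = 0
        rw [Finsupp.single_eq_of_ne]
        exact index_sn_nil q c
      rw [hP, LinearMap.sub_apply, LinearMap.id_apply, LinearMap.comp_apply, h3, map_zero,
        sub_zero]
    have h4 : LinearMap.range P = K ∙ (Finsupp.single (Yp.nil : Yp D i i) (1 : K)) := by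
      apply le_antisymm
      · rintro _ ⟨x, rfl⟩
        induction x using Finsupp.induction_linear with
        | zero => rw [map_zero]; exact Submodule.zero_mem _
        | add x y hx hy => rw [map_add]; exact Submodule.add_mem _ hx hy
        | single x t =>
          have h5 : Finsupp.single x t = t • Finsupp.single x (1 : K) := by
            rw [Finsupp.smul_single, smul_eq_mul, mul_one]
          rw [h5, map_smul]
          refine Submodule.smul_mem _ _ ?_
          rcases index_sn_sur x with ⟨p, y, rfl⟩ | ⟨h, rfl⟩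
          · rw [h1]
            exact Submodule.zero_mem _
          · change P (Finsupp.single Yp.nil 1) ∈ _
            rw [h2]
            exact Submodule.mem_span_singleton_self _
      · rw [Submodule.span_singleton_le_iff_mem]
        exact ⟨_, h2⟩
    have h6 : FinRk P := by
      unfold FinRk
      rw [h4]
      infer_instance
    obtain ⟨h7, h8⟩ := fi_left_inv (index_AJ K D i i) h6
    refine ⟨h7, ?_⟩
    rw [h8, ← hP, h4, finrank_span_singleton, if_pos rfl]
    · rfl
    · intro h9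
      have h10 := Finsupp.single_eq_zero.1 h9
      exact one_ne_zero h10
  · have h2 : P = 0 := by
      refine Finsupp.lhom_ext' fun x => LinearMap.ext_ring ?_
      rw [LinearMap.comp_apply, Finsupp.lsingle_apply]
      rcases index_sn_sur x with ⟨p, y, rfl⟩ | ⟨h, -⟩
      · rw [h1]
        rfl
      · exact absurd h hil
    have h6 : FinRk P := by
      rw [h2]
      exact mx_finRk_zero
    obtain ⟨h7, h8⟩ := fi_left_inv (index_AJ K D l i) h6
    refine ⟨h7, ?_⟩
    rw [h8, ← hP, h2, LinearMap.range_zero, finrank_bot, if_neg hil]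
    rfl

/-- the same for the product over `ι` -/
noncomputable def index_JJ [Fintype I] (l : I) {ι : Type*} (lam : ι → I) :
    (∀ p : (Σ k, Fin (D.n k l)), ∀ a : ι, (Yp D p.1 (lam a) × ℕ →₀ K)) →ₗ[K]
      (∀ a : ι, (Yp D l (lam a) →₀ K)) :=
  (LinearMap.pi fun a => index_J K D l (lam a) ∘ₗ LinearMap.proj a) ∘ₗ
    (index_sw K fun (p : (Σ k, Fin (D.n k l))) (a : ι) => (Yp D p.1 (lam a) × ℕ →₀ K) :
      (∀ p : (Σ k, Fin (D.n k l)), ∀ a : ι, (Yp D p.1 (lam a) × ℕ →₀ K)) →ₗ[K] _)

theorem index_JJ_apply [Fintype I] (l : I) {ι : Type*} (lam : ι → I)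
    (x : ∀ p : (Σ k, Fin (D.n k l)), ∀ a : ι, (Yp D p.1 (lam a) × ℕ →₀ K)) (a : ι) :
    index_JJ K D l lam x a = ∑ p, Finsupp.mapDomain (index_sn D l (lam a) p) (x p a) :=
  index_J_apply K D l (lam a) fun p => x p a

theorem index_JJ_fi [Fintype I] [DecidableEq I] (l : I) {ι : Type*} [Fintype ι] (lam : ι → I) :
    Fr (index_JJ K D l lam) ∧ fi (index_JJ K D l lam) =
      - ∑ a, (if lam a = l then (1 : ℤ) else 0) := by
  obtain ⟨h1, h2⟩ := fi_pi (fun a => index_J K D l (lam a)) fun a => (index_J_fi K D l (lam a)).1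
  obtain ⟨h3, h4⟩ := fi_equiv
    (index_sw K fun (p : (Σ k, Fin (D.n k l))) (a : ι) => (Yp D p.1 (lam a) × ℕ →₀ K))
  refine ⟨Fr.comp h1 h3, ?_⟩
  unfold index_JJ
  rw [fi_comp h1 h3, h2, h4, add_zero, ← Finset.sum_neg_distrib]
  exact Finset.sum_congr rfl fun a _ => (index_J_fi K D l (lam a)).2

variable {K D}

theorem index_incl (l j : I) (p : Σ k, Fin (D.n k l)) (z : Yp D p.1 j × ℕ →₀ K) :
    Finsupp.mapDomain (index_iB D l j) (Finsupp.mapDomain (index_sn D l j p) z) =
      inn K D p.1 l p.2 (Finsupp.mapDomain (index_iT D p.1 j) z) := by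
  rw [inn, Finsupp.lmapDomain_apply, ← Finsupp.mapDomain_comp, ← Finsupp.mapDomain_comp]
  rfl

theorem index_res (l j : I) (p : Σ k, Fin (D.n k l)) (w : YY D p.1 × ℕ →₀ K) :
    Finsupp.mapDomain (index_sn D l j p)
        (Finsupp.lcomapDomain (R := K) (index_iT D p.1 j) (index_iT_inj D p.1 j) w) =
      Finsupp.lcomapDomain (R := K) (index_iB D l j) (index_iB_inj D l j)
        (inn K D p.1 l p.2 w) := by
  classical
  induction w using Finsupp.induction_linear with
  | zero => rw [map_zero, map_zero, map_zero, Finsupp.mapDomain_zero]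
  | add x y hx hy => rw [map_add, map_add, map_add, Finsupp.mapDomain_add, hx, hy]
  | single b t =>
    rw [inn, Finsupp.lmapDomain_apply, Finsupp.mapDomain_single]
    obtain ⟨⟨⟨i, o⟩, y⟩, r⟩ := b
    by_cases h : (⟨i, o⟩ : NV D) = ⟨j, none⟩
    · simp only [Sigma.mk.injEq] at h
      obtain ⟨h1, h2⟩ := h
      subst h1
      have h3 := eq_of_heq h2
      subst h3
      have e1 : ((⟨⟨i, none⟩, y⟩, r) : YY D p.1 × ℕ) = index_iT D p.1 i (y, r) := rfl
      have e2 : (⟨⟨i, none⟩, Yp.snoc r p.2 y⟩ : YY D l) = index_iB D l i (Yp.snoc r p.2 y) := rfl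
      rw [e1]
      change _ = Finsupp.lcomapDomain (R := K) (index_iB D l i) (index_iB_inj D l i)
        (Finsupp.single (⟨⟨i, none⟩, Yp.snoc r p.2 y⟩ : YY D l) t)
      rw [e2, Finsupp.lcomapDomain_apply, Finsupp.comapDomain_single,
        Finsupp.lcomapDomain_apply, Finsupp.comapDomain_single, Finsupp.mapDomain_single]
      rfl
    · have e1 : Finsupp.lcomapDomain (R := K) (index_iT D p.1 j) (index_iT_inj D p.1 j)
          (Finsupp.single ((⟨⟨i, o⟩, y⟩, r) : YY D p.1 × ℕ) t) = 0 := by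
        ext c
        rw [Finsupp.lcomapDomain_apply, Finsupp.comapDomain_apply, Finsupp.zero_apply,
          Finsupp.single_eq_of_ne]
        intro e
        exact h (congrArg (fun b : YY D p.1 × ℕ => b.1.1) e).symm
      have e2 : Finsupp.lcomapDomain (R := K) (index_iB D l j) (index_iB_inj D l j)
          (Finsupp.single ((⟨⟨i, o⟩, Yp.snoc r p.2 y⟩ : YY D l)) t) = 0 := by
        ext c
        rw [Finsupp.lcomapDomain_apply, Finsupp.comapDomain_apply, Finsupp.zero_apply,
          Finsupp.single_eq_of_ne]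
        intro e
        exact h (congrArg (fun b : YY D l => b.1) e).symm
      rw [e1, Finsupp.mapDomain_zero]
      exact e2.symm

theorem index_tw [Fintype I] (R : Reps K D) (l : I) {ι κ : Type*} [Fintype ι] [Fintype κ]
    (lam : ι → I) (μ : κ → I) (X : Matrix κ ι (U K (NG D))) :
    FinRk (Mx (index_iB D l) (index_iB_inj D l) (R.β l).toLinearMap lam μ X ∘ₗ
        index_JJ K D l lam -
      index_JJ K D l μ ∘ₗ LinearMap.pi fun p : (Σ k, Fin (D.n k l)) =>
        Mx (index_iT D p.1) (index_iT_inj D p.1) (R.T p.1) lam μ X ∘ₗ LinearMap.proj p) := by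
  classical
  have h : Mx (index_iB D l) (index_iB_inj D l) (R.β l).toLinearMap lam μ X ∘ₗ
        index_JJ K D l lam -
      index_JJ K D l μ ∘ₗ (LinearMap.pi fun p : (Σ k, Fin (D.n k l)) =>
        Mx (index_iT D p.1) (index_iT_inj D p.1) (R.T p.1) lam μ X ∘ₗ LinearMap.proj p) =
      LinearMap.pi fun a => ∑ p : (Σ k, Fin (D.n k l)), ∑ b,
        Finsupp.lcomapDomain (R := K) (index_iB D l (μ a)) (index_iB_inj D l (μ a)) ∘ₗ
        (R.β l (X a b) ∘ₗ inn K D p.1 l p.2 - inn K D p.1 l p.2 ∘ₗ R.T p.1 (X a b)) ∘ₗ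
        Finsupp.lmapDomain K K (index_iT D p.1 (lam b)) ∘ₗ LinearMap.proj b ∘ₗ
        LinearMap.proj p := by
    refine LinearMap.ext fun x => funext fun a => ?_
    rw [LinearMap.sub_apply, Pi.sub_apply, LinearMap.comp_apply, LinearMap.comp_apply,
      index_JJ_apply]
    simp only [Mx, LinearMap.pi_apply, LinearMap.sum_apply, LinearMap.comp_apply,
      LinearMap.proj_apply, index_JJ_apply, LinearMap.sub_apply, map_sum, map_sub,
      Finset.sum_sub_distrib, Finsupp.lmapDomain_apply, AlgHom.toLinearMap_apply,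
      Finsupp.mapDomain_finsetSum, index_incl, index_res]
    congr 1
    rw [Finset.sum_comm]
  rw [h]
  refine mx_finRk_pi _ fun a => mx_finRk_sum _ _ fun p => mx_finRk_sum _ _ fun b => ?_
  exact FinRk.comp_left (FinRk.comp_right (R.βT l p.1 p.2 (X a b)) _) _

theorem index_B_ok [Fintype I] (R : Reps K D) (l : I) :
    TvOk (index_iB D l) (R.β l).toLinearMap := by
  classical
  intro j b
  rw [AlgHom.toLinearMap_apply, R.βv l ⟨j, none⟩ b]
  have h : b ∈ Set.range (index_iB D l j) ↔ b.1 = ⟨j, none⟩ := by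
    constructor
    · rintro ⟨y, rfl⟩
      rfl
    · intro h
      obtain ⟨p, y⟩ := b
      subst h
      exact ⟨y, rfl⟩
  simp only [h]

theorem index_T_ok [Fintype I] (R : Reps K D) (l : I) (hl : D.cyc l) :
    TvOk (index_iT D l) (R.T l) := by
  classical
  intro j b
  rw [R.Tv l hl ⟨j, none⟩ b]
  have h : b ∈ Set.range (index_iT D l j) ↔ b.1.1 = ⟨j, none⟩ := by
    constructor
    · rintro ⟨y, rfl⟩
      rfl
    · intro h
      obtain ⟨⟨p, y⟩, r⟩ := b
      subst h
      exact ⟨(y, r), rfl⟩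
  simp only [h]

end aux

variable {I : Type a} [Fintype I] [DecidableEq I] {K : Type k} [Field K] [StarRing K] {D : Dat I}

theorem index_fi_eq {V W : Type*} [AddCommGroup V] [Module K V] [AddCommGroup W] [Module K W]
    (S T : V →ₗ[K] W) (h : Fr T) (h' : FinRk (S - T)) : fi S = fi T := by
  have := fi_add h h'
  rwa [add_sub_cancel] at this

theorem index_dg_idem (c : I → ℕ) : dg K D c * dg K D c = dg K D c := by
  rw [dg, Matrix.diagonal_mul_diagonal]
  congr 1
  funext x
  exact vx_vx _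

theorem index (hD : D.Full) (R : Reps K D) (c d : I → ℕ) (h : cv K D c = cv K D d) :
    ∃ x : I → ℤ, (∀ k, (∀ j, c j ≠ 0 ∨ d j ≠ 0 → k ∉ Le D j) → x k = 0) ∧
      ∀ l, (d l : ℤ) - c l = ∑ k, x k * D.n k l := by
  classical
  rw [← cls_dg', ← cls_dg', cls_eq_iff (index_dg_idem c) (index_dg_idem d)] at h
  obtain ⟨Y, X, h1, h2, h3, h4, h5, h6⟩ := ME.norm (index_dg_idem c) (index_dg_idem d) h
  set lam : (Σ k, Fin (c k)) → I := Sigma.fst with hlam
  set μ : (Σ k, Fin (d k)) → I := Sigma.fst with hμ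
  -- the maps
  set TX : ∀ k, (∀ a, (Yp D k (lam a) × ℕ →₀ K)) →ₗ[K] (∀ a, (Yp D k (μ a) × ℕ →₀ K)) :=
    fun k => Mx (index_iT D k) (index_iT_inj D k) (R.T k) lam μ X with hTX
  have hF : ∀ k, D.cyc k → Fr (TX k) := by
    intro k hk
    have hok := index_T_ok R k hk
    have hm := R.Tmul k hk
    refine Fr.of_par (A := Mx (index_iT D k) (index_iT_inj D k) (R.T k) μ lam Y) ?_ ?_
    · have e := Mx_mul (index_iT D k) (index_iT_inj D k) (R.T k) hok hm μ lam lam Y X h5
      rw [h1, Mx_dg (index_iT D k) (index_iT_inj D k) (R.T k) hok lam] at e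
      have e2 := FinRk.comp_left e (-LinearMap.id)
      refine cast (congrArg FinRk ?_) e2
      refine LinearMap.ext fun x => ?_
      simp [hTX]
    · have e := Mx_mul (index_iT D k) (index_iT_inj D k) (R.T k) hok hm lam μ μ X Y h3
      rw [h2, Mx_dg (index_iT D k) (index_iT_inj D k) (R.T k) hok μ] at e
      have e2 := FinRk.comp_left e (-LinearMap.id)
      refine cast (congrArg FinRk ?_) e2
      refine LinearMap.ext fun x => ?_
      simp [hTX]
  have hB : ∀ l, Fr (Mx (index_iB D l) (index_iB_inj D l) (R.β l).toLinearMap lam μ X) ∧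
      fi (Mx (index_iB D l) (index_iB_inj D l) (R.β l).toLinearMap lam μ X) = 0 := by
    intro l
    have hok := index_B_ok R l
    have hm : ∀ x y, (R.β l).toLinearMap (x * y) =
        (R.β l).toLinearMap x * (R.β l).toLinearMap y := fun x y => map_mul (R.β l) x y
    have e1 := Mx_mul_exact (index_iB D l) (index_iB_inj D l) _ hok hm μ lam lam Y X h5
    have e2 := Mx_mul_exact (index_iB D l) (index_iB_inj D l) _ hok hm lam μ μ X Y h3
    rw [h1, Mx_dg (index_iB D l) (index_iB_inj D l) _ hok lam] at e1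
    rw [h2, Mx_dg (index_iB D l) (index_iB_inj D l) _ hok μ] at e2
    exact fi_equiv (LinearEquiv.ofLinearMap _ _ e2.symm e1.symm)
  refine ⟨fun k => if D.cyc k then fi (TX k) else 0, ?_, ?_⟩
  · intro k hk
    change (if D.cyc k then fi (TX k) else 0) = 0
    split_ifs with hc
    · have i1 : ∀ a : (Σ k, Fin (c k)), IsEmpty (Yp D k (lam a)) := fun a =>
        ⟨fun y => hk a.1 (Or.inl (fun h0 => by have := a.2.2; omega)) (Yp_lt hD y)⟩
      have i2 : ∀ a : (Σ k, Fin (d k)), IsEmpty (Yp D k (μ a)) := fun a =>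
        ⟨fun y => hk a.1 (Or.inr (fun h0 => by have := a.2.2; omega)) (Yp_lt hD y)⟩
      have f1 : ∀ a : (Σ k, Fin (c k)), Subsingleton (Yp D k (lam a) × ℕ →₀ K) := fun a => by
        have := i1 a
        infer_instance
      have f2 : ∀ a : (Σ k, Fin (d k)), Subsingleton (Yp D k (μ a) × ℕ →₀ K) := fun a => by
        have := i2 a
        infer_instance
      have g1 : Subsingleton (∀ a, (Yp D k (lam a) × ℕ →₀ K)) := inferInstance
      have g2 : Subsingleton (∀ a, (Yp D k (μ a) × ℕ →₀ K)) := inferInstance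
      rw [(fi_finite (TX k)).2, Module.finrank_zero_of_subsingleton,
        Module.finrank_zero_of_subsingleton]
      rfl
    · rfl
  · intro l
    change (d l : ℤ) - c l = ∑ k, (if D.cyc k then fi (TX k) else 0) * D.n k l
    have hcyc : ∀ p : (Σ k, Fin (D.n k l)), D.cyc p.1 := fun p =>
      hD.hc p.1 l (fun h0 => by have := p.2.2; omega)
    obtain ⟨b1, b2⟩ := hB l
    obtain ⟨j1, j2⟩ := index_JJ_fi K D l lam
    obtain ⟨j3, j4⟩ := index_JJ_fi K D l μ
    obtain ⟨t1, t2⟩ := fi_pi (fun p : (Σ k, Fin (D.n k l)) => TX p.1) fun p => hF p.1 (hcyc p)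
    have e1 := fi_comp b1 j1
    have e2 := fi_comp j3 t1
    have e3 := index_fi_eq _ _ (Fr.comp j3 t1) (index_tw R l lam μ X)
    rw [e1, e2, b2, j2, j4, t2] at e3
    have s1 : ∑ a, (if lam a = l then (1 : ℤ) else 0) = c l := by
      rw [Fintype.sum_sigma]
      simp [hlam]
    have s2 : ∑ a, (if μ a = l then (1 : ℤ) else 0) = d l := by
      rw [Fintype.sum_sigma]
      simp [hμ]
    have s3 : ∑ p : (Σ k, Fin (D.n k l)), fi (TX p.1) =
        ∑ k, (if D.cyc k then fi (TX k) else 0) * D.n k l := by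
      rw [Fintype.sum_sigma]
      refine Finset.sum_congr rfl fun k _ => ?_
      change ∑ _m : Fin (D.n k l), fi (TX k) = _
      rw [Finset.sum_const, Finset.card_univ, Fintype.card_fin, nsmul_eq_mul]
      by_cases hk : D.n k l = 0
      · rw [hk]
        simp
      · rw [if_pos (hD.hc k l hk), mul_comm]
    rw [s1, s2, s3] at e3
    linarith

end Pool.Agent.Helper32.PG
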