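import Mathlib

/-! The monoid of equivalence classes of idempotent matrices over a ring. PIECE 1.

`ME E F`: the idempotent matrices `E`, `F` (of any finite sizes) are equivalent. The classes form a
commutative monoid `VM R` under block sums. Every statement below is elementary; for `cls` reindex
the matrix along `Fintype.equivFin ι`. -/

set_option autoImplicit false
set_option linter.unusedSectionVars false

universe u

namespace Pool.Agent.Helper32.PG

variable {R : Type u} [Ring R]

/-- equivalence of idempotent matrices -/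
def ME {ι κ : Type*} [Fintype ι] [Fintype κ] (E : Matrix ι ι R) (F : Matrix κ κ R) : Prop :=
  ∃ (X : Matrix ι κ R) (Y : Matrix κ ι R), X * Y = E ∧ Y * X = F

theorem ME.symm {ι κ : Type*} [Fintype ι] [Fintype κ] {E : Matrix ι ι R} {F : Matrix κ κ R}
    (h : ME E F) : ME F E := by
  obtain ⟨X, Y, h1, h2⟩ := h
  exact ⟨Y, X, h2, h1⟩

/-- one can choose `X = E * X * F` and `Y = F * Y * E` -/
theorem ME.norm {ι κ : Type*} [Fintype ι] [Fintype κ] {E : Matrix ι ι R} {F : Matrix κ κ R}
    (hE : E * E = E) (hF : F * F = F) (h : ME E F) :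
    ∃ (X : Matrix ι κ R) (Y : Matrix κ ι R), X * Y = E ∧ Y * X = F ∧ E * X = X ∧ X * F = X ∧
      F * Y = Y ∧ Y * E = Y := by
  obtain ⟨X, Y, h1, h2⟩ := h
  refine ⟨E * (X * F), F * (Y * E), ?_, ?_, ?_, ?_, ?_, ?_⟩
  · calc E * (X * F) * (F * (Y * E)) = E * (X * ((F * F) * (Y * E))) := by
          simp only [Matrix.mul_assoc]
      _ = E * (X * ((Y * X) * (Y * E))) := by rw [hF, h2]
      _ = E * ((X * Y) * ((X * Y) * E)) := by simp only [Matrix.mul_assoc]
      _ = E := by rw [h1, hE, hE, hE]
  · calc F * (Y * E) * (E * (X * F)) = F * (Y * ((E * E) * (X * F))) := by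
          simp only [Matrix.mul_assoc]
      _ = F * (Y * ((X * Y) * (X * F))) := by rw [hE, h1]
      _ = F * ((Y * X) * ((Y * X) * F)) := by simp only [Matrix.mul_assoc]
      _ = F := by rw [h2, hF, hF, hF]
  · rw [← Matrix.mul_assoc, hE]
  · rw [Matrix.mul_assoc, Matrix.mul_assoc, hF]
  · rw [← Matrix.mul_assoc, hF]
  · rw [Matrix.mul_assoc, Matrix.mul_assoc, hE]

theorem ME.refl {ι : Type*} [Fintype ι] {E : Matrix ι ι R} (hE : E * E = E) : ME E E :=
  ⟨E, E, hE, hE⟩

theorem ME.trans {ι κ τ : Type*} [Fintype ι] [Fintype κ] [Fintype τ] {E : Matrix ι ι R}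
    {F : Matrix κ κ R} {G : Matrix τ τ R} (hE : E * E = E) (hF : F * F = F) (hG : G * G = G)
    (h : ME E F) (h' : ME F G) : ME E G := by
  obtain ⟨X, Y, h1, h2, -, h4, -, -⟩ := ME.norm hE hF h
  obtain ⟨X', Y', h1', h2', h3', -, -, -⟩ := ME.norm hF hG h'
  refine ⟨X * X', Y' * Y, ?_, ?_⟩
  · calc X * X' * (Y' * Y) = X * ((X' * Y') * Y) := by simp only [Matrix.mul_assoc]
      _ = (X * F) * Y := by rw [h1', Matrix.mul_assoc]
      _ = E := by rw [h4, h1]
  · calc Y' * Y * (X * X') = Y' * ((Y * X) * X') := by simp only [Matrix.mul_assoc]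
      _ = G := by rw [h2, h3', h2']

theorem km_reindex {ι κ : Type*} [Fintype ι] [Fintype κ] (e : ι ≃ κ) {E : Matrix ι ι R}
    (hE : E * E = E) : ME E (Matrix.reindex e e E) := by
  refine ⟨E.submatrix id e.symm, E.submatrix e.symm id, ?_, ?_⟩
  · rw [Matrix.submatrix_mul_equiv, hE, Matrix.submatrix_id_id]
  · have h := Matrix.submatrix_mul_equiv E E e.symm (Equiv.refl ι) e.symm
    rw [hE] at h
    exact h

theorem km_reindex_idem {ι κ : Type*} [Fintype ι] [Fintype κ] (e : ι ≃ κ) {E : Matrix ι ι R}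
    (hE : E * E = E) : Matrix.reindex e e E * Matrix.reindex e e E = Matrix.reindex e e E := by
  rw [Matrix.reindex_apply, Matrix.submatrix_mul_equiv, hE]

theorem km_blocks_idem {ι κ : Type*} [Fintype ι] [Fintype κ] {E : Matrix ι ι R}
    {F : Matrix κ κ R} (hE : E * E = E) (hF : F * F = F) :
    Matrix.fromBlocks E 0 0 F * Matrix.fromBlocks E 0 0 F = Matrix.fromBlocks E 0 0 F := by
  rw [Matrix.fromBlocks_multiply]
  simp [hE, hF]

theorem km_blocks {ι κ ι' κ' : Type*} [Fintype ι] [Fintype κ] [Fintype ι'] [Fintype κ']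
    {E : Matrix ι ι R} {F : Matrix κ κ R} {E' : Matrix ι' ι' R} {F' : Matrix κ' κ' R}
    (h : ME E E') (h' : ME F F') :
    ME (Matrix.fromBlocks E 0 0 F) (Matrix.fromBlocks E' 0 0 F') := by
  obtain ⟨X, Y, h1, h2⟩ := h
  obtain ⟨X', Y', h1', h2'⟩ := h'
  refine ⟨Matrix.fromBlocks X 0 0 X', Matrix.fromBlocks Y 0 0 Y', ?_, ?_⟩
  · rw [Matrix.fromBlocks_multiply]
    simp [h1, h1']
  · rw [Matrix.fromBlocks_multiply]
    simp [h2, h2']

theorem km_swap {ι κ : Type*} [Fintype ι] [Fintype κ] {E : Matrix ι ι R} {F : Matrix κ κ R}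
    (hE : E * E = E) (hF : F * F = F) :
    ME (Matrix.fromBlocks E 0 0 F) (Matrix.fromBlocks F 0 0 E) := by
  refine ⟨Matrix.fromBlocks 0 E F 0, Matrix.fromBlocks 0 F E 0, ?_, ?_⟩
  · rw [Matrix.fromBlocks_multiply]
    simp [hE, hF]
  · rw [Matrix.fromBlocks_multiply]
    simp [hE, hF]

theorem km_assoc {ι κ τ : Type*} [Fintype ι] [Fintype κ] [Fintype τ] {E : Matrix ι ι R}
    {F : Matrix κ κ R} {G : Matrix τ τ R} (hE : E * E = E) (hF : F * F = F) (hG : G * G = G) :
    ME (Matrix.fromBlocks (Matrix.fromBlocks E 0 0 F) 0 0 G)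
      (Matrix.fromBlocks E 0 0 (Matrix.fromBlocks F 0 0 G)) := by
  have h := km_reindex (Equiv.sumAssoc ι κ τ) (km_blocks_idem (km_blocks_idem hE hF) hG)
  have e : Matrix.reindex (Equiv.sumAssoc ι κ τ) (Equiv.sumAssoc ι κ τ)
      (Matrix.fromBlocks (Matrix.fromBlocks E 0 0 F) 0 0 G) =
        Matrix.fromBlocks E 0 0 (Matrix.fromBlocks F 0 0 G) := by
    ext i j
    rcases i with i | i | i <;> rcases j with j | j | j <;> simp
  rwa [e] at h

/-- a zero block may be omitted -/
theorem km_zero {ι κ : Type*} [Fintype ι] [Fintype κ] {E : Matrix ι ι R} (hE : E * E = E) :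
    ME (Matrix.fromBlocks E 0 0 (0 : Matrix κ κ R)) E := by
  refine ⟨Matrix.fromRows E 0, Matrix.fromCols E 0, ?_, ?_⟩
  · rw [Matrix.fromRows_mul_fromCols]
    simp [hE]
  · rw [Matrix.fromCols_mul_fromRows]
    simp [hE]

variable (R) in
/-- idempotent matrices indexed by `Fin n` -/
abbrev IM : Type u := Σ n : ℕ, {E : Matrix (Fin n) (Fin n) R // E * E = E}

instance imSetoid : Setoid (IM R) where
  r E F := ME E.2.1 F.2.1
  iseqv := ⟨fun E => ME.refl E.2.2, fun h => h.symm,
    fun {E F G} h h' => ME.trans E.2.2 F.2.2 G.2.2 h h'⟩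

variable (R) in
/-- the classes of idempotent matrices -/
def VM : Type u := Quotient (imSetoid (R := R))

/-- the matrix on `Fin (card ι)` -/
noncomputable def kmIM {ι : Type*} [Fintype ι] (E : Matrix ι ι R) (h : E * E = E) : IM R :=
  ⟨Fintype.card ι, ⟨Matrix.reindex (Fintype.equivFin ι) (Fintype.equivFin ι) E,
    km_reindex_idem _ h⟩⟩

theorem kmIM_ME {ι : Type*} [Fintype ι] (E : Matrix ι ι R) (h : E * E = E) :
    ME E (kmIM E h).2.1 := km_reindex _ h

/-- the class of an idempotent matrix of any finite size -/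
noncomputable def kmMk {ι : Type*} [Fintype ι] (E : Matrix ι ι R) (h : E * E = E) : VM R :=
  Quotient.mk _ (kmIM E h)

theorem kmMk_eq_iff {ι κ : Type*} [Fintype ι] [Fintype κ] {E : Matrix ι ι R} {F : Matrix κ κ R}
    (hE : E * E = E) (hF : F * F = F) : kmMk E hE = kmMk F hF ↔ ME E F := by
  constructor
  · intro h
    have h' : ME (kmIM E hE).2.1 (kmIM F hF).2.1 := Quotient.exact h
    exact ME.trans hE (kmIM E hE).2.2 hF (kmIM_ME E hE)
      (ME.trans (kmIM E hE).2.2 (kmIM F hF).2.2 hF h' (kmIM_ME F hF).symm)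
  · intro h
    refine Quotient.sound ?_
    exact ME.trans (kmIM E hE).2.2 hE (kmIM F hF).2.2 (kmIM_ME E hE).symm
      (ME.trans hE hF (kmIM F hF).2.2 h (kmIM_ME F hF))

theorem kmMk_fin (E : IM R) : (Quotient.mk _ E : VM R) = kmMk E.2.1 E.2.2 := by
  refine Quotient.sound ?_
  exact kmIM_ME E.2.1 E.2.2

/-- block sum -/
noncomputable def kmAdd : VM R → VM R → VM R :=
  Quotient.map₂ (fun E F => kmIM (Matrix.fromBlocks E.2.1 0 0 F.2.1)
    (km_blocks_idem E.2.2 F.2.2)) (by
      intro E E' h F F' h'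
      have h1 : ME E.2.1 E'.2.1 := h
      have h2 : ME F.2.1 F'.2.1 := h'
      exact ME.trans (kmIM _ (km_blocks_idem E.2.2 F.2.2)).2.2 (km_blocks_idem E.2.2 F.2.2)
        (kmIM _ (km_blocks_idem E'.2.2 F'.2.2)).2.2 (kmIM_ME _ _).symm
        (ME.trans (km_blocks_idem E.2.2 F.2.2) (km_blocks_idem E'.2.2 F'.2.2)
          (kmIM _ (km_blocks_idem E'.2.2 F'.2.2)).2.2 (km_blocks h1 h2) (kmIM_ME _ _)))

theorem kmAdd_mk {ι κ : Type*} [Fintype ι] [Fintype κ] {E : Matrix ι ι R} {F : Matrix κ κ R}
    (hE : E * E = E) (hF : F * F = F) :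
    kmAdd (kmMk E hE) (kmMk F hF) = kmMk (Matrix.fromBlocks E 0 0 F) (km_blocks_idem hE hF) := by
  change kmMk (Matrix.fromBlocks (kmIM E hE).2.1 0 0 (kmIM F hF).2.1)
    (km_blocks_idem (kmIM E hE).2.2 (kmIM F hF).2.2) = _
  rw [kmMk_eq_iff]
  exact km_blocks (kmIM_ME E hE).symm (kmIM_ME F hF).symm

/-- the zero class -/
noncomputable def kmZero : VM R := kmMk (0 : Matrix (Fin 0) (Fin 0) R) (by simp)

theorem kmMk_zero {ι : Type*} [Fintype ι] (h : (0 : Matrix ι ι R) * 0 = 0) :
    kmMk (0 : Matrix ι ι R) h = kmZero := by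
  unfold kmZero
  rw [kmMk_eq_iff]
  exact ⟨0, 0, by simp, by simp⟩

noncomputable instance instAddVM : AddCommMonoid (VM R) where
  add := kmAdd
  zero := kmZero
  add_assoc := by
    intro a b c
    induction a using Quotient.inductionOn with | _ a
    induction b using Quotient.inductionOn with | _ b
    induction c using Quotient.inductionOn with | _ c
    change kmAdd (kmAdd _ _) _ = kmAdd _ (kmAdd _ _)
    rw [kmMk_fin, kmMk_fin, kmMk_fin, kmAdd_mk, kmAdd_mk, kmAdd_mk, kmAdd_mk, kmMk_eq_iff]
    exact km_assoc a.2.2 b.2.2 c.2.2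
  zero_add := by
    intro a
    induction a using Quotient.inductionOn with | _ a
    change kmAdd kmZero _ = _
    unfold kmZero
    rw [kmMk_fin, kmAdd_mk, kmMk_eq_iff]
    exact ME.trans (km_blocks_idem (by simp) a.2.2) (km_blocks_idem a.2.2 (by simp)) a.2.2
      (km_swap (by simp) a.2.2) (km_zero a.2.2)
  add_zero := by
    intro a
    induction a using Quotient.inductionOn with | _ a
    change kmAdd _ kmZero = _
    unfold kmZero
    rw [kmMk_fin, kmAdd_mk, kmMk_eq_iff]
    exact km_zero a.2.2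
  add_comm := by
    intro a b
    induction a using Quotient.inductionOn with | _ a
    induction b using Quotient.inductionOn with | _ b
    change kmAdd _ _ = kmAdd _ _
    rw [kmMk_fin, kmMk_fin, kmAdd_mk, kmAdd_mk, kmMk_eq_iff]
    exact km_swap a.2.2 b.2.2
  nsmul := @nsmulRec (VM R) ⟨kmZero⟩ ⟨kmAdd⟩
  nsmul_zero := fun _ => rfl
  nsmul_succ := fun _ _ => rfl

open Classical in
/-- the class of an idempotent matrix (`0` if it is not idempotent) -/
noncomputable def cls {ι : Type*} [Fintype ι] (E : Matrix ι ι R) : VM R :=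
  if h : E * E = E then kmMk E h else 0

/-- the class of an idempotent -/
noncomputable def cl (e : R) : VM R := cls (fun _ _ : Unit => e)

theorem km_cls {ι : Type*} [Fintype ι] {E : Matrix ι ι R} (hE : E * E = E) :
    cls E = kmMk E hE := by
  unfold cls
  rw [dif_pos hE]

theorem cls_eq_iff {ι κ : Type*} [Fintype ι] [Fintype κ] {E : Matrix ι ι R} {F : Matrix κ κ R}
    (hE : E * E = E) (hF : F * F = F) : cls E = cls F ↔ ME E F := by
  rw [km_cls hE, km_cls hF, kmMk_eq_iff]

theorem cls_blocks {ι κ : Type*} [Fintype ι] [Fintype κ] {E : Matrix ι ι R} {F : Matrix κ κ R}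
    (hE : E * E = E) (hF : F * F = F) : cls (Matrix.fromBlocks E 0 0 F) = cls E + cls F := by
  rw [km_cls hE, km_cls hF, km_cls (km_blocks_idem hE hF)]
  exact (kmAdd_mk hE hF).symm

theorem cls_zero {ι : Type*} [Fintype ι] : cls (0 : Matrix ι ι R) = 0 := by
  rw [km_cls (by simp)]
  exact kmMk_zero _

/-- orthogonal idempotents -/
theorem km_cls_add {ι : Type*} [Fintype ι] {E F : Matrix ι ι R} (hE : E * E = E)
    (hF : F * F = F) (h : E * F = 0) (h' : F * E = 0) : cls (E + F) = cls E + cls F := by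
  have hs : (E + F) * (E + F) = E + F := by
    rw [add_mul, mul_add, mul_add, hE, hF, h, h']
    simp
  rw [← cls_blocks hE hF, cls_eq_iff hs (km_blocks_idem hE hF)]
  refine ⟨Matrix.fromCols E F, Matrix.fromRows E F, ?_, ?_⟩
  · rw [Matrix.fromCols_mul_fromRows, hE, hF]
  · rw [Matrix.fromRows_mul_fromCols, hE, hF, h, h']

theorem km_single_idem {ι : Type*} [Fintype ι] [DecidableEq ι] (a : ι) {e : R} (he : e * e = e) :
    Matrix.diagonal (Pi.single a e : ι → R) * Matrix.diagonal (Pi.single a e : ι → R) =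
      Matrix.diagonal (Pi.single a e : ι → R) := by
  rw [Matrix.diagonal_mul_diagonal]
  congr 1
  funext i
  by_cases h : i = a
  · subst h
    simp [he]
  · simp [h]

theorem km_unit_idem {e : R} (he : e * e = e) :
    (Matrix.of fun _ _ : Unit => e) * (Matrix.of fun _ _ : Unit => e) =
      Matrix.of fun _ _ : Unit => e := by
  ext i j
  simp [Matrix.mul_apply, he]

theorem km_cl (e : R) : cl e = cls (Matrix.of fun _ _ : Unit => e) := rfl

theorem km_single {ι : Type*} [Fintype ι] [DecidableEq ι] (a : ι) {e : R} (he : e * e = e) :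
    cls (Matrix.diagonal (Pi.single a e : ι → R)) = cl e := by
  rw [km_cl, cls_eq_iff (km_single_idem a he) (km_unit_idem he)]
  refine ⟨Matrix.of fun i _ => (Pi.single a e : ι → R) i,
    Matrix.of fun _ i => (Pi.single a e : ι → R) i, ?_, ?_⟩
  · ext i j
    rw [Matrix.mul_apply]
    simp only [Finset.univ_unique, Finset.sum_singleton]
    by_cases h : i = a
    · subst h
      by_cases h' : j = i
      · subst h'
        simp [he]
      · rw [Matrix.diagonal_apply_ne _ (Ne.symm h')]
        simp [h']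
    · by_cases h' : i = j
      · subst h'
        simp [h]
      · rw [Matrix.diagonal_apply_ne _ h']
        simp [h]
  · ext i j
    rw [Matrix.mul_apply]
    rw [Finset.sum_eq_single a]
    · simp [he]
    · intro b _ hb
      simp [hb]
    · intro hb
      exact absurd (Finset.mem_univ a) hb

theorem km_diag_idem {ι : Type*} [Fintype ι] [DecidableEq ι] (f : ι → R)
    (hf : ∀ i, f i * f i = f i) :
    Matrix.diagonal f * Matrix.diagonal f = Matrix.diagonal f := by
  rw [Matrix.diagonal_mul_diagonal]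
  congr 1
  funext i
  exact hf i

theorem cls_diag {ι : Type*} [Fintype ι] [DecidableEq ι] (f : ι → R) (hf : ∀ i, f i * f i = f i) :
    cls (Matrix.diagonal f) = ∑ i, cl (f i) := by
  have key : ∀ S : Finset ι, cls (Matrix.diagonal (fun i => if i ∈ S then f i else 0)) =
      ∑ i ∈ S, cl (f i) := by
    intro S
    induction S using Finset.induction_on with
    | empty =>
      have h : (Matrix.diagonal (fun i : ι => if i ∈ (∅ : Finset ι) then f i else 0) :
          Matrix ι ι R) = 0 := by
        simp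
      rw [h, cls_zero, Finset.sum_empty]
    | insert a S ha ih =>
      have h1 : (Matrix.diagonal (fun i : ι => if i ∈ insert a S then f i else 0) :
          Matrix ι ι R) = Matrix.diagonal (Pi.single a (f a) : ι → R) +
            Matrix.diagonal (fun i => if i ∈ S then f i else 0) := by
        rw [Matrix.diagonal_add]
        congr 1
        funext i
        by_cases h : i = a
        · subst h
          simp [ha]
        · simp [h]
      rw [h1, km_cls_add (km_single_idem a (hf a)) (km_diag_idem _ ?_) ?_ ?_,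
        km_single a (hf a), ih, Finset.sum_insert ha]
      · intro i
        by_cases h : i ∈ S
        · simp [h, hf i]
        · simp [h]
      · rw [Matrix.diagonal_mul_diagonal]
        have : (fun i => (Pi.single a (f a) : ι → R) i * (if i ∈ S then f i else 0)) = 0 := by
          funext i
          by_cases h : i = a
          · subst h
            simp [ha]
          · simp [h]
        rw [this]
        exact Matrix.diagonal_zero
      · rw [Matrix.diagonal_mul_diagonal]
        have : (fun i => (if i ∈ S then f i else 0) * (Pi.single a (f a) : ι → R) i) = 0 := by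
          funext i
          by_cases h : i = a
          · subst h
            simp [ha]
          · simp [h]
        rw [this]
        exact Matrix.diagonal_zero
  have h := key Finset.univ
  simpa using h

/-- the diagonal matrix with `c k` entries `v k` -/
theorem cls_dg {I : Type*} [Fintype I] [DecidableEq I] (v : I → R) (hv : ∀ k, v k * v k = v k)
    (c : I → ℕ) : cls (Matrix.diagonal (fun x : (Σ k, Fin (c k)) => v x.1)) =
      ∑ k, c k • cl (v k) := by
  rw [cls_diag _ (fun x => hv x.1), Fintype.sum_sigma]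
  refine Finset.sum_congr rfl fun k _ => ?_
  change ∑ _y : Fin (c k), cl (v k) = _
  rw [Finset.sum_const, Finset.card_univ, Fintype.card_fin]

/-- orthogonal idempotents -/
theorem cls_add {ι : Type*} [Fintype ι] {E F : Matrix ι ι R} (hE : E * E = E) (hF : F * F = F)
    (h : E * F = 0) (h' : F * E = 0) : cls (E + F) = cls E + cls F :=
  km_cls_add hE hF h h'

end Pool.Agent.Helper32.PG
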