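import Pool.Agent.Helper32.PG.Spn
import Pool.Agent.Helper32.PG.AlgL

/-! The quotient `J H / J (H \ {i})` for a maximal `i` in `H` is a ring of infinite matrices over
the Laurent polynomials (`i` a cycle) or over `K` (`i` a sink). PIECE 6.

`level`: apply `algLevel` in the quotient ring of `U` modulo the two-sided ideal `J (H \ {i})`
with `ev` induced by `T m ↦ zi i m`, respectively `c ↦ c • v i`, and lift `X`, `Y` to `U` (replace
`X` by `E * X * dv` and `Y` by `dv * Y * E`). -/

set_option autoImplicit false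
set_option linter.unusedSectionVars false

universe k a

namespace Pool.Agent.Helper32.PG

open Pool.Agent.Helper32.LV

variable {I : Type a} [Fintype I] [DecidableEq I] {K : Type k} [Field K] [StarRing K] {D : Dat I}

variable (K D) in
/-- the diagonal matrix with `r` entries `v i` -/
noncomputable abbrev dv (i : I) (r : ℕ) : Matrix (Fin r) (Fin r) (U K (NG D)) :=
  Matrix.diagonal fun _ => vn K D i

/-! ### auxiliary facts -/

theorem lev_low_lt (hD : D.Full) (i : I) : Low D (Lt D i) := fun j hj k' hk' =>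
  hD.tr i j k' hj hk'

theorem lev_not_lt (hD : D.Full) (i : I) : i ∉ Lt D i := fun h => h (spn_lt_self hD.toOk i)

theorem lev_zi_cyc {i : I} (hi : D.cyc i) (m : ℤ) : zi K D i m = zp K (NG D) (.z i hi) m := by
  unfold zi
  rw [dif_pos hi]

/-- exact product for a negative power on the left -/
theorem lev_neg_mul (i : I) (hi : D.cyc i) (m : ℕ) (j : ℤ) :
    zi K D i (-(m : ℤ)) * zi K D i j = zi K D i (j - m) := by
  rcases j with n | n
  · exact zi_neg_mul i hi m n
  · have h1 : (Int.negSucc n - (m : ℤ)) = -((m + (n + 1) : ℕ) : ℤ) := by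
      rw [Int.negSucc_eq]
      push_cast
      ring
    rw [h1, lev_zi_cyc hi, lev_zi_cyc hi, lev_zi_cyc hi, zp_neg_nat, zp_neg_nat, zp_negSucc]
    have h2 : vx K (NG D) ((NG D).s (.z i hi)) * gh K (NG D) (.z i hi) ^ m =
        gh K (NG D) (.z i hi) ^ m * vx K (NG D) ((NG D).s (.z i hi)) :=
      gh_pow_vx (G := NG D) (e := .z i hi) rfl m
    rw [← mul_assoc, mul_assoc _ _ (vx K (NG D) ((NG D).s (.z i hi))), ← h2, ← mul_assoc, vx_vx,
      mul_assoc, ← pow_add]

/-- a combination of powers of the loop which lies in `J G` is zero (multiply with a high power of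
`z*` and use `kill` and `zp_li`) -/
theorem zi_li (hD : D.Full) (i : I) (hi : D.cyc i) {G : Set I} (hG : Low D G) (hiG : i ∉ G)
    (c : ℤ →₀ K) (h : Finsupp.linearCombination K (zi K D i) c ∈ J K D G) : c = 0 := by
  obtain ⟨M, hM⟩ := kill hD i hi hG hiG h
  have h1 := hM M le_rfl
  have h2 : Finsupp.linearCombination K (zp K (NG D) (.z i hi))
      (Finsupp.mapDomain (fun j : ℤ => j - M) c) = 0 := by
    rw [Finsupp.linearCombination_mapDomain, ← h1, Finsupp.linearCombination_apply,
      Finsupp.linearCombination_apply, Finsupp.sum, Finsupp.sum, Finset.mul_sum]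
    refine Finset.sum_congr rfl fun j _ => ?_
    rw [mul_smul_comm, lev_neg_mul i hi, lev_zi_cyc hi]
    rfl
  have h3 := (linearIndependent_iff.1
    (zp_li (K := K) (G := NG D) (e := .z i hi) rfl)) _ h2
  have h4 : Function.Injective (fun j : ℤ => j - M) := fun x y hxy => by
    simpa using hxy
  exact Finsupp.mapDomain_injective h4 (by rw [h3, Finsupp.mapDomain_zero])

/-- the Laurent polynomials in the loop -/
noncomputable def lev_th (K : Type k) [Field K] (D : Dat I) (i : I) (p : LaurentPolynomial K) :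
    U K (NG D) :=
  Finsupp.linearCombination K (zi K D i) p.coeff

theorem lev_th_add (i : I) (p q : LaurentPolynomial K) :
    lev_th K D i (p + q) = lev_th K D i p + lev_th K D i q := by
  unfold lev_th
  rw [AddMonoidAlgebra.coeff_add, map_add]

theorem lev_th_zero (i : I) : lev_th K D i 0 = 0 := by
  unfold lev_th
  rw [AddMonoidAlgebra.coeff_zero, map_zero]

theorem lev_th_single (i : I) (j : ℤ) (c : K) :
    lev_th K D i (AddMonoidAlgebra.single j c) = c • zi K D i j := by
  unfold lev_th
  rw [AddMonoidAlgebra.coeff_single, Finsupp.linearCombination_single]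

theorem lev_th_one (i : I) : lev_th K D i 1 = vn K D i := by
  have h := lev_th_single (K := K) (D := D) i 0 1
  rw [one_smul, zi_zero] at h
  exact h

theorem lev_th_mul (hD : D.Ok) (i : I) (hi : D.cyc i) (p q : LaurentPolynomial K) :
    lev_th K D i (p * q) - lev_th K D i p * lev_th K D i q ∈ J K D (Lt D i) := by
  induction p using AddMonoidAlgebra.induction_linear with
  | zero =>
    rw [zero_mul, lev_th_zero, zero_mul, sub_zero]
    exact Submodule.zero_mem _
  | add p p' hp hp' =>
    have e : lev_th K D i ((p + p') * q) - lev_th K D i (p + p') * lev_th K D i q =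
        (lev_th K D i (p * q) - lev_th K D i p * lev_th K D i q) +
          (lev_th K D i (p' * q) - lev_th K D i p' * lev_th K D i q) := by
      rw [add_mul, lev_th_add, lev_th_add, add_mul]
      abel
    rw [e]
    exact Submodule.add_mem _ hp hp'
  | single j c =>
    induction q using AddMonoidAlgebra.induction_linear with
    | zero =>
      rw [mul_zero, lev_th_zero, mul_zero, sub_zero]
      exact Submodule.zero_mem _
    | add q q' hq hq' =>
      have e : lev_th K D i (AddMonoidAlgebra.single j c * (q + q')) -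
          lev_th K D i (AddMonoidAlgebra.single j c) * lev_th K D i (q + q') =
          (lev_th K D i (AddMonoidAlgebra.single j c * q) -
            lev_th K D i (AddMonoidAlgebra.single j c) * lev_th K D i q) +
          (lev_th K D i (AddMonoidAlgebra.single j c * q') -
            lev_th K D i (AddMonoidAlgebra.single j c) * lev_th K D i q') := by
        rw [mul_add, lev_th_add, lev_th_add, mul_add]
        abel
      rw [e]
      exact Submodule.add_mem _ hq hq'
    | single j' d =>
      rw [AddMonoidAlgebra.single_mul_single, lev_th_single, lev_th_single, lev_th_single,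
        smul_mul_smul_comm, ← smul_sub]
      refine Submodule.smul_mem _ _ ?_
      have h1 := zi_mul (K := K) hD i hi j j'
      rw [← neg_sub]
      exact Submodule.neg_mem _ h1

theorem lev_th_inj (hD : D.Full) (i : I) (hi : D.cyc i) {G : Set I} (hG : Low D G) (hiG : i ∉ G)
    (p : LaurentPolynomial K) (h : lev_th K D i p ∈ J K D G) : p = 0 := by
  have h1 := zi_li hD i hi hG hiG p.coeff h
  refine AddMonoidAlgebra.coeff_injective ?_
  rw [h1, AddMonoidAlgebra.coeff_zero]

theorem lev_span_th (i : I) {x : U K (NG D)}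
    (hx : x ∈ Submodule.span K {y | ∃ m : ℤ, y = zi K D i m}) :
    ∃ p : LaurentPolynomial K, x = lev_th K D i p := by
  induction hx using Submodule.span_induction with
  | mem x h =>
    obtain ⟨m, rfl⟩ := h
    refine ⟨AddMonoidAlgebra.single m 1, ?_⟩
    rw [lev_th_single, one_smul]
  | zero => exact ⟨0, (lev_th_zero i).symm⟩
  | add x y _ _ h1 h2 =>
    obtain ⟨p, rfl⟩ := h1
    obtain ⟨q, rfl⟩ := h2
    exact ⟨p + q, (lev_th_add i p q).symm⟩
  | smul c x _ h1 =>
    obtain ⟨p, rfl⟩ := h1
    refine ⟨c • p, ?_⟩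
    unfold lev_th
    rw [AddMonoidAlgebra.coeff_smul, map_smul]

/-- elements of the corner modulo the lower ideal -/
theorem lev_corner (hD : D.Full) (i : I) {x : U K (NG D)} (hx : vn K D i * x * vn K D i = x) :
    ∃ p : LaurentPolynomial K, x - lev_th K D i p ∈ J K D (Lt D i) := by
  obtain ⟨s, hs, t, ht, h⟩ := Submodule.mem_sup.1 (span_corner (K := K) hD i x)
  obtain ⟨p, rfl⟩ := lev_span_th i hs
  refine ⟨p, ?_⟩
  rw [hx] at h
  rw [← h, add_sub_cancel_left]
  exact ht

theorem lev_lt_empty (hD : D.Full) {i : I} (hi : ¬ D.cyc i) : Lt D i = ∅ := by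
  ext k'
  simp only [Set.mem_empty_iff_false, iff_false]
  intro h
  exact hi (hD.hc i k' h)

theorem lev_J_empty {x : U K (NG D)} (h : x ∈ J K D (∅ : Set I)) : x = 0 := by
  unfold J at h
  induction h using Submodule.span_induction with
  | mem x h =>
    obtain ⟨i, hi, _⟩ := h
    exact absurd hi (Set.notMem_empty i)
  | zero => rfl
  | add x y _ _ h1 h2 => rw [h1, h2, add_zero]
  | smul c x _ h1 => rw [h1, smul_zero]

/-- at a sink the corner is `K` -/
theorem lev_corner_sink (hD : D.Full) (i : I) (hi : ¬ D.cyc i) (x : U K (NG D)) :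
    ∃ c : K, vn K D i * x * vn K D i = c • vn K D i := by
  obtain ⟨s, hs, t, ht, h⟩ := Submodule.mem_sup.1 (span_corner (K := K) hD i x)
  rw [lev_lt_empty hD hi] at ht
  rw [lev_J_empty ht, add_zero] at h
  rw [← h]
  clear h
  induction hs using Submodule.span_induction with
  | mem x h =>
    obtain ⟨m, rfl⟩ := h
    by_cases hm : m = 0
    · exact ⟨1, by rw [hm, zi_zero, one_smul]⟩
    · exact ⟨0, by rw [spn_zi_sink hi hm, zero_smul]⟩
  | zero => exact ⟨0, by rw [zero_smul]⟩
  | add x y _ _ h1 h2 =>
    obtain ⟨c, rfl⟩ := h1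
    obtain ⟨d, rfl⟩ := h2
    exact ⟨c + d, by rw [add_smul]⟩
  | smul c x _ h1 =>
    obtain ⟨d, rfl⟩ := h1
    exact ⟨c * d, by rw [mul_smul]⟩

theorem dom (hD : D.Full) (i : I) {a b : U K (NG D)} (ha : vn K D i * a * vn K D i = a)
    (hb : vn K D i * b * vn K D i = b) (hab : a * b ∈ J K D (Lt D i)) :
    a ∈ J K D (Lt D i) ∨ b ∈ J K D (Lt D i) := by
  by_cases hi : D.cyc i
  · obtain ⟨p, hp⟩ := lev_corner hD i ha
    obtain ⟨q, hq⟩ := lev_corner hD i hb
    have h1 : lev_th K D i (p * q) ∈ J K D (Lt D i) := by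
      have e : lev_th K D i (p * q) =
          (lev_th K D i (p * q) - lev_th K D i p * lev_th K D i q) + a * b -
            (a - lev_th K D i p) * b - lev_th K D i p * (b - lev_th K D i q) := by
        noncomm_ring
      rw [e]
      exact Submodule.sub_mem _ (Submodule.sub_mem _ (Submodule.add_mem _
        (lev_th_mul hD.toOk i hi p q) hab) (J_mul_right hp _)) (J_mul_left _ hq)
    have h2 := lev_th_inj hD i hi (lev_low_lt hD i) (lev_not_lt hD i) _ h1
    rcases mul_eq_zero.1 h2 with h3 | h3
    · left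
      rw [h3, lev_th_zero, sub_zero] at hp
      exact hp
    · right
      rw [h3, lev_th_zero, sub_zero] at hq
      exact hq
  · obtain ⟨c, hc⟩ := lev_corner_sink hD i hi a
    obtain ⟨d, hd⟩ := lev_corner_sink hD i hi b
    rw [ha] at hc
    rw [hb] at hd
    rw [hc, hd, smul_mul_smul_comm, vx_vx] at hab
    by_cases hcd : c * d = 0
    · rcases mul_eq_zero.1 hcd with h | h
      · left
        rw [hc, h, zero_smul]
        exact Submodule.zero_mem _
      · right
        rw [hd, h, zero_smul]
        exact Submodule.zero_mem _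
    · exfalso
      refine vn_not_mem (K := K) hD i (lev_low_lt hD i) (lev_not_lt hD i) ?_
      have h1 := Submodule.smul_mem (J K D (Lt D i)) (c * d)⁻¹ hab
      rwa [smul_smul, inv_mul_cancel₀ hcd, one_smul] at h1

/-- `z - v` is not invertible in the corner -/
theorem zi_sub_not_inv (hD : D.Full) (i : I) (hi : D.cyc i) {b : U K (NG D)}
    (h : (zi K D i 1 - vn K D i) * b = vn K D i) : False := by
  have hv : vn K D i * vn K D i = vn K D i := vx_vx _
  obtain ⟨p, hp⟩ := lev_corner (K := K) (x := vn K D i * b * vn K D i) hD i (by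
    simp only [mul_assoc, hv]
    simp only [← mul_assoc, hv])
  have h1 : (zi K D i 1 - vn K D i) * (vn K D i * b * vn K D i) = vn K D i := by
    have e1 : (zi K D i 1 - vn K D i) * vn K D i = zi K D i 1 - vn K D i := by
      rw [sub_mul, zi_vn, hv]
    rw [← mul_assoc, ← mul_assoc, e1, h, hv]
  have h2 : lev_th K D i (LaurentPolynomial.T 1 - 1) = zi K D i 1 - vn K D i := by
    have e : (LaurentPolynomial.T 1 - 1 : LaurentPolynomial K) =
        AddMonoidAlgebra.single 1 1 + AddMonoidAlgebra.single 0 (-1) := by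
      rw [sub_eq_add_neg]
      congr 1
      rw [← LaurentPolynomial.T_zero, LaurentPolynomial.T, AddMonoidAlgebra.single_neg]
    rw [e, lev_th_add, lev_th_single, lev_th_single, one_smul, zi_zero, neg_smul, one_smul,
      sub_eq_add_neg]
  have h3 : lev_th K D i ((LaurentPolynomial.T 1 - 1) * p - 1) ∈ J K D (Lt D i) := by
    have e0 : lev_th K D i ((LaurentPolynomial.T 1 - 1) * p - 1) =
        lev_th K D i ((LaurentPolynomial.T 1 - 1) * p) - vn K D i := by
      have e1 : lev_th K D i ((LaurentPolynomial.T 1 - 1) * p - 1) + lev_th K D i 1 =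
          lev_th K D i ((LaurentPolynomial.T 1 - 1) * p) := by
        rw [← lev_th_add, sub_add_cancel]
      rw [← e1, lev_th_one, add_sub_cancel_right]
    have e : lev_th K D i ((LaurentPolynomial.T 1 - 1) * p) - vn K D i =
        (lev_th K D i ((LaurentPolynomial.T 1 - 1) * p) -
          lev_th K D i (LaurentPolynomial.T 1 - 1) * lev_th K D i p) -
          (zi K D i 1 - vn K D i) * (vn K D i * b * vn K D i - lev_th K D i p) := by
      rw [h2, mul_sub _ (vn K D i * b * vn K D i), h1]
      abel
    rw [e0, e]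
    exact Submodule.sub_mem _ (lev_th_mul hD.toOk i hi _ _) (J_mul_left _ hp)
  have h4 := lev_th_inj hD i hi (lev_low_lt hD i) (lev_not_lt hD i) _ h3
  -- evaluate at one
  have h5 := congrArg (LaurentPolynomial.eval₂ (RingHom.id K) (1 : Kˣ)) h4
  simp at h5

/-- at a sink the corner is `K` -/
theorem corner_sink (hD : D.Full) (i : I) (hi : ¬ D.cyc i) (x : U K (NG D)) :
    ∃ c : K, vn K D i * x * vn K D i = c • vn K D i := lev_corner_sink hD i hi x

/-- the ideal `J G` as a left ideal -/
noncomputable def lev_I (K : Type k) [Field K] [StarRing K] (D : Dat I) (G : Set I) :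
    Ideal (U K (NG D)) where
  carrier := {x | x ∈ J K D G}
  add_mem' := by
    intro x y h1 h2
    exact (J K D G).add_mem h1 h2
  zero_mem' := (J K D G).zero_mem
  smul_mem' := by
    intro a x h
    exact J_mul_left a h

theorem lev_mem_I {G : Set I} {x : U K (NG D)} : x ∈ lev_I K D G ↔ x ∈ J K D G := Iff.rfl

instance lev_ts (G : Set I) : (lev_I K D G).IsTwoSided := ⟨by
  intro x a h
  exact lev_mem_I.2 (J_mul_right (lev_mem_I.1 h) a)⟩

theorem lev_mk_eq_zero {G : Set I} {x : U K (NG D)} :
    Ideal.Quotient.mk (lev_I K D G) x = 0 ↔ x ∈ J K D G := by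
  rw [Ideal.Quotient.eq_zero_iff_mem, lev_mem_I]

theorem lev_main (hD : D.Full) {H : Set I} (hH : Low D H) {i : I} (hi : i ∈ H)
    {R : Type*} [Ring R] (π : U K (NG D) →+* R) (hπs : Function.Surjective π)
    (hπ0 : ∀ x, π x = 0 ↔ x ∈ J K D (H \ {i})) {Λ : Type*} [CommRing Λ] [IsDomain Λ] [IsPrincipalIdealRing Λ] (th : Λ →+ U K (NG D))
    (th_mul : ∀ f g, th (f * g) - th f * th g ∈ J K D (H \ {i})) (th_one : th 1 = vn K D i)
    (th_inj : ∀ f, th f ∈ J K D (H \ {i}) → f = 0)
    (th_sur : ∀ (c : K) (m : ℤ), ∃ f, th f = c • zi K D i m)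
    {ι : Type*} [Fintype ι] [DecidableEq ι]
    (E : Matrix ι ι (U K (NG D))) (hE : E * E = E) (hJ : ∀ a b, E a b ∈ J K D H) :
    ∃ (r : ℕ) (X : Matrix ι (Fin r) (U K (NG D))) (Y : Matrix (Fin r) ι (U K (NG D))),
      E * X = X ∧ Y * E = Y ∧ X * dv K D i r = X ∧ dv K D i r * Y = Y ∧
      (∀ a b, (E - X * Y) a b ∈ J K D (H \ {i})) ∧
      ∀ a b, (dv K D i r - Y * X) a b ∈ J K D (H \ {i}) := by
  have hπe : ∀ x y, x - y ∈ J K D (H \ {i}) → π x = π y := by
    intro x y h
    rw [← sub_eq_zero, ← map_sub]
    exact (hπ0 _).2 h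
  have hv : vn K D i * vn K D i = vn K D i := vx_vx _
  have hcl : ∀ x ∈ J K D H, π x ∈ AddSubgroup.closure {x | ∃ (y : YY D i) (f : Λ) (y' : YY D i),
      x = π (pth K D y) * (π.toAddMonoidHom.comp th) f * π (star (pth K D y'))} := by
    intro x hx
    obtain ⟨s, hs, t, ht, rfl⟩ := Submodule.mem_sup.1 (span_J hD hH hi hx)
    rw [map_add, (hπ0 t).2 ht, add_zero]
    clear hx
    have key : ∀ c : K, π (c • s) ∈ AddSubgroup.closure
        {x | ∃ (y : YY D i) (f : Λ) (y' : YY D i),
          x = π (pth K D y) * (π.toAddMonoidHom.comp th) f * π (star (pth K D y'))} := by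
      induction hs using Submodule.span_induction with
      | mem x h =>
        obtain ⟨p, q, m, rfl⟩ := h
        intro c
        obtain ⟨f, hf⟩ := th_sur c m
        refine AddSubgroup.subset_closure ⟨p, f, q, ?_⟩
        change _ = π (pth K D p) * π (th f) * π (star (pth K D q))
        rw [hf, ← map_mul, ← map_mul, mul_smul_comm, smul_mul_assoc]
      | zero =>
        intro c
        rw [smul_zero, map_zero]
        exact AddSubgroup.zero_mem _
      | add x y _ _ h1 h2 =>
        intro c
        rw [smul_add, map_add]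
        exact AddSubgroup.add_mem _ (h1 c) (h2 c)
      | smul d x _ h =>
        intro c
        rw [smul_smul]
        exact h _
    have := key 1
    rwa [one_smul] at this
  have hE' : E.map π * E.map π = E.map π := by
    rw [← Matrix.map_mul, hE]
  obtain ⟨r, X', Y', hXY, hYX, hX, hY⟩ := algLevel (π (vn K D i)) (π.toAddMonoidHom.comp th)
    (fun f g => by
      change π (th (f * g)) = π (th f) * π (th g)
      rw [← map_mul]
      exact hπe _ _ (th_mul f g))
    (by
      change π (th 1) = _
      rw [th_one])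
    (fun f hf => th_inj f ((hπ0 _).1 hf))
    (fun y : YY D i => π (pth K D y)) (fun y => π (star (pth K D y)))
    (fun y => by rw [← map_mul, pth_vn])
    (fun y => by
      rw [← map_mul]
      congr 1
      have h := congrArg star (pth_vn (K := K) y)
      rwa [star_mul, star_vx] at h)
    (fun y => by rw [← map_mul, star_pth_self hD.toOk])
    (fun y y' h => by rw [← map_mul, star_pth_ne hD.toOk h, map_zero])
    (E.map π) hE' (fun a b => hcl _ (hJ a b))
  choose g hg using hπs
  set X0 : Matrix ι (Fin r) (U K (NG D)) := X'.map g with hX0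
  set Y0 : Matrix (Fin r) ι (U K (NG D)) := Y'.map g with hY0
  have hX0' : X0.map π = X' := by
    ext a b
    exact hg _
  have hY0' : Y0.map π = Y' := by
    ext a b
    exact hg _
  have hdd : dv K D i r * dv K D i r = dv K D i r := by
    rw [Matrix.diagonal_mul_diagonal]
    simp only [hv]
  have hdm : (dv K D i r).map π = Matrix.diagonal fun _ => π (vn K D i) := by
    rw [Matrix.diagonal_map (map_zero π)]
  have hX2 : X' * (dv K D i r).map π = X' := by
    rw [hdm]
    exact hX
  have hY2 : (dv K D i r).map π * Y' = Y' := by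
    rw [hdm]
    exact hY
  have hYX2 : Y' * X' = (dv K D i r).map π := by
    rw [hdm]
    exact hYX
  have hXm : (E * X0 * dv K D i r).map π = X' := by
    rw [Matrix.map_mul, Matrix.map_mul, hX0', Matrix.mul_assoc, hX2, ← hXY, Matrix.mul_assoc,
      hYX2, hX2]
  have hYm : (dv K D i r * Y0 * E).map π = Y' := by
    rw [Matrix.map_mul, Matrix.map_mul, hY0', hY2, ← hXY, ← Matrix.mul_assoc, hYX2, hY2]
  refine ⟨r, E * X0 * dv K D i r, dv K D i r * Y0 * E, ?_, ?_, ?_, ?_, ?_, ?_⟩
  · rw [← Matrix.mul_assoc, ← Matrix.mul_assoc, hE]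
  · rw [Matrix.mul_assoc, hE]
  · rw [Matrix.mul_assoc, hdd]
  · rw [← Matrix.mul_assoc, ← Matrix.mul_assoc, hdd]
  · intro a b
    rw [← hπ0]
    have h1 : (E - E * X0 * dv K D i r * (dv K D i r * Y0 * E)).map π = 0 := by
      rw [Matrix.map_sub π (map_sub π), Matrix.map_mul, hXm, hYm, hXY, sub_self]
    have h2 := congrFun (congrFun h1 a) b
    exact h2
  · intro a b
    rw [← hπ0]
    have h1 : (dv K D i r - dv K D i r * Y0 * E * (E * X0 * dv K D i r)).map π = 0 := by
      rw [Matrix.map_sub π (map_sub π), Matrix.map_mul, hXm, hYm, hYX2, sub_self]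
    have h2 := congrFun (congrFun h1 a) b
    exact h2

theorem level (hD : D.Full) {H : Set I} (hH : Low D H) {i : I} (hi : i ∈ H)
    (hm : ∀ j ∈ H, D.n j i = 0) {ι : Type*} [Fintype ι] [DecidableEq ι]
    (E : Matrix ι ι (U K (NG D))) (hE : E * E = E) (hJ : ∀ a b, E a b ∈ J K D H) :
    ∃ (r : ℕ) (X : Matrix ι (Fin r) (U K (NG D))) (Y : Matrix (Fin r) ι (U K (NG D))),
      E * X = X ∧ Y * E = Y ∧ X * dv K D i r = X ∧ dv K D i r * Y = Y ∧
      (∀ a b, (E - X * Y) a b ∈ J K D (H \ {i})) ∧
      ∀ a b, (dv K D i r - Y * X) a b ∈ J K D (H \ {i}) := by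
  have hlow : Low D (H \ {i}) := by
    intro j hj k' hk'
    refine ⟨hH j hj.1 k' hk', ?_⟩
    rintro h
    have h' : k' = i := h
    rw [h'] at hk'
    exact hk' (hm j hj.1)
  have hnot : i ∉ H \ {i} := fun h => h.2 rfl
  have hlt : Lt D i ⊆ H \ {i} := by
    intro k' hk'
    refine ⟨hH i hi k' hk', ?_⟩
    intro h
    have h' : k' = i := h
    rw [h'] at hk'
    exact hk' (spn_lt_self hD.toOk i)
  by_cases hc : D.cyc i
  · have := laurent_pir K
    refine lev_main hD hH hi (Ideal.Quotient.mk (lev_I K D (H \ {i})))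
      Ideal.Quotient.mk_surjective (fun _ => lev_mk_eq_zero) (Λ := LaurentPolynomial K)
      ⟨⟨lev_th K D i, lev_th_zero i⟩, lev_th_add i⟩ ?_ (lev_th_one i) ?_ ?_ E hE hJ
    · intro f g
      exact J_mono hlt (lev_th_mul hD.toOk i hc f g)
    · intro f hf
      exact lev_th_inj hD i hc hlow hnot f hf
    · intro c m
      exact ⟨AddMonoidAlgebra.single m c, lev_th_single i m c⟩
  · have hv : vn K D i * vn K D i = vn K D i := vx_vx _
    refine lev_main hD hH hi (Ideal.Quotient.mk (lev_I K D (H \ {i})))
      Ideal.Quotient.mk_surjective (fun _ => lev_mk_eq_zero) (Λ := K)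
      ⟨⟨fun c => c • vn K D i, zero_smul _ _⟩, fun c d => add_smul _ _ _⟩ ?_ (one_smul _ _) ?_ ?_
      E hE hJ
    · intro f g
      change (f * g) • vn K D i - (f • vn K D i) * (g • vn K D i) ∈ _
      rw [smul_mul_smul_comm, hv, sub_self]
      exact Submodule.zero_mem _
    · intro f hf
      change f • vn K D i ∈ _ at hf
      by_contra hne
      refine vn_not_mem (K := K) hD i hlow hnot ?_
      have h1 := Submodule.smul_mem (J K D (H \ {i})) f⁻¹ hf
      rwa [smul_smul, inv_mul_cancel₀ hne, one_smul] at h1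
    · intro c m
      by_cases hm0 : m = 0
      · exact ⟨c, by rw [hm0, zi_zero]; rfl⟩
      · refine ⟨0, ?_⟩
        rw [map_zero, spn_zi_sink hc hm0, smul_zero]

end Pool.Agent.Helper32.PG
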