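import Pool.Agent.Helper32.PG.Pth
import Pool.Agent.Helper32.TP.Move3

/-! The moves. PIECES 18, 19, 20 prove `move_unit`, `move_row`, `move_col` in the files
`MvU.lean`, `MvR.lean`, `MvC.lean`; this file contains the definitions. -/

set_option autoImplicit false
set_option linter.unusedSectionVars false

universe k a a'

namespace Pool.Agent.Helper32.PG

open Pool.Agent.Helper32.LV

variable {I : Type a} [DecidableEq I] (K : Type k) [Field K] [StarRing K]

/-- *-isomorphism of the algebras -/
def Iso {I : Type a} {I' : Type a'} (D : Dat I) (D' : Dat I') : Prop :=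
  Nonempty (L K (NG D) ≃⋆ₐ[K] L K (NG D'))

theorem Iso.refl {I : Type a} (D : Dat I) : Iso K D D := ⟨StarAlgEquiv.refl _ _⟩

theorem Iso.symm {I : Type a} {I' : Type a'} {D : Dat I} {D' : Dat I'} (h : Iso K D D') :
    Iso K D' D := by
  obtain ⟨f⟩ := h
  exact ⟨f.symm⟩

theorem Iso.trans {I I' I'' : Type*} {D : Dat I} {D' : Dat I'} {D'' : Dat I''} (h : Iso K D D')
    (h' : Iso K D' D'') : Iso K D D'' := by
  obtain ⟨f⟩ := h
  obtain ⟨g⟩ := h'
  exact ⟨f.trans g⟩

/-- add the row `i` to the multiplicities -/
def Dat.unit (D : Dat I) (i : I) : Dat I where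
  cyc := D.cyc
  n := D.n
  a k := D.a k + D.n i k

/-- add the row `k` to the row `i` -/
def Dat.row (D : Dat I) (i k : I) : Dat I where
  cyc := D.cyc
  n j l := if j = i then D.n i l + D.n k l else D.n j l
  a := D.a

/-- add the column `i` to the column `k` -/
def Dat.col (D : Dat I) (i k : I) : Dat I where
  cyc := D.cyc
  n j l := if l = k then D.n j k + D.n j i else D.n j l
  a l := if l = k then D.a k + (D.a i + 1) else D.a l

/-- change of the index set -/
def Dat.comap {I' : Type a'} (D' : Dat I') (σ : I → I') : Dat I where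
  cyc i := D'.cyc (σ i)
  n i k := D'.n (σ i) (σ k)
  a i := D'.a (σ i)

end Pool.Agent.Helper32.PG
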