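import Pool.Agent.Helper32.PG.Mv
import Pool.Agent.Helper32.TP.Move1

/-! The unit move. PIECE 18.

Compare `TP/Move1.lean` (the same move in a special case; its `move1_rep` has an analogue here).
Write `v, z, f, g` for the generators of `L K (NG D)` and `v', z', f', g'` for those of
`L K (NG (D.unit i))`, whose copies `⟨k, some s⟩` with `s` in the first `D.a k` indices are the old
ones and the other `D.n i k` are `y k m`, with links `h k m : y k m → ⟨k, none⟩`. Since `i` is not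
below `i`, `D.unit i` has the same number of copies of `i`. The map from `D.unit i` to `D`:
`v' ⟨i, none⟩ ↦ z z*`, `z' i ↦ z z z*`, `f' i k m ↦ z f`, `g' i s ↦ g z*`, `f' l i m ↦ f z*`
(for the edges from other `l` to `i`), `y k m ↦ f f*`, `h k m ↦ f i k m`, all other generators to
themselves. The map from `D` to `D.unit i`: `v ⟨i, none⟩ ↦ v' + ∑ y k m`, `z i ↦ Z = z' + ∑ f' h*`,
`f i k m ↦ h k m`, `g i s ↦ g' Z`, `f l i m ↦ f' Z`, all other generators to themselves. Use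
`mkEquiv`. -/

set_option autoImplicit false
set_option linter.unusedSectionVars false

universe k a

namespace Pool.Agent.Helper32.PG

open Pool.Agent.Helper32.LV

section mvu_aux

variable {I : Type a} [Fintype I] [DecidableEq I] {D : Dat I}

theorem mvu_ne (i k : I) (r : Fin (D.a k)) : (⟨i, none⟩ : NV D) ≠ ⟨k, some r⟩ := by
  intro h
  simp only [Sigma.mk.injEq] at h
  obtain ⟨rfl, h2⟩ := h
  simp at h2

theorem mvu_set (i : I) (hc : D.cyc i) :
    ∃ s : Finset (NE D), (∀ e, e ∈ s ↔ (NG D).s e = ⟨i, none⟩) ∧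
    ∀ {B : Type (max k a)} [AddCommMonoid B] (F : NE D → B),
      ∑ e ∈ s, F e = F (.z i hc) + ∑ p : Σ k, Fin (D.n i k), F (.f i p.1 p.2) := by
  classical
  have hinj : Function.Injective (fun p : Σ k, Fin (D.n i k) => (NE.f i p.1 p.2 : NE D)) := by
    rintro ⟨j, k⟩ ⟨j', k'⟩ h
    simp only [NE.f.injEq, true_and] at h
    obtain ⟨rfl, h2⟩ := h
    rw [eq_of_heq h2]
  refine ⟨insert (.z i hc) ((Finset.univ : Finset (Σ k, Fin (D.n i k))).map ⟨_, hinj⟩), ?_, ?_⟩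
  · intro e
    rw [Finset.mem_insert, Finset.mem_map]
    constructor
    · rintro (rfl | ⟨p, -, rfl⟩) <;> rfl
    · intro h
      rcases e with ⟨i', h'⟩ | ⟨i', j, k⟩ | ⟨i', s⟩
      · left
        simp only [NG, Sigma.mk.injEq] at h
        obtain ⟨rfl, -⟩ := h
        rfl
      · right
        simp only [NG, Sigma.mk.injEq] at h
        obtain ⟨rfl, -⟩ := h
        exact ⟨⟨j, k⟩, Finset.mem_univ _, rfl⟩
      · exact absurd h.symm (mvu_ne _ _ _)
  · intro B _ F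
    rw [Finset.sum_insert, Finset.sum_map]
    · rfl
    · intro h
      obtain ⟨p, -, hp⟩ := Finset.mem_map.mp h
      simp at hp

theorem mvu_single {e0 : NE D} {v : NV D} (h0 : ∀ e, (NG D).s e = v ↔ e = e0)
    (h : {e | (NG D).s e = v}.Finite) {B : Type (max k a)} [AddCommMonoid B] (F : NE D → B) :
    ∑ e ∈ h.toFinset, F e = F e0 := by
  classical
  have : h.toFinset = {e0} := by
    ext e
    rw [Set.Finite.mem_toFinset, Finset.mem_singleton]
    exact h0 e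
  rw [this, Finset.sum_singleton]

theorem mvu_sg (i : I) (s : Fin (D.a i)) (e : NE D) :
    (NG D).s e = ⟨i, some s⟩ ↔ e = .g i s := by
  constructor
  · intro h
    rcases e with ⟨i', h'⟩ | ⟨i', j, k⟩ | ⟨i', s'⟩
    · exact absurd h (mvu_ne _ _ _)
    · exact absurd h (mvu_ne _ _ _)
    · simp only [NG, Sigma.mk.injEq] at h
      obtain ⟨rfl, h2⟩ := h
      have := Option.some.inj (eq_of_heq h2)
      rw [this]
  · rintro rfl; rfl

variable {K : Type k} [Field K] [StarRing K]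

/-- the relation at the vertex with the loop -/
theorem mvu_ck (i : I) (hc : D.cyc i) :
    vx K (NG D) ⟨i, none⟩ = ed K (NG D) (.z i hc) * gh K (NG D) (.z i hc) +
    ∑ p : Σ k, Fin (D.n i k), ed K (NG D) (.f i p.1 p.2) * gh K (NG D) (.f i p.1 p.2) := by
  classical
  obtain ⟨s, h1, h2⟩ := mvu_set.{k} (D := D) i hc
  have hf : {e | (NG D).s e = ⟨i, none⟩}.Finite := by
    refine s.finite_toSet.subset ?_
    intro e he
    exact (h1 e).2 he
  have hs : hf.toFinset = s := by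
    ext e
    rw [Set.Finite.mem_toFinset, h1]
    exact Iff.rfl
  rw [vx_eq_sum (K := K) (G := NG D) ⟨i, none⟩ hf ⟨.z i hc, rfl⟩, hs, h2]

theorem mvu_ckg (i : I) (s : Fin (D.a i)) :
    vx K (NG D) ⟨i, some s⟩ = ed K (NG D) (.g i s) * gh K (NG D) (.g i s) := by
  have hf : {e | (NG D).s e = ⟨i, some s⟩}.Finite := by
    refine (Set.finite_singleton (NE.g i s : NE D)).subset ?_
    intro e he
    exact (mvu_sg i s e).1 he
  rw [vx_eq_sum (K := K) (G := NG D) ⟨i, some s⟩ hf ⟨.g i s, rfl⟩,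
    mvu_single (mvu_sg i s)]

/-- checking the relations for the graph of a normal form -/
theorem mvu_rep {B : Type (max k a)} [Ring B] [StarRing B] [Algebra K B] {q : NV D → B}
    {u : NE D → B} (hok : ∀ i k, D.n i k ≠ 0 → D.cyc i)
    (hs : ∀ v, star (q v) = q v) (vv : ∀ v, q v * q v = q v)
    (vw : ∀ v w, v ≠ w → q v * q w = 0)
    (se : ∀ e, q ((NG D).s e) * u e = u e) (er : ∀ e, u e * q ((NG D).r e) = u e)
    (ge : ∀ e, star (u e) * u e = q ((NG D).r e))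
    (zf : ∀ i hc (p : Σ k, Fin (D.n i k)), star (u (.z i hc)) * u (.f i p.1 p.2) = 0)
    (ff : ∀ i (p p' : Σ k, Fin (D.n i k)), p ≠ p' →
      star (u (.f i p.1 p.2)) * u (.f i p'.1 p'.2) = 0)
    (c1 : ∀ i hc, q ⟨i, none⟩ = u (.z i hc) * star (u (.z i hc)) +
      ∑ p : Σ k, Fin (D.n i k), u (.f i p.1 p.2) * star (u (.f i p.1 p.2)))
    (c2 : ∀ i s, q ⟨i, some s⟩ = u (.g i s) * star (u (.g i s))) :
    IsRep K (NG D) q u (fun e => star (u e)) where
  vv := vv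
  vw := vw
  se := se
  er := er
  rg e := by
    have := congrArg star (er e)
    rwa [star_mul, hs] at this
  gs e := by
    have := congrArg star (se e)
    rwa [star_mul, hs] at this
  ge := ge
  gf e f hne := by
    have hgs : ∀ e, star (u e) * q ((NG D).s e) = star (u e) := by
      intro e
      have := congrArg star (se e)
      rwa [star_mul, hs] at this
    by_cases h : (NG D).s e = (NG D).s f
    · rcases f with ⟨i, hc⟩ | ⟨i, j, k⟩ | ⟨i, s⟩
      · rcases e with ⟨i', hc'⟩ | ⟨i', j, k⟩ | ⟨i', s'⟩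
        · simp only [NG, Sigma.mk.injEq] at h
          obtain ⟨rfl, -⟩ := h
          exact absurd rfl hne
        · simp only [NG, Sigma.mk.injEq] at h
          obtain ⟨rfl, -⟩ := h
          have := congrArg star (zf i' hc ⟨j, k⟩)
          rwa [star_mul, star_star, star_zero] at this
        · exact absurd h.symm (mvu_ne _ _ _)
      · rcases e with ⟨i', hc'⟩ | ⟨i', j', k'⟩ | ⟨i', s'⟩
        · simp only [NG, Sigma.mk.injEq] at h
          obtain ⟨rfl, -⟩ := h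
          exact zf i' hc' ⟨j, k⟩
        · simp only [NG, Sigma.mk.injEq] at h
          obtain ⟨rfl, -⟩ := h
          refine ff i' ⟨j', k'⟩ ⟨j, k⟩ ?_
          intro h3
          apply hne
          simp only [Sigma.mk.injEq] at h3
          obtain ⟨rfl, h4⟩ := h3
          rw [eq_of_heq h4]
        · exact absurd h.symm (mvu_ne _ _ _)
      · exact absurd ((mvu_sg i s e).1 h) hne
    · rw [← se f, ← hgs e]
      calc star (u e) * q ((NG D).s e) * (q ((NG D).s f) * u f)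
          = star (u e) * (q ((NG D).s e) * q ((NG D).s f)) * u f := by noncomm_ring
        _ = 0 := by rw [vw _ _ h, mul_zero, zero_mul]
  ck v h h0 := by
    classical
    rcases v with ⟨i, _ | s⟩
    · have hc : D.cyc i := by
        obtain ⟨e, he⟩ := h0
        rcases e with ⟨i', hc'⟩ | ⟨i', j, k⟩ | ⟨i', s'⟩
        · simp only [NG, Sigma.mk.injEq] at he
          obtain ⟨rfl, -⟩ := he
          exact hc'
        · simp only [NG, Sigma.mk.injEq] at he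
          obtain ⟨rfl, -⟩ := he
          refine hok i' j ?_
          intro h0
          exact absurd k.2 (by omega)
        · exact absurd he.symm (mvu_ne _ _ _)
      obtain ⟨s, h1, h2⟩ := mvu_set.{k} (D := D) i hc
      have hs : h.toFinset = s := by
        ext e
        rw [Set.Finite.mem_toFinset, h1]
        exact Iff.rfl
      rw [hs, h2]
      exact c1 i hc
    · rw [mvu_single (mvu_sg i s) h]
      exact c2 i s

end mvu_aux

section mvu_psi

variable {I : Type a} [DecidableEq I] (K : Type k) [Field K] [StarRing K] (D : Dat I) (i0 : I)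
  (h0 : D.cyc i0)

/-- the local isometry -/
noncomputable def mvu_T (i : I) : U K (NG D) :=
  if i = i0 then ed K (NG D) (.z i0 h0) else vx K (NG D) ⟨i, none⟩

theorem mvu_T1 (i : I) : star (mvu_T K D i0 h0 i) * mvu_T K D i0 h0 i =
    vx K (NG D) ⟨i, none⟩ := by
  unfold mvu_T
  split_ifs with h
  · subst h
    rw [star_ed]; exact gh_ed (K := K) (G := NG D) (.z i h0)
  · rw [star_vx, vx_vx]

theorem mvu_T2 (i : I) : vx K (NG D) ⟨i, none⟩ * mvu_T K D i0 h0 i = mvu_T K D i0 h0 i := by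
  unfold mvu_T
  split_ifs with h
  · subst h
    exact vx_ed (K := K) (G := NG D) (.z i h0)
  · rw [vx_vx]

theorem mvu_T3 (i : I) : mvu_T K D i0 h0 i * vx K (NG D) ⟨i, none⟩ = mvu_T K D i0 h0 i := by
  unfold mvu_T
  split_ifs with h
  · subst h
    exact ed_vx (K := K) (G := NG D) (.z i h0)
  · rw [vx_vx]

theorem mvu_T2s (i : I) : star (mvu_T K D i0 h0 i) * vx K (NG D) ⟨i, none⟩ =
    star (mvu_T K D i0 h0 i) := by
  have := congrArg star (mvu_T2 K D i0 h0 i)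
  rwa [star_mul, star_vx] at this

theorem mvu_T3s (i : I) : vx K (NG D) ⟨i, none⟩ * star (mvu_T K D i0 h0 i) =
    star (mvu_T K D i0 h0 i) := by
  have := congrArg star (mvu_T3 K D i0 h0 i)
  rwa [star_mul, star_vx] at this

theorem mvu_T4 (i : I) (j : I) (k : Fin (D.n i0 j)) :
    star (mvu_T K D i0 h0 i) * ed K (NG D) (.f i0 j k) = 0 := by
  by_cases h : i = i0
  · subst h
    rw [mvu_T, if_pos rfl, star_ed]
    exact gh_ed_of_ne (by simp)
  · rw [← mvu_T2s, ← vx_ed (K := K) (G := NG D) (.f i0 j k), mul_assoc,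
      ← mul_assoc (vx K (NG D) ⟨i, none⟩)]
    change star (mvu_T K D i0 h0 i) * (vx K (NG D) ⟨i, none⟩ * vx K (NG D) ⟨i0, none⟩ *
      ed K (NG D) (.f i0 j k)) = 0
    rw [vx_vx_of_ne (by intro h'; simp only [Sigma.mk.injEq] at h'; exact h h'.1), zero_mul,
      mul_zero]

/-- the old copies -/
def mvu_ul (j : I) (r : Fin (D.a j)) : Fin ((D.unit i0).a j) :=
  (Fin.castAdd (D.n i0 j) r : Fin (D.a j + D.n i0 j))

/-- the new copies -/
def mvu_ur (j : I) (k : Fin (D.n i0 j)) : Fin ((D.unit i0).a j) :=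
  (Fin.natAdd (D.a j) k : Fin (D.a j + D.n i0 j))

/-- definition by cases on the copies -/
def mvu_ac {X : Type*} (j : I) (f : Fin (D.a j) → X) (g : Fin (D.n i0 j) → X)
    (r : Fin ((D.unit i0).a j)) : X :=
  Fin.addCases (m := D.a j) (n := D.n i0 j) (motive := fun _ => X) f g r

theorem mvu_ac_l {X : Type*} (j : I) (f : Fin (D.a j) → X) (g : Fin (D.n i0 j) → X)
    (r : Fin (D.a j)) : mvu_ac D i0 j f g (mvu_ul D i0 j r) = f r :=
  Fin.addCases_left (motive := fun _ => X) r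

theorem mvu_ac_r {X : Type*} (j : I) (f : Fin (D.a j) → X) (g : Fin (D.n i0 j) → X)
    (k : Fin (D.n i0 j)) : mvu_ac D i0 j f g (mvu_ur D i0 j k) = g k :=
  Fin.addCases_right (motive := fun _ => X) k

/-- images of the vertices -/
noncomputable def mvu_q' : NV (D.unit i0) → U K (NG D)
  | ⟨i, none⟩ => mvu_T K D i0 h0 i * star (mvu_T K D i0 h0 i)
  | ⟨j, some r⟩ => mvu_ac D i0 j
      (fun r => vx K (NG D) ⟨j, some r⟩)
      (fun k => ed K (NG D) (.f i0 j k) * gh K (NG D) (.f i0 j k)) r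

/-- images of the edges -/
noncomputable def mvu_u' : NE (D.unit i0) → U K (NG D)
  | .z i h => mvu_T K D i0 h0 i * ed K (NG D) (.z i h) * star (mvu_T K D i0 h0 i)
  | .f i j k => mvu_T K D i0 h0 i * ed K (NG D) (.f i j k) * star (mvu_T K D i0 h0 j)
  | .g j r => mvu_ac D i0 j
      (fun r => ed K (NG D) (.g j r)) (fun k => ed K (NG D) (.f i0 j k)) r *
        star (mvu_T K D i0 h0 j)

theorem mvu_cases {j : I} {P : Fin ((D.unit i0).a j) → Prop}
    (h1 : ∀ r, P (mvu_ul D i0 j r)) (h2 : ∀ k, P (mvu_ur D i0 j k))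
    (r : Fin ((D.unit i0).a j)) : P r := by
  have : ∀ r : Fin (D.a j + D.n i0 j), P r := fun r =>
    Fin.addCases (motive := fun r => P r) h1 h2 r
  exact this r

theorem mvu_qul (j : I) (r : Fin (D.a j)) :
    mvu_q' K D i0 h0 ⟨j, some (mvu_ul D i0 j r)⟩ = vx K (NG D) ⟨j, some r⟩ := by
  rw [mvu_q', mvu_ac_l]

theorem mvu_qur (j : I) (k : Fin (D.n i0 j)) :
    mvu_q' K D i0 h0 ⟨j, some (mvu_ur D i0 j k)⟩ =
      ed K (NG D) (.f i0 j k) * gh K (NG D) (.f i0 j k) := by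
  rw [mvu_q', mvu_ac_r]

theorem mvu_uul (j : I) (r : Fin (D.a j)) :
    mvu_u' K D i0 h0 (.g j (mvu_ul D i0 j r)) =
      ed K (NG D) (.g j r) * star (mvu_T K D i0 h0 j) := by
  rw [mvu_u', mvu_ac_l]

theorem mvu_uur (j : I) (k : Fin (D.n i0 j)) :
    mvu_u' K D i0 h0 (.g j (mvu_ur D i0 j k)) =
      ed K (NG D) (.f i0 j k) * star (mvu_T K D i0 h0 j) := by
  rw [mvu_u', mvu_ac_r]

theorem mvu_ul_ne (j : I) (r : Fin (D.a j)) (k : Fin (D.n i0 j)) :
    mvu_ul D i0 j r ≠ mvu_ur D i0 j k := by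
  intro h
  have := congrArg Fin.val h
  change (r : ℕ) = D.a j + k at this
  omega

theorem mvu_ul_inj (j : I) {r r' : Fin (D.a j)} (h : mvu_ul D i0 j r = mvu_ul D i0 j r') :
    r = r' := by
  have := congrArg Fin.val h
  exact Fin.ext this

theorem mvu_ur_inj (j : I) {k k' : Fin (D.n i0 j)}
    (h : mvu_ur D i0 j k = mvu_ur D i0 j k') : k = k' := by
  have := congrArg Fin.val h
  change D.a j + (k : ℕ) = D.a j + k' at this
  exact Fin.ext (by omega)

theorem mvu_TT (i : I) (x : U K (NG D)) :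
    star (mvu_T K D i0 h0 i) * (mvu_T K D i0 h0 i * x) = vx K (NG D) ⟨i, none⟩ * x := by
  rw [← mul_assoc, mvu_T1]

theorem mvu_Tv (i : I) (x : U K (NG D)) :
    mvu_T K D i0 h0 i * (vx K (NG D) ⟨i, none⟩ * x) = mvu_T K D i0 h0 i * x := by
  rw [← mul_assoc, mvu_T3]

theorem mvu_vz (i : I) (h : D.cyc i) (x : U K (NG D)) :
    vx K (NG D) ⟨i, none⟩ * (ed K (NG D) (.z i h) * x) = ed K (NG D) (.z i h) * x := by
  have h : vx K (NG D) ⟨i, none⟩ * ed K (NG D) (.z i h) = ed K (NG D) (.z i h) :=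
    vx_ed (K := K) (G := NG D) (.z i h)
  rw [← mul_assoc, h]

theorem mvu_vf (i : I) (j : I) (k : Fin (D.n i j)) :
    vx K (NG D) ⟨i, none⟩ * ed K (NG D) (.f i j k) = ed K (NG D) (.f i j k) :=
  vx_ed (K := K) (G := NG D) (.f i j k)

theorem mvu_vf' (i : I) (j : I) (k : Fin (D.n i j)) (x : U K (NG D)) :
    vx K (NG D) ⟨i, none⟩ * (ed K (NG D) (.f i j k) * x) = ed K (NG D) (.f i j k) * x := by
  rw [← mul_assoc, mvu_vf]

theorem mvu_fw (i : I) (j : I) (k : Fin (D.n i j)) :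
    ed K (NG D) (.f i j k) * vx K (NG D) ⟨j, none⟩ = ed K (NG D) (.f i j k) :=
  ed_vx (K := K) (G := NG D) (.f i j k)

theorem mvu_fw' (i : I) (j : I) (k : Fin (D.n i j)) (x : U K (NG D)) :
    ed K (NG D) (.f i j k) * (vx K (NG D) ⟨j, none⟩ * x) = ed K (NG D) (.f i j k) * x := by
  rw [← mul_assoc, mvu_fw]

theorem mvu_gv (i : I) (s : Fin (D.a i)) (x : U K (NG D)) :
    ed K (NG D) (.g i s) * (vx K (NG D) ⟨i, none⟩ * x) = ed K (NG D) (.g i s) * x := by
  have h : ed K (NG D) (.g i s) * vx K (NG D) ⟨i, none⟩ = ed K (NG D) (.g i s) :=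
    ed_vx (K := K) (G := NG D) (.g i s)
  rw [← mul_assoc, h]

theorem mvu_fsf (i : I) (j : I) (k : Fin (D.n i j)) :
    gh K (NG D) (.f i j k) * ed K (NG D) (.f i j k) = vx K (NG D) ⟨j, none⟩ :=
  gh_ed (K := K) (G := NG D) (.f i j k)

theorem mvu_fsf' (i : I) (j : I) (k : Fin (D.n i j)) (x : U K (NG D)) :
    gh K (NG D) (.f i j k) * (ed K (NG D) (.f i j k) * x) = vx K (NG D) ⟨j, none⟩ * x := by
  rw [← mul_assoc, mvu_fsf]

theorem mvu_gsg (i : I) (s : Fin (D.a i)) (x : U K (NG D)) :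
    gh K (NG D) (.g i s) * (ed K (NG D) (.g i s) * x) = vx K (NG D) ⟨i, none⟩ * x := by
  have h : gh K (NG D) (.g i s) * ed K (NG D) (.g i s) = vx K (NG D) ⟨i, none⟩ :=
    gh_ed (K := K) (G := NG D) (.g i s)
  rw [← mul_assoc, h]

theorem mvu_zsz (i : I) (h : D.cyc i) (x : U K (NG D)) :
    gh K (NG D) (.z i h) * (ed K (NG D) (.z i h) * x) = vx K (NG D) ⟨i, none⟩ * x := by
  have h : gh K (NG D) (.z i h) * ed K (NG D) (.z i h) = vx K (NG D) ⟨i, none⟩ :=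
    gh_ed (K := K) (G := NG D) (.z i h)
  rw [← mul_assoc, h]

theorem mvu_zv (i : I) (h : D.cyc i) (x : U K (NG D)) :
    ed K (NG D) (.z i h) * (vx K (NG D) ⟨i, none⟩ * x) = ed K (NG D) (.z i h) * x := by
  have h : ed K (NG D) (.z i h) * vx K (NG D) ⟨i, none⟩ = ed K (NG D) (.z i h) :=
    ed_vx (K := K) (G := NG D) (.z i h)
  rw [← mul_assoc, h]

/-- the old vertex over a new one -/
def mvu_rho : NV (D.unit i0) → NV D
  | ⟨i, none⟩ => ⟨i, none⟩
  | ⟨j, some r⟩ => mvu_ac D i0 j (fun r => ⟨j, some r⟩) (fun _ => ⟨i0, none⟩) r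

/-- the new vertex of an old one -/
def mvu_iota : NV D → NV (D.unit i0)
  | ⟨i, none⟩ => ⟨i, none⟩
  | ⟨j, some r⟩ => ⟨j, some (mvu_ul D i0 j r)⟩

theorem mvu_kind (v : NV (D.unit i0)) : v = mvu_iota D i0 (mvu_rho D i0 v) ∨
    ∃ j k, v = ⟨j, some (mvu_ur D i0 j k)⟩ := by
  rcases v with ⟨j, _ | r⟩
  · exact Or.inl rfl
  · refine mvu_cases D i0 (P := fun r => (⟨j, some r⟩ : NV (D.unit i0)) =
      mvu_iota D i0 (mvu_rho D i0 ⟨j, some r⟩) ∨
      ∃ j' k, (⟨j, some r⟩ : NV (D.unit i0)) = ⟨j', some (mvu_ur D i0 j' k)⟩) ?_ ?_ r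
    · intro r
      left
      rw [mvu_rho, mvu_ac_l]; rfl
    · intro k
      exact Or.inr ⟨j, k, rfl⟩

theorem mvu_rho_ur (j : I) (k : Fin (D.n i0 j)) :
    mvu_rho D i0 ⟨j, some (mvu_ur D i0 j k)⟩ = ⟨i0, none⟩ := by
  rw [mvu_rho, mvu_ac_r]

theorem mvu_supp (v : NV (D.unit i0)) :
    vx K (NG D) (mvu_rho D i0 v) * mvu_q' K D i0 h0 v = mvu_q' K D i0 h0 v ∧
    mvu_q' K D i0 h0 v * vx K (NG D) (mvu_rho D i0 v) = mvu_q' K D i0 h0 v := by
  rcases v with ⟨j, _ | r⟩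
  · constructor
    · change vx K (NG D) ⟨j, none⟩ * (_ * _) = _ * _
      rw [← mul_assoc, mvu_T2]
    · change (_ * _) * vx K (NG D) ⟨j, none⟩ = _ * _
      rw [mul_assoc, mvu_T2s]
  · refine mvu_cases D i0 (P := fun r => vx K (NG D) (mvu_rho D i0 ⟨j, some r⟩) *
      mvu_q' K D i0 h0 ⟨j, some r⟩ = mvu_q' K D i0 h0 ⟨j, some r⟩ ∧
      mvu_q' K D i0 h0 ⟨j, some r⟩ * vx K (NG D) (mvu_rho D i0 ⟨j, some r⟩) =
      mvu_q' K D i0 h0 ⟨j, some r⟩) ?_ ?_ r
    · intro r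
      rw [mvu_rho, mvu_ac_l, mvu_qul]
      exact ⟨vx_vx _, vx_vx _⟩
    · intro k
      rw [mvu_rho_ur, mvu_qur]
      refine ⟨?_, ?_⟩
      · rw [← mul_assoc, mvu_vf]
      · have h : gh K (NG D) (.f i0 j k) * vx K (NG D) ⟨i0, none⟩ = gh K (NG D) (.f i0 j k) :=
          gh_vx (K := K) (G := NG D) (.f i0 j k)
        rw [mul_assoc, h]

theorem mvu_vw (v w : NV (D.unit i0)) (hne : v ≠ w) :
    mvu_q' K D i0 h0 v * mvu_q' K D i0 h0 w = 0 := by
  by_cases h : mvu_rho D i0 v = mvu_rho D i0 w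
  · rcases mvu_kind D i0 v with hv | ⟨j, k, rfl⟩
    · rcases mvu_kind D i0 w with hw | ⟨j, k, rfl⟩
      · exact absurd (hv.trans ((congrArg _ h).trans hw.symm)) hne
      · rw [mvu_rho_ur] at h
        rw [h] at hv
        subst hv
        rw [mvu_qur]
        change mvu_T K D i0 h0 i0 * star (mvu_T K D i0 h0 i0) * _ = 0
        rw [mul_assoc, ← mul_assoc (star _), mvu_T4, zero_mul, mul_zero]
    · rcases mvu_kind D i0 w with hw | ⟨j', k', rfl⟩
      · rw [mvu_rho_ur] at h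
        rw [← h] at hw
        subst hw
        rw [mvu_qur]
        change _ * (mvu_T K D i0 h0 i0 * star (mvu_T K D i0 h0 i0)) = 0
        have h1 := congrArg star (mvu_T4 K D i0 h0 i0 j k)
        rw [star_mul, star_star, star_zero, star_ed] at h1
        rw [mul_assoc, ← mul_assoc (gh K (NG D) _), h1, zero_mul, mul_zero]
      · rw [mvu_qur, mvu_qur, mul_assoc, ← mul_assoc (gh K (NG D) _), gh_ed_of_ne, zero_mul,
          mul_zero]
        intro h2
        apply hne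
        simp only [NE.f.injEq, true_and] at h2
        obtain ⟨rfl, h3⟩ := h2
        rw [eq_of_heq h3]
  · rw [← (mvu_supp K D i0 h0 w).1, ← (mvu_supp K D i0 h0 v).2, mul_assoc,
      ← mul_assoc (vx K (NG D) _), vx_vx_of_ne h, zero_mul, mul_zero]

theorem mvu_star (v : NV (D.unit i0)) : star (mvu_q' K D i0 h0 v) = mvu_q' K D i0 h0 v := by
  rcases v with ⟨j, _ | r⟩
  · change star (_ * _) = _ * _
    rw [star_mul, star_star]
  · refine mvu_cases D i0 (P := fun r => star (mvu_q' K D i0 h0 ⟨j, some r⟩) =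
      mvu_q' K D i0 h0 ⟨j, some r⟩) ?_ ?_ r
    · intro r; rw [mvu_qul, star_vx]
    · intro k; rw [mvu_qur, star_mul, star_ed, star_gh]

end mvu_psi

section mvu_psi2

variable {I : Type a} [Fintype I] [DecidableEq I] (K : Type k) [Field K] [StarRing K] (D : Dat I)
  (i0 : I) (h0 : D.cyc i0)

theorem mvu_rep' (hok : ∀ i k, D.n i k ≠ 0 → D.cyc i) :
    IsRep K (NG (D.unit i0)) (mvu_q' K D i0 h0) (mvu_u' K D i0 h0)
    (fun e => star (mvu_u' K D i0 h0 e)) := by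
  refine mvu_rep hok (mvu_star K D i0 h0) ?_ (mvu_vw K D i0 h0) ?_ ?_ ?_ ?_ ?_ ?_ ?_
  · rintro ⟨j, _ | r⟩
    · change (_ * _) * (_ * _) = _ * _
      rw [mul_assoc, mvu_TT, mvu_T3s]
    · refine mvu_cases D i0 (P := fun r => mvu_q' K D i0 h0 ⟨j, some r⟩ *
        mvu_q' K D i0 h0 ⟨j, some r⟩ = mvu_q' K D i0 h0 ⟨j, some r⟩) ?_ ?_ r
      · intro r; rw [mvu_qul, vx_vx]
      · intro k
        rw [mvu_qur, mul_assoc, mvu_fsf', ← mul_assoc, mvu_fw]
  · rintro (⟨i, h⟩ | ⟨i, j, k⟩ | ⟨j, r⟩)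
    · change (mvu_T K D i0 h0 i * star (mvu_T K D i0 h0 i)) * (mvu_T K D i0 h0 i *
        ed K (NG D) (.z i h) * star (mvu_T K D i0 h0 i)) = mvu_T K D i0 h0 i *
        ed K (NG D) (.z i h) * star (mvu_T K D i0 h0 i)
      simp only [mul_assoc, mvu_TT, mvu_vz]
    · change (mvu_T K D i0 h0 i * star (mvu_T K D i0 h0 i)) * (mvu_T K D i0 h0 i *
        ed K (NG D) (.f i j k) * star (mvu_T K D i0 h0 j)) = mvu_T K D i0 h0 i *
        ed K (NG D) (.f i j k) * star (mvu_T K D i0 h0 j)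
      simp only [mul_assoc, mvu_TT, mvu_vf']
    · refine mvu_cases D i0 (P := fun r => mvu_q' K D i0 h0 ⟨j, some r⟩ *
        mvu_u' K D i0 h0 (.g j r) = mvu_u' K D i0 h0 (.g j r)) ?_ ?_ r
      · intro r
        rw [mvu_qul, mvu_uul, ← mul_assoc]
        have h : vx K (NG D) ⟨j, some r⟩ * ed K (NG D) (.g j r) = ed K (NG D) (.g j r) :=
          vx_ed (K := K) (G := NG D) (.g j r)
        rw [h]
      · intro k
        rw [mvu_qur, mvu_uur, mul_assoc, mvu_fsf', mvu_fw']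
  · rintro (⟨i, h⟩ | ⟨i, j, k⟩ | ⟨j, r⟩)
    · change (mvu_T K D i0 h0 i * ed K (NG D) (.z i h) * star (mvu_T K D i0 h0 i)) *
        (mvu_T K D i0 h0 i * star (mvu_T K D i0 h0 i)) = mvu_T K D i0 h0 i *
        ed K (NG D) (.z i h) * star (mvu_T K D i0 h0 i)
      simp only [mul_assoc, mvu_TT, mvu_zv]
    · change (mvu_T K D i0 h0 i * ed K (NG D) (.f i j k) * star (mvu_T K D i0 h0 j)) *
        (mvu_T K D i0 h0 j * star (mvu_T K D i0 h0 j)) =
        mvu_T K D i0 h0 i * ed K (NG D) (.f i j k) * star (mvu_T K D i0 h0 j)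
      simp only [mul_assoc, mvu_TT, mvu_fw']
    · refine mvu_cases D i0 (P := fun r => mvu_u' K D i0 h0 (.g j r) *
        (mvu_T K D i0 h0 j * star (mvu_T K D i0 h0 j)) = mvu_u' K D i0 h0 (.g j r)) ?_ ?_ r
      · intro r
        rw [mvu_uul]
        simp only [mul_assoc, mvu_TT, mvu_gv]
      · intro k
        rw [mvu_uur]
        simp only [mul_assoc, mvu_TT, mvu_fw']
  · rintro (⟨i, h⟩ | ⟨i, j, k⟩ | ⟨j, r⟩)
    · change star (mvu_T K D i0 h0 i * ed K (NG D) (.z i h) * star (mvu_T K D i0 h0 i)) *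
        (mvu_T K D i0 h0 i * ed K (NG D) (.z i h) * star (mvu_T K D i0 h0 i)) =
        mvu_T K D i0 h0 i * star (mvu_T K D i0 h0 i)
      simp only [star_mul, star_star, star_ed, mul_assoc, mvu_TT, mvu_vz, mvu_zsz,
        mvu_Tv]
    · change star (mvu_T K D i0 h0 i * ed K (NG D) (.f i j k) * star (mvu_T K D i0 h0 j)) *
        (mvu_T K D i0 h0 i * ed K (NG D) (.f i j k) * star (mvu_T K D i0 h0 j)) =
        mvu_T K D i0 h0 j * star (mvu_T K D i0 h0 j)
      simp only [star_mul, star_star, star_ed, mul_assoc, mvu_TT, mvu_vf', mvu_fsf', mvu_Tv]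
    · refine mvu_cases D i0 (P := fun r => star (mvu_u' K D i0 h0 (.g j r)) *
        mvu_u' K D i0 h0 (.g j r) = mvu_T K D i0 h0 j * star (mvu_T K D i0 h0 j)) ?_ ?_ r
      · intro r
        rw [mvu_uul]
        simp only [star_mul, star_star, star_ed, mul_assoc, mvu_gsg, mvu_Tv]
      · intro k
        rw [mvu_uur]
        simp only [star_mul, star_star, star_ed, mul_assoc, mvu_fsf', mvu_Tv]
  · intro i h p
    change star (mvu_T K D i0 h0 i * ed K (NG D) (.z i h) * star (mvu_T K D i0 h0 i)) *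
        (mvu_T K D i0 h0 i * ed K (NG D) (.f i p.1 p.2) * star (mvu_T K D i0 h0 p.1)) = 0
    have h : ∀ x, gh K (NG D) (.z i h) * (ed K (NG D) (.f i p.1 p.2) * x) = 0 := by
      intro x
      rw [← mul_assoc, gh_ed_of_ne (by simp), zero_mul]
    simp only [star_mul, star_star, star_ed, mul_assoc, mvu_TT, mvu_vf', h, mul_zero]
  · intro i p p' hne
    change star (mvu_T K D i0 h0 i * ed K (NG D) (.f i p.1 p.2) * star (mvu_T K D i0 h0 p.1)) *
        (mvu_T K D i0 h0 i * ed K (NG D) (.f i p'.1 p'.2) * star (mvu_T K D i0 h0 p'.1)) = 0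
    have h : ∀ x, gh K (NG D) (.f i p.1 p.2) * (ed K (NG D) (.f i p'.1 p'.2) * x) = 0 := by
      intro x
      rw [← mul_assoc, gh_ed_of_ne, zero_mul]
      intro h2
      apply hne
      simp only [NE.f.injEq, true_and] at h2
      exact Sigma.ext h2.1 h2.2
    simp only [star_mul, star_star, star_ed, mul_assoc, mvu_TT, mvu_vf', h, mul_zero]
  · intro i hc
    change mvu_T K D i0 h0 i * star (mvu_T K D i0 h0 i) =
      (mvu_T K D i0 h0 i * ed K (NG D) (.z i hc) * star (mvu_T K D i0 h0 i)) *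
      star (mvu_T K D i0 h0 i * ed K (NG D) (.z i hc) * star (mvu_T K D i0 h0 i)) +
      ∑ p : Σ j, Fin (D.n i j),
        (mvu_T K D i0 h0 i * ed K (NG D) (.f i p.1 p.2) * star (mvu_T K D i0 h0 p.1)) *
        star (mvu_T K D i0 h0 i * ed K (NG D) (.f i p.1 p.2) * star (mvu_T K D i0 h0 p.1))
    have h1 : ∀ p : Σ j, Fin (D.n i j),
        (mvu_T K D i0 h0 i * ed K (NG D) (.f i p.1 p.2) * star (mvu_T K D i0 h0 p.1)) *
        star (mvu_T K D i0 h0 i * ed K (NG D) (.f i p.1 p.2) * star (mvu_T K D i0 h0 p.1)) =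
        mvu_T K D i0 h0 i *
        (ed K (NG D) (.f i p.1 p.2) * gh K (NG D) (.f i p.1 p.2)) *
        star (mvu_T K D i0 h0 i) := by
      intro p
      simp only [star_mul, star_star, star_ed, mul_assoc, mvu_TT, mvu_fw']
    rw [Finset.sum_congr rfl fun p _ => h1 p, ← Finset.sum_mul, ← Finset.mul_sum]
    have h2 : (mvu_T K D i0 h0 i * ed K (NG D) (.z i hc) * star (mvu_T K D i0 h0 i)) *
      star (mvu_T K D i0 h0 i * ed K (NG D) (.z i hc) * star (mvu_T K D i0 h0 i)) =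
        mvu_T K D i0 h0 i * (ed K (NG D) (.z i hc) * gh K (NG D) (.z i hc)) *
        star (mvu_T K D i0 h0 i) := by
      simp only [star_mul, star_star, star_ed, mul_assoc, mvu_TT, mvu_zv]
    rw [h2, ← add_mul, ← mul_add, ← mvu_ck, mvu_T3]
  · intro j r
    refine mvu_cases D i0 (P := fun r => mvu_q' K D i0 h0 ⟨j, some r⟩ =
      mvu_u' K D i0 h0 (.g j r) * star (mvu_u' K D i0 h0 (.g j r))) ?_ ?_ r
    · intro r
      rw [mvu_qul, mvu_uul]
      simp only [star_mul, star_star, star_ed, mul_assoc, mvu_TT, mvu_gv]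
      exact mvu_ckg (K := K) (D := D) j r
    · intro k
      rw [mvu_qur, mvu_uur]
      simp only [star_mul, star_star, star_ed, mul_assoc, mvu_TT, mvu_fw']

end mvu_psi2

section mvu_phi

variable {I : Type a} [Fintype I] [DecidableEq I] (K : Type k) [Field K] [StarRing K] (D : Dat I)
  (i0 : I) (h0 : D.cyc i0)

/-- the sum of the new vertices -/
noncomputable def mvu_Q : U K (NG (D.unit i0)) :=
  ∑ p : Σ j, Fin (D.n i0 j), vx K (NG (D.unit i0)) ⟨p.1, some (mvu_ur D i0 p.1 p.2)⟩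

/-- the sum of the exits followed by the ghosts of the new links -/
noncomputable def mvu_W : U K (NG (D.unit i0)) :=
  ∑ p : Σ j, Fin (D.n i0 j), ed K (NG (D.unit i0)) (.f i0 p.1 p.2) *
    gh K (NG (D.unit i0)) (.g p.1 (mvu_ur D i0 p.1 p.2))

theorem mvu_ur_ne {p p' : Σ j, Fin (D.n i0 j)} (h : p ≠ p') :
    (⟨p.1, some (mvu_ur D i0 p.1 p.2)⟩ : NV (D.unit i0)) ≠
      ⟨p'.1, some (mvu_ur D i0 p'.1 p'.2)⟩ := by
  intro h1
  apply h
  obtain ⟨j, k⟩ := p
  obtain ⟨j', k'⟩ := p'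
  simp only [Sigma.mk.injEq] at h1
  obtain ⟨rfl, h2⟩ := h1
  have h3 := Option.some.inj (eq_of_heq h2)
  rw [mvu_ur_inj D i0 j h3]

theorem mvu_Qs : star (mvu_Q K D i0) = mvu_Q K D i0 := by
  rw [mvu_Q, star_sum]
  exact Finset.sum_congr rfl fun p _ => star_vx _

/-- vertices outside the new ones -/
theorem mvu_vQ {x : NV (D.unit i0)} (hx : ∀ j k, x ≠ ⟨j, some (mvu_ur D i0 j k)⟩) :
    vx K (NG (D.unit i0)) x * mvu_Q K D i0 = 0 := by
  rw [mvu_Q, Finset.mul_sum]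
  exact Finset.sum_eq_zero fun p _ => vx_vx_of_ne (hx p.1 p.2)

theorem mvu_Qv {x : NV (D.unit i0)} (hx : ∀ j k, x ≠ ⟨j, some (mvu_ur D i0 j k)⟩) :
    mvu_Q K D i0 * vx K (NG (D.unit i0)) x = 0 := by
  have := congrArg star (mvu_vQ K D i0 hx)
  rwa [star_mul, star_zero, star_vx, mvu_Qs] at this

theorem mvu_Qy (j : I) (k : Fin (D.n i0 j)) :
    mvu_Q K D i0 * vx K (NG (D.unit i0)) ⟨j, some (mvu_ur D i0 j k)⟩ =
      vx K (NG (D.unit i0)) ⟨j, some (mvu_ur D i0 j k)⟩ := by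
  rw [mvu_Q, Finset.sum_mul, Finset.sum_eq_single (⟨j, k⟩ : Σ j, Fin (D.n i0 j))]
  · exact vx_vx _
  · intro p _ hne
    exact vx_vx_of_ne (mvu_ur_ne D i0 hne)
  · intro h; exact absurd (Finset.mem_univ _) h

theorem mvu_QQ : mvu_Q K D i0 * mvu_Q K D i0 = mvu_Q K D i0 := by
  conv_lhs => rw [mvu_Q]
  conv_rhs => rw [mvu_Q]
  rw [Finset.sum_mul]
  refine Finset.sum_congr rfl fun p _ => ?_
  have := congrArg star (mvu_Qy K D i0 p.1 p.2)
  rw [star_mul, star_vx, mvu_Qs] at this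
  exact this

/-- the exit with the ghost of the link -/
theorem mvu_vW : vx K (NG (D.unit i0)) ⟨i0, none⟩ * mvu_W K D i0 = mvu_W K D i0 := by
  rw [mvu_W, Finset.mul_sum]
  refine Finset.sum_congr rfl fun p _ => ?_
  have h : vx K (NG (D.unit i0)) ⟨i0, none⟩ * ed K (NG (D.unit i0)) (.f i0 p.1 p.2) =
      ed K (NG (D.unit i0)) (.f i0 p.1 p.2) :=
    vx_ed (K := K) (G := NG (D.unit i0)) (.f i0 p.1 p.2)
  rw [← mul_assoc, h]

theorem mvu_Wy (j : I) (k : Fin (D.n i0 j)) :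
    mvu_W K D i0 * vx K (NG (D.unit i0)) ⟨j, some (mvu_ur D i0 j k)⟩ =
      ed K (NG (D.unit i0)) (.f i0 j k) *
        gh K (NG (D.unit i0)) (.g j (mvu_ur D i0 j k)) := by
  have hg : ∀ p : Σ j, Fin (D.n i0 j),
      gh K (NG (D.unit i0)) (.g p.1 (mvu_ur D i0 p.1 p.2)) *
        vx K (NG (D.unit i0)) ⟨p.1, some (mvu_ur D i0 p.1 p.2)⟩ =
        gh K (NG (D.unit i0)) (.g p.1 (mvu_ur D i0 p.1 p.2)) := fun p =>
    gh_vx (K := K) (G := NG (D.unit i0)) (.g p.1 (mvu_ur D i0 p.1 p.2))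
  rw [mvu_W, Finset.sum_mul, Finset.sum_eq_single (⟨j, k⟩ : Σ j, Fin (D.n i0 j))]
  · have := hg ⟨j, k⟩
    dsimp only at this ⊢
    rw [mul_assoc, this]
  · intro p _ hne
    rw [mul_assoc, ← hg p, mul_assoc, vx_vx_of_ne (mvu_ur_ne D i0 hne), mul_zero, mul_zero]
  · intro h; exact absurd (Finset.mem_univ _) h

theorem mvu_WQ : mvu_W K D i0 * mvu_Q K D i0 = mvu_W K D i0 := by
  conv_lhs => rw [mvu_Q]
  conv_rhs => rw [mvu_W]
  rw [Finset.mul_sum]
  exact Finset.sum_congr rfl fun p _ => mvu_Wy K D i0 p.1 p.2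

/-- the links -/
theorem mvu_Wh (j : I) (k : Fin (D.n i0 j)) :
    mvu_W K D i0 * ed K (NG (D.unit i0)) (.g j (mvu_ur D i0 j k)) =
      ed K (NG (D.unit i0)) (.f i0 j k) := by
  have h1 : vx K (NG (D.unit i0)) ⟨j, some (mvu_ur D i0 j k)⟩ *
      ed K (NG (D.unit i0)) (.g j (mvu_ur D i0 j k)) =
      ed K (NG (D.unit i0)) (.g j (mvu_ur D i0 j k)) :=
    vx_ed (K := K) (G := NG (D.unit i0)) (.g j (mvu_ur D i0 j k))
  have h2 : gh K (NG (D.unit i0)) (.g j (mvu_ur D i0 j k)) *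
      ed K (NG (D.unit i0)) (.g j (mvu_ur D i0 j k)) = vx K (NG (D.unit i0)) ⟨j, none⟩ :=
    gh_ed (K := K) (G := NG (D.unit i0)) (.g j (mvu_ur D i0 j k))
  have h3 : ed K (NG (D.unit i0)) (.f i0 j k) * vx K (NG (D.unit i0)) ⟨j, none⟩ =
      ed K (NG (D.unit i0)) (.f i0 j k) := ed_vx (K := K) (G := NG (D.unit i0)) (.f i0 j k)
  rw [← h1, ← mul_assoc, mvu_Wy, mul_assoc, h2, h3]

theorem mvu_Wstar : star (mvu_W K D i0) = ∑ p : Σ j, Fin (D.n i0 j),
      ed K (NG (D.unit i0)) (.g p.1 (mvu_ur D i0 p.1 p.2)) *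
        gh K (NG (D.unit i0)) (.f i0 p.1 p.2) := by
  rw [mvu_W, star_sum]
  refine Finset.sum_congr rfl fun p _ => ?_
  rw [star_mul, star_ed, star_gh]

theorem mvu_WsW : star (mvu_W K D i0) * mvu_W K D i0 = mvu_Q K D i0 := by
  have h1 : ∀ p : Σ j, Fin (D.n i0 j), gh K (NG (D.unit i0)) (.f i0 p.1 p.2) *
      mvu_W K D i0 = gh K (NG (D.unit i0)) (.g p.1 (mvu_ur D i0 p.1 p.2)) := by
    intro p
    rw [mvu_W, Finset.mul_sum, Finset.sum_eq_single p]
    · have h2 : gh K (NG (D.unit i0)) (.f i0 p.1 p.2) * ed K (NG (D.unit i0)) (.f i0 p.1 p.2) =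
        vx K (NG (D.unit i0)) ⟨p.1, none⟩ :=
        gh_ed (K := K) (G := NG (D.unit i0)) (.f i0 p.1 p.2)
      have h3 : vx K (NG (D.unit i0)) ⟨p.1, none⟩ *
        gh K (NG (D.unit i0)) (.g p.1 (mvu_ur D i0 p.1 p.2)) =
        gh K (NG (D.unit i0)) (.g p.1 (mvu_ur D i0 p.1 p.2)) :=
        vx_gh (K := K) (G := NG (D.unit i0)) (.g p.1 (mvu_ur D i0 p.1 p.2))
      rw [← mul_assoc, h2, h3]
    · intro p' _ hne
      rw [← mul_assoc, gh_ed_of_ne, zero_mul]
      intro h2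
      apply hne
      simp only [NE.f.injEq, true_and] at h2
      exact (Sigma.ext h2.1 h2.2).symm
    · intro h; exact absurd (Finset.mem_univ _) h
  rw [mvu_Wstar, Finset.sum_mul, mvu_Q]
  refine Finset.sum_congr rfl fun p _ => ?_
  rw [mul_assoc, h1, ← mvu_ckg (K := K) (D := D.unit i0) p.1 (mvu_ur D i0 p.1 p.2)]

theorem mvu_WWs : mvu_W K D i0 * star (mvu_W K D i0) =
    ∑ p : Σ j, Fin (D.n i0 j), ed K (NG (D.unit i0)) (.f i0 p.1 p.2) *
      gh K (NG (D.unit i0)) (.f i0 p.1 p.2) := by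
  rw [mvu_Wstar, Finset.mul_sum]
  refine Finset.sum_congr rfl fun p _ => ?_
  rw [← mul_assoc, mvu_Wh]

/-- the image of the loop, a local isometry from `mvu_Y` to the vertex -/
noncomputable def mvu_Z : U K (NG (D.unit i0)) :=
  ed K (NG (D.unit i0)) (.z i0 h0) + mvu_W K D i0

noncomputable def mvu_Y : U K (NG (D.unit i0)) :=
  vx K (NG (D.unit i0)) ⟨i0, none⟩ + mvu_Q K D i0

theorem mvu_vQ0 : vx K (NG (D.unit i0)) ⟨i0, none⟩ * mvu_Q K D i0 = 0 :=
  mvu_vQ K D i0 fun _ _ => mvu_ne _ _ _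

theorem mvu_Qv0 : mvu_Q K D i0 * vx K (NG (D.unit i0)) ⟨i0, none⟩ = 0 :=
  mvu_Qv K D i0 fun _ _ => mvu_ne _ _ _

theorem mvu_Ys : star (mvu_Y K D i0) = mvu_Y K D i0 := by
  rw [mvu_Y, star_add, star_vx, mvu_Qs]

theorem mvu_YY : mvu_Y K D i0 * mvu_Y K D i0 = mvu_Y K D i0 := by
  rw [mvu_Y, add_mul, mul_add, mul_add, vx_vx, mvu_QQ, mvu_vQ0, mvu_Qv0, add_zero,
    zero_add]

theorem mvu_vY : vx K (NG (D.unit i0)) ⟨i0, none⟩ * mvu_Y K D i0 =
    vx K (NG (D.unit i0)) ⟨i0, none⟩ := by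
  rw [mvu_Y, mul_add, vx_vx, mvu_vQ0, add_zero]

theorem mvu_Yx {x : NV (D.unit i0)} (h0 : x ≠ ⟨i0, none⟩)
    (hx : ∀ j k, x ≠ ⟨j, some (mvu_ur D i0 j k)⟩) :
    mvu_Y K D i0 * vx K (NG (D.unit i0)) x = 0 := by
  rw [mvu_Y, add_mul, mvu_Qv K D i0 hx, vx_vx_of_ne h0.symm, add_zero]

theorem mvu_xY {x : NV (D.unit i0)} (h0 : x ≠ ⟨i0, none⟩)
    (hx : ∀ j k, x ≠ ⟨j, some (mvu_ur D i0 j k)⟩) :
    vx K (NG (D.unit i0)) x * mvu_Y K D i0 = 0 := by
  have := congrArg star (mvu_Yx K D i0 h0 hx)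
  rwa [star_mul, star_zero, star_vx, mvu_Ys] at this

theorem mvu_zvx : ed K (NG (D.unit i0)) (.z i0 h0) * vx K (NG (D.unit i0)) ⟨i0, none⟩ =
      ed K (NG (D.unit i0)) (.z i0 h0) := ed_vx (K := K) (G := NG (D.unit i0)) (.z i0 h0)

theorem mvu_vZ : vx K (NG (D.unit i0)) ⟨i0, none⟩ * mvu_Z K D i0 h0 = mvu_Z K D i0 h0 := by
  have h : vx K (NG (D.unit i0)) ⟨i0, none⟩ * ed K (NG (D.unit i0)) (.z i0 h0) =
      ed K (NG (D.unit i0)) (.z i0 h0) := vx_ed (K := K) (G := NG (D.unit i0)) (.z i0 h0)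
  rw [mvu_Z, mul_add, h, mvu_vW]

theorem mvu_zQ : ed K (NG (D.unit i0)) (.z i0 h0) * mvu_Q K D i0 = 0 := by
  rw [← mvu_zvx, mul_assoc, mvu_vQ0, mul_zero]

theorem mvu_Wv : mvu_W K D i0 * vx K (NG (D.unit i0)) ⟨i0, none⟩ = 0 := by
  rw [← mvu_WQ, mul_assoc, mvu_Qv0, mul_zero]

theorem mvu_ZY : mvu_Z K D i0 h0 * mvu_Y K D i0 = mvu_Z K D i0 h0 := by
  rw [mvu_Z, mvu_Y, add_mul, mul_add, mul_add, mvu_zvx, mvu_zQ, mvu_Wv, mvu_WQ, add_zero,
    zero_add]

theorem mvu_Zv : mvu_Z K D i0 h0 * vx K (NG (D.unit i0)) ⟨i0, none⟩ =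
    ed K (NG (D.unit i0)) (.z i0 h0) := by
  rw [mvu_Z, add_mul, mvu_zvx, mvu_Wv, add_zero]

theorem mvu_zsW : gh K (NG (D.unit i0)) (.z i0 h0) * mvu_W K D i0 = 0 := by
  rw [mvu_W, Finset.mul_sum]
  refine Finset.sum_eq_zero fun p _ => ?_
  rw [← mul_assoc, gh_ed_of_ne (by simp), zero_mul]

theorem mvu_ZsZ : star (mvu_Z K D i0 h0) * mvu_Z K D i0 h0 = mvu_Y K D i0 := by
  have h1 := congrArg star (mvu_zsW K D i0 h0)
  rw [star_mul, star_zero, star_gh] at h1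
  have h2 : gh K (NG (D.unit i0)) (.z i0 h0) * ed K (NG (D.unit i0)) (.z i0 h0) =
      vx K (NG (D.unit i0)) ⟨i0, none⟩ := gh_ed (K := K) (G := NG (D.unit i0)) (.z i0 h0)
  rw [mvu_Z, star_add, add_mul, mul_add, mul_add, star_ed, h2, mvu_zsW, h1, mvu_WsW,
    mvu_Y, add_zero, zero_add]

theorem mvu_ZZs : mvu_Z K D i0 h0 * star (mvu_Z K D i0 h0) =
    vx K (NG (D.unit i0)) ⟨i0, none⟩ := by
  have h2 : ed K (NG (D.unit i0)) (.z i0 h0) * star (mvu_W K D i0) = 0 := by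
    have h1 := congrArg star (mvu_WQ K D i0)
    rw [star_mul, mvu_Qs] at h1
    rw [← h1, ← mul_assoc, mvu_zQ, zero_mul]
  have h1 := congrArg star h2
  rw [star_mul, star_star, star_zero, star_ed] at h1
  rw [mvu_Z, star_add, add_mul, mul_add, mul_add, h2, star_ed, h1, mvu_WWs, add_zero,
    zero_add]
  exact (mvu_ck (K := K) (D := D.unit i0) i0 h0).symm

theorem mvu_yne (i j : I) (r : Fin ((D.unit i0).a j)) :
    vx K (NG (D.unit i0)) ⟨i, none⟩ * ed K (NG (D.unit i0)) (.g j r) = 0 := by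
  have h1 : vx K (NG (D.unit i0)) ⟨j, some r⟩ * ed K (NG (D.unit i0)) (.g j r) =
      ed K (NG (D.unit i0)) (.g j r) :=
    vx_ed (K := K) (G := NG (D.unit i0)) (.g j r)
  rw [← h1, ← mul_assoc, vx_vx_of_ne (mvu_ne _ _ _), zero_mul]

theorem mvu_Zh (j : I) (k : Fin (D.n i0 j)) :
    mvu_Z K D i0 h0 * ed K (NG (D.unit i0)) (.g j (mvu_ur D i0 j k)) =
      ed K (NG (D.unit i0)) (.f i0 j k) := by
  have h2 : ed K (NG (D.unit i0)) (.z i0 h0) *
      ed K (NG (D.unit i0)) (.g j (mvu_ur D i0 j k)) = 0 := by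
    rw [← mvu_zvx, mul_assoc, mvu_yne, mul_zero]
  rw [mvu_Z, add_mul, h2, mvu_Wh, zero_add]

theorem mvu_Qh (j : I) (k : Fin (D.n i0 j)) :
    mvu_Q K D i0 * ed K (NG (D.unit i0)) (.g j (mvu_ur D i0 j k)) =
      ed K (NG (D.unit i0)) (.g j (mvu_ur D i0 j k)) := by
  have h1 : vx K (NG (D.unit i0)) ⟨j, some (mvu_ur D i0 j k)⟩ *
      ed K (NG (D.unit i0)) (.g j (mvu_ur D i0 j k)) =
      ed K (NG (D.unit i0)) (.g j (mvu_ur D i0 j k)) :=
    vx_ed (K := K) (G := NG (D.unit i0)) (.g j (mvu_ur D i0 j k))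
  rw [← h1, ← mul_assoc, mvu_Qy]

theorem mvu_Yh (j : I) (k : Fin (D.n i0 j)) :
    mvu_Y K D i0 * ed K (NG (D.unit i0)) (.g j (mvu_ur D i0 j k)) =
      ed K (NG (D.unit i0)) (.g j (mvu_ur D i0 j k)) := by
  rw [mvu_Y, add_mul, mvu_yne, mvu_Qh, zero_add]

/-- the isometry onto the image of the loop vertex -/
noncomputable def mvu_X (i : I) : U K (NG (D.unit i0)) :=
  if i = i0 then mvu_Z K D i0 h0 else vx K (NG (D.unit i0)) ⟨i, none⟩

noncomputable def mvu_q : NV D → U K (NG (D.unit i0))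
  | ⟨i, none⟩ => if i = i0 then mvu_Y K D i0 else vx K (NG (D.unit i0)) ⟨i, none⟩
  | ⟨i, some s⟩ => vx K (NG (D.unit i0)) ⟨i, some (mvu_ul D i0 i s)⟩

noncomputable def mvu_A (i j : I) (m : Fin (D.n i j)) : U K (NG (D.unit i0)) :=
  if h : i = i0 then ed K (NG (D.unit i0)) (.g j (mvu_ur D i0 j (h ▸ m)))
      else ed K (NG (D.unit i0)) (.f i j m)

noncomputable def mvu_u : NE D → U K (NG (D.unit i0))
  | .z i h => if i = i0 then mvu_Z K D i0 h0 else ed K (NG (D.unit i0)) (.z i h)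
  | .f i j k => mvu_A K D i0 i j k * mvu_X K D i0 h0 j
  | .g i s => ed K (NG (D.unit i0)) (.g i (mvu_ul D i0 i s)) * mvu_X K D i0 h0 i

theorem mvu_qv0 : mvu_q K D i0 ⟨i0, none⟩ = mvu_Y K D i0 := by
  rw [mvu_q, if_pos rfl]

theorem mvu_qv {i : I} (h : i ≠ i0) : mvu_q K D i0 ⟨i, none⟩ =
    vx K (NG (D.unit i0)) ⟨i, none⟩ := by
  rw [mvu_q, if_neg h]

theorem mvu_uz0 : mvu_u K D i0 h0 (.z i0 h0) = mvu_Z K D i0 h0 := by
  rw [mvu_u, if_pos rfl]

theorem mvu_uz {i : I} (hc : D.cyc i) (h : i ≠ i0) : mvu_u K D i0 h0 (.z i hc) =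
    ed K (NG (D.unit i0)) (.z i hc) := by
  rw [mvu_u, if_neg h]

theorem mvu_A0 (j : I) (k : Fin (D.n i0 j)) : mvu_A K D i0 i0 j k =
    ed K (NG (D.unit i0)) (.g j (mvu_ur D i0 j k)) := by
  rw [mvu_A, dif_pos rfl]

theorem mvu_A1 {i : I} (h : i ≠ i0) (j : I) (k : Fin (D.n i j)) :
    mvu_A K D i0 i j k = ed K (NG (D.unit i0)) (.f i j k) := by
  rw [mvu_A, dif_neg h]

theorem mvu_Av (i j : I) (k : Fin (D.n i j)) :
    mvu_A K D i0 i j k * vx K (NG (D.unit i0)) ⟨j, none⟩ = mvu_A K D i0 i j k := by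
  by_cases h : i = i0
  · subst h
    rw [mvu_A0]
    exact ed_vx (K := K) (G := NG (D.unit i)) (.g j (mvu_ur D i j k))
  · rw [mvu_A1 K D i0 h]
    exact ed_vx (K := K) (G := NG (D.unit i0)) (.f i j k)

theorem mvu_AsA (i j : I) (k : Fin (D.n i j)) :
    star (mvu_A K D i0 i j k) * mvu_A K D i0 i j k = vx K (NG (D.unit i0)) ⟨j, none⟩ := by
  by_cases h : i = i0
  · subst h
    rw [mvu_A0, star_ed]
    exact gh_ed (K := K) (G := NG (D.unit i)) (.g j (mvu_ur D i j k))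
  · rw [mvu_A1 K D i0 h, star_ed]
    exact gh_ed (K := K) (G := NG (D.unit i0)) (.f i j k)

theorem mvu_qA (i j : I) (k : Fin (D.n i j)) :
    mvu_q K D i0 ⟨i, none⟩ * mvu_A K D i0 i j k = mvu_A K D i0 i j k := by
  by_cases h : i = i0
  · subst h
    rw [mvu_A0, mvu_qv0, mvu_Yh]
  · rw [mvu_A1 K D i0 h, mvu_qv K D i0 h]
    exact vx_ed (K := K) (G := NG (D.unit i0)) (.f i j k)

theorem mvu_AA (i : I) (p p' : Σ j, Fin (D.n i j)) (hne : p ≠ p') :
    star (mvu_A K D i0 i p.1 p.2) * mvu_A K D i0 i p'.1 p'.2 = 0 := by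
  by_cases h : i = i0
  · subst h
    rw [mvu_A0, mvu_A0, star_ed]
    refine gh_ed_of_ne ?_
    intro h2
    apply hne
    obtain ⟨j, k⟩ := p
    obtain ⟨j', k'⟩ := p'
    simp only [NE.g.injEq] at h2
    obtain ⟨rfl, h3⟩ := h2
    rw [mvu_ur_inj D i j (eq_of_heq h3)]
  · rw [mvu_A1 K D i0 h, mvu_A1 K D i0 h, star_ed]
    refine gh_ed_of_ne ?_
    intro h2
    apply hne
    simp only [NE.f.injEq, true_and] at h2
    exact Sigma.ext h2.1 h2.2

theorem mvu_zA (i : I) (hc : D.cyc i) (p : Σ j, Fin (D.n i j)) :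
    star (mvu_u K D i0 h0 (.z i hc)) * mvu_A K D i0 i p.1 p.2 = 0 := by
  by_cases h : i = i0
  · subst h
    rw [mvu_uz0, mvu_A0]
    have h2 := congrArg star (mvu_vZ K D i hc)
    rw [star_mul, star_vx] at h2
    rw [← h2, mul_assoc, mvu_yne, mul_zero]
  · rw [mvu_uz K D i0 h0 hc h, mvu_A1 K D i0 h, star_ed]
    exact gh_ed_of_ne (by simp)

theorem mvu_XX (i : I) : mvu_X K D i0 h0 i * star (mvu_X K D i0 h0 i) =
    vx K (NG (D.unit i0)) ⟨i, none⟩ := by
  unfold mvu_X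
  split_ifs with h
  · subst h; exact mvu_ZZs K D i h0
  · rw [star_vx, vx_vx]

theorem mvu_XsX (i : I) : star (mvu_X K D i0 h0 i) * mvu_X K D i0 h0 i =
    mvu_q K D i0 ⟨i, none⟩ := by
  unfold mvu_X
  split_ifs with h
  · subst h; rw [mvu_qv0]; exact mvu_ZsZ K D i h0
  · rw [star_vx, vx_vx, mvu_qv K D i0 h]

theorem mvu_vX (i : I) : vx K (NG (D.unit i0)) ⟨i, none⟩ * mvu_X K D i0 h0 i =
    mvu_X K D i0 h0 i := by
  unfold mvu_X
  split_ifs with h
  · subst h; exact mvu_vZ K D i h0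
  · rw [vx_vx]

theorem mvu_Xq (i : I) : mvu_X K D i0 h0 i * mvu_q K D i0 ⟨i, none⟩ =
    mvu_X K D i0 h0 i := by
  unfold mvu_X
  split_ifs with h
  · subst h; rw [mvu_qv0]; exact mvu_ZY K D i h0
  · rw [mvu_qv K D i0 h, vx_vx]

theorem mvu_iota_inj : Function.Injective (mvu_iota D i0) := by
  rintro ⟨j, _ | r⟩ ⟨j', _ | r'⟩ h
  · simp only [mvu_iota, Sigma.mk.injEq] at h
    obtain ⟨rfl, -⟩ := h
    rfl
  · exact absurd h (mvu_ne _ _ _)
  · exact absurd h.symm (mvu_ne _ _ _)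
  · simp only [mvu_iota, Sigma.mk.injEq] at h
    obtain ⟨rfl, h2⟩ := h
    rw [mvu_ul_inj D i0 j (Option.some.inj (eq_of_heq h2))]

theorem mvu_iota_ur (v : NV D) (j : I) (k : Fin (D.n i0 j)) :
    mvu_iota D i0 v ≠ ⟨j, some (mvu_ur D i0 j k)⟩ := by
  rcases v with ⟨j', _ | r⟩
  · exact mvu_ne _ _ _
  · intro h
    simp only [mvu_iota, Sigma.mk.injEq] at h
    obtain ⟨rfl, h2⟩ := h
    exact mvu_ul_ne D i0 j' r k (Option.some.inj (eq_of_heq h2))

theorem mvu_q_iota {v : NV D} (h : v ≠ ⟨i0, none⟩) :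
    mvu_q K D i0 v = vx K (NG (D.unit i0)) (mvu_iota D i0 v) := by
  rcases v with ⟨j, _ | r⟩
  · have hj : j ≠ i0 := by
      rintro rfl
      exact h rfl
    rw [mvu_qv K D i0 hj]
    rfl
  · rfl

theorem mvu_qstar (v : NV D) : star (mvu_q K D i0 v) = mvu_q K D i0 v := by
  by_cases h : v = ⟨i0, none⟩
  · rw [h, mvu_qv0, mvu_Ys]
  · rw [mvu_q_iota K D i0 h, star_vx]

theorem mvu_qq (v : NV D) : mvu_q K D i0 v * mvu_q K D i0 v = mvu_q K D i0 v := by
  by_cases h : v = ⟨i0, none⟩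
  · rw [h, mvu_qv0, mvu_YY]
  · rw [mvu_q_iota K D i0 h, vx_vx]

theorem mvu_qw (v w : NV D) (hne : v ≠ w) : mvu_q K D i0 v * mvu_q K D i0 w = 0 := by
  by_cases h : v = ⟨i0, none⟩
  · subst h
    rw [mvu_qv0, mvu_q_iota K D i0 hne.symm]
    exact mvu_Yx K D i0 (fun h => hne (mvu_iota_inj D i0 (a₁ := ⟨i0, none⟩) h.symm))
      (mvu_iota_ur D i0 w)
  · by_cases h' : w = ⟨i0, none⟩
    · subst h'
      rw [mvu_qv0, mvu_q_iota K D i0 h]
      exact mvu_xY K D i0 (fun h => hne (mvu_iota_inj D i0 (a₂ := ⟨i0, none⟩) h))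
        (mvu_iota_ur D i0 v)
    · rw [mvu_q_iota K D i0 h, mvu_q_iota K D i0 h']
      exact vx_vx_of_ne fun h => hne (mvu_iota_inj D i0 h)

theorem mvu_AAs (i : I) (p : Σ j, Fin (D.n i j)) :
    (mvu_A K D i0 i p.1 p.2 * mvu_X K D i0 h0 p.1) *
      star (mvu_A K D i0 i p.1 p.2 * mvu_X K D i0 h0 p.1) =
      mvu_A K D i0 i p.1 p.2 * star (mvu_A K D i0 i p.1 p.2) := by
  rw [star_mul, mul_assoc, ← mul_assoc (mvu_X K D i0 h0 p.1), mvu_XX, ← mul_assoc, mvu_Av]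

theorem mvu_rp (hok : ∀ i k, D.n i k ≠ 0 → D.cyc i) :
    IsRep K (NG D) (mvu_q K D i0) (mvu_u K D i0 h0)
    (fun e => star (mvu_u K D i0 h0 e)) := by
  refine mvu_rep hok (mvu_qstar K D i0) (mvu_qq K D i0) (mvu_qw K D i0) ?_ ?_ ?_ ?_ ?_ ?_ ?_
  · rintro (⟨i, hc⟩ | ⟨i, j, k⟩ | ⟨i, s⟩)
    · change mvu_q K D i0 ⟨i, none⟩ * mvu_u K D i0 h0 (.z i hc) = mvu_u K D i0 h0 (.z i hc)
      by_cases h : i = i0
      · subst h
        rw [mvu_qv0, mvu_uz0, ← mvu_vZ, ← mul_assoc]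
        have h1 := congrArg star (mvu_vY K D i)
        rw [star_mul, star_vx, mvu_Ys] at h1
        rw [h1]
      · rw [mvu_qv K D i0 h, mvu_uz K D i0 h0 hc h]
        exact vx_ed (K := K) (G := NG (D.unit i0)) (.z i hc)
    · change mvu_q K D i0 ⟨i, none⟩ * (mvu_A K D i0 i j k * mvu_X K D i0 h0 j) =
        mvu_A K D i0 i j k * mvu_X K D i0 h0 j
      rw [← mul_assoc, mvu_qA]
    · change vx K (NG (D.unit i0)) ⟨i, some (mvu_ul D i0 i s)⟩ *
        (ed K (NG (D.unit i0)) (.g i (mvu_ul D i0 i s)) * mvu_X K D i0 h0 i) = _ * _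
      have h : vx K (NG (D.unit i0)) ⟨i, some (mvu_ul D i0 i s)⟩ *
        ed K (NG (D.unit i0)) (.g i (mvu_ul D i0 i s)) =
        ed K (NG (D.unit i0)) (.g i (mvu_ul D i0 i s)) :=
        vx_ed (K := K) (G := NG (D.unit i0)) (.g i (mvu_ul D i0 i s))
      rw [← mul_assoc, h]
  · rintro (⟨i, hc⟩ | ⟨i, j, k⟩ | ⟨i, s⟩)
    · change mvu_u K D i0 h0 (.z i hc) * mvu_q K D i0 ⟨i, none⟩ = mvu_u K D i0 h0 (.z i hc)
      by_cases h : i = i0
      · subst h
        rw [mvu_qv0, mvu_uz0, mvu_ZY]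
      · rw [mvu_qv K D i0 h, mvu_uz K D i0 h0 hc h]
        exact ed_vx (K := K) (G := NG (D.unit i0)) (.z i hc)
    · change (mvu_A K D i0 i j k * mvu_X K D i0 h0 j) * mvu_q K D i0 ⟨j, none⟩ = _ * _
      rw [mul_assoc, mvu_Xq]
    · change (ed K (NG (D.unit i0)) (.g i (mvu_ul D i0 i s)) * mvu_X K D i0 h0 i) *
        mvu_q K D i0 ⟨i, none⟩ = _ * _
      rw [mul_assoc, mvu_Xq]
  · rintro (⟨i, hc⟩ | ⟨i, j, k⟩ | ⟨i, s⟩)
    · change star (mvu_u K D i0 h0 (.z i hc)) * mvu_u K D i0 h0 (.z i hc) =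
        mvu_q K D i0 ⟨i, none⟩
      by_cases h : i = i0
      · subst h
        rw [mvu_qv0, mvu_uz0, mvu_ZsZ]
      · rw [mvu_qv K D i0 h, mvu_uz K D i0 h0 hc h, star_ed]
        exact gh_ed (K := K) (G := NG (D.unit i0)) (.z i hc)
    · change star (mvu_A K D i0 i j k * mvu_X K D i0 h0 j) *
        (mvu_A K D i0 i j k * mvu_X K D i0 h0 j) = mvu_q K D i0 ⟨j, none⟩
      rw [star_mul, mul_assoc, ← mul_assoc (star (mvu_A K D i0 i j k)), mvu_AsA, mvu_vX, mvu_XsX]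
    · change star (ed K (NG (D.unit i0)) (.g i (mvu_ul D i0 i s)) * mvu_X K D i0 h0 i) *
        (ed K (NG (D.unit i0)) (.g i (mvu_ul D i0 i s)) * mvu_X K D i0 h0 i) =
        mvu_q K D i0 ⟨i, none⟩
      have h : gh K (NG (D.unit i0)) (.g i (mvu_ul D i0 i s)) *
        ed K (NG (D.unit i0)) (.g i (mvu_ul D i0 i s)) =
        vx K (NG (D.unit i0)) ⟨i, none⟩ :=
        gh_ed (K := K) (G := NG (D.unit i0)) (.g i (mvu_ul D i0 i s))
      rw [star_mul, star_ed, mul_assoc, ← mul_assoc (gh K (NG (D.unit i0)) _), h, mvu_vX,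
        mvu_XsX]
  · intro i hc p
    change star (mvu_u K D i0 h0 (.z i hc)) *
      (mvu_A K D i0 i p.1 p.2 * mvu_X K D i0 h0 p.1) = 0
    rw [← mul_assoc, mvu_zA, zero_mul]
  · intro i p p' hne
    change star (mvu_A K D i0 i p.1 p.2 * mvu_X K D i0 h0 p.1) *
      (mvu_A K D i0 i p'.1 p'.2 * mvu_X K D i0 h0 p'.1) = 0
    rw [star_mul, mul_assoc, ← mul_assoc (star (mvu_A K D i0 i p.1 p.2)),
      mvu_AA K D i0 i p p' hne, zero_mul, mul_zero]
  · intro i hc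
    have h1 : ∑ p : Σ j, Fin (D.n i j), mvu_u K D i0 h0 (.f i p.1 p.2) *
        star (mvu_u K D i0 h0 (.f i p.1 p.2)) =
        ∑ p : Σ j, Fin (D.n i j), mvu_A K D i0 i p.1 p.2 * star (mvu_A K D i0 i p.1 p.2) :=
      Finset.sum_congr rfl fun p _ => mvu_AAs K D i0 h0 i p
    rw [h1]
    by_cases h : i = i0
    · subst h
      rw [mvu_qv0, mvu_uz0, mvu_ZZs, mvu_Y, mvu_Q]
      congr 1
      refine Finset.sum_congr rfl fun p _ => ?_
      rw [mvu_A0, star_ed]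
      exact mvu_ckg (K := K) (D := D.unit i) p.1 (mvu_ur D i p.1 p.2)
    · rw [mvu_qv K D i0 h, mvu_uz K D i0 h0 hc h, star_ed,
        mvu_ck (K := K) (D := D.unit i0) i hc]
      congr 1
      refine Finset.sum_congr rfl fun p _ => ?_
      rw [mvu_A1 K D i0 h, star_ed]
  · intro i s
    change vx K (NG (D.unit i0)) ⟨i, some (mvu_ul D i0 i s)⟩ =
      (ed K (NG (D.unit i0)) (.g i (mvu_ul D i0 i s)) * mvu_X K D i0 h0 i) *
      star (ed K (NG (D.unit i0)) (.g i (mvu_ul D i0 i s)) * mvu_X K D i0 h0 i)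
    have h : ed K (NG (D.unit i0)) (.g i (mvu_ul D i0 i s)) *
        vx K (NG (D.unit i0)) ⟨i, none⟩ =
        ed K (NG (D.unit i0)) (.g i (mvu_ul D i0 i s)) :=
      ed_vx (K := K) (G := NG (D.unit i0)) (.g i (mvu_ul D i0 i s))
    rw [star_mul, mul_assoc, ← mul_assoc (mvu_X K D i0 h0 i), mvu_XX, ← mul_assoc, h, star_ed]
    exact mvu_ckg (K := K) (D := D.unit i0) i (mvu_ul D i0 i s)

end mvu_phi

section mvu_comp

variable {I : Type a} [Fintype I] [DecidableEq I] (K : Type k) [Field K] [StarRing K] (D : Dat I)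
  (i0 : I) (h0 : D.cyc i0) (hok : ∀ i k, D.n i k ≠ 0 → D.cyc i)

theorem mvu_T_mem (i : I) : mvu_T K D i0 h0 i ∈ L K (NG D) := by
  unfold mvu_T
  split_ifs
  · exact ed_mem _
  · exact vx_mem _

theorem mvu_Q_mem : mvu_Q K D i0 ∈ L K (NG (D.unit i0)) :=
  (L K _).sum_mem fun _ _ => vx_mem _

theorem mvu_Z_mem : mvu_Z K D i0 h0 ∈ L K (NG (D.unit i0)) :=
  (L K _).add_mem (ed_mem _) ((L K _).sum_mem fun _ _ => (L K _).mul_mem (ed_mem _) (gh_mem _))

theorem mvu_X_mem (i : I) : mvu_X K D i0 h0 i ∈ L K (NG (D.unit i0)) := by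
  unfold mvu_X
  split_ifs
  · exact mvu_Z_mem K D i0 h0
  · exact vx_mem _

theorem mvu_A_mem (i j : I) (k : Fin (D.n i j)) :
    mvu_A K D i0 i j k ∈ L K (NG (D.unit i0)) := by
  unfold mvu_A
  split_ifs
  · exact ed_mem _
  · exact ed_mem _

theorem mvu_l1 : lift (mvu_rep' K D i0 h0 hok) (mvu_Q K D i0) =
    ∑ p : Σ j, Fin (D.n i0 j), ed K (NG D) (.f i0 p.1 p.2) * gh K (NG D) (.f i0 p.1 p.2) := by
  rw [mvu_Q, map_sum]
  refine Finset.sum_congr rfl fun p _ => ?_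
  rw [lift_vx, mvu_qur]

theorem mvu_l2 : lift (mvu_rep' K D i0 h0 hok) (mvu_Y K D i0) =
    vx K (NG D) ⟨i0, none⟩ := by
  rw [mvu_Y, map_add, lift_vx, mvu_l1 K D _ _ hok]
  change mvu_T K D i0 h0 i0 * star (mvu_T K D i0 h0 i0) + _ = _
  rw [mvu_T, if_pos rfl, star_ed]
  exact (mvu_ck i0 h0).symm

theorem mvu_l3 : lift (mvu_rep' K D i0 h0 hok) (mvu_W K D i0) =
    ed K (NG D) (.z i0 h0) * ∑ p : Σ j, Fin (D.n i0 j),
      ed K (NG D) (.f i0 p.1 p.2) * gh K (NG D) (.f i0 p.1 p.2) := by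
  rw [mvu_W, map_sum, Finset.mul_sum]
  refine Finset.sum_congr rfl fun p _ => ?_
  rw [map_mul, lift_ed, lift_gh, mvu_uur, star_mul, star_star, star_ed]
  change mvu_T K D i0 h0 i0 * ed K (NG D) (.f i0 p.1 p.2) * star (mvu_T K D i0 h0 p.1) * _ = _
  simp only [mul_assoc, mvu_TT, mvu_fw']
  rw [mvu_T, if_pos rfl]

theorem mvu_l4 : lift (mvu_rep' K D i0 h0 hok) (mvu_Z K D i0 h0) =
    ed K (NG D) (.z i0 h0) := by
  rw [mvu_Z, map_add, lift_ed, mvu_l3 K D _ _ hok]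
  change mvu_T K D i0 h0 i0 * ed K (NG D) (.z i0 h0) * star (mvu_T K D i0 h0 i0) + _ = _
  rw [mvu_T, if_pos rfl, star_ed, mul_assoc, ← mul_add, ← mvu_ck]
  exact ed_vx (K := K) (G := NG D) (.z i0 h0)

theorem mvu_l5 (i : I) : lift (mvu_rep' K D i0 h0 hok) (mvu_X K D i0 h0 i) =
    mvu_T K D i0 h0 i := by
  unfold mvu_X
  split_ifs with h
  · subst h
    rw [mvu_l4 K D _ _ hok, mvu_T, if_pos rfl]
  · rw [lift_vx]
    change mvu_T K D i0 h0 i * star (mvu_T K D i0 h0 i) = _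
    rw [mvu_T, if_neg h, star_vx, vx_vx]

theorem mvu_l6 (i : I) : lift (mvu_rp K D i0 h0 hok) (mvu_T K D i0 h0 i) =
    mvu_X K D i0 h0 i := by
  unfold mvu_T
  split_ifs with h
  · subst h
    rw [lift_ed, mvu_uz0, mvu_X, if_pos rfl]
  · rw [lift_vx, mvu_qv K D i0 h, mvu_X, if_neg h]

theorem mvu_l7 (i : I) : lift (mvu_rp K D i0 h0 hok) (star (mvu_T K D i0 h0 i)) =
    star (mvu_X K D i0 h0 i) := by
  rw [lift_star (mvu_rp K D i0 h0 hok) (mvu_qstar K D i0), mvu_l6 K D _ _ hok]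

end mvu_comp

variable {I : Type a} [Fintype I] [DecidableEq I] (K : Type k) [Field K] [StarRing K]

theorem move_unit (D : Dat I) (hD : D.Ok) (i : I) (hi : D.cyc i) : Iso K D (D.unit i) := by
  have hok := hD.hc
  have hT : ∀ i', mvu_T K D i hi i' ∈ L K (NG D) := fun i' => mvu_T_mem K D i hi i'
  refine mkEquiv (mvu_rp K D i hi hok) (mvu_rep' K D i hi hok) ?_ ?_ ?_ ?_ ?_ ?_ ?_ ?_
    (mvu_qstar K D i) (mvu_star K D i hi)
  · intro v
    by_cases h : v = ⟨i, none⟩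
    · rw [h, mvu_qv0]
      exact (L K _).add_mem (vx_mem _) (mvu_Q_mem K D i)
    · rw [mvu_q_iota K D i h]
      exact vx_mem _
  · rintro (⟨i', hc⟩ | ⟨i', j, k⟩ | ⟨i', s⟩)
    · by_cases h : i' = i
      · subst h; rw [mvu_uz0]; exact mvu_Z_mem K D i' hi
      · rw [mvu_uz K D i hi hc h]; exact ed_mem _
    · exact (L K _).mul_mem (mvu_A_mem K D i i' j k) (mvu_X_mem K D i hi j)
    · exact (L K _).mul_mem (ed_mem _) (mvu_X_mem K D i hi i')
  · rintro ⟨j, _ | r⟩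
    · exact (L K _).mul_mem (hT j) (star_mem_L (hT j))
    · refine mvu_cases D i (P := fun r => mvu_q' K D i hi ⟨j, some r⟩ ∈ L K (NG D)) ?_ ?_ r
      · intro r; rw [mvu_qul]; exact vx_mem _
      · intro k; rw [mvu_qur]; exact (L K _).mul_mem (ed_mem _) (gh_mem _)
  · rintro (⟨i', hc⟩ | ⟨i', j, k⟩ | ⟨j, r⟩)
    · exact (L K _).mul_mem ((L K _).mul_mem (hT i') (ed_mem _)) (star_mem_L (hT i'))
    · exact (L K _).mul_mem ((L K _).mul_mem (hT i') (ed_mem _)) (star_mem_L (hT j))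
    · refine mvu_cases D i (P := fun r => mvu_u' K D i hi (.g j r) ∈ L K (NG D)) ?_ ?_ r
      · intro r; rw [mvu_uul]; exact (L K _).mul_mem (ed_mem _) (star_mem_L (hT j))
      · intro k; rw [mvu_uur]; exact (L K _).mul_mem (ed_mem _) (star_mem_L (hT j))
  · intro v
    by_cases h : v = ⟨i, none⟩
    · rw [h, mvu_qv0, mvu_l2 K D _ _ hok]
    · rw [mvu_q_iota K D i h, lift_vx]
      rcases v with ⟨j, _ | r⟩
      · change mvu_T K D i hi j * star (mvu_T K D i hi j) = _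
        rw [mvu_T, if_neg (by rintro rfl; exact h rfl), star_vx, vx_vx]
      · exact mvu_qul K D i hi j r
  · rintro (⟨i', hc⟩ | ⟨i', j, k⟩ | ⟨j, s⟩)
    · by_cases h : i' = i
      · subst h; rw [mvu_uz0, mvu_l4 K D _ _ hok]
      · rw [mvu_uz K D i hi hc h, lift_ed]
        change mvu_T K D i hi i' * ed K (NG D) (.z i' hc) * star (mvu_T K D i hi i') = _
        have h1 : vx K (NG D) ⟨i', none⟩ * ed K (NG D) (.z i' hc) = ed K (NG D) (.z i' hc) :=
          vx_ed (K := K) (G := NG D) (.z i' hc)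
        rw [mvu_T, if_neg h, star_vx, h1]
        exact ed_vx (K := K) (G := NG D) (.z i' hc)
    · change lift (mvu_rep' K D i hi hok) (mvu_A K D i i' j k * mvu_X K D i hi j) = _
      rw [map_mul, mvu_l5 K D _ _ hok]
      by_cases h : i' = i
      · subst h
        rw [mvu_A0, lift_ed, mvu_uur, mul_assoc, mvu_T1, mvu_fw]
      · rw [mvu_A1 K D i h, lift_ed]
        change mvu_T K D i hi i' * ed K (NG D) (.f i' j k) * star (mvu_T K D i hi j) *
          mvu_T K D i hi j = _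
        rw [mul_assoc, mvu_T1, mul_assoc, mvu_fw, mvu_T, if_neg h, mvu_vf]
    · change lift (mvu_rep' K D i hi hok)
        (ed K (NG (D.unit i)) (.g j (mvu_ul D i j s)) * mvu_X K D i hi j) = _
      rw [map_mul, lift_ed, mvu_l5 K D _ _ hok, mvu_uul, mul_assoc, mvu_T1]
      exact ed_vx (K := K) (G := NG D) (.g j s)
  · rintro ⟨j, _ | r⟩
    · change lift (mvu_rp K D i hi hok) (mvu_T K D i hi j * star (mvu_T K D i hi j)) = _
      rw [map_mul, mvu_l6 K D _ _ hok, mvu_l7 K D _ _ hok, mvu_XX]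
    · refine mvu_cases D i (P := fun r => lift (mvu_rp K D i hi hok)
        (mvu_q' K D i hi ⟨j, some r⟩) = vx K (NG (D.unit i)) ⟨j, some r⟩) ?_ ?_ r
      · intro r; rw [mvu_qul, lift_vx]; rfl
      · intro k
        rw [mvu_qur, map_mul, lift_ed, lift_gh]
        have h1 := mvu_AAs K D i hi i ⟨j, k⟩
        refine h1.trans ?_
        rw [mvu_A0, star_ed]
        exact (mvu_ckg (K := K) (D := D.unit i) j (mvu_ur D i j k)).symm
  · rintro (⟨i', hc⟩ | ⟨i', j, k⟩ | ⟨j, r⟩)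
    · change lift (mvu_rp K D i hi hok) (mvu_T K D i hi i' * ed K (NG D) (.z i' hc) *
        star (mvu_T K D i hi i')) = _
      rw [map_mul, map_mul, mvu_l6 K D _ _ hok, mvu_l7 K D _ _ hok, lift_ed]
      by_cases h : i' = i
      · subst h
        rw [mvu_uz0, mvu_X, if_pos rfl, mul_assoc, mvu_ZZs, mvu_Zv]
      · have h1 : vx K (NG (D.unit i)) ⟨i', none⟩ * ed K (NG (D.unit i)) (.z i' hc) =
          ed K (NG (D.unit i)) (.z i' hc) := vx_ed (K := K) (G := NG (D.unit i)) (.z i' hc)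
        rw [mvu_uz K D i hi hc h, mvu_X, if_neg h, h1, star_vx]
        exact ed_vx (K := K) (G := NG (D.unit i)) (.z i' hc)
    · change lift (mvu_rp K D i hi hok) (mvu_T K D i hi i' * ed K (NG D) (.f i' j k) *
        star (mvu_T K D i hi j)) = _
      rw [map_mul, map_mul, mvu_l6 K D _ _ hok, mvu_l7 K D _ _ hok, lift_ed]
      change mvu_X K D i hi i' * (mvu_A K D i i' j k * mvu_X K D i hi j) *
        star (mvu_X K D i hi j) = _
      rw [mul_assoc, mul_assoc (mvu_A K D i i' j k), mvu_XX, mvu_Av]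
      by_cases h : i' = i
      · subst h
        rw [mvu_A0, mvu_X, if_pos rfl, mvu_Zh]
      · rw [mvu_A1 K D i h, mvu_X, if_neg h]
        exact vx_ed (K := K) (G := NG (D.unit i)) (.f i' j k)
    · refine mvu_cases D i (P := fun r => lift (mvu_rp K D i hi hok)
        (mvu_u' K D i hi (.g j r)) = ed K (NG (D.unit i)) (.g j r)) ?_ ?_ r
      · intro r
        rw [mvu_uul, map_mul, mvu_l7 K D _ _ hok, lift_ed]
        change ed K (NG (D.unit i)) (.g j (mvu_ul D i j r)) * mvu_X K D i hi j *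
          star (mvu_X K D i hi j) = _
        rw [mul_assoc, mvu_XX]
        exact ed_vx (K := K) (G := NG (D.unit i)) (.g j (mvu_ul D i j r))
      · intro k
        rw [mvu_uur, map_mul, mvu_l7 K D _ _ hok, lift_ed]
        change mvu_A K D i i j k * mvu_X K D i hi j * star (mvu_X K D i hi j) = _
        rw [mul_assoc, mvu_XX, mvu_Av, mvu_A0]

end Pool.Agent.Helper32.PG
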