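import Pool.Agent.Helper32.PG.Sig
import Pool.Agent.Helper32.PG.Stab

/-! The classes of the images of the vertices, and the preservation of cycles. PIECE 10.

`rank_one`: apply `level` to the `1 × 1` matrix `e = φ (v i)` with `H = Le (σ i)`
(note `Le i \ {i} = Lt i`). If `r = 0` then `e ∈ J (Lt (σ i))`, so `v i ∈ J (Lt i)`, contradicting
`vn_not_mem`. If there are two different indices `s`, `t : Fin r` then `a = X s * Y s`,
`b = X t * Y t` satisfy `a * b ∈ J (Lt (σ i))`, `a, b ∉ J (Lt (σ i))`, so the images under `φ.g`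
contradict `dom`. `cyc_iff`: let `i` be a sink and `σ i` a cycle; apply `rank_one` to
`φ.symm` and `e = φ.g (v' (σ i))` (here `Lt i = ∅`, so `e = X * Y`, `Y * X = v i`). For
`b = φ.g (z' - v')` we get `b = X * (Y * b * X) * Y = c • e` by `corner_sink`; `c = 0` gives
`z' = v'`, which contradicts `zi_li`, and otherwise `z' - v'` has an inverse, contradicting
`zi_sub_not_inv`. -/

set_option autoImplicit false
set_option linter.unusedSectionVars false

universe k a a'

namespace Pool.Agent.Helper32.PG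

open Pool.Agent.Helper32.LV

variable {I : Type a} [Fintype I] [DecidableEq I] {K : Type k} [Field K] [StarRing K] {D : Dat I}
  {I' : Type a'} [Fintype I'] [DecidableEq I'] {D' : Dat I'}

theorem pm_mul_mem_left (a : U K (NG D)) {x : U K (NG D)} (hx : x ∈ L K (NG D)) :
    a * x ∈ L K (NG D) :=
  J_le_L (J_mul_left a (L_le_J hx))

theorem pm_mul_mem_right {x : U K (NG D)} (hx : x ∈ L K (NG D)) (a : U K (NG D)) :
    x * a ∈ L K (NG D) :=
  J_le_L (J_mul_right (L_le_J hx) a)

theorem pm_self (hD : D.Full) (i : I) : D.n i i = 0 := by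
  obtain ⟨ρ, hρ⟩ := hD.hr
  by_contra h
  exact lt_irrefl _ (hρ i i h)

theorem pm_not_lt (hD : D.Full) (i : I) : i ∉ Lt D i := fun h => h (pm_self hD i)

theorem pm_low_lt (hD : D.Full) (i : I) : Low D (Lt D i) := fun j hj k hk => hD.tr i j k hj hk

theorem pm_low_le (hD : D.Full) (i : I) : Low D (Le D i) := by
  rintro j (rfl | hj) k hk
  · exact Or.inr hk
  · exact Or.inr (hD.tr i j k hj hk)

theorem pm_le_diff (hD : D.Full) (i : I) : Le D i \ {i} = Lt D i := by
  ext k
  constructor
  · rintro ⟨h1 | h1, h2⟩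
    · exact absurd h1 h2
    · exact h1
  · intro h
    refine ⟨Or.inr h, ?_⟩
    rintro rfl
    exact pm_not_lt hD _ h

theorem pm_max (hD : D.Full) (i : I) : ∀ j ∈ Le D i, D.n j i = 0 := by
  rintro j (rfl | hj)
  · exact pm_self hD _
  · by_contra h
    exact hD.tr i j i hj h (pm_self hD i)

theorem pm_empty {x : U K (NG D)} (h : x ∈ J K D (∅ : Set I)) : x = 0 := by
  have h1 := J_le_of (K := K) (D := D) (H := (∅ : Set I)) (W := ⊥)
    (fun a x hx => by
      rw [Submodule.mem_bot] at hx ⊢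
      rw [hx, mul_zero])
    (fun a x hx => by
      rw [Submodule.mem_bot] at hx ⊢
      rw [hx, zero_mul])
    (fun i hi => absurd hi (Set.notMem_empty i)) h
  exact (Submodule.mem_bot K).1 h1

theorem rank_one (hD : D.Full) (hD' : D'.Full) {φ : RI K (NG D) (NG D')} (s : Sg φ) (i : I) :
    ∃ x y : U K (NG D'), φ.f (vn K D i) * x = x ∧ y * φ.f (vn K D i) = y ∧
      x * vn K D' (s.σ i) = x ∧ vn K D' (s.σ i) * y = y ∧
      φ.f (vn K D i) - x * y ∈ J K D' (Lt D' (s.σ i)) ∧
      vn K D' (s.σ i) - y * x ∈ J K D' (Lt D' (s.σ i)) := by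
  set e : U K (NG D') := φ.f (vn K D i) with he
  have hv : vn K D i ∈ L K (NG D) := vx_mem _
  have heL : e ∈ L K (NG D') := φ.f_mem _ hv
  have hee : e * e = e := φ.f_idem hv (vx_vx _)
  have hge : φ.g e = vn K D i := φ.gf _ hv
  obtain ⟨r, X, Y, h1, h2, h3, h4, h5, h6⟩ := level hD' (pm_low_le hD' (s.σ i))
    (i := s.σ i) (Or.inl rfl) (pm_max hD' (s.σ i)) (ι := Unit) (Matrix.of fun _ _ => e)
    (by
      ext a b
      rw [Matrix.mul_apply, Fintype.sum_unique]
      exact hee)
    (fun _ _ => s.f_mem i)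
  rw [pm_le_diff hD'] at h5 h6
  have k1 : ∀ t, e * X () t = X () t := fun t => by
    have := congrFun (congrFun h1 ()) t
    rwa [Matrix.mul_apply, Fintype.sum_unique] at this
  have k2 : ∀ t, Y t () * e = Y t () := fun t => by
    have := congrFun (congrFun h2 t) ()
    rwa [Matrix.mul_apply, Fintype.sum_unique] at this
  have k3 : ∀ t, X () t * vn K D' (s.σ i) = X () t := fun t => by
    have := congrFun (congrFun h3 ()) t
    rwa [dv, Matrix.mul_diagonal] at this
  have k4 : ∀ t, vn K D' (s.σ i) * Y t () = Y t () := fun t => by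
    have := congrFun (congrFun h4 t) ()
    rwa [dv, Matrix.diagonal_mul] at this
  have k5 : e - ∑ t, X () t * Y t () ∈ J K D' (Lt D' (s.σ i)) := by
    have := h5 () ()
    rwa [Matrix.sub_apply, Matrix.mul_apply] at this
  have k6 : ∀ t, vn K D' (s.σ i) - Y t () * X () t ∈ J K D' (Lt D' (s.σ i)) := fun t => by
    have := h6 t t
    rwa [Matrix.sub_apply, Matrix.mul_apply, Fintype.sum_unique, dv,
      Matrix.diagonal_apply_eq] at this
  have k7 : ∀ t u, t ≠ u → Y t () * X () u ∈ J K D' (Lt D' (s.σ i)) := fun t u htu => by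
    have := h6 t u
    rw [Matrix.sub_apply, Matrix.mul_apply, Fintype.sum_unique, dv,
      Matrix.diagonal_apply_ne _ htu, zero_sub] at this
    have h7 := (J K D' (Lt D' (s.σ i))).neg_mem this
    rwa [neg_neg] at h7
  have hvn : vn K D' (s.σ i) ∉ J K D' (Lt D' (s.σ i)) :=
    vn_not_mem hD' _ (pm_low_lt hD' _) (pm_not_lt hD' _)
  have hXL : ∀ t, X () t ∈ L K (NG D') := fun t => by
    rw [← k1 t]
    exact pm_mul_mem_right heL _
  -- there is an index
  have c0 : r ≠ 0 := by
    rintro rfl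
    rw [Finset.univ_eq_empty, Finset.sum_empty, sub_zero] at k5
    have h7 := s.symm.map_Lt (s.σ i) k5
    change φ.g e ∈ J K D (Lt D (s.σ.symm (s.σ i))) at h7
    rw [s.σ.symm_apply_apply, hge] at h7
    exact vn_not_mem hD _ (pm_low_lt hD _) (pm_not_lt hD _) h7
  -- the elements of the decomposition do not vanish
  have hne : ∀ t, X () t * Y t () ∉ J K D' (Lt D' (s.σ i)) := by
    intro t h7
    apply hvn
    have h8 : Y t () * (X () t * Y t ()) * X () t ∈ J K D' (Lt D' (s.σ i)) :=
      J_mul_right (J_mul_left _ h7) _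
    have h9 : vn K D' (s.σ i) = Y t () * (X () t * Y t ()) * X () t +
        ((vn K D' (s.σ i) - Y t () * X () t) * (Y t () * X () t) +
          (vn K D' (s.σ i) - Y t () * X () t)) := by
      have e1 : vn K D' (s.σ i) * (Y t () * X () t) = Y t () * X () t := by
        rw [← mul_assoc, k4]
      rw [sub_mul, e1]
      noncomm_ring
    rw [h9]
    exact Submodule.add_mem _ h8 (Submodule.add_mem _ (J_mul_right (k6 t) _) (k6 t))
  -- and there is only one index
  have c1 : ∀ t u : Fin r, t = u := by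
    intro t u
    by_contra htu
    set A := X () t * Y t () with hA
    set B := X () u * Y u () with hB
    have hAL : A ∈ L K (NG D') := pm_mul_mem_right (hXL t) _
    have hBL : B ∈ L K (NG D') := pm_mul_mem_right (hXL u) _
    have hcor : ∀ w, e * (X () w * Y w ()) * e = X () w * Y w () := by
      intro w
      rw [← mul_assoc, k1, mul_assoc, k2]
    have hcg : ∀ w ∈ L K (NG D'), e * w * e = w →
        vn K D i * φ.g w * vn K D i = φ.g w := by
      intro w hw hew
      rw [← hge, ← φ.g_mul e heL w hw, ← φ.g_mul _ ((L K (NG D')).mul_mem heL hw) e heL, hew]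
    have hAB : A * B ∈ J K D' (Lt D' (s.σ i)) := by
      have : A * B = X () t * (Y t () * X () u) * Y u () := by
        rw [hA, hB]
        noncomm_ring
      rw [this]
      exact J_mul_right (J_mul_left _ (k7 t u htu)) _
    have h7 := s.symm.map_Lt (s.σ i) hAB
    change φ.g (A * B) ∈ J K D (Lt D (s.σ.symm (s.σ i))) at h7
    rw [s.σ.symm_apply_apply, φ.g_mul A hAL B hBL] at h7
    rcases dom hD i (hcg A hAL (hcor t)) (hcg B hBL (hcor u)) h7 with h8 | h8
    · have h9 := s.map_Lt i h8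
      rw [φ.fg A hAL] at h9
      exact hne t h9
    · have h9 := s.map_Lt i h8
      rw [φ.fg B hBL] at h9
      exact hne u h9
  have hr : 0 < r := Nat.pos_of_ne_zero c0
  refine ⟨X () ⟨0, hr⟩, Y ⟨0, hr⟩ (), k1 _, k2 _, k3 _, k4 _, ?_, k6 _⟩
  have h7 : ∑ t, X () t * Y t () = X () ⟨0, hr⟩ * Y ⟨0, hr⟩ () := by
    rw [Finset.sum_eq_single (⟨0, hr⟩ : Fin r)]
    · intro b _ hb
      exact absurd (c1 b _) hb
    · intro h
      exact absurd (Finset.mem_univ _) h
  rwa [h7] at k5

theorem exists_P (hD : D.Full) (hD' : D'.Full) {φ : RI K (NG D) (NG D')} (s : Sg φ) (i : I) :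
    ∃ c d : I' → ℕ, (∀ k, k ∉ Le D' (s.σ i) → c k = 0 ∧ d k = 0) ∧ d (s.σ i) = c (s.σ i) + 1 ∧
      cl (φ.f (vn K D i)) + cv K D' c = cv K D' d := by
  obtain ⟨x, y, h1, h2, h3, h4, h5, h6⟩ := rank_one hD hD' s i
  have hv : vn K D i ∈ L K (NG D) := vx_mem _
  have hee : φ.f (vn K D i) * φ.f (vn K D i) = φ.f (vn K D i) := φ.f_idem hv (vx_vx _)
  have hdiff := pm_le_diff hD' (s.σ i)
  obtain ⟨c, d, g1, g2, g3⟩ := stable_of_level (pm_low_le hD' (s.σ i)) (i := s.σ i) (Or.inl rfl)
    (pm_max hD' (s.σ i))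
    (fun {τ} _ _ Q hQ hJ => stable hD' (by
      rw [hdiff]
      exact pm_low_lt hD' _) Q hQ hJ)
    (ι := Unit) (Matrix.of fun _ _ => φ.f (vn K D i))
    (by
      ext a b
      rw [Matrix.mul_apply, Fintype.sum_unique]
      exact hee) (r := 1)
    (Matrix.of fun _ _ => x) (Matrix.of fun _ _ => y)
    (by
      ext a b
      rw [Matrix.mul_apply, Fintype.sum_unique]
      exact h1)
    (by
      ext a b
      rw [Matrix.mul_apply, Fintype.sum_unique]
      exact h2)
    (by
      ext a b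
      rw [dv, Matrix.mul_diagonal]
      exact h3)
    (by
      ext a b
      rw [dv, Matrix.diagonal_mul]
      exact h4)
    (by
      intro a b
      rw [hdiff, Matrix.sub_apply, Matrix.mul_apply, Fintype.sum_unique]
      exact h5)
    (by
      intro a b
      rw [hdiff, Matrix.sub_apply, Matrix.mul_apply, Fintype.sum_unique, dv,
        Subsingleton.elim b a, Matrix.diagonal_apply_eq]
      exact h6)
  exact ⟨c, d, g1, g2, g3⟩

theorem pm_cyc (hD : D.Full) (hD' : D'.Full) {φ : RI K (NG D) (NG D')} (s : Sg φ) (i : I)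
    (hc : D'.cyc (s.σ i)) : D.cyc i := by
  by_contra hi
  obtain ⟨x, y, h1, h2, h3, h4, h5, h6⟩ := rank_one hD' hD s.symm (s.σ i)
  change φ.g (vn K D' (s.σ i)) * x = x at h1
  change y * φ.g (vn K D' (s.σ i)) = y at h2
  change x * vn K D (s.σ.symm (s.σ i)) = x at h3
  change vn K D (s.σ.symm (s.σ i)) * y = y at h4
  change φ.g (vn K D' (s.σ i)) - x * y ∈ J K D (Lt D (s.σ.symm (s.σ i))) at h5
  rw [s.σ.symm_apply_apply] at h3 h4 h5
  have hL0 : Lt D i = ∅ := by
    ext k
    constructor
    · intro hk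
      exact absurd (hD.hc i k hk) hi
    · intro hk
      exact absurd hk (Set.notMem_empty k)
  rw [hL0] at h5
  have hxy := sub_eq_zero.1 (pm_empty h5)
  set v' : U K (NG D') := vn K D' (s.σ i) with hv'
  set z' : U K (NG D') := zi K D' (s.σ i) 1 with hz'
  set e : U K (NG D) := φ.g v' with he
  have hvL : v' ∈ L K (NG D') := vx_mem _
  have hzv : z' * v' = z' := zi_vn _ _
  have hvz : v' * z' = z' := vn_zi _ _
  have hvv : v' * v' = v' := vx_vx _
  have hzL : z' ∈ L K (NG D') := by
    rw [← hzv]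
    exact pm_mul_mem_left _ hvL
  have hbL : z' - v' ∈ L K (NG D') := (L K (NG D')).sub_mem hzL hvL
  have heL : e ∈ L K (NG D) := φ.g_mem _ hvL
  have hee : e * e = e := by
    rw [he, ← φ.g_mul v' hvL v' hvL, hvv]
  set b : U K (NG D) := φ.g (z' - v') with hb
  have hbm : b ∈ L K (NG D) := φ.g_mem _ hbL
  have heb : e * b * e = b := by
    rw [he, hb, ← φ.g_mul v' hvL _ hbL,
      ← φ.g_mul _ ((L K (NG D')).mul_mem hvL hbL) v' hvL, mul_sub, sub_mul, hvz, hzv, hvv, hvv]
  obtain ⟨c, hc'⟩ := corner_sink hD i hi (y * b * x)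
  have h7 : vn K D i * (y * b * x) * vn K D i = y * b * x := by
    have e1 : vn K D i * (y * b * x) * vn K D i = (vn K D i * y) * b * (x * vn K D i) := by
      noncomm_ring
    rw [e1, h3, h4]
  rw [h7] at hc'
  have h8 : b = c • e := by
    calc b = e * b * e := heb.symm
      _ = x * (y * b * x) * y := by
          rw [hxy]
          noncomm_ring
      _ = c • e := by
          rw [hc', mul_smul_comm, smul_mul_assoc, h3, hxy]
  by_cases hc0 : c = 0
  · rw [hc0, zero_smul] at h8
    have h9 : z' - v' = 0 := by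
      rw [← φ.fg _ hbL, ← hb, h8]
      exact φ.f_zero
    have h10 := zi_li (K := K) hD' (s.σ i) hc (G := ∅) (fun _ h => absurd h (Set.notMem_empty _))
      (Set.notMem_empty _) ((Finsupp.single 1 1 - Finsupp.single 0 1 : ℤ →₀ K)) (by
        rw [map_sub, Finsupp.linearCombination_single, Finsupp.linearCombination_single, one_smul,
          one_smul, zi_zero, h9]
        exact Submodule.zero_mem _)
    have h11 := DFunLike.congr_fun h10 1
    rw [Finsupp.sub_apply, Finsupp.single_eq_same, Finsupp.single_eq_of_ne (by norm_num),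
      Finsupp.zero_apply, sub_zero] at h11
    exact one_ne_zero h11
  · have hcL : c⁻¹ • e ∈ L K (NG D) := (L K (NG D)).smul_mem _ heL
    apply zi_sub_not_inv hD' (s.σ i) hc (b := φ.f (c⁻¹ • e))
    have h9 : z' - v' = φ.f b := (φ.fg _ hbL).symm
    rw [← hv', ← hz', h9, ← φ.f_mul b hbm _ hcL, h8, smul_mul_smul_comm, hee,
      mul_inv_cancel₀ hc0, one_smul]
    exact φ.fg _ hvL

theorem cyc_iff (hD : D.Full) (hD' : D'.Full) {φ : RI K (NG D) (NG D')} (s : Sg φ) (i : I) :
    D'.cyc (s.σ i) ↔ D.cyc i := by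
  constructor
  · exact pm_cyc hD hD' s i
  · intro h
    apply pm_cyc hD' hD s.symm (s.σ i)
    change D.cyc (s.σ.symm (s.σ i))
    rwa [s.σ.symm_apply_apply]

end Pool.Agent.Helper32.PG
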