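import Pool.Agent.Helper32.PG.Defs
import Pool.Agent.Helper32.LV.Sym

/-! Paths and the ideals `J H`. PIECE 4. -/

set_option autoImplicit false
set_option linter.unusedSectionVars false

universe k a

namespace Pool.Agent.Helper32.PG

open Pool.Agent.Helper32.LV

variable {I : Type a} {K : Type k} [Field K] [StarRing K] {D : Dat I}

/-! ### auxiliary facts -/

theorem pth_mul_zero {x y : U K (NG D)} {u u' : NV D} (hx : x * vx K (NG D) u = x)
    (hy : vx K (NG D) u' * y = y) (h : u ≠ u') : x * y = 0 := by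
  rw [← hx, ← hy, mul_assoc, ← mul_assoc (vx K (NG D) u), vx_vx_of_ne h, zero_mul, mul_zero]

theorem pth_star_src {x : U K (NG D)} {u : NV D} (hx : vx K (NG D) u * x = x) :
    star x * vx K (NG D) u = star x := by
  have := congrArg star hx
  rwa [star_mul, star_vx] at this

/-- the Cuntz-Krieger relation as a sum over a set of edges -/
theorem pth_ck (u : NV D) (T : Finset (NE D)) (hT : ∀ e, e ∈ T ↔ (NG D).s e = u)
    (h0 : T.Nonempty) : vx K (NG D) u = ∑ e ∈ T, ed K (NG D) e * gh K (NG D) e := by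
  classical
  have h1 : {e | (NG D).s e = u} = (T : Set (NE D)) := by
    ext e
    change (NG D).s e = u ↔ e ∈ T
    exact (hT e).symm
  have h2 : {e | (NG D).s e = u}.Finite := by
    rw [h1]
    exact T.finite_toSet
  have h3 : h2.toFinset = T := by
    ext e
    rw [Set.Finite.mem_toFinset, hT]
    rfl
  obtain ⟨e, he⟩ := h0
  rw [vx_eq_sum u h2 ⟨e, (hT e).1 he⟩, h3]

theorem pth_vn_f (i k : I) (m : Fin (D.n i k)) :
    vn K D i * ed K (NG D) (.f i k m) = ed K (NG D) (.f i k m) :=
  vx_ed (G := NG D) (.f i k m)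

theorem pth_f_vn (i k : I) (m : Fin (D.n i k)) :
    ed K (NG D) (.f i k m) * vn K D k = ed K (NG D) (.f i k m) :=
  ed_vx (G := NG D) (.f i k m)

theorem pth_gh_f (i k : I) (m : Fin (D.n i k)) :
    gh K (NG D) (.f i k m) * ed K (NG D) (.f i k m) = vn K D k :=
  gh_ed (G := NG D) (.f i k m)

/-- `L` is an ideal of the unital algebra -/
theorem pth_L_mul_left (a : U K (NG D)) {x : U K (NG D)} (h : x ∈ L K (NG D)) :
    a * x ∈ L K (NG D) := by
  induction a using U_ind generalizing x with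
  | hk c =>
    rw [← Algebra.smul_def]
    exact (L K (NG D)).smul_mem _ h
  | hv v => exact (L K (NG D)).mul_mem (vx_mem v) h
  | he e => exact (L K (NG D)).mul_mem (ed_mem e) h
  | hg e => exact (L K (NG D)).mul_mem (gh_mem e) h
  | ha y z hy hz =>
    rw [add_mul]
    exact (L K (NG D)).add_mem (hy h) (hz h)
  | hm y z hy hz =>
    rw [mul_assoc]
    exact hy (hz h)

theorem pth_L_mul_right {x : U K (NG D)} (h : x ∈ L K (NG D)) (a : U K (NG D)) :
    x * a ∈ L K (NG D) := by
  induction a using U_ind generalizing x with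
  | hk c =>
    rw [← Algebra.commutes, ← Algebra.smul_def]
    exact (L K (NG D)).smul_mem _ h
  | hv v => exact (L K (NG D)).mul_mem h (vx_mem v)
  | he e => exact (L K (NG D)).mul_mem h (ed_mem e)
  | hg e => exact (L K (NG D)).mul_mem h (gh_mem e)
  | ha y z hy hz =>
    rw [mul_add]
    exact (L K (NG D)).add_mem (hy h) (hz h)
  | hm y z hy hz =>
    rw [← mul_assoc]
    exact hz (hy h)

/-! ### the ideals -/

theorem J_mul_left {H : Set I} (a : U K (NG D)) {x : U K (NG D)} (h : x ∈ J K D H) :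
    a * x ∈ J K D H := by
  refine Submodule.span_induction (p := fun x _ => a * x ∈ J K D H) ?_ ?_ ?_ ?_ h
  · rintro _ ⟨i, hi, b, c, rfl⟩
    refine Submodule.subset_span ⟨i, hi, a * b, c, ?_⟩
    simp only [mul_assoc]
  · rw [mul_zero]
    exact (J K D H).zero_mem
  · intro y z _ _ hy hz
    rw [mul_add]
    exact (J K D H).add_mem hy hz
  · intro c y _ hy
    rw [mul_smul_comm]
    exact (J K D H).smul_mem c hy

theorem J_mul_right {H : Set I} {x : U K (NG D)} (h : x ∈ J K D H) (a : U K (NG D)) :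
    x * a ∈ J K D H := by
  refine Submodule.span_induction (p := fun x _ => x * a ∈ J K D H) ?_ ?_ ?_ ?_ h
  · rintro _ ⟨i, hi, b, c, rfl⟩
    refine Submodule.subset_span ⟨i, hi, b, c * a, ?_⟩
    simp only [mul_assoc]
  · rw [zero_mul]
    exact (J K D H).zero_mem
  · intro y z _ _ hy hz
    rw [add_mul]
    exact (J K D H).add_mem hy hz
  · intro c y _ hy
    rw [smul_mul_assoc]
    exact (J K D H).smul_mem c hy

theorem J_mono {H H' : Set I} (h : H ⊆ H') {x : U K (NG D)} (hx : x ∈ J K D H) :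
    x ∈ J K D H' := by
  refine Submodule.span_mono ?_ hx
  rintro _ ⟨i, hi, b, c, rfl⟩
  exact ⟨i, h hi, b, c, rfl⟩

theorem J_le_L {H : Set I} {x : U K (NG D)} (h : x ∈ J K D H) : x ∈ L K (NG D) := by
  have h1 : J K D H ≤ (L K (NG D)).toSubmodule := by
    refine Submodule.span_le.2 ?_
    rintro _ ⟨i, -, b, c, rfl⟩
    exact pth_L_mul_right (pth_L_mul_left b (vx_mem _)) c
  exact h1 h

theorem pth_vn_mem_J {H : Set I} {i : I} (h : i ∈ H) : vn K D i ∈ J K D H :=
  Submodule.subset_span ⟨i, h, 1, 1, by rw [one_mul, mul_one]⟩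

theorem pth_g_g (i : I) (s : Fin (D.a i)) : vx K (NG D) ⟨i, some s⟩ =
    ed K (NG D) (.g i s) * gh K (NG D) (.g i s) := by
  rw [pth_ck (K := K) ⟨i, some s⟩ {.g i s} (by
    intro e
    rw [Finset.mem_singleton]
    constructor
    · rintro rfl
      rfl
    · intro h
      cases e with
      | z i' h' => cases h
      | f i' j k => cases h
      | g i' s' => cases h; rfl) ⟨_, Finset.mem_singleton_self _⟩, Finset.sum_singleton]

/-- every vertex `⟨i, s⟩` lies in `J H` if `i` does -/
theorem vx_mem_J {H : Set I} (p : NV D) (h : p.1 ∈ H) : vx K (NG D) p ∈ J K D H := by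
  obtain ⟨i, s⟩ := p
  cases s with
  | none => exact pth_vn_mem_J h
  | some s =>
    have h1 : ed K (NG D) (.g i s) * vn K D i = ed K (NG D) (.g i s) :=
      ed_vx (G := NG D) (.g i s)
    rw [pth_g_g, ← h1]
    exact J_mul_right (J_mul_left _ (pth_vn_mem_J h)) _

theorem L_le_J {x : U K (NG D)} (h : x ∈ L K (NG D)) : x ∈ J K D Set.univ := by
  refine L_ind (p := fun x => x ∈ J K D Set.univ) ?_ ?_ ?_ ?_ ?_ ?_ ?_ h
  · intro v
    exact vx_mem_J v (Set.mem_univ _)
  · intro e
    rw [← vx_ed e]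
    exact J_mul_right (vx_mem_J _ (Set.mem_univ _)) _
  · intro e
    rw [← vx_gh e]
    exact J_mul_right (vx_mem_J _ (Set.mem_univ _)) _
  · exact (J K D Set.univ).zero_mem
  · intro x _ y _ hx hy
    exact (J K D Set.univ).add_mem hx hy
  · intro x _ y _ _ hy
    exact J_mul_left _ hy
  · intro c x _ hx
    exact (J K D Set.univ).smul_mem c hx

/-- finite sums, scalars absorbed -/
theorem J_sum {H : Set I} {x : U K (NG D)} (h : x ∈ J K D H) :
    ∃ (n : ℕ) (t : Fin n → I) (b c : Fin n → U K (NG D)), (∀ s, t s ∈ H) ∧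
      x = ∑ s, b s * vn K D (t s) * c s := by
  refine Submodule.span_induction (p := fun x _ => ∃ (n : ℕ) (t : Fin n → I)
    (b c : Fin n → U K (NG D)), (∀ s, t s ∈ H) ∧ x = ∑ s, b s * vn K D (t s) * c s)
    ?_ ?_ ?_ ?_ h
  · rintro _ ⟨i, hi, b, c, rfl⟩
    refine ⟨1, fun _ => i, fun _ => b, fun _ => c, fun _ => hi, ?_⟩
    rw [Fin.sum_univ_one]
  · refine ⟨0, Fin.elim0, Fin.elim0, Fin.elim0, fun s => s.elim0, ?_⟩
    rw [Fin.sum_univ_zero]
  · rintro x y - - ⟨n, t, b, c, ht, rfl⟩ ⟨n', t', b', c', ht', rfl⟩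
    refine ⟨n + n', Fin.append t t', Fin.append b b', Fin.append c c', ?_, ?_⟩
    · intro s
      refine Fin.addCases (fun s => ?_) (fun s => ?_) s
      · rw [Fin.append_left]; exact ht s
      · rw [Fin.append_right]; exact ht' s
    · rw [Fin.sum_univ_add]
      congr 1
      · refine Finset.sum_congr rfl fun s _ => ?_
        rw [Fin.append_left, Fin.append_left, Fin.append_left]
      · refine Finset.sum_congr rfl fun s _ => ?_
        rw [Fin.append_right, Fin.append_right, Fin.append_right]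
  · rintro c0 x - ⟨n, t, b, c, ht, rfl⟩
    refine ⟨n, t, fun s => c0 • b s, c, ht, ?_⟩
    rw [Finset.smul_sum]
    refine Finset.sum_congr rfl fun s _ => ?_
    rw [smul_mul_assoc, smul_mul_assoc]

/-- `v k = f* f` for an edge `f : i → k` -/
theorem vn_mem_J_of_n {H : Set I} {i k : I} (h : vn K D i ∈ J K D H) (hn : D.n i k ≠ 0) :
    vn K D k ∈ J K D H := by
  have h1 := pth_gh_f (K := K) i k (⟨0, Nat.pos_of_ne_zero hn⟩ : Fin (D.n i k))
  rw [← h1, ← pth_vn_f (K := K) i k (⟨0, Nat.pos_of_ne_zero hn⟩ : Fin (D.n i k))]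
  exact J_mul_left _ (J_mul_right h _)

theorem J_le_of {H : Set I} {W : Submodule K (U K (NG D))} (hl : ∀ a, ∀ x ∈ W, a * x ∈ W)
    (hr : ∀ a, ∀ x ∈ W, x * a ∈ W) (h : ∀ i ∈ H, vn K D i ∈ W) {x : U K (NG D)}
    (hx : x ∈ J K D H) : x ∈ W := by
  have h1 : J K D H ≤ W := by
    refine Submodule.span_le.2 ?_
    rintro _ ⟨i, hi, b, c, rfl⟩
    exact hr _ _ (hl _ _ (h i hi))
  exact h1 hx

theorem gn_mul_left {e : U K (NG D)} (a : U K (NG D)) {x : U K (NG D)} (h : x ∈ gn K D e) :
    a * x ∈ gn K D e := by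
  refine Submodule.span_induction (p := fun x _ => a * x ∈ gn K D e) ?_ ?_ ?_ ?_ h
  · rintro _ ⟨b, c, rfl⟩
    refine Submodule.subset_span ⟨a * b, c, ?_⟩
    simp only [mul_assoc]
  · rw [mul_zero]
    exact (gn K D e).zero_mem
  · intro y z _ _ hy hz
    rw [mul_add]
    exact (gn K D e).add_mem hy hz
  · intro c y _ hy
    rw [mul_smul_comm]
    exact (gn K D e).smul_mem c hy

theorem gn_mul_right {e : U K (NG D)} {x : U K (NG D)} (h : x ∈ gn K D e) (a : U K (NG D)) :
    x * a ∈ gn K D e := by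
  refine Submodule.span_induction (p := fun x _ => x * a ∈ gn K D e) ?_ ?_ ?_ ?_ h
  · rintro _ ⟨b, c, rfl⟩
    refine Submodule.subset_span ⟨b, c * a, ?_⟩
    simp only [mul_assoc]
  · rw [zero_mul]
    exact (gn K D e).zero_mem
  · intro y z _ _ hy hz
    rw [add_mul]
    exact (gn K D e).add_mem hy hz
  · intro c y _ hy
    rw [smul_mul_assoc]
    exact (gn K D e).smul_mem c hy

theorem self_mem_gn (e : U K (NG D)) : e ∈ gn K D e :=
  Submodule.subset_span ⟨1, 1, by rw [one_mul, mul_one]⟩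

/-! ### powers of the loops -/

theorem pth_zi_cyc {i : I} (h : D.cyc i) (m : ℤ) : zi K D i m = zp K (NG D) (.z i h) m := by
  unfold zi
  rw [dif_pos h]

theorem pth_zi_not {i : I} (h : ¬ D.cyc i) (m : ℤ) (hm : m ≠ 0) : zi K D i m = 0 := by
  unfold zi
  rw [dif_neg h, if_neg hm]

theorem zi_zero (i : I) : zi K D i 0 = vn K D i := by
  by_cases h : D.cyc i
  · rw [pth_zi_cyc h, zp_zero]
    rfl
  · unfold zi
    rw [dif_neg h, if_pos rfl]

theorem vn_zi (i : I) (m : ℤ) : vn K D i * zi K D i m = zi K D i m := by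
  by_cases h : D.cyc i
  · rw [pth_zi_cyc h]
    exact vx_mul_zp (G := NG D) (.z i h) m
  · by_cases hm : m = 0
    · subst hm
      rw [zi_zero, vx_vx]
    · rw [pth_zi_not h m hm, mul_zero]

theorem zi_vn (i : I) (m : ℤ) : zi K D i m * vn K D i = zi K D i m := by
  by_cases h : D.cyc i
  · rw [pth_zi_cyc h]
    exact zp_mul_vx (G := NG D) (e := .z i h) rfl m
  · by_cases hm : m = 0
    · subst hm
      rw [zi_zero, vx_vx]
    · rw [pth_zi_not h m hm, zero_mul]

theorem pth_zp_star {e : NE D} (h : (NG D).s e = (NG D).r e) (j : ℤ) :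
    star (zp K (NG D) e j) = zp K (NG D) e (-j) := by
  rcases j with n | n
  · have h1 : (-(Int.ofNat n) : ℤ) = -(n : ℤ) := rfl
    rw [h1, zp_neg_nat]
    change star (vx K (NG D) ((NG D).s e) * ed K (NG D) e ^ n) = _
    rw [star_mul, star_pow, star_vx, star_ed, gh_pow_vx h]
  · have h1 : (-(Int.negSucc n) : ℤ) = ((n + 1 : ℕ) : ℤ) := rfl
    rw [h1, zp_nat, zp_negSucc, star_mul, star_pow, star_vx, star_gh, ed_pow_vx h]

theorem zi_star (i : I) (m : ℤ) : star (zi K D i m) = zi K D i (-m) := by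
  by_cases h : D.cyc i
  · rw [pth_zi_cyc h, pth_zi_cyc h]
    exact pth_zp_star rfl m
  · by_cases hm : m = 0
    · subst hm
      rw [neg_zero, zi_zero, star_vx]
    · rw [pth_zi_not h m hm, pth_zi_not h _ (neg_ne_zero.2 hm), star_zero]

theorem pth_zp_mul_nat {e : NE D} (h : (NG D).s e = (NG D).r e) (j : ℤ) (m : ℕ) :
    zp K (NG D) e j * zp K (NG D) e (m : ℤ) = zp K (NG D) e (j + m) := by
  induction m with
  | zero =>
    rw [Nat.cast_zero, zp_zero, zp_mul_vx h, add_zero]
  | succ m ih =>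
    rw [Nat.cast_succ, zp_succ h, ← mul_assoc, ih, ← zp_succ h, add_assoc]

/-- `z* ^ j z ^ m = z ^ (m - j)` if `j ≥ 0` or ... : exact for a negative power on the left and a
nonnegative power on the right -/
theorem zi_neg_mul (i : I) (hi : D.cyc i) (j m : ℕ) :
    zi K D i (-(j : ℤ)) * zi K D i m = zi K D i ((m : ℤ) - j) := by
  rw [pth_zi_cyc hi, pth_zi_cyc hi, pth_zi_cyc hi, pth_zp_mul_nat rfl]
  congr 1
  ring

/-- `z` kills the exits: `z* f = 0` -/
theorem zi_neg_f (i k : I) (m : Fin (D.n i k)) (j : ℕ) (hj : j ≠ 0) :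
    zi K D i (-(j : ℤ)) * ed K (NG D) (.f i k m) = 0 := by
  by_cases h : D.cyc i
  · obtain ⟨n, rfl⟩ := Nat.exists_eq_succ_of_ne_zero hj
    rw [pth_zi_cyc h, zp_neg_nat, pow_succ, mul_assoc, mul_assoc,
      gh_ed_of_ne (fun h => by cases h), mul_zero, mul_zero]
  · rw [pth_zi_not h _ (by omega), zero_mul]

theorem pth_gh_zi (i k : I) (m : Fin (D.n i k)) (j : ℕ) (hj : j ≠ 0) :
    gh K (NG D) (.f i k m) * zi K D i (j : ℤ) = 0 := by
  have h := congrArg star (zi_neg_f (K := K) i k m j hj)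
  rwa [star_mul, star_ed, zi_star, neg_neg, star_zero] at h

/-- `v = z z* + ∑ f f*` -/
theorem pth_v_eq [Fintype I] (i : I) (hi : D.cyc i) : vn K D i =
    ed K (NG D) (.z i hi) * gh K (NG D) (.z i hi) +
      ∑ j, ∑ k, ed K (NG D) (.f i j k) * gh K (NG D) (.f i j k) := by
  classical
  let F : (Σ j, Fin (D.n i j)) → NE D := fun p => .f i p.1 p.2
  have hF : Function.Injective F := by
    rintro ⟨j, k⟩ ⟨j', k'⟩ h
    have h' : NE.f (D := D) i j k = NE.f i j' k' := h
    cases h'
    rfl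
  have hz : NE.z (D := D) i hi ∉ Finset.univ.image F := by
    intro h
    obtain ⟨p, -, hp⟩ := Finset.mem_image.1 h
    have hp' : NE.f (D := D) i p.1 p.2 = NE.z i hi := hp
    cases hp'
  change vx K (NG D) ⟨i, none⟩ = _
  rw [pth_ck (K := K) ⟨i, none⟩ (insert (NE.z i hi) (Finset.univ.image F)) (by
    intro e
    rw [Finset.mem_insert, Finset.mem_image]
    constructor
    · rintro (rfl | ⟨p, -, rfl⟩)
      · rfl
      · rfl
    · intro h
      cases e with
      | z i' h' => cases h; exact Or.inl rfl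
      | f i' j k => cases h; exact Or.inr ⟨⟨j, k⟩, Finset.mem_univ _, rfl⟩
      | g i' s' => cases h) ⟨_, Finset.mem_insert_self _ _⟩,
    Finset.sum_insert hz, Finset.sum_image (fun x _ y _ h => hF h), Fintype.sum_sigma]

/-- `v - z z* ∈ J (Lt i)` -/
theorem pth_gap_mem [Finite I] (i : I) (hi : D.cyc i) :
    ed K (NG D) (.z i hi) * gh K (NG D) (.z i hi) - vn K D i ∈ J K D (Lt D i) := by
  classical
  have := Fintype.ofFinite I
  have h1 := pth_v_eq (K := K) i hi
  have h2 : ed K (NG D) (.z i hi) * gh K (NG D) (.z i hi) - vn K D i =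
      -∑ j, ∑ k, ed K (NG D) (.f i j k) * gh K (NG D) (.f i j k) := by
    rw [h1]
    abel
  rw [h2]
  refine (J K D (Lt D i)).neg_mem (Submodule.sum_mem _ fun j _ => Submodule.sum_mem _ fun k _ => ?_)
  rw [← pth_f_vn (K := K) i j k]
  refine J_mul_right (J_mul_left _ (pth_vn_mem_J ?_)) _
  change D.n i j ≠ 0
  have := k.2
  omega

theorem pth_zp_gh [Finite I] (i : I) (hi : D.cyc i) (j : ℤ) :
    zp K (NG D) (.z i hi) j * gh K (NG D) (.z i hi) - zp K (NG D) (.z i hi) (j - 1) ∈
      J K D (Lt D i) := by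
  rcases j with n | n
  · cases n with
    | zero =>
      have h1 : (Int.ofNat 0 - 1 : ℤ) = -1 := rfl
      have h2 : zp K (NG D) (.z i hi) (Int.ofNat 0) = vx K (NG D) ((NG D).s (.z i hi)) :=
        zp_zero (G := NG D) (.z i hi)
      have h3 : vx K (NG D) ((NG D).s (.z i hi)) * gh K (NG D) (.z i hi) =
        gh K (NG D) (.z i hi) := vx_gh (G := NG D) (.z i hi)
      rw [h1, zp_neg_one (G := NG D) (e := .z i hi) rfl, h2, h3, sub_self]
      exact (J K D (Lt D i)).zero_mem
    | succ n =>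
      have h1 : (Int.ofNat (n + 1) - 1 : ℤ) = (n : ℤ) := by
        have : Int.ofNat (n + 1) = ((n + 1 : ℕ) : ℤ) := rfl
        rw [this]
        push_cast
        ring
      have h2 : zp K (NG D) (.z i hi) (Int.ofNat (n + 1)) =
          zp K (NG D) (.z i hi) (n : ℤ) * ed K (NG D) (.z i hi) := by
        have h4 := zp_succ (K := K) (G := NG D) (e := .z i hi) rfl (n : ℤ)
        have h5 : (Int.ofNat (n + 1) : ℤ) = (n : ℤ) + 1 := rfl
        rw [h5, h4]
      have h3 : zp K (NG D) (.z i hi) (n : ℤ) * vn K D i = zp K (NG D) (.z i hi) (n : ℤ) :=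
        zp_mul_vx (G := NG D) (e := .z i hi) rfl (n : ℤ)
      have h6 : zp K (NG D) (.z i hi) (n : ℤ) * ed K (NG D) (.z i hi) * gh K (NG D) (.z i hi) -
          zp K (NG D) (.z i hi) (n : ℤ) = zp K (NG D) (.z i hi) (n : ℤ) *
          (ed K (NG D) (.z i hi) * gh K (NG D) (.z i hi) - vn K D i) := by
        rw [mul_sub, h3, mul_assoc]
      rw [h1, h2, h6]
      exact J_mul_left _ (pth_gap_mem i hi)
  · have h1 : (Int.negSucc n - 1 : ℤ) = Int.negSucc (n + 1) := by
      rw [Int.negSucc_eq, Int.negSucc_eq]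
      push_cast
      ring
    rw [h1, zp_negSucc, zp_negSucc, pow_succ _ (n + 1), ← mul_assoc, sub_self]
    exact (J K D (Lt D i)).zero_mem

theorem pth_zp_mul [Finite I] (i : I) (hi : D.cyc i) (m : ℤ) (n : ℕ) :
    zp K (NG D) (.z i hi) m * zp K (NG D) (.z i hi) (-(n : ℤ)) -
      zp K (NG D) (.z i hi) (m + -(n : ℤ)) ∈ J K D (Lt D i) := by
  induction n with
  | zero =>
    rw [Nat.cast_zero, neg_zero, zp_zero, zp_mul_vx rfl, add_zero, sub_self]
    exact (J K D (Lt D i)).zero_mem
  | succ n ih =>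
    have h1 : zp K (NG D) (.z i hi) (-((n + 1 : ℕ) : ℤ)) =
        zp K (NG D) (.z i hi) (-(n : ℤ)) * gh K (NG D) (.z i hi) := by
      rw [zp_neg_nat, zp_neg_nat, pow_succ, ← mul_assoc]
    have h2 : m + -((n + 1 : ℕ) : ℤ) = m + -(n : ℤ) - 1 := by
      push_cast
      ring
    have h3 : zp K (NG D) (.z i hi) m * (zp K (NG D) (.z i hi) (-(n : ℤ)) *
        gh K (NG D) (.z i hi)) - zp K (NG D) (.z i hi) (m + -(n : ℤ) - 1) =
        (zp K (NG D) (.z i hi) m * zp K (NG D) (.z i hi) (-(n : ℤ)) -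
          zp K (NG D) (.z i hi) (m + -(n : ℤ))) * gh K (NG D) (.z i hi) +
        (zp K (NG D) (.z i hi) (m + -(n : ℤ)) * gh K (NG D) (.z i hi) -
          zp K (NG D) (.z i hi) (m + -(n : ℤ) - 1)) := by
      rw [sub_mul, mul_assoc]
      abel
    rw [h1, h2, h3]
    exact (J K D (Lt D i)).add_mem (J_mul_right ih _) (pth_zp_gh i hi _)

/-- `z z* = v - ∑ f f*`; so products of powers are right modulo the lower ideal -/
theorem zi_mul (hD : D.Ok) [Finite I] (i : I) (hi : D.cyc i) (m m' : ℤ) :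
    zi K D i m * zi K D i m' - zi K D i (m + m') ∈ J K D (Lt D i) := by
  rw [pth_zi_cyc hi, pth_zi_cyc hi, pth_zi_cyc hi]
  rcases m' with n | n
  · have h1 : (Int.ofNat n : ℤ) = (n : ℤ) := rfl
    rw [h1, pth_zp_mul_nat rfl, sub_self]
    exact (J K D (Lt D i)).zero_mem
  · have h1 : (Int.negSucc n : ℤ) = -((n + 1 : ℕ) : ℤ) := rfl
    rw [h1]
    exact pth_zp_mul i hi m (n + 1)

/-! ### paths -/

theorem pth_vx_lk (p : NV D) : vx K (NG D) p * lk K D p = lk K D p := by
  obtain ⟨i, s⟩ := p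
  cases s with
  | none => exact vx_vx _
  | some s => exact vx_ed (G := NG D) (.g i s)

theorem pth_lk_vn (p : NV D) : lk K D p * vn K D p.1 = lk K D p := by
  obtain ⟨i, s⟩ := p
  cases s with
  | none => exact vx_vx _
  | some s => exact ed_vx (G := NG D) (.g i s)

theorem pth_star_lk (p : NV D) : star (lk K D p) * lk K D p = vn K D p.1 := by
  obtain ⟨i, s⟩ := p
  cases s with
  | none =>
    change star (vx K (NG D) ⟨i, none⟩) * vx K (NG D) ⟨i, none⟩ = _
    rw [star_vx, vx_vx]
  | some s =>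
    change star (ed K (NG D) (.g i s)) * ed K (NG D) (.g i s) = _
    rw [star_ed, gh_ed]
    rfl

theorem pth_lk_mem (p : NV D) : lk K D p ∈ L K (NG D) := by
  obtain ⟨i, s⟩ := p
  cases s with
  | none => exact vx_mem _
  | some s => exact ed_mem _

theorem pth_pp_vn {l i : I} (y : Yp D l i) : pp K D y * vn K D l = pp K D y := by
  induction y with
  | nil => exact vx_vx _
  | cons i k j m y ih =>
    change zi K D i j * ed K (NG D) (.f i k m) * pp K D y * _ = _ * pp K D y
    rw [mul_assoc _ (pp K D y), ih]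

theorem pth_vn_pp {l i : I} (y : Yp D l i) : vn K D i * pp K D y = pp K D y := by
  cases y with
  | nil => exact vx_vx _
  | cons i k j m y =>
    change _ * (zi K D i j * ed K (NG D) (.f i k m) * pp K D y) = _ * _ * pp K D y
    rw [← mul_assoc, ← mul_assoc, vn_zi]

theorem pth_zi_mem (i : I) (m : ℤ) : zi K D i m ∈ L K (NG D) := by
  rw [← vn_zi]
  exact pth_L_mul_right (vx_mem _) _

theorem pth_pp_mem {l i : I} (y : Yp D l i) : pp K D y ∈ L K (NG D) := by
  rw [← pth_vn_pp]
  exact pth_L_mul_right (vx_mem _) _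

theorem vx_pth {l : I} (p : YY D l) : vx K (NG D) p.1 * pth K D p = pth K D p := by
  change _ * (lk K D p.1 * pp K D p.2) = lk K D p.1 * pp K D p.2
  rw [← mul_assoc, pth_vx_lk]

theorem pth_vn {l : I} (p : YY D l) : pth K D p * vn K D l = pth K D p := by
  change lk K D p.1 * pp K D p.2 * _ = lk K D p.1 * pp K D p.2
  rw [mul_assoc, pth_pp_vn]

theorem pth_mem {l : I} (p : YY D l) : pth K D p ∈ L K (NG D) :=
  (L K (NG D)).mul_mem (pth_lk_mem _) (pth_pp_mem _)

theorem pth_star_pp (hD : D.Ok) {l i : I} (y : Yp D l i) :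
    star (pp K D y) * pp K D y = vn K D l := by
  induction y with
  | nil =>
    change star (vn K D l) * vn K D l = _
    rw [star_vx, vx_vx]
  | cons i k j m y ih =>
    have hn : D.n i k ≠ 0 := by
      have := m.2
      omega
    have hi := hD.hc i k hn
    have h1 := zi_neg_mul (K := K) i hi j j
    rw [sub_self, zi_zero] at h1
    change star (zi K D i j * ed K (NG D) (.f i k m) * pp K D y) *
      (zi K D i j * ed K (NG D) (.f i k m) * pp K D y) = _
    rw [star_mul, star_mul, star_ed, zi_star]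
    have h2 : star (pp K D y) * (gh K (NG D) (.f i k m) * zi K D i (-(j : ℤ))) *
        (zi K D i j * ed K (NG D) (.f i k m) * pp K D y) =
        star (pp K D y) * (gh K (NG D) (.f i k m) * (zi K D i (-(j : ℤ)) * zi K D i j *
          ed K (NG D) (.f i k m))) * pp K D y := by
      simp only [mul_assoc]
    rw [h2, h1, pth_vn_f, pth_gh_f, mul_assoc, pth_vn_pp, ih]

theorem star_pth_self (hD : D.Ok) {l : I} (p : YY D l) :
    star (pth K D p) * pth K D p = vn K D l := by
  change star (lk K D p.1 * pp K D p.2) * (lk K D p.1 * pp K D p.2) = _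
  rw [star_mul, mul_assoc, ← mul_assoc (star (lk K D p.1)), pth_star_lk, pth_vn_pp,
    pth_star_pp hD]

theorem pth_rho {ρ : I → ℕ} (hr : ∀ i k, D.n i k ≠ 0 → ρ k < ρ i) {l i : I} (y : Yp D l i) :
    ρ l ≤ ρ i := by
  induction y with
  | nil => exact le_refl _
  | cons i k j m y ih =>
    have hn : D.n i k ≠ 0 := by
      have := m.2
      omega
    have := hr i k hn
    omega

theorem pth_Yp_self (hD : D.Ok) {l : I} (y : Yp D l l) : y = .nil := by
  obtain ⟨ρ, hr⟩ := hD.hr
  cases y with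
  | nil => rfl
  | cons i k j m y =>
    exfalso
    have hn : D.n l k ≠ 0 := by
      have := m.2
      omega
    have h1 := hr l k hn
    have h2 := pth_rho hr y
    omega

theorem pth_star_pp_ne (hD : D.Ok) {l i : I} (x y : Yp D l i) (h : x ≠ y) :
    star (pp K D x) * pp K D y = 0 := by
  induction x with
  | nil => exact absurd (pth_Yp_self hD y).symm h
  | cons i k j m x ih =>
    cases y with
    | nil => exact absurd (pth_Yp_self hD _) h
    | cons i k' j' m' y =>
      have hn : D.n i k ≠ 0 := by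
        have := m.2
        omega
      have hi := hD.hc i k hn
      have h1 := zi_neg_mul (K := K) i hi j j'
      change star (zi K D i j * ed K (NG D) (.f i k m) * pp K D x) *
        (zi K D i j' * ed K (NG D) (.f i k' m') * pp K D y) = 0
      rw [star_mul, star_mul, star_ed, zi_star]
      have h2 : star (pp K D x) * (gh K (NG D) (.f i k m) * zi K D i (-(j : ℤ))) *
          (zi K D i j' * ed K (NG D) (.f i k' m') * pp K D y) =
          star (pp K D x) * (gh K (NG D) (.f i k m) * (zi K D i (-(j : ℤ)) * zi K D i j') *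
            ed K (NG D) (.f i k' m')) * pp K D y := by
        simp only [mul_assoc]
      rw [h2, h1]
      rcases lt_trichotomy j j' with hj | hj | hj
      · obtain ⟨d, hd⟩ : ∃ d : ℕ, j' = j + (d + 1) := ⟨j' - j - 1, by omega⟩
        have h3 : (j' : ℤ) - j = ((d + 1 : ℕ) : ℤ) := by
          rw [hd]
          push_cast
          ring
        rw [h3, pth_gh_zi i k m (d + 1) (Nat.succ_ne_zero d), zero_mul, mul_zero, zero_mul]
      · subst hj
        rw [sub_self, zi_zero, mul_assoc (gh K (NG D) (.f i k m)), pth_vn_f]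
        by_cases he : NE.f (D := D) i k m = NE.f i k' m'
        · cases he
          rw [pth_gh_f, mul_assoc, pth_vn_pp]
          refine ih y ?_
          rintro rfl
          exact h rfl
        · rw [gh_ed_of_ne he, mul_zero, zero_mul]
      · obtain ⟨d, hd⟩ : ∃ d : ℕ, j = j' + (d + 1) := ⟨j - j' - 1, by omega⟩
        have h3 : (j' : ℤ) - j = -((d + 1 : ℕ) : ℤ) := by
          rw [hd]
          push_cast
          ring
        rw [h3, mul_assoc (gh K (NG D) (.f i k m)),
          zi_neg_f i k' m' (d + 1) (Nat.succ_ne_zero d), mul_zero, mul_zero, zero_mul]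

theorem star_pth_ne (hD : D.Ok) {l : I} {p q : YY D l} (h : p ≠ q) :
    star (pth K D p) * pth K D q = 0 := by
  obtain ⟨p, x⟩ := p
  obtain ⟨q, y⟩ := q
  by_cases hpq : p = q
  · subst hpq
    have hxy : x ≠ y := by
      rintro rfl
      exact h rfl
    change star (lk K D p * pp K D x) * (lk K D p * pp K D y) = _
    rw [star_mul, mul_assoc, ← mul_assoc (star (lk K D p)), pth_star_lk, pth_vn_pp,
      pth_star_pp_ne hD x y hxy]
  · exact pth_mul_zero (pth_star_src (vx_pth ⟨p, x⟩)) (vx_pth ⟨q, y⟩) hpq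

/-- a path from `⟨i, none⟩` to itself not ending in `z i` is trivial; there is a nontrivial path
only to elements below -/
theorem Yp_lt (hD : D.Full) {l i : I} (y : Yp D l i) : l ∈ Le D i := by
  induction y with
  | nil => exact Or.inl rfl
  | cons i k j m y ih =>
    have hn : D.n i k ≠ 0 := by
      have := m.2
      omega
    rcases ih with h | h
    · right
      rw [h]
      exact hn
    · exact Or.inr (hD.tr i k l hn h)

theorem Yp_self (hD : D.Ok) {l : I} (y : Yp D l l) : y = .nil :=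
  pth_Yp_self hD y

end Pool.Agent.Helper32.PG
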