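import Pool.Agent.Helper32.PG.Stab
import Pool.Agent.Helper32.LV.RRf

/-! Relations between the classes of the images of the vertices. PIECE 16.

`tr_cyc`: the row `(z, f i k m)` and the column of its adjoints make `v i = z z* + ∑ f f*`
equivalent to the diagonal matrix of `v i` and the `v k`, `k`, `m : Fin (D.n i k)`; all entries
are in `L`, so this can be transported by `φ.f` (entrywise; `φ.f` is additive and multiplicative on
`L`, `RI.f_zero`). `tr_one`: the row of all `lk p` makes `one` equivalent to the diagonal matrix of the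
`v i`, `⟨i, s⟩ : NV D`; do this for `D` (and transport it) and for `D'`; `φ.f (one K D) = one K D'`
since `one` is the unit element of `L`. -/

set_option autoImplicit false
set_option linter.unusedSectionVars false

universe k a a'

namespace Pool.Agent.Helper32.PG

open Pool.Agent.Helper32.LV

variable {I : Type a} [Fintype I] [DecidableEq I] {K : Type k} [Field K] [StarRing K] {D : Dat I}
  {I' : Type a'} [Fintype I'] [DecidableEq I'] {D' : Dat I'}

/-- additivity for finite sums -/
theorem tr_f_sum (φ : RI K (NG D) (NG D')) {ι : Type*} (s : Finset ι) (g : ι → U K (NG D))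
    (h : ∀ x ∈ s, g x ∈ L K (NG D)) : φ.f (∑ x ∈ s, g x) = ∑ x ∈ s, φ.f (g x) := by
  classical
  induction s using Finset.induction_on with
  | empty => rw [Finset.sum_empty, Finset.sum_empty, φ.f_zero]
  | insert a s ha ih =>
    have hs : ∀ x ∈ s, g x ∈ L K (NG D) := fun x hx => h x (Finset.mem_insert_of_mem hx)
    rw [Finset.sum_insert ha, Finset.sum_insert ha,
      φ.f_add _ (h a (Finset.mem_insert_self _ _)) _ (sum_mem hs), ih hs]

/-- a decomposition of an idempotent, transported by `φ` -/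
theorem tr_dec (φ : RI K (NG D) (NG D')) {κ : Type*} [Fintype κ] [DecidableEq κ]
    (e : U K (NG D)) (a b v : κ → U K (NG D)) (ha : ∀ x, a x ∈ L K (NG D))
    (hb : ∀ x, b x ∈ L K (NG D)) (hv : ∀ x, v x * v x = v x) (he : e * e = e)
    (h1 : e = ∑ x, a x * b x) (h2 : ∀ x, b x * a x = v x) (h3 : ∀ x y, x ≠ y → b x * a y = 0) :
    cl (φ.f e) = ∑ x, cl (φ.f (v x)) := by
  have hvm : ∀ x, v x ∈ L K (NG D) := fun x => by
    rw [← h2 x]
    exact (L K (NG D)).mul_mem (hb x) (ha x)
  have hem : e ∈ L K (NG D) := by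
    rw [h1]
    exact sum_mem fun x _ => (L K (NG D)).mul_mem (ha x) (hb x)
  have hfv : ∀ x, φ.f (v x) * φ.f (v x) = φ.f (v x) := fun x => φ.f_idem (hvm x) (hv x)
  have hfe : φ.f e * φ.f e = φ.f e := φ.f_idem hem he
  rw [← cls_diag (fun x => φ.f (v x)) hfv, km_cl,
    cls_eq_iff (km_unit_idem hfe) (km_diag_idem _ hfv)]
  refine ⟨Matrix.of fun _ x => φ.f (a x), Matrix.of fun x _ => φ.f (b x), ?_, ?_⟩
  · ext i j
    rw [Matrix.mul_apply]
    simp only [Matrix.of_apply]
    rw [h1, tr_f_sum φ _ _ fun x _ => (L K (NG D)).mul_mem (ha x) (hb x)]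
    exact Finset.sum_congr rfl fun x _ => (φ.f_mul _ (ha x) _ (hb x)).symm
  · ext x y
    rw [Matrix.mul_apply]
    simp only [Matrix.of_apply, Finset.univ_unique, Finset.sum_singleton]
    rw [← φ.f_mul _ (hb x) _ (ha y)]
    by_cases h : x = y
    · subst h
      rw [h2, Matrix.diagonal_apply_eq]
    · rw [h3 x y h, Matrix.diagonal_apply_ne _ h, φ.f_zero]

theorem tr_cyc (φ : RI K (NG D) (NG D')) (i : I) (hi : D.cyc i) :
    cl (φ.f (vn K D i)) + ∑ k, D.n i k • cl (φ.f (vn K D k)) = cl (φ.f (vn K D i)) := by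
  let A : Option (Σ k, Fin (D.n i k)) → NE D := fun x => match x with
    | none => .z i hi
    | some p => .f i p.1 p.2
  let T : Option (Σ k, Fin (D.n i k)) → I := fun x => match x with
    | none => i
    | some p => p.1
  have hA : Function.Injective A := by
    intro x y h
    rcases x with _ | ⟨j, m⟩ <;> rcases y with _ | ⟨j', m'⟩
    · rfl
    · have h' : NE.z (D := D) i hi = NE.f i j' m' := h
      cases h'
    · have h' : NE.f (D := D) i j m = NE.z i hi := h
      cases h'
    · have h' : NE.f (D := D) i j m = NE.f i j' m' := h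
      cases h'
      rfl
  have hr : ∀ x, (NG D).r (A x) = ⟨T x, none⟩ := by
    rintro (_ | ⟨j, m⟩)
    · rfl
    · rfl
  have key := tr_dec φ (vn K D i) (fun x => ed K (NG D) (A x)) (fun x => gh K (NG D) (A x))
    (fun x => vn K D (T x)) (fun x => ed_mem _) (fun x => gh_mem _) (fun x => vx_vx _) (vx_vx _)
    (by
      rw [pth_v_eq (K := K) i hi, Fintype.sum_option, Fintype.sum_sigma])
    (fun x => by rw [gh_ed, hr])
    (fun x y h => gh_ed_of_ne fun h' => h (hA h'))
  rw [Fintype.sum_option, Fintype.sum_sigma] at key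
  have h2 : ∀ k, ∑ _m : Fin (D.n i k), cl (φ.f (vn K D k)) = D.n i k • cl (φ.f (vn K D k)) := by
    intro k
    rw [Finset.sum_const, Finset.card_univ, Fintype.card_fin]
  have h3 : cl (φ.f (vn K D i)) = cl (φ.f (vn K D i)) +
      ∑ k, ∑ _m : Fin (D.n i k), cl (φ.f (vn K D k)) := key
  rw [Finset.sum_congr rfl fun k _ => h2 k] at h3
  exact h3.symm

theorem tr_lk_star (p : NV D) : lk K D p * star (lk K D p) = vx K (NG D) p := by
  obtain ⟨i, s⟩ := p
  cases s with
  | none =>
    change vx K (NG D) ⟨i, none⟩ * star (vx K (NG D) ⟨i, none⟩) = _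
    rw [star_vx, vx_vx]
  | some s =>
    change ed K (NG D) (.g i s) * star (ed K (NG D) (.g i s)) = _
    rw [star_ed, ← pth_g_g]

theorem tr_vx_one (p : NV D) : vx K (NG D) p * one K D = vx K (NG D) p := by
  unfold one
  rw [Finset.mul_sum, Finset.sum_eq_single p]
  · exact vx_vx p
  · intro q _ hq
    exact vx_vx_of_ne hq.symm
  · intro h
    exact absurd (Finset.mem_univ _) h

theorem tr_one_vx (p : NV D) : one K D * vx K (NG D) p = vx K (NG D) p := by
  unfold one
  rw [Finset.sum_mul, Finset.sum_eq_single p]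
  · exact vx_vx p
  · intro q _ hq
    exact vx_vx_of_ne hq
  · intro h
    exact absurd (Finset.mem_univ _) h

theorem tr_one_mem : one K D ∈ L K (NG D) := by
  unfold one
  exact sum_mem fun p _ => vx_mem p

theorem tr_one_mul {x : U K (NG D)} (h : x ∈ L K (NG D)) : one K D * x = x := by
  refine L_ind (p := fun x => one K D * x = x) ?_ ?_ ?_ ?_ ?_ ?_ ?_ h
  · intro v
    exact tr_one_vx v
  · intro e
    rw [← vx_ed e, ← mul_assoc, tr_one_vx]
  · intro e
    rw [← vx_gh e, ← mul_assoc, tr_one_vx]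
  · exact mul_zero _
  · intro x _ y _ hx hy
    rw [mul_add, hx, hy]
  · intro x _ y _ hx _
    rw [← mul_assoc, hx]
  · intro c x _ hx
    rw [mul_smul_comm, hx]

theorem tr_mul_one {x : U K (NG D)} (h : x ∈ L K (NG D)) : x * one K D = x := by
  refine L_ind (p := fun x => x * one K D = x) ?_ ?_ ?_ ?_ ?_ ?_ ?_ h
  · intro v
    exact tr_vx_one v
  · intro e
    rw [← ed_vx e, mul_assoc, tr_vx_one]
  · intro e
    rw [← gh_vx e, mul_assoc, tr_vx_one]
  · exact zero_mul _
  · intro x _ y _ hx hy
    rw [add_mul, hx, hy]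
  · intro x _ y _ _ hy
    rw [mul_assoc, hy]
  · intro c x _ hx
    rw [smul_mul_assoc, hx]

theorem tr_f_one (φ : RI K (NG D) (NG D')) : φ.f (one K D) = one K D' := by
  have h1 : φ.f (one K D) * one K D' = φ.f (one K D) := tr_mul_one (φ.f_mem _ tr_one_mem)
  have h2 : φ.f (one K D) * φ.f (φ.g (one K D')) = φ.f (φ.g (one K D')) := by
    rw [← φ.f_mul _ tr_one_mem _ (φ.g_mem _ tr_one_mem), tr_one_mul (φ.g_mem _ tr_one_mem)]
  rw [φ.fg _ tr_one_mem] at h2
  rw [← h1, h2]

theorem tr_cl_one (φ : RI K (NG D) (NG D')) :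
    cl (φ.f (one K D)) = ∑ i, (D.a i + 1) • cl (φ.f (vn K D i)) := by
  have key := tr_dec φ (one K D) (fun p : NV D => lk K D p) (fun p => star (lk K D p))
    (fun p => vn K D p.1) (fun p => pth_lk_mem p) (fun p => star_mem_L (pth_lk_mem p))
    (fun p => vx_vx _) (tr_one_mul tr_one_mem)
    (by
      unfold one
      exact Finset.sum_congr rfl fun p _ => (tr_lk_star p).symm)
    (fun p => pth_star_lk p)
    (fun p q h => pth_mul_zero (pth_star_src (pth_vx_lk p)) (pth_vx_lk q) h)
  rw [key, Fintype.sum_sigma]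
  refine Finset.sum_congr rfl fun i _ => ?_
  change ∑ _s : Option (Fin (D.a i)), cl (φ.f (vn K D i)) = _
  rw [Finset.sum_const, Finset.card_univ, Fintype.card_option, Fintype.card_fin]

theorem tr_one (φ : RI K (NG D) (NG D')) :
    ∑ i, (D.a i + 1) • cl (φ.f (vn K D i)) = cv K D' (fun k => D'.a k + 1) := by
  let ψ : RI K (NG D') (NG D') :=
    { f := id
      g := id
      f_mem := fun _ h => h
      g_mem := fun _ h => h
      f_add := fun _ _ _ _ => rfl
      f_mul := fun _ _ _ _ => rfl
      g_add := fun _ _ _ _ => rfl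
      g_mul := fun _ _ _ _ => rfl
      gf := fun _ _ => rfl
      fg := fun _ _ => rfl }
  have h := tr_cl_one ψ
  rw [← tr_cl_one φ, tr_f_one φ]
  exact h

end Pool.Agent.Helper32.PG
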