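import Pool.Agent.Helper32.PG.Index
import Pool.Agent.Helper32.PG.Pm
import Pool.Agent.Helper32.PG.Tr

/-! The matrices of a ring isomorphism. PIECE 17.

Let `c i`, `d i` be as in `exists_P` and `P i k = d i (σ k) - c i (σ k)`. `exists_Q1`: add
`cv (c i) + ∑ n i k • cv (c k)` to `tr_cyc` and use `exists_P`: the two sums of vertices
`cv (d i) + ∑ n i k • cv (d k)` and `cv (d i) + ∑ n i k • cv (c k)` are equal; apply `index`.
`exists_y`: the same with `tr_one`. `Q_diag`: if `i` has exits let `l` be a maximal element of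
`Lt D i` (no `j` with `n i j ≠ 0`, `n j l ≠ 0`; use `hD.hr`). The equation at `l` is
`n i l = q * n' (σ i) (σ l)`, where `q = Q i i`. The same for the inverse `φ.symm`, `s.symm` at the
element `σ i` and the same `l` gives `n' (σ i) (σ l) = q' * n i l`; hence `q * q' = 1` and `q > 0`,
so `q = 1`. If `i` has no exits, both sides are zero and `Q i = Pi.single i 1` will do; the same
for a sink. -/

set_option autoImplicit false
set_option linter.unusedSectionVars false

universe k a a'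

namespace Pool.Agent.Helper32.PG

open Pool.Agent.Helper32.LV

variable {I : Type a} [Fintype I] [DecidableEq I] {K : Type k} [Field K] [StarRing K] {D : Dat I}
  {I' : Type a'} [Fintype I'] [DecidableEq I'] {D' : Dat I'}

theorem rel_cv_zero : cv K D (0 : I → ℕ) = 0 := by
  unfold cv
  exact Finset.sum_eq_zero fun k _ => zero_nsmul _

theorem rel_cv_add (c d : I → ℕ) : cv K D (c + d) = cv K D c + cv K D d := by
  unfold cv
  rw [← Finset.sum_add_distrib]
  exact Finset.sum_congr rfl fun k _ => add_nsmul _ _ _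

theorem rel_cv_smul (m : ℕ) (c : I → ℕ) : cv K D (m • c) = m • cv K D c := by
  induction m with
  | zero => rw [zero_nsmul, zero_nsmul, rel_cv_zero]
  | succ m ih => rw [succ_nsmul, succ_nsmul, rel_cv_add, ih]

theorem rel_cv_sum {J : Type*} [Fintype J] (w : J → ℕ) (c : J → I → ℕ) :
    cv K D (∑ j, w j • c j) = ∑ j, w j • cv K D (c j) := by
  classical
  have h : ∀ S : Finset J, cv K D (∑ j ∈ S, w j • c j) = ∑ j ∈ S, w j • cv K D (c j) := by
    intro S
    induction S using Finset.induction_on with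
    | empty => rw [Finset.sum_empty, Finset.sum_empty, rel_cv_zero]
    | insert a S ha ih => rw [Finset.sum_insert ha, Finset.sum_insert ha, rel_cv_add, rel_cv_smul, ih]
  exact h Finset.univ

theorem rel_sum_apply {J : Type*} [Fintype J] (w : J → ℕ) (c : J → I → ℕ) (l : I) :
    (∑ j, w j • c j) l = ∑ j, w j * c j l := by
  rw [Finset.sum_apply]
  exact Finset.sum_congr rfl fun j _ => by rw [Pi.smul_apply, smul_eq_mul]

theorem rel_Le_trans (hD : D.Full) {i j k : I} (h : j ∈ Le D i) (h' : k ∈ Le D j) : k ∈ Le D i := by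
  rcases h with rfl | h
  · exact h'
  · rcases h' with rfl | h'
    · exact Or.inr h
    · exact Or.inr (hD.tr i j k h h')

theorem exists_Q1 (hD : D.Full) (hD' : D'.Full) {φ : RI K (NG D) (NG D')} (s : Sg φ)
    (c d : I → I' → ℕ) (h1 : ∀ i k, k ∉ Le D' (s.σ i) → c i k = 0 ∧ d i k = 0)
    (h3 : ∀ i, cl (φ.f (vn K D i)) + cv K D' (c i) = cv K D' (d i)) (i : I) :
    ∃ x : I' → ℤ, (∀ k, k ∉ Le D' (s.σ i) → x k = 0) ∧
      ∀ l, ∑ k, (D.n i k : ℤ) * (d k l - c k l) = ∑ k, x k * D'.n k l := by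
  classical
  by_cases hi : D.cyc i
  · obtain ⟨R⟩ := exists_Reps K D' hD'.toOk
    have ht := tr_cyc φ i hi
    have e1 : cv K D' (d i + ∑ k, D.n i k • c k) = cv K D' (d i + ∑ k, D.n i k • d k) := by
      rw [rel_cv_add, rel_cv_add, rel_cv_sum, rel_cv_sum, ← h3 i]
      have e2 : ∑ k, D.n i k • cv K D' (d k) =
          ∑ k, D.n i k • cl (φ.f (vn K D k)) + ∑ k, D.n i k • cv K D' (c k) := by
        rw [← Finset.sum_add_distrib]
        exact Finset.sum_congr rfl fun k _ => by rw [← h3 k, nsmul_add]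
      rw [e2]
      calc cl (φ.f (vn K D i)) + cv K D' (c i) + ∑ k, D.n i k • cv K D' (c k)
          = (cl (φ.f (vn K D i)) + ∑ k, D.n i k • cl (φ.f (vn K D k))) + cv K D' (c i) +
            ∑ k, D.n i k • cv K D' (c k) := by rw [ht]
        _ = cl (φ.f (vn K D i)) + cv K D' (c i) +
            (∑ k, D.n i k • cl (φ.f (vn K D k)) + ∑ k, D.n i k • cv K D' (c k)) := by abel
    obtain ⟨x, hx1, hx2⟩ := index hD' R _ _ e1
    refine ⟨x, ?_, ?_⟩
    · intro k hk
      apply hx1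
      intro j hj hkj
      apply hk
      refine rel_Le_trans hD' ?_ hkj
      by_contra hji
      have hz : ∀ m, D.n i m * c m j = 0 ∧ D.n i m * d m j = 0 := by
        intro m
        by_cases hm : D.n i m = 0
        · rw [hm, zero_mul, zero_mul]
          exact ⟨rfl, rfl⟩
        · have hjm : j ∉ Le D' (s.σ m) := fun h =>
            hji (rel_Le_trans hD' (Or.inr ((s.n_iff i m).2 hm)) h)
          rw [(h1 m j hjm).1, (h1 m j hjm).2, mul_zero]
          exact ⟨rfl, rfl⟩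
      rcases hj with hj | hj
      · apply hj
        rw [Pi.add_apply, rel_sum_apply, (h1 i j hji).2, zero_add]
        exact Finset.sum_eq_zero fun m _ => (hz m).1
      · apply hj
        rw [Pi.add_apply, rel_sum_apply, (h1 i j hji).2, zero_add]
        exact Finset.sum_eq_zero fun m _ => (hz m).2
    · intro l
      rw [← hx2 l, Pi.add_apply, Pi.add_apply, rel_sum_apply, rel_sum_apply]
      push_cast
      rw [add_sub_add_left_eq_sub, ← Finset.sum_sub_distrib]
      exact Finset.sum_congr rfl fun k _ => by ring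
  · have hn : ∀ k, D.n i k = 0 := fun k => by
      by_contra h
      exact hi (hD.hc i k h)
    refine ⟨0, fun _ _ => rfl, fun l => ?_⟩
    rw [Finset.sum_eq_zero fun k _ => by rw [hn k, Nat.cast_zero, zero_mul],
      Finset.sum_eq_zero fun k _ => by rw [Pi.zero_apply, zero_mul]]

theorem exists_y (hD : D.Full) (hD' : D'.Full) {φ : RI K (NG D) (NG D')} (s : Sg φ)
    (c d : I → I' → ℕ)
    (h3 : ∀ i, cl (φ.f (vn K D i)) + cv K D' (c i) = cv K D' (d i)) :
    ∃ y : I' → ℤ, ∀ l, ∑ i, ((D.a i : ℤ) + 1) * (d i l - c i l) =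
      (D'.a l + 1) + ∑ k, y k * D'.n k l := by
  classical
  obtain ⟨R⟩ := exists_Reps K D' hD'.toOk
  have ht := tr_one φ
  have e1 : cv K D' ((fun k => D'.a k + 1) + ∑ i, (D.a i + 1) • c i) =
      cv K D' (∑ i, (D.a i + 1) • d i) := by
    rw [rel_cv_add, rel_cv_sum, rel_cv_sum, ← ht, ← Finset.sum_add_distrib]
    exact Finset.sum_congr rfl fun k _ => by rw [← h3 k, nsmul_add]
  obtain ⟨y, -, hy⟩ := index hD' R _ _ e1
  refine ⟨y, fun l => ?_⟩
  rw [← hy l, Pi.add_apply, rel_sum_apply, rel_sum_apply]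
  push_cast
  have e2 : ∑ i, ((D.a i : ℤ) + 1) * ((d i l : ℤ) - c i l) =
      ∑ i, ((D.a i : ℤ) + 1) * (d i l : ℤ) - ∑ i, ((D.a i : ℤ) + 1) * (c i l : ℤ) := by
    rw [← Finset.sum_sub_distrib]
    exact Finset.sum_congr rfl fun k _ => by ring
  rw [e2]
  ring

/-- the relation between the data of two isomorphic algebras -/
structure PQ (D : Dat I) (D' : Dat I') where
  σ : I ≃ I'
  cyc_iff : ∀ i, D'.cyc (σ i) ↔ D.cyc i
  n_iff : ∀ i k, D'.n (σ i) (σ k) ≠ 0 ↔ D.n i k ≠ 0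
  P : I → I → ℤ
  Q : I → I → ℤ
  y : I → ℤ
  P1 : ∀ i, P i i = 1
  Q1 : ∀ i, Q i i = 1
  P0 : ∀ i k, k ∉ Le D i → P i k = 0
  Q0 : ∀ i k, k ∉ Le D i → Q i k = 0
  eq : ∀ i l, ∑ k, (D.n i k : ℤ) * P k l = ∑ k, Q i k * D'.n (σ k) (σ l)
  eu : ∀ l, ∑ i, ((D.a i : ℤ) + 1) * P i l = (D'.a (σ l) + 1) + ∑ k, y k * D'.n (σ k) (σ l)

theorem rel_max {φ : RI K (NG D) (NG D')} (s : Sg φ)
    (c d : I → I' → ℕ) (h1 : ∀ i k, k ∉ Le D' (s.σ i) → c i k = 0 ∧ d i k = 0)
    (h2 : ∀ i, d i (s.σ i) = c i (s.σ i) + 1) {i l : I} (hl : D.n i l ≠ 0)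
    (hm : ∀ j, D.n i j ≠ 0 → D.n j l = 0) (x : I' → ℤ)
    (hx : ∀ k, k ∉ Le D' (s.σ i) → x k = 0)
    (he : ∑ k, (D.n i k : ℤ) * (d k (s.σ l) - c k (s.σ l)) = ∑ k, x k * D'.n k (s.σ l)) :
    (D.n i l : ℤ) = x (s.σ i) * D'.n (s.σ i) (s.σ l) := by
  classical
  have e1 : ∑ k, (D.n i k : ℤ) * (d k (s.σ l) - c k (s.σ l)) = D.n i l := by
    rw [Finset.sum_eq_single l]
    · rw [h2 l]
      push_cast
      ring
    · intro k _ hk
      by_cases hk0 : D.n i k = 0
      · rw [hk0, Nat.cast_zero, zero_mul]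
      · have h4 : s.σ l ∉ Le D' (s.σ k) := by
          rintro (h | h)
          · exact hk (s.σ.injective h).symm
          · exact ((s.n_iff k l).1 h) (hm k hk0)
        rw [(h1 k _ h4).1, (h1 k _ h4).2]
        simp
    · intro h
      exact absurd (Finset.mem_univ l) h
  have e2 : ∑ k, x k * (D'.n k (s.σ l) : ℤ) = x (s.σ i) * D'.n (s.σ i) (s.σ l) := by
    rw [Finset.sum_eq_single (s.σ i)]
    · intro k _ hk
      by_cases hk0 : k ∈ Le D' (s.σ i)
      · rcases hk0 with hk0 | hk0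
        · exact absurd hk0 hk
        · obtain ⟨j, rfl⟩ := s.σ.surjective k
          have h4 : D.n i j ≠ 0 := (s.n_iff i j).1 hk0
          have h5 : D'.n (s.σ j) (s.σ l) = 0 := by
            by_contra h
            exact ((s.n_iff j l).1 h) (hm j h4)
          rw [h5, Nat.cast_zero, mul_zero]
      · rw [hx k hk0, zero_mul]
    · intro h
      exact absurd (Finset.mem_univ _) h
  rw [← e1, he, e2]

theorem rel_dvd (hD : D.Full) (hD' : D'.Full) {φ : RI K (NG D) (NG D')} (s : Sg φ) {i l : I}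
    (hl : D.n i l ≠ 0) (hm : ∀ j, D.n i j ≠ 0 → D.n j l = 0) :
    ∃ q : ℤ, (D.n i l : ℤ) = q * D'.n (s.σ i) (s.σ l) := by
  choose c d h1 h2 h3 using exists_P hD hD' s
  obtain ⟨x, hx1, hx2⟩ := exists_Q1 hD hD' s c d h1 h3 i
  exact ⟨x (s.σ i), rel_max s c d h1 h2 hl hm x hx1 (hx2 _)⟩

theorem rel_dvd' (hD : D.Full) (hD' : D'.Full) {φ : RI K (NG D) (NG D')} (s : Sg φ) {i l : I}
    (hl : D.n i l ≠ 0) (hm : ∀ j, D.n i j ≠ 0 → D.n j l = 0) :
    ∃ q : ℤ, (D'.n (s.σ i) (s.σ l) : ℤ) = q * D.n i l := by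
  obtain ⟨q, hq⟩ := rel_dvd hD' hD s.symm (i := s.σ i) (l := s.σ l) ((s.n_iff i l).2 hl) (by
    intro j hj
    obtain ⟨k, rfl⟩ := s.σ.surjective j
    by_contra h
    exact (s.n_iff k l).1 h (hm k ((s.n_iff i k).1 hj)))
  refine ⟨q, ?_⟩
  rw [hq]
  change q * (D.n (s.σ.symm (s.σ i)) (s.σ.symm (s.σ l)) : ℤ) = _
  rw [s.σ.symm_apply_apply, s.σ.symm_apply_apply]

/-- there is a maximal element below `i` -/
theorem rel_ex_max (hD : D.Full) {i : I} (hi : ∃ l, D.n i l ≠ 0) :
    ∃ l, D.n i l ≠ 0 ∧ ∀ j, D.n i j ≠ 0 → D.n j l = 0 := by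
  classical
  obtain ⟨ρ, hρ⟩ := hD.hr
  obtain ⟨l0, hl0⟩ := hi
  obtain ⟨l, hl, hmax⟩ := Finset.exists_max_image (Finset.univ.filter fun l => D.n i l ≠ 0) ρ
    ⟨l0, by simpa using hl0⟩
  refine ⟨l, by simpa using hl, fun j hj => ?_⟩
  by_contra h
  have h4 := hmax j (by simpa using hj)
  have h5 := hρ j l h
  omega

theorem exists_PQ (hD : D.Full) (hD' : D'.Full) (φ : RI K (NG D) (NG D')) :
    Nonempty (PQ D D') := by
  classical
  obtain ⟨s⟩ := exists_Sg hD hD' φ
  choose c d h1 h2 h3 using exists_P hD hD' s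
  choose x hx1 hx2 using exists_Q1 hD hD' s c d h1 h3
  obtain ⟨y, hy⟩ := exists_y hD hD' s c d h3
  have hLe : ∀ i k, k ∉ Le D i → s.σ k ∉ Le D' (s.σ i) := by
    rintro i k hk (h | h)
    · exact hk (Or.inl (s.σ.injective h))
    · exact hk (Or.inr ((s.n_iff i k).1 h))
  refine ⟨{
    σ := s.σ
    cyc_iff := cyc_iff hD hD' s
    n_iff := s.n_iff
    P := fun i k => d i (s.σ k) - c i (s.σ k)
    Q := fun i k => if (∃ l, D.n i l ≠ 0) then x i (s.σ k) else if k = i then 1 else 0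
    y := fun k => y (s.σ k)
    P1 := ?_
    Q1 := ?_
    P0 := ?_
    Q0 := ?_
    eq := ?_
    eu := ?_ }⟩
  · intro i
    rw [h2 i]
    push_cast
    ring
  · intro i
    by_cases hi : ∃ l, D.n i l ≠ 0
    · rw [if_pos hi]
      obtain ⟨l, hl, hm⟩ := rel_ex_max hD hi
      have e1 := rel_max s c d h1 h2 hl hm (x i) (hx1 i) (hx2 i _)
      obtain ⟨q', e2⟩ := rel_dvd' hD hD' s hl hm
      have p1 : (0 : ℤ) < D.n i l := by exact_mod_cast Nat.pos_of_ne_zero hl
      have p2 : (0 : ℤ) < D'.n (s.σ i) (s.σ l) := by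
        exact_mod_cast Nat.pos_of_ne_zero ((s.n_iff i l).2 hl)
      have p3 : 0 < x i (s.σ i) := by
        rw [e1] at p1
        exact pos_of_mul_pos_left p1 p2.le
      have e3 : x i (s.σ i) * q' = 1 := by
        have e4 : (x i (s.σ i) * q') * (D.n i l : ℤ) = 1 * D.n i l := by
          rw [mul_assoc, ← e2, ← e1, one_mul]
        exact mul_right_cancel₀ p1.ne' e4
      exact Int.eq_one_of_mul_eq_one_right p3.le e3
    · rw [if_neg hi, if_pos rfl]
  · intro i k hk
    rw [(h1 i _ (hLe i k hk)).1, (h1 i _ (hLe i k hk)).2]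
    simp
  · intro i k hk
    by_cases hi : ∃ l, D.n i l ≠ 0
    · rw [if_pos hi]
      exact hx1 i _ (hLe i k hk)
    · rw [if_neg hi, if_neg]
      rintro rfl
      exact hk (Or.inl rfl)
  · intro i l
    by_cases hi : ∃ l, D.n i l ≠ 0
    · rw [hx2 i (s.σ l), ← s.σ.sum_comp]
      exact Finset.sum_congr rfl fun k _ => by rw [if_pos hi]
    · have hn : ∀ k, D.n i k = 0 := fun k => by
        by_contra h
        exact hi ⟨k, h⟩
      have hn' : D'.n (s.σ i) (s.σ l) = 0 := by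
        by_contra h
        exact (s.n_iff i l).1 h (hn l)
      rw [Finset.sum_eq_zero fun k _ => by rw [hn k, Nat.cast_zero, zero_mul],
        Finset.sum_eq_zero]
      intro k _
      rw [if_neg hi]
      by_cases hk : k = i
      · rw [hk, hn', Nat.cast_zero, mul_zero]
      · rw [if_neg hk, zero_mul]
  · intro l
    rw [hy (s.σ l), ← s.σ.sum_comp]

end Pool.Agent.Helper32.PG
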