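import Pool.Agent.Helper32.PG.Gen
import Pool.Agent.Helper32.LV.RRf

/-! The matching of the components. PIECE 9.

For an idempotent `e` in `L` the ideal `gn (φ e)` is the image of `gn e`. By `gen_idem`,
`gn (φ (v i)) = J H'` for a lower set `H'`. For `k ∈ H'` let `gn (g (v' k)) = J (Ψ k)`; then
`Ψ k ⊆ Le i`, and since `φ (v i)` is in the sum of the ideals generated by the `v' k`, `k ∈ H'`,
`v i` is in the union of the `J (Ψ k)`, which is `J (⋃ k, Ψ k)`, so `i ∈ Ψ k` for some `k`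
(`vn_not_mem`), and `J (Ψ k) = J (Le i)`, `H' = Le k`. Put `σ i = k`. The same for the inverse gives
the inverse of `σ`; `k ∈ Le i` iff `v k ∈ gn (v i)`. -/

set_option autoImplicit false
set_option linter.unusedSectionVars false

universe k a a'

namespace Pool.Agent.Helper32.PG

open Pool.Agent.Helper32.LV

variable {I : Type a} [Fintype I] [DecidableEq I] {K : Type k} [Field K] [StarRing K] {D : Dat I}
  {I' : Type a'} [Fintype I'] [DecidableEq I'] {D' : Dat I'}

/-- the matching -/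
structure Sg (φ : RI K (NG D) (NG D')) where
  σ : I ≃ I'
  n_iff : ∀ i k, D'.n (σ i) (σ k) ≠ 0 ↔ D.n i k ≠ 0
  f_mem : ∀ i, φ.f (vn K D i) ∈ J K D' (Le D' (σ i))
  g_mem : ∀ i, φ.g (vn K D' (σ i)) ∈ J K D (Le D i)

/-- the inverse -/
def Sg.symm {φ : RI K (NG D) (NG D')} (s : Sg φ) : Sg φ.symm where
  σ := s.σ.symm
  n_iff i k := by
    have := s.n_iff (s.σ.symm i) (s.σ.symm k)
    rw [s.σ.apply_symm_apply, s.σ.apply_symm_apply] at this
    exact this.symm
  f_mem i := by
    have := s.g_mem (s.σ.symm i)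
    rw [s.σ.apply_symm_apply] at this
    exact this
  g_mem i := by
    have := s.f_mem (s.σ.symm i)
    rw [s.σ.apply_symm_apply] at this
    exact this

/-- `L` is an ideal -/
theorem sig_ideal (x : U K (NG D)) : ∀ z ∈ L K (NG D), x * z ∈ L K (NG D) ∧ z * x ∈ L K (NG D) := by
  refine U_ind (p := fun x => ∀ z ∈ L K (NG D), x * z ∈ L K (NG D) ∧ z * x ∈ L K (NG D))
    ?_ ?_ ?_ ?_ ?_ ?_ x
  · intro c z hz
    refine ⟨?_, ?_⟩
    · rw [← Algebra.smul_def]
      exact (L K (NG D)).smul_mem c hz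
    · rw [← Algebra.commutes, ← Algebra.smul_def]
      exact (L K (NG D)).smul_mem c hz
  · intro v z hz
    exact ⟨(L K (NG D)).mul_mem (vx_mem v) hz, (L K (NG D)).mul_mem hz (vx_mem v)⟩
  · intro v z hz
    exact ⟨(L K (NG D)).mul_mem (ed_mem v) hz, (L K (NG D)).mul_mem hz (ed_mem v)⟩
  · intro v z hz
    exact ⟨(L K (NG D)).mul_mem (gh_mem v) hz, (L K (NG D)).mul_mem hz (gh_mem v)⟩
  · intro x y hx hy z hz
    rw [add_mul, mul_add]
    exact ⟨(L K (NG D)).add_mem (hx z hz).1 (hy z hz).1, (L K (NG D)).add_mem (hx z hz).2 (hy z hz).2⟩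
  · intro x y hx hy z hz
    rw [mul_assoc, ← mul_assoc z x y]
    exact ⟨(hx _ (hy z hz).1).1, (hy _ (hx z hz).2).2⟩

/-- images of elements of a span -/
theorem sig_span (φ : RI K (NG D) (NG D')) {S : Set (U K (NG D))}
    {W : Submodule K (U K (NG D'))}
    (hS : ∀ x ∈ S, ∀ c : K, c • x ∈ L K (NG D) ∧ φ.f (c • x) ∈ W) {x : U K (NG D)}
    (hx : x ∈ Submodule.span K S) : ∀ c : K, c • x ∈ L K (NG D) ∧ φ.f (c • x) ∈ W := by
  induction hx using Submodule.span_induction with
  | mem x h => exact hS x h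
  | zero =>
    intro c
    rw [smul_zero]
    exact ⟨(L K (NG D)).zero_mem, by rw [φ.f_zero]; exact W.zero_mem⟩
  | add x y _ _ h1 h2 =>
    intro c
    rw [smul_add]
    refine ⟨(L K (NG D)).add_mem (h1 c).1 (h2 c).1, ?_⟩
    rw [φ.f_add _ (h1 c).1 _ (h2 c).1]
    exact W.add_mem (h1 c).2 (h2 c).2
  | smul a x _ h =>
    intro c
    rw [smul_smul]
    exact h (c * a)

/-- images of products `a * e * b` with an idempotent `e` -/
theorem sig_prod (φ : RI K (NG D) (NG D')) {e : U K (NG D)} (he : e * e = e)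
    (hL : e ∈ L K (NG D)) {W : Submodule K (U K (NG D'))} (hl : ∀ a, ∀ x ∈ W, a * x ∈ W)
    (hr : ∀ a, ∀ x ∈ W, x * a ∈ W) (h : φ.f e ∈ W) (a b : U K (NG D)) :
    ∀ c : K, c • (a * e * b) ∈ L K (NG D) ∧ φ.f (c • (a * e * b)) ∈ W := by
  intro c
  have h1 : c • (a * e * b) = ((c • a) * e) * e * (e * b) := by
    have h2 : ((c • a) * e) * e * (e * b) = (c • a) * (e * (e * e)) * b := by noncomm_ring
    rw [h2, he, he, smul_mul_assoc, smul_mul_assoc]
  have m1 : (c • a) * e ∈ L K (NG D) := (sig_ideal _ _ hL).1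
  have m2 : e * b ∈ L K (NG D) := (sig_ideal _ _ hL).2
  rw [h1]
  refine ⟨(L K (NG D)).mul_mem ((L K (NG D)).mul_mem m1 hL) m2, ?_⟩
  rw [φ.f_mul _ ((L K (NG D)).mul_mem m1 hL) _ m2, φ.f_mul _ m1 _ hL]
  exact hr _ _ (hl _ _ h)

theorem sig_vn (i : I) : vn K D i * vn K D i = vn K D i := vx_vx _

/-- `x = ∑ (b v) v (v c)` with factors in `L` -/
theorem map_J (φ : RI K (NG D) (NG D')) {H : Set I} {H' : Set I'}
    (h : ∀ i ∈ H, φ.f (vn K D i) ∈ J K D' H') {x : U K (NG D)} (hx : x ∈ J K D H) :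
    φ.f x ∈ J K D' H' := by
  have h1 := sig_span φ (W := J K D' H') (S := {x | ∃ i ∈ H, ∃ a b, x = a * vn K D i * b}) (by
    rintro y ⟨i, hi, a, b, rfl⟩
    exact sig_prod φ (sig_vn i) (vx_mem _) (fun a x hx => J_mul_left a hx)
      (fun a x hx => J_mul_right hx a) (h i hi) a b) hx 1
  rw [one_smul] at h1
  exact h1.2

theorem sig_self {H : Set I} {i : I} (hi : i ∈ H) : vn K D i ∈ J K D H :=
  vx_mem_J ⟨i, none⟩ hi

theorem sig_Le {H : Set I} {i : I} (h : vn K D i ∈ J K D H) {x : U K (NG D)}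
    (hx : x ∈ J K D (Le D i)) : x ∈ J K D H := by
  refine J_le_of (fun a x hx => J_mul_left a hx) (fun a x hx => J_mul_right hx a) ?_ hx
  intro k hk
  rcases hk with rfl | hk
  · exact h
  · exact vn_mem_J_of_n h hk

theorem Sg.map_Le {φ : RI K (NG D) (NG D')} (s : Sg φ) (i : I) {x : U K (NG D)}
    (hx : x ∈ J K D (Le D i)) : φ.f x ∈ J K D' (Le D' (s.σ i)) := by
  have h : x ∈ J K D {i} := sig_Le (sig_self (Set.mem_singleton i)) hx
  refine map_J φ ?_ h
  rintro k rfl
  exact s.f_mem k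

theorem Sg.map_Lt {φ : RI K (NG D) (NG D')} (s : Sg φ) (i : I) {x : U K (NG D)}
    (hx : x ∈ J K D (Lt D i)) : φ.f x ∈ J K D' (Lt D' (s.σ i)) := by
  refine map_J φ ?_ hx
  intro k hk
  have h1 : D'.n (s.σ i) (s.σ k) ≠ 0 := (s.n_iff i k).2 hk
  exact sig_Le (sig_self h1) (s.f_mem k)

/-- images of the ideal generated by an idempotent -/
theorem sig_gn (φ : RI K (NG D) (NG D')) {e : U K (NG D)} (he : e * e = e)
    (hL : e ∈ L K (NG D)) {W : Submodule K (U K (NG D'))} (hl : ∀ a, ∀ x ∈ W, a * x ∈ W)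
    (hr : ∀ a, ∀ x ∈ W, x * a ∈ W) (h : φ.f e ∈ W) {x : U K (NG D)} (hx : x ∈ gn K D e) :
    φ.f x ∈ W := by
  have h1 := sig_span φ (W := W) (S := {x | ∃ a b, x = a * e * b}) (by
    rintro y ⟨a, b, rfl⟩
    exact sig_prod φ he hL hl hr h a b) hx 1
  rw [one_smul] at h1
  exact h1.2

theorem sig_gn_le {e : U K (NG D)} {H : Set I} (h : e ∈ J K D H) {x : U K (NG D)}
    (hx : x ∈ gn K D e) : x ∈ J K D H := by
  have : gn K D e ≤ J K D H := by
    refine Submodule.span_le.2 ?_
    rintro y ⟨a, b, rfl⟩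
    exact J_mul_right (J_mul_left a h) b
  exact this hx

theorem sig_mem (hD : D.Full) {G : Set I} (hG : Low D G) {i : I} (h : vn K D i ∈ J K D G) :
    i ∈ G := by
  by_contra hc
  exact vn_not_mem hD i hG hc h

theorem sig_low (hD : D.Full) (i : I) : Low D (Le D i) := by
  intro j hj k hk
  rcases hj with rfl | hj
  · exact Or.inr hk
  · exact Or.inr (hD.tr i j k hj hk)

theorem sig_no (hD : D.Full) (i : I) : D.n i i = 0 := by
  obtain ⟨ρ, hρ⟩ := hD.hr
  by_contra h
  exact lt_irrefl _ (hρ i i h)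

theorem sig_anti (hD : D.Full) {i k : I} (h1 : i ∈ Le D k) (h2 : k ∈ Le D i) : i = k := by
  rcases h1 with h1 | h1
  · exact h1
  · rcases h2 with h2 | h2
    · exact h2.symm
    · exact absurd (sig_no hD i) (hD.tr i k i h2 h1)

/-- the partner of a component -/
theorem sig_ex (hD : D.Full) (hD' : D'.Full) (φ : RI K (NG D) (NG D')) (i : I) :
    ∃ k : I', gn K D' (φ.f (vn K D i)) = J K D' (Le D' k) ∧
      gn K D (φ.g (vn K D' k)) = J K D (Le D i) := by
  have hfi := φ.f_idem (vx_mem _) (sig_vn (K := K) (D := D) i)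
  have hfL := φ.f_mem (vn K D i) (vx_mem _)
  obtain ⟨H', hH', hg'⟩ := gen_idem hD' hfi hfL
  have hgi : ∀ k, φ.g (vn K D' k) * φ.g (vn K D' k) = φ.g (vn K D' k) := fun k =>
    φ.symm.f_idem (vx_mem _) (sig_vn (K := K) (D := D') k)
  have hgL : ∀ k, φ.g (vn K D' k) ∈ L K (NG D) := fun k => φ.g_mem (vn K D' k) (vx_mem _)
  have hex : ∀ k, ∃ H : Set I, Low D H ∧ gn K D (φ.g (vn K D' k)) = J K D H := fun k =>
    gen_idem hD (hgi k) (hgL k)
  choose H hH hg using hex
  -- `v i` lies in the union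
  have hmem : vn K D i ∈ J K D {j | ∃ k ∈ H', j ∈ H k} := by
    have h1 : φ.f (vn K D i) ∈ J K D' H' := by
      rw [← hg']
      exact self_mem_gn _
    have h2 := map_J φ.symm (H := H') (H' := {j | ∃ k ∈ H', j ∈ H k}) (by
      intro k hk
      have h3 : φ.g (vn K D' k) ∈ J K D (H k) := by
        rw [← hg k]
        exact self_mem_gn _
      exact J_mono (H' := {j | ∃ k ∈ H', j ∈ H k}) (fun j hj => ⟨k, hk, hj⟩) h3) h1
    have h3 : φ.symm.f (φ.f (vn K D i)) = vn K D i := φ.gf _ (vx_mem _)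
    rw [h3] at h2
    exact h2
  have hlow : Low D {j | ∃ k ∈ H', j ∈ H k} := by
    rintro j ⟨k, hk, hj⟩ l hl
    exact ⟨k, hk, hH k j hj l hl⟩
  obtain ⟨k, hk, hik⟩ := sig_mem hD hlow hmem
  -- `H k = Le i`
  have hHk : H k = Le D i := by
    apply Set.Subset.antisymm
    · intro j hj
      apply sig_mem (K := K) hD (sig_low hD i)
      have h1 : vn K D' k ∈ gn K D' (φ.f (vn K D i)) := by
        rw [hg']
        exact sig_self hk
      have h2 : φ.g (vn K D' k) ∈ J K D (Le D i) := by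
        refine sig_gn φ.symm hfi hfL (W := J K D (Le D i)) (fun a x hx => J_mul_left a hx)
          (fun a x hx => J_mul_right hx a) ?_ h1
        have h3 : φ.symm.f (φ.f (vn K D i)) = vn K D i := φ.gf _ (vx_mem _)
        rw [h3]
        exact sig_self (Or.inl rfl)
      have h4 : vn K D j ∈ gn K D (φ.g (vn K D' k)) := by
        rw [hg k]
        exact sig_self hj
      exact sig_gn_le h2 h4
    · intro j hj
      rcases hj with rfl | hj
      · exact hik
      · exact hH k i hik j hj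
  -- `H' = Le k`
  have hH'k : H' = Le D' k := by
    apply Set.Subset.antisymm
    · intro j hj
      apply sig_mem (K := K) hD' (sig_low hD' k)
      have h1 : vn K D i ∈ gn K D (φ.g (vn K D' k)) := by
        rw [hg k]
        exact sig_self hik
      have h2 : φ.f (vn K D i) ∈ J K D' (Le D' k) := by
        refine sig_gn φ (hgi k) (hgL k) (W := J K D' (Le D' k)) (fun a x hx => J_mul_left a hx)
          (fun a x hx => J_mul_right hx a) ?_ h1
        rw [φ.fg _ (vx_mem _)]
        exact sig_self (Or.inl rfl)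
      have h4 : vn K D' j ∈ gn K D' (φ.f (vn K D i)) := by
        rw [hg']
        exact sig_self hj
      exact sig_gn_le h2 h4
    · intro j hj
      rcases hj with rfl | hj
      · exact hk
      · exact hH' k hk j hj
  exact ⟨k, by rw [hg', hH'k], by rw [hg k, hHk]⟩

theorem sig_inj (hD : D.Full) {i k : I} (h : J K D (Le D i) = J K D (Le D k)) : i = k := by
  apply sig_anti hD
  · apply sig_mem (K := K) hD (sig_low hD k)
    rw [← h]
    exact sig_self (Or.inl rfl)
  · apply sig_mem (K := K) hD (sig_low hD i)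
    rw [h]
    exact sig_self (Or.inl rfl)

/-- `k` below `i` is preserved -/
theorem sig_le (hD' : D'.Full) (φ : RI K (NG D) (NG D')) {i k : I}
    {i' k' : I'} (hi : gn K D' (φ.f (vn K D i)) = J K D' (Le D' i'))
    (hk : gn K D' (φ.f (vn K D k)) = J K D' (Le D' k')) (h : k ∈ Le D i) : k' ∈ Le D' i' := by
  have h1 : vn K D k ∈ J K D {i} := sig_Le (sig_self (Set.mem_singleton i)) (sig_self h)
  have h2 : φ.f (vn K D k) ∈ J K D' (Le D' i') := by
    refine map_J φ ?_ h1
    rintro j rfl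
    rw [← hi]
    exact self_mem_gn _
  apply sig_mem (K := K) hD' (sig_low hD' i')
  have h3 : vn K D' k' ∈ gn K D' (φ.f (vn K D k)) := by
    rw [hk]
    exact sig_self (Or.inl rfl)
  exact sig_gn_le h2 h3

theorem exists_Sg (hD : D.Full) (hD' : D'.Full) (φ : RI K (NG D) (NG D')) : Nonempty (Sg φ) := by
  choose σ hσ1 hσ2 using sig_ex hD hD' φ
  choose τ hτ1 hτ2 using sig_ex hD' hD φ.symm
  have hl : ∀ i, τ (σ i) = i := by
    intro i
    apply sig_inj (K := K) hD
    rw [← hτ1 (σ i), ← hσ2 i]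
    rfl
  have hr : ∀ k, σ (τ k) = k := by
    intro k
    apply sig_inj (K := K) hD'
    rw [← hσ1 (τ k), ← hτ2 k]
    rfl
  have hinj : Function.Injective σ := fun i k h => by rw [← hl i, ← hl k, h]
  refine ⟨⟨⟨σ, τ, hl, hr⟩, ?_, ?_, ?_⟩⟩
  · intro i k
    constructor
    · intro h
      have h1 : k ∈ Le D i := by
        have h2 := sig_le hD φ.symm (i := σ i) (k := σ k) (i' := i) (k' := k) (hσ2 i) (hσ2 k)
          (Or.inr h)
        exact h2
      rcases h1 with h1 | h1
      · exfalso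
        rw [h1] at h
        exact h (sig_no hD' _)
      · exact h1
    · intro h
      have h1 : σ k ∈ Le D' (σ i) := sig_le hD' φ (hσ1 i) (hσ1 k) (Or.inr h)
      rcases h1 with h1 | h1
      · exfalso
        rw [hinj h1] at h
        exact h (sig_no hD _)
      · exact h1
  · intro i
    show φ.f (vn K D i) ∈ J K D' (Le D' (σ i))
    rw [← hσ1 i]
    exact self_mem_gn _
  · intro i
    show φ.g (vn K D' (σ i)) ∈ J K D (Le D i)
    rw [← hσ2 i]
    exact self_mem_gn _

end Pool.Agent.Helper32.PG
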