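import Pool.Agent.Helper32.PG.Defs
import Pool.Agent.Helper32.PG.Br

/-! The two branching systems, and the decomposition of the paths along their last edge. PIECE 12.

`brB D l`: the set `YY D l`; the edge `z i` maps `⟨⟨i, none⟩, nil⟩` (if `i = l`) to itself and
`cons i k j m y` to `cons i k (j + 1) m y`; the edge `f i k m` maps `⟨⟨k, none⟩, y⟩` to
`⟨⟨i, none⟩, cons i k 0 m y⟩`; the edge `g i s` maps `⟨⟨i, none⟩, y⟩` to `⟨⟨i, some s⟩, y⟩`.
`brT D k` (for a cycle `k`): the set `YY D k × ℤ`, the same, except that `z k` maps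
`(⟨⟨k, none⟩, nil⟩, r)` to `(⟨⟨k, none⟩, nil⟩, r + 1)`. -/

set_option autoImplicit false
set_option linter.unusedSectionVars false

universe k a

namespace Pool.Agent.Helper32.PG

open Pool.Agent.Helper32.LV

variable {I : Type a}

/-- `z i` on a path starting at `i` -/
def zact {D : Dat I} {l : I} : {i : I} → Yp D l i → Yp D l i
  | _, .nil => .nil
  | _, .cons i k j m y => .cons i k (j + 1) m y

/-- `z i` on a path with a power of `z l` at its end -/
def zactT {D : Dat I} {l : I} : {i : I} → Yp D l i → ℤ → Yp D l i × ℤ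
  | _, .nil, r => (.nil, r + 1)
  | _, .cons i k j m y, r => (.cons i k (j + 1) m y, r)

theorem snc_zact_inj {D : Dat I} {l : I} : ∀ {i : I} (y y' : Yp D l i), zact y = zact y' → y = y'
  | _, .nil, .nil, _ => rfl
  | _, .nil, .cons _ _ _ _ _, h => by simp [zact] at h
  | _, .cons _ _ _ _ _, .nil, h => by simp [zact] at h
  | _, .cons i k j m y, .cons _ k' j' m' y', h => by
    simp only [zact, Yp.cons.injEq, add_left_inj] at h
    simp only [Yp.cons.injEq]
    exact h

theorem snc_zact_ne {D : Dat I} {l i k : I} (m : Fin (D.n i k)) (y : Yp D l k) :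
    ∀ (x : Yp D l i), zact x ≠ .cons i k 0 m y := by
  intro x h
  cases x with
  | nil => simp [zact] at h
  | cons _ k' j' m' y' => simp [zact] at h

theorem snc_zactT_inj {D : Dat I} {l : I} : ∀ {i : I} (y y' : Yp D l i) (r r' : ℤ),
    (zactT y r).1 = (zactT y' r').1 → (zactT y r).2 = (zactT y' r').2 → y = y' ∧ r = r'
  | _, .nil, .nil, _, _, _, h => by
    simp only [zactT, add_left_inj] at h
    exact ⟨rfl, h⟩
  | _, .nil, .cons _ _ _ _ _, _, _, h, _ => by simp [zactT] at h
  | _, .cons _ _ _ _ _, .nil, _, _, h, _ => by simp [zactT] at h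
  | _, .cons i k j m y, .cons _ k' j' m' y', _, _, h, h' => by
    simp only [zactT, Yp.cons.injEq, add_left_inj] at h h'
    simp only [Yp.cons.injEq]
    exact ⟨h, h'⟩

theorem snc_zactT_ne {D : Dat I} {l i k : I} (m : Fin (D.n i k)) (y : Yp D l k) :
    ∀ (x : Yp D l i) (r : ℤ), (zactT x r).1 ≠ .cons i k 0 m y := by
  intro x r h
  cases x with
  | nil => simp [zactT] at h
  | cons _ k' j' m' y' => simp [zactT] at h

open Classical in
/-- the action on paths -/
noncomputable def snc_act {D : Dat I} {l : I} : NE D → YY D l → YY D l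
  | .z _ _, ⟨⟨i, none⟩, y⟩ => ⟨⟨i, none⟩, zact y⟩
  | .z _ _, ⟨⟨i, some s⟩, y⟩ => ⟨⟨i, some s⟩, y⟩
  | .f i k m, b => if h : b.1.1 = k then ⟨⟨i, none⟩, .cons i k 0 m (h ▸ b.2)⟩ else b
  | .g i s, b => if h : b.1.1 = i then ⟨⟨i, some s⟩, (h ▸ b.2 : Yp D l i)⟩ else b

open Classical in
/-- the action on paths with a power at the end -/
noncomputable def snc_actT {D : Dat I} {l : I} : NE D → YY D l × ℤ → YY D l × ℤ
  | .z _ _, (⟨⟨i, none⟩, y⟩, r) => (⟨⟨i, none⟩, (zactT y r).1⟩, (zactT y r).2)
  | .z _ _, (⟨⟨i, some s⟩, y⟩, r) => (⟨⟨i, some s⟩, y⟩, r)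
  | .f i k m, b =>
    if h : b.1.1.1 = k then (⟨⟨i, none⟩, .cons i k 0 m (h ▸ b.1.2)⟩, b.2) else b
  | .g i s, b => if h : b.1.1.1 = i then (⟨⟨i, some s⟩, (h ▸ b.1.2 : Yp D l i)⟩, b.2) else b

theorem snc_act_z {D : Dat I} {l i : I} (h : D.cyc i) (y : Yp D l i) :
    snc_act (.z i h) ⟨⟨i, none⟩, y⟩ = ⟨⟨i, none⟩, zact y⟩ := rfl

theorem snc_act_f {D : Dat I} {l i k : I} (m : Fin (D.n i k)) (y : Yp D l k) :
    snc_act (.f i k m) ⟨⟨k, none⟩, y⟩ = ⟨⟨i, none⟩, .cons i k 0 m y⟩ := by
  simp [snc_act]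

theorem snc_act_g {D : Dat I} {l i : I} (s : Fin (D.a i)) (y : Yp D l i) :
    snc_act (.g i s) ⟨⟨i, none⟩, y⟩ = ⟨⟨i, some s⟩, y⟩ := by
  simp [snc_act]

theorem snc_actT_z {D : Dat I} {l i : I} (h : D.cyc i) (y : Yp D l i) (r : ℤ) :
    snc_actT (.z i h) (⟨⟨i, none⟩, y⟩, r) = (⟨⟨i, none⟩, (zactT y r).1⟩, (zactT y r).2) := rfl

theorem snc_actT_f {D : Dat I} {l i k : I} (m : Fin (D.n i k)) (y : Yp D l k) (r : ℤ) :
    snc_actT (.f i k m) (⟨⟨k, none⟩, y⟩, r) = (⟨⟨i, none⟩, .cons i k 0 m y⟩, r) := by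
  simp [snc_actT]

theorem snc_actT_g {D : Dat I} {l i : I} (s : Fin (D.a i)) (y : Yp D l i) (r : ℤ) :
    snc_actT (.g i s) (⟨⟨i, none⟩, y⟩, r) = (⟨⟨i, some s⟩, y⟩, r) := by
  simp [snc_actT]

theorem snc_cyc {D : Dat I} (hD : D.Ok) {i : I} (h : ∃ e, (NG D).s e = ⟨i, none⟩) : D.cyc i := by
  obtain ⟨e, he⟩ := h
  cases e with
  | z j hj =>
    have h1 : j = i := congrArg Sigma.fst he
    exact h1 ▸ hj
  | f j k m =>
    have h1 : j = i := congrArg Sigma.fst he
    subst h1
    exact hD.hc j k (fun h0 => by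
      have h2 := m.2
      omega)
  | g j s =>
    have h1 : (⟨j, some s⟩ : NV D) = ⟨i, none⟩ := he
    simp only [Sigma.mk.injEq] at h1
    obtain ⟨h2, h3⟩ := h1
    subst h2
    simp at h3

theorem exists_brB (D : Dat I) (hD : D.Ok) (l : I) : ∃ β : Br (NG D) (YY D l),
    (∀ b, β.st b = b.1) ∧
    (∀ i h (y : Yp D l i), β.act (.z i h) ⟨⟨i, none⟩, y⟩ = ⟨⟨i, none⟩, zact y⟩) ∧
    (∀ i k m (y : Yp D l k), β.act (.f i k m) ⟨⟨k, none⟩, y⟩ = ⟨⟨i, none⟩, .cons i k 0 m y⟩) ∧
    ∀ i s (y : Yp D l i), β.act (.g i s) ⟨⟨i, none⟩, y⟩ = ⟨⟨i, some s⟩, y⟩ := by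
  refine ⟨{ st := fun b => b.1, act := snc_act, st_act := ?_, inj := ?_, sur := ?_ },
    fun b => rfl, fun i h y => snc_act_z h y, fun i k m y => snc_act_f m y,
    fun i s y => snc_act_g s y⟩
  · rintro e ⟨p, y⟩ h
    cases e with
    | z i hi => obtain rfl : p = ⟨i, none⟩ := h; rfl
    | f i k m => obtain rfl : p = ⟨k, none⟩ := h; rw [snc_act_f]; rfl
    | g i s => obtain rfl : p = ⟨i, none⟩ := h; rw [snc_act_g]; rfl
  · rintro e e' ⟨p, y⟩ ⟨p', y'⟩ h h' he
    cases e with
    | z i hi =>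
      obtain rfl : p = ⟨i, none⟩ := h
      cases e' with
      | z i' hi' =>
        obtain rfl : p' = ⟨i', none⟩ := h'
        rw [snc_act_z, snc_act_z] at he
        have h1 : i = i' := congrArg (fun b : YY D l => b.1.1) he
        subst h1
        have h2 : zact y = zact y' := by simpa using he
        have h3 := snc_zact_inj _ _ h2
        subst h3
        exact ⟨rfl, rfl⟩
      | f i' k' m' =>
        obtain rfl : p' = ⟨k', none⟩ := h'
        rw [snc_act_z, snc_act_f] at he
        have h1 : i = i' := congrArg (fun b : YY D l => b.1.1) he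
        subst h1
        have h2 : zact y = .cons i k' 0 m' y' := by simpa using he
        exact absurd h2 (snc_zact_ne _ _ _)
      | g i' s' =>
        obtain rfl : p' = ⟨i', none⟩ := h'
        rw [snc_act_z, snc_act_g] at he
        have h1 : i = i' := congrArg (fun b : YY D l => b.1.1) he
        subst h1
        simp at he
    | f i k m =>
      obtain rfl : p = ⟨k, none⟩ := h
      cases e' with
      | z i' hi' =>
        obtain rfl : p' = ⟨i', none⟩ := h'
        rw [snc_act_z, snc_act_f] at he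
        have h1 : i = i' := congrArg (fun b : YY D l => b.1.1) he
        subst h1
        have h2 : Yp.cons i k 0 m y = zact y' := by simpa using he
        exact absurd h2.symm (snc_zact_ne _ _ _)
      | f i' k' m' =>
        obtain rfl : p' = ⟨k', none⟩ := h'
        rw [snc_act_f, snc_act_f] at he
        have h1 : i = i' := congrArg (fun b : YY D l => b.1.1) he
        subst h1
        have h2 : Yp.cons i k 0 m y = Yp.cons i k' 0 m' y' := by simpa using he
        simp only [Yp.cons.injEq] at h2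
        obtain ⟨h3, -, h4, h5⟩ := h2
        subst h3
        obtain rfl := eq_of_heq h4
        obtain rfl := eq_of_heq h5
        exact ⟨rfl, rfl⟩
      | g i' s' =>
        obtain rfl : p' = ⟨i', none⟩ := h'
        rw [snc_act_f, snc_act_g] at he
        have h1 : i = i' := congrArg (fun b : YY D l => b.1.1) he
        subst h1
        simp at he
    | g i s =>
      obtain rfl : p = ⟨i, none⟩ := h
      cases e' with
      | z i' hi' =>
        obtain rfl : p' = ⟨i', none⟩ := h'
        rw [snc_act_z, snc_act_g] at he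
        have h1 : i = i' := congrArg (fun b : YY D l => b.1.1) he
        subst h1
        simp at he
      | f i' k' m' =>
        obtain rfl : p' = ⟨k', none⟩ := h'
        rw [snc_act_f, snc_act_g] at he
        have h1 : i = i' := congrArg (fun b : YY D l => b.1.1) he
        subst h1
        simp at he
      | g i' s' =>
        obtain rfl : p' = ⟨i', none⟩ := h'
        rw [snc_act_g, snc_act_g] at he
        have h1 : i = i' := congrArg (fun b : YY D l => b.1.1) he
        subst h1
        have h2 : s = s' ∧ y = y' := by simpa using he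
        obtain ⟨rfl, rfl⟩ := h2
        exact ⟨rfl, rfl⟩
  · rintro ⟨⟨i, o⟩, y⟩ hex -
    cases o with
    | some s => exact ⟨.g i s, ⟨⟨i, none⟩, y⟩, rfl, snc_act_g s y⟩
    | none =>
      have hc := snc_cyc hD hex
      cases y with
      | nil => exact ⟨.z i hc, ⟨⟨i, none⟩, .nil⟩, rfl, rfl⟩
      | cons _ k j m y =>
        cases j with
        | zero => exact ⟨.f i k m, ⟨⟨k, none⟩, y⟩, rfl, snc_act_f m y⟩
        | succ j => exact ⟨.z i hc, ⟨⟨i, none⟩, .cons i k j m y⟩, rfl, rfl⟩

theorem exists_brT (D : Dat I) (hD : D.Ok) (l : I) (hl : D.cyc l) :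
    ∃ β : Br (NG D) (YY D l × ℤ),
    (∀ b, β.st b = b.1.1) ∧
    (∀ i h (y : Yp D l i) r, β.act (.z i h) (⟨⟨i, none⟩, y⟩, r) =
      (⟨⟨i, none⟩, (zactT y r).1⟩, (zactT y r).2)) ∧
    (∀ i k m (y : Yp D l k) r, β.act (.f i k m) (⟨⟨k, none⟩, y⟩, r) =
      (⟨⟨i, none⟩, .cons i k 0 m y⟩, r)) ∧
    ∀ i s (y : Yp D l i) r, β.act (.g i s) (⟨⟨i, none⟩, y⟩, r) = (⟨⟨i, some s⟩, y⟩, r) := by
  refine ⟨{ st := fun b => b.1.1, act := snc_actT, st_act := ?_, inj := ?_, sur := ?_ },
    fun b => rfl, fun i h y r => snc_actT_z h y r, fun i k m y r => snc_actT_f m y r,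
    fun i s y r => snc_actT_g s y r⟩
  · rintro e ⟨⟨p, y⟩, r⟩ h
    cases e with
    | z i hi => obtain rfl : p = ⟨i, none⟩ := h; rfl
    | f i k m => obtain rfl : p = ⟨k, none⟩ := h; rw [snc_actT_f]; rfl
    | g i s => obtain rfl : p = ⟨i, none⟩ := h; rw [snc_actT_g]; rfl
  · rintro e e' ⟨⟨p, y⟩, r⟩ ⟨⟨p', y'⟩, r'⟩ h h' he
    cases e with
    | z i hi =>
      obtain rfl : p = ⟨i, none⟩ := h
      cases e' with
      | z i' hi' =>
        obtain rfl : p' = ⟨i', none⟩ := h'
        rw [snc_actT_z, snc_actT_z] at he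
        have h1 : i = i' := congrArg (fun b : YY D l × ℤ => b.1.1.1) he
        subst h1
        have h2 : (zactT y r).1 = (zactT y' r').1 ∧ (zactT y r).2 = (zactT y' r').2 := by
          simpa using he
        obtain ⟨h3, h4⟩ := snc_zactT_inj _ _ _ _ h2.1 h2.2
        subst h3 h4
        exact ⟨rfl, rfl⟩
      | f i' k' m' =>
        obtain rfl : p' = ⟨k', none⟩ := h'
        rw [snc_actT_z, snc_actT_f] at he
        have h1 : i = i' := congrArg (fun b : YY D l × ℤ => b.1.1.1) he
        subst h1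
        have h2 : (zactT y r).1 = .cons i k' 0 m' y' ∧ (zactT y r).2 = r' := by simpa using he
        exact absurd h2.1 (snc_zactT_ne _ _ _ _)
      | g i' s' =>
        obtain rfl : p' = ⟨i', none⟩ := h'
        rw [snc_actT_z, snc_actT_g] at he
        have h1 : i = i' := congrArg (fun b : YY D l × ℤ => b.1.1.1) he
        subst h1
        simp at he
    | f i k m =>
      obtain rfl : p = ⟨k, none⟩ := h
      cases e' with
      | z i' hi' =>
        obtain rfl : p' = ⟨i', none⟩ := h'
        rw [snc_actT_z, snc_actT_f] at he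
        have h1 : i = i' := congrArg (fun b : YY D l × ℤ => b.1.1.1) he
        subst h1
        have h2 : Yp.cons i k 0 m y = (zactT y' r').1 ∧ r = (zactT y' r').2 := by
          simpa using he
        exact absurd h2.1.symm (snc_zactT_ne _ _ _ _)
      | f i' k' m' =>
        obtain rfl : p' = ⟨k', none⟩ := h'
        rw [snc_actT_f, snc_actT_f] at he
        have h1 : i = i' := congrArg (fun b : YY D l × ℤ => b.1.1.1) he
        subst h1
        have h2 : Yp.cons i k 0 m y = Yp.cons i k' 0 m' y' ∧ r = r' := by simpa using he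
        obtain ⟨h2, rfl⟩ := h2
        simp only [Yp.cons.injEq] at h2
        obtain ⟨h3, -, h4, h5⟩ := h2
        subst h3
        obtain rfl := eq_of_heq h4
        obtain rfl := eq_of_heq h5
        exact ⟨rfl, rfl⟩
      | g i' s' =>
        obtain rfl : p' = ⟨i', none⟩ := h'
        rw [snc_actT_f, snc_actT_g] at he
        have h1 : i = i' := congrArg (fun b : YY D l × ℤ => b.1.1.1) he
        subst h1
        simp at he
    | g i s =>
      obtain rfl : p = ⟨i, none⟩ := h
      cases e' with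
      | z i' hi' =>
        obtain rfl : p' = ⟨i', none⟩ := h'
        rw [snc_actT_z, snc_actT_g] at he
        have h1 : i = i' := congrArg (fun b : YY D l × ℤ => b.1.1.1) he
        subst h1
        simp at he
      | f i' k' m' =>
        obtain rfl : p' = ⟨k', none⟩ := h'
        rw [snc_actT_f, snc_actT_g] at he
        have h1 : i = i' := congrArg (fun b : YY D l × ℤ => b.1.1.1) he
        subst h1
        simp at he
      | g i' s' =>
        obtain rfl : p' = ⟨i', none⟩ := h'
        rw [snc_actT_g, snc_actT_g] at he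
        have h1 : i = i' := congrArg (fun b : YY D l × ℤ => b.1.1.1) he
        subst h1
        have h2 : (s = s' ∧ y = y') ∧ r = r' := by simpa using he
        obtain ⟨⟨rfl, rfl⟩, rfl⟩ := h2
        exact ⟨rfl, rfl⟩
  · rintro ⟨⟨⟨i, o⟩, y⟩, r⟩ hex -
    cases o with
    | some s => exact ⟨.g i s, (⟨⟨i, none⟩, y⟩, r), rfl, snc_actT_g s y r⟩
    | none =>
      have hc := snc_cyc hD hex
      cases y with
      | nil =>
        refine ⟨.z i hc, (⟨⟨i, none⟩, .nil⟩, r - 1), rfl, ?_⟩
        show (_, _) = _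
        simp [zactT]
      | cons _ k j m y =>
        cases j with
        | zero => exact ⟨.f i k m, (⟨⟨k, none⟩, y⟩, r), rfl, snc_actT_f m y r⟩
        | succ j => exact ⟨.z i hc, (⟨⟨i, none⟩, .cons i k j m y⟩, r), rfl, rfl⟩

/-- the decomposition along the last edge -/
def snc_last {D : Dat I} {l : I} : {i : I} → Yp D l i →
    PLift (i = l) ⊕ (Σ k : I, Fin (D.n k l) × (Yp D k i × ℕ))
  | _, .nil => .inl ⟨rfl⟩
  | _, .cons i _ j m y => match snc_last y with
    | .inl ⟨h⟩ => .inr ⟨i, h ▸ m, .nil, j⟩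
    | .inr ⟨k', m', y', j'⟩ => .inr ⟨k', m', .cons i _ j m y', j'⟩

theorem snc_last_snoc {D : Dat I} {l k : I} (j : ℕ) (m : Fin (D.n k l)) : ∀ {i : I}
    (y : Yp D k i), snc_last (Yp.snoc j m y) = .inr ⟨k, m, y, j⟩
  | _, .nil => rfl
  | _, .cons i k' j' m' y => by
    have h := snc_last_snoc j m y
    simp only [Yp.snoc, snc_last, h]

theorem snc_of_last {D : Dat I} {l : I} : ∀ {i : I} (x : Yp D l i),
    (∀ h, snc_last x = .inl h → h.down ▸ Yp.nil = x) ∧
    ∀ k m y j, snc_last x = .inr ⟨k, m, y, j⟩ → Yp.snoc j m y = x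
  | _, .nil => ⟨fun h _ => rfl, fun k m y j h => by simp [snc_last] at h⟩
  | _, .cons i k j m y => by
    obtain ⟨h1, h2⟩ := snc_of_last y
    cases hy : snc_last y with
    | inl h =>
      obtain ⟨h⟩ := h
      subst h
      have h3 := h1 _ hy
      simp only at h3
      subst h3
      refine ⟨fun h h4 => ?_, fun k' m' y' j' h4 => ?_⟩
      · simp only [snc_last] at h4
        simp at h4
      · simp only [snc_last, Sum.inr.injEq, Sigma.mk.injEq] at h4
        obtain ⟨h5, h6⟩ := h4
        subst h5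
        have h7 := eq_of_heq h6
        simp only [Prod.mk.injEq] at h7
        obtain ⟨rfl, rfl, rfl⟩ := h7
        rfl
    | inr p =>
      obtain ⟨k1, m1, y1, j1⟩ := p
      have h3 := h2 _ _ _ _ hy
      refine ⟨fun h h4 => ?_, fun k' m' y' j' h4 => ?_⟩
      · simp only [snc_last, hy] at h4
        simp at h4
      · simp only [snc_last, hy, Sum.inr.injEq, Sigma.mk.injEq] at h4
        obtain ⟨h5, h6⟩ := h4
        subst h5
        have h7 := eq_of_heq h6
        simp only [Prod.mk.injEq] at h7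
        obtain ⟨rfl, rfl, rfl⟩ := h7
        rw [← h3]
        rfl

/-- the last edge: every path to `l` is trivial or of the form `snoc j m y` in a unique way -/
theorem exists_snocE (D : Dat I) (l i : I) :
    ∃ e : (PLift (i = l) ⊕ (Σ k : I, Fin (D.n k l) × (Yp D k i × ℕ))) ≃ Yp D l i,
      (∀ h : i = l, e (.inl ⟨h⟩) = h ▸ Yp.nil) ∧
      ∀ k m y j, e (.inr ⟨k, m, y, j⟩) = Yp.snoc j m y := by
  refine ⟨{ toFun := fun p => match p with
              | .inl ⟨h⟩ => h ▸ Yp.nil
              | .inr ⟨_, m, y, j⟩ => Yp.snoc j m y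
            invFun := snc_last
            left_inv := ?_
            right_inv := ?_ }, fun h => rfl, fun k m y j => rfl⟩
  · rintro (h | ⟨k, m, y, j⟩)
    · obtain ⟨h⟩ := h
      subst h
      rfl
    · exact snc_last_snoc j m y
  · intro x
    obtain ⟨h1, h2⟩ := snc_of_last x
    cases hx : snc_last x with
    | inl h => exact h1 h hx
    | inr p =>
      obtain ⟨k, m, y, j⟩ := p
      exact h2 _ _ _ _ hx

end Pool.Agent.Helper32.PG
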