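import Pool.Agent.Helper32.PG.Pth

/-! The span of the paths, and the vanishing of high powers of `z*`. PIECE 5.

`span_left`: let `M` be the right-hand side; check that `M` is stable under left multiplication by
the generators. `kill`: by induction on `k` (with `hD.hr`) every `a * v k`, `k ∈ G`, is killed by
high powers: modulo `J (Lt D k)` it is a combination of `pth p * zi k m` with `p : YY D k`, and `p`
is not trivial, since `k ≠ i`. -/

set_option autoImplicit false
set_option linter.unusedSectionVars false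

universe k a

namespace Pool.Agent.Helper32.PG

open Pool.Agent.Helper32.LV

variable {I : Type a} [Fintype I] [DecidableEq I] {K : Type k} [Field K] [StarRing K] {D : Dat I}

/-! ### auxiliary facts -/

/-- the right-hand side of `span_left` -/
noncomputable def spn_M (K : Type k) [Field K] (D : Dat I) (i : I) : Submodule K (U K (NG D)) :=
  Submodule.span K {y | ∃ (p : YY D i) (m : ℤ), y = pth K D p * zi K D i m} ⊔ J K D (Lt D i)

theorem spn_zero {x y : U K (NG D)} {u u' : NV D} (hx : x * vx K (NG D) u = x)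
    (hy : vx K (NG D) u' * y = y) (h : u ≠ u') : x * y = 0 := by
  rw [← hx, ← hy, mul_assoc, ← mul_assoc (vx K (NG D) u), vx_vx_of_ne h, zero_mul, mul_zero]

theorem spn_star_src {x : U K (NG D)} {u : NV D} (hx : vx K (NG D) u * x = x) :
    star x * vx K (NG D) u = star x := by
  have := congrArg star hx
  rwa [star_mul, star_vx] at this

theorem spn_vn_pp {l i : I} (y : Yp D l i) : vn K D i * pp K D y = pp K D y := by
  cases y with
  | nil => exact vx_vx _
  | cons _ k' j m y =>
    change vn K D i * (zi K D i j * ed K (NG D) (.f i k' m) * pp K D y) =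
      zi K D i j * ed K (NG D) (.f i k' m) * pp K D y
    rw [← mul_assoc, ← mul_assoc, vn_zi]

theorem spn_pth_none {l i : I} (y : Yp D l i) :
    pth K D (⟨⟨i, none⟩, y⟩ : YY D l) = pp K D y := spn_vn_pp y

theorem spn_pth_nil (i : I) : pth K D (⟨⟨i, none⟩, .nil⟩ : YY D i) = vn K D i :=
  spn_pth_none (.nil)

theorem spn_mem_M {i : I} (p : YY D i) (m : ℤ) : pth K D p * zi K D i m ∈ spn_M K D i :=
  Submodule.mem_sup_left (Submodule.subset_span ⟨p, m, rfl⟩)

theorem spn_zi_mem_M {i : I} (m : ℤ) : zi K D i m ∈ spn_M K D i := by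
  have h := spn_mem_M (K := K) (⟨⟨i, none⟩, .nil⟩ : YY D i) m
  rwa [spn_pth_nil, vn_zi] at h

theorem spn_vn_mem_M (i : I) : vn K D i ∈ spn_M K D i := by
  have h := spn_zi_mem_M (K := K) (D := D) (i := i) 0
  rwa [zi_zero] at h

theorem spn_J_M {i : I} {x : U K (NG D)} (h : x ∈ J K D (Lt D i)) : x ∈ spn_M K D i :=
  Submodule.mem_sup_right h

theorem spn_zi_one {i : I} (h : D.cyc i) : zi K D i 1 = ed K (NG D) (.z i h) := by
  unfold zi
  rw [dif_pos h]
  exact zp_one

theorem spn_zi_neg_one {i : I} (h : D.cyc i) : zi K D i (-1) = gh K (NG D) (.z i h) := by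
  unfold zi
  rw [dif_pos h]
  exact zp_neg_one (G := NG D) (e := .z i h) rfl

theorem spn_zi_sink {i : I} (h : ¬ D.cyc i) {m : ℤ} (hm : m ≠ 0) : zi K D i m = 0 := by
  unfold zi
  rw [dif_neg h, if_neg hm]

theorem spn_ed_zi {i : I} (h : D.cyc i) (n : ℕ) :
    ed K (NG D) (.z i h) * zi K D i n = zi K D i ((n + 1 : ℕ) : ℤ) := by
  unfold zi
  rw [dif_pos h, dif_pos h, zp_nat, zp_nat]
  have h1 : ed K (NG D) (.z i h) * vx K (NG D) ((NG D).s (.z i h)) = ed K (NG D) (.z i h) :=
    ed_vx (G := NG D) (.z i h)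
  have h2 : vx K (NG D) ((NG D).s (.z i h)) * ed K (NG D) (.z i h) = ed K (NG D) (.z i h) :=
    vx_ed (G := NG D) (.z i h)
  rw [← mul_assoc, h1, pow_succ', ← mul_assoc, h2]

theorem spn_lt_self (hD : D.Ok) (i : I) : D.n i i = 0 := by
  by_contra h
  obtain ⟨ρ, hρ⟩ := hD.hr
  exact absurd (hρ i i h) (lt_irrefl _)

theorem spn_zi_mul_mem (hD : D.Ok) (i : I) (m m' : ℤ) :
    zi K D i m * zi K D i m' ∈ spn_M K D i := by
  by_cases hi : D.cyc i
  · have h1 := zi_mul (K := K) hD i hi m m'
    have h2 : zi K D i m * zi K D i m' =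
        (zi K D i m * zi K D i m' - zi K D i (m + m')) + zi K D i (m + m') := by
      rw [sub_add_cancel]
    rw [h2]
    exact (spn_M K D i).add_mem (spn_J_M h1) (spn_zi_mem_M _)
  · by_cases hm : m = 0
    · rw [hm, zi_zero, vn_zi]
      exact spn_zi_mem_M _
    · rw [spn_zi_sink hi hm, zero_mul]
      exact (spn_M K D i).zero_mem

theorem spn_of_gen {i : I} {x : U K (NG D)}
    (h : ∀ (p : YY D i) (m : ℤ), x * (pth K D p * zi K D i m) ∈ spn_M K D i) :
    ∀ y ∈ spn_M K D i, x * y ∈ spn_M K D i := by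
  intro y hy
  obtain ⟨y₁, hy₁, y₂, hy₂, rfl⟩ := Submodule.mem_sup.1 hy
  rw [mul_add]
  refine (spn_M K D i).add_mem ?_ (spn_J_M (J_mul_left x hy₂))
  clear hy
  induction hy₁ using Submodule.span_induction with
  | mem z hz =>
    obtain ⟨p, m, rfl⟩ := hz
    exact h p m
  | zero =>
    rw [mul_zero]
    exact (spn_M K D i).zero_mem
  | add z w _ _ h1 h2 =>
    rw [mul_add]
    exact (spn_M K D i).add_mem h1 h2
  | smul c z _ h1 =>
    rw [mul_smul_comm]
    exact (spn_M K D i).smul_mem c h1

theorem spn_vx (i : I) (u : NV D) (p : YY D i) (m : ℤ) :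
    vx K (NG D) u * (pth K D p * zi K D i m) ∈ spn_M K D i := by
  by_cases h : u = p.1
  · rw [h, ← mul_assoc, vx_pth]
    exact spn_mem_M p m
  · rw [← mul_assoc, spn_zero (vx_vx u) (vx_pth p) h, zero_mul]
    exact (spn_M K D i).zero_mem

theorem spn_ed (hD : D.Ok) (i : I) (e : NE D) (p : YY D i) (m : ℤ) :
    ed K (NG D) e * (pth K D p * zi K D i m) ∈ spn_M K D i := by
  by_cases h : (NG D).r e = p.1
  · cases e with
    | z j hj =>
      obtain ⟨⟨i', s⟩, y⟩ := p
      have h' : (⟨i', s⟩ : NV D) = ⟨j, none⟩ := h.symm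
      cases h'
      rw [spn_pth_none]
      cases y with
      | nil =>
        change _ * (vn K D _ * zi K D _ m) ∈ _
        rw [vn_zi, ← spn_zi_one hj]
        exact spn_zi_mul_mem hD _ 1 m
      | cons _ k' j' m' y' =>
        change _ * ((zi K D j j' * ed K (NG D) (.f j k' m') * pp K D y') * zi K D i m) ∈ _
        have h1 : ed K (NG D) (.z j hj) * ((zi K D j j' * ed K (NG D) (.f j k' m') *
            pp K D y') * zi K D i m) = pth K D (⟨⟨j, none⟩, .cons j k' (j' + 1) m' y'⟩ : YY D i) *
            zi K D i m := by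
          rw [spn_pth_none]
          change _ = ((zi K D j ((j' + 1 : ℕ) : ℤ) * ed K (NG D) (.f j k' m') *
            pp K D y') * zi K D i m)
          rw [← spn_ed_zi hj]
          simp only [mul_assoc]
        rw [h1]
        exact spn_mem_M _ m
    | f j k' m' =>
      obtain ⟨⟨i', s⟩, y⟩ := p
      have h' : (⟨i', s⟩ : NV D) = ⟨k', none⟩ := h.symm
      cases h'
      rw [spn_pth_none]
      have h1 : ed K (NG D) (.f j k' m') * (pp K D y * zi K D i m) =
          pth K D (⟨⟨j, none⟩, .cons j k' 0 m' y⟩ : YY D i) * zi K D i m := by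
        rw [spn_pth_none]
        change _ = ((zi K D j ((0 : ℕ) : ℤ) * ed K (NG D) (.f j k' m') * pp K D y) * zi K D i m)
        have h2 : zi K D j ((0 : ℕ) : ℤ) = vn K D j := zi_zero j
        have h3 : vn K D j * ed K (NG D) (.f j k' m') = ed K (NG D) (.f j k' m') :=
          vx_ed (G := NG D) (.f j k' m')
        rw [h2, h3, mul_assoc]
      rw [h1]
      exact spn_mem_M _ m
    | g j s' =>
      obtain ⟨⟨i', s⟩, y⟩ := p
      have h' : (⟨i', s⟩ : NV D) = ⟨j, none⟩ := h.symm
      cases h'
      rw [spn_pth_none, ← mul_assoc]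
      exact spn_mem_M (⟨⟨j, some s'⟩, y⟩ : YY D i) m
  · rw [← mul_assoc, spn_zero (ed_vx (G := NG D) e) (vx_pth p) h, zero_mul]
    exact (spn_M K D i).zero_mem

theorem spn_gh (hD : D.Ok) (i : I) (e : NE D) (p : YY D i) (m : ℤ) :
    gh K (NG D) e * (pth K D p * zi K D i m) ∈ spn_M K D i := by
  by_cases h : (NG D).s e = p.1
  · cases e with
    | z j hj =>
      obtain ⟨⟨i', s⟩, y⟩ := p
      have h' : (⟨i', s⟩ : NV D) = ⟨j, none⟩ := h.symm
      cases h'
      rw [spn_pth_none]
      cases y with
      | nil =>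
        change _ * (vn K D _ * zi K D _ m) ∈ _
        rw [vn_zi, ← spn_zi_neg_one hj]
        exact spn_zi_mul_mem hD _ (-1) m
      | cons _ k' j' m' y' =>
        change _ * ((zi K D j j' * ed K (NG D) (.f j k' m') * pp K D y') * zi K D i m) ∈ _
        rw [← spn_zi_neg_one hj]
        cases j' with
        | zero =>
          have h2 : zi K D j ((0 : ℕ) : ℤ) = vn K D j := zi_zero j
          have h3 : vn K D j * ed K (NG D) (.f j k' m') = ed K (NG D) (.f j k' m') :=
            vx_ed (G := NG D) (.f j k' m')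
          have h4 : zi K D j (-1) * ed K (NG D) (.f j k' m') = 0 :=
            zi_neg_f j k' m' 1 one_ne_zero
          rw [h2, h3, ← mul_assoc, ← mul_assoc, h4, zero_mul, zero_mul]
          exact (spn_M K D i).zero_mem
        | succ j' =>
          have h1 : zi K D j (-1) * ((zi K D j ((j' + 1 : ℕ) : ℤ) * ed K (NG D) (.f j k' m') *
              pp K D y') * zi K D i m) = pth K D (⟨⟨j, none⟩, .cons j k' j' m' y'⟩ : YY D i) *
              zi K D i m := by
            rw [spn_pth_none]
            change _ = ((zi K D j (j' : ℤ) * ed K (NG D) (.f j k' m') * pp K D y') * zi K D i m)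
            have h2 : zi K D j (-1) * zi K D j ((j' + 1 : ℕ) : ℤ) = zi K D j (j' : ℤ) := by
              have h3 := zi_neg_mul (K := K) j hj 1 (j' + 1)
              have h4 : (((j' + 1 : ℕ) : ℤ)) - ((1 : ℕ) : ℤ) = (j' : ℤ) := by push_cast; ring
              rw [h4] at h3
              exact h3
            rw [← h2]
            simp only [mul_assoc]
          rw [h1]
          exact spn_mem_M _ m
    | f j k' m' =>
      obtain ⟨⟨i', s⟩, y⟩ := p
      have h' : (⟨i', s⟩ : NV D) = ⟨j, none⟩ := h.symm
      cases h'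
      rw [spn_pth_none]
      cases y with
      | nil =>
        have h1 : gh K (NG D) (.f _ k' m') = vn K D k' * gh K (NG D) (.f _ k' m') :=
          (vx_gh (G := NG D) (.f _ k' m')).symm
        rw [h1]
        refine spn_J_M (J_mul_right (J_mul_right (vx_mem_J (⟨k', none⟩ : NV D) ?_) _) _)
        change D.n _ k' ≠ 0
        intro h0
        rw [h0] at m'
        exact m'.elim0
      | cons _ k'' j' m'' y' =>
        change _ * ((zi K D j j' * ed K (NG D) (.f j k'' m'') * pp K D y') * zi K D i m) ∈ _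
        cases j' with
        | zero =>
          have h2 : zi K D j ((0 : ℕ) : ℤ) = vn K D j := zi_zero j
          have h3 : vn K D j * ed K (NG D) (.f j k'' m'') = ed K (NG D) (.f j k'' m'') :=
            vx_ed (G := NG D) (.f j k'' m'')
          rw [h2, h3, ← mul_assoc, ← mul_assoc]
          by_cases he : (NE.f (D := D) j k' m') = .f j k'' m''
          · cases he
            have h4 : gh K (NG D) (.f j k' m') * ed K (NG D) (.f j k' m') = vn K D k' :=
              gh_ed (G := NG D) (.f j k' m')
            rw [h4, spn_vn_pp, ← spn_pth_none]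
            exact spn_mem_M _ m
          · rw [gh_ed_of_ne he, zero_mul, zero_mul]
            exact (spn_M K D i).zero_mem
        | succ j' =>
          by_cases hj : D.cyc j
          · rw [← spn_ed_zi hj, ← mul_assoc, ← mul_assoc, ← mul_assoc, ← mul_assoc,
              gh_ed_of_ne (fun h => by cases h)]
            simp only [zero_mul]
            exact (spn_M K D i).zero_mem
          · rw [spn_zi_sink hj (by omega)]
            simp only [zero_mul, mul_zero]
            exact (spn_M K D i).zero_mem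
    | g j s' =>
      obtain ⟨⟨i', s⟩, y⟩ := p
      have h' : (⟨i', s⟩ : NV D) = ⟨j, some s'⟩ := h.symm
      cases h'
      have h1 : gh K (NG D) (.g j s') * (pth K D (⟨⟨j, some s'⟩, y⟩ : YY D i) * zi K D i m) =
          pth K D (⟨⟨j, none⟩, y⟩ : YY D i) * zi K D i m := by
        rw [spn_pth_none]
        change _ * ((ed K (NG D) (.g j s') * pp K D y) * _) = _
        have h4 : gh K (NG D) (.g j s') * ed K (NG D) (.g j s') = vn K D j :=
          gh_ed (G := NG D) (.g j s')
        rw [← mul_assoc, ← mul_assoc, h4, spn_vn_pp]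
      rw [h1]
      exact spn_mem_M _ m
  · rw [← mul_assoc, spn_zero (gh_vx (G := NG D) e) (vx_pth p) h, zero_mul]
    exact (spn_M K D i).zero_mem

theorem spn_stable (hD : D.Ok) (i : I) (x : U K (NG D)) :
    ∀ y ∈ spn_M K D i, x * y ∈ spn_M K D i := by
  refine U_ind (p := fun x => ∀ y ∈ spn_M K D i, x * y ∈ spn_M K D i) ?_ ?_ ?_ ?_ ?_ ?_ x
  · intro c y hy
    rw [← Algebra.smul_def]
    exact (spn_M K D i).smul_mem c hy
  · intro u
    exact spn_of_gen (fun p m => spn_vx i u p m)
  · intro e
    exact spn_of_gen (fun p m => spn_ed hD i e p m)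
  · intro e
    exact spn_of_gen (fun p m => spn_gh hD i e p m)
  · intro x y hx hy z hz
    rw [add_mul]
    exact (spn_M K D i).add_mem (hx z hz) (hy z hz)
  · intro x y hx hy z hz
    rw [mul_assoc]
    exact hx _ (hy z hz)

theorem spn_star_J {H : Set I} {x : U K (NG D)} (hx : x ∈ J K D H) : star x ∈ J K D H := by
  unfold J at hx
  induction hx using Submodule.span_induction with
  | mem x h =>
    obtain ⟨i, hi, a, b, rfl⟩ := h
    refine Submodule.subset_span ⟨i, hi, star b, star a, ?_⟩
    rw [star_mul, star_mul, star_vx, mul_assoc]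
  | zero =>
    rw [star_zero]
    exact (J K D H).zero_mem
  | add x y _ _ h1 h2 =>
    rw [star_add]
    exact (J K D H).add_mem h1 h2
  | smul c x _ h =>
    rw [star_smul]
    exact (J K D H).smul_mem _ h

theorem span_left (hD : D.Ok) (i : I) (x : U K (NG D)) : x * vn K D i ∈
    Submodule.span K {y | ∃ (p : YY D i) (m : ℤ), y = pth K D p * zi K D i m} ⊔
      J K D (Lt D i) := by
  exact spn_stable hD i x _ (spn_vn_mem_M i)

theorem span_right (hD : D.Ok) (i : I) (x : U K (NG D)) : vn K D i * x ∈
    Submodule.span K {y | ∃ (p : YY D i) (m : ℤ), y = zi K D i m * star (pth K D p)} ⊔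
      J K D (Lt D i) := by
  obtain ⟨y, hy, z, hz, h⟩ := Submodule.mem_sup.1 (span_left hD i (star x))
  have h1 : vn K D i * x = star (y + z) := by
    rw [h, star_mul, star_star, star_vx]
  rw [h1, star_add]
  refine Submodule.add_mem _ (Submodule.mem_sup_left ?_) (Submodule.mem_sup_right (spn_star_J hz))
  clear h h1
  induction hy using Submodule.span_induction with
  | mem x h =>
    obtain ⟨p, m, rfl⟩ := h
    refine Submodule.subset_span ⟨p, -m, ?_⟩
    rw [star_mul, zi_star]
  | zero =>
    rw [star_zero]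
    exact Submodule.zero_mem _
  | add x y _ _ h1 h2 =>
    rw [star_add]
    exact Submodule.add_mem _ h1 h2
  | smul c x _ h =>
    rw [star_smul]
    exact Submodule.smul_mem _ _ h

theorem span_J (hD : D.Full) {H : Set I} (hH : Low D H) {i : I} (hi : i ∈ H)
    {x : U K (NG D)} (hx : x ∈ J K D H) : x ∈
    Submodule.span K {y | ∃ (p q : YY D i) (m : ℤ), y = pth K D p * zi K D i m * star (pth K D q)} ⊔
      J K D (H \ {i}) := by
  have hlt : Lt D i ⊆ H \ {i} := by
    intro k' hk'
    refine ⟨hH i hi k' hk', ?_⟩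
    intro h
    have h' : k' = i := h
    rw [h'] at hk'
    exact hk' (spn_lt_self hD.toOk i)
  set W : Submodule K (U K (NG D)) :=
    Submodule.span K {y | ∃ (p q : YY D i) (m : ℤ), y = pth K D p * zi K D i m * star (pth K D q)} ⊔
      J K D (H \ {i}) with hW
  have hgen : ∀ (p q : YY D i) (m : ℤ), pth K D p * zi K D i m * star (pth K D q) ∈ W :=
    fun p q m => Submodule.mem_sup_left (Submodule.subset_span ⟨p, q, m, rfl⟩)
  have hJ : ∀ {z}, z ∈ J K D (H \ {i}) → z ∈ W := fun h => Submodule.mem_sup_right h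
  have hprod : ∀ (p q : YY D i) (m m' : ℤ),
      (pth K D p * zi K D i m) * (zi K D i m' * star (pth K D q)) ∈ W := by
    intro p q m m'
    have e1 : (pth K D p * zi K D i m) * (zi K D i m' * star (pth K D q)) =
        pth K D p * (zi K D i m * zi K D i m') * star (pth K D q) := by
      simp only [mul_assoc]
    rw [e1]
    by_cases hc : D.cyc i
    · have h1 := zi_mul (K := K) hD.toOk i hc m m'
      have h2 : zi K D i m * zi K D i m' =
          (zi K D i m * zi K D i m' - zi K D i (m + m')) + zi K D i (m + m') := by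
        rw [sub_add_cancel]
      rw [h2, mul_add, add_mul]
      exact W.add_mem (hJ (J_mono hlt (J_mul_right (J_mul_left _ h1) _))) (hgen p q _)
    · by_cases hm : m = 0
      · rw [hm, zi_zero, vn_zi]
        exact hgen p q _
      · rw [spn_zi_sink hc hm, zero_mul, mul_zero, zero_mul]
        exact W.zero_mem
  unfold J at hx
  induction hx using Submodule.span_induction with
  | mem x h =>
    obtain ⟨j, hj, a, b, rfl⟩ := h
    by_cases hji : j = i
    · subst hji
      obtain ⟨s, hs, t, ht, h1⟩ := Submodule.mem_sup.1 (span_left hD.toOk j a)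
      obtain ⟨s', hs', t', ht', h2⟩ := Submodule.mem_sup.1 (span_right hD.toOk j b)
      have e1 : a * vn K D j * b = (s + t) * (s' + t') := by
        have e2 : vn K D j * vn K D j = vn K D j := vx_vx _
        rw [h1, h2, ← mul_assoc, mul_assoc a (vn K D j) (vn K D j), e2]
      rw [e1, add_mul, mul_add]
      refine W.add_mem (W.add_mem ?_ (hJ (J_mono hlt (J_mul_left _ ht')))) 
        (hJ (J_mono hlt (J_mul_right ht _)))
      clear e1 h1 h2
      induction hs using Submodule.span_induction with
      | mem x h =>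
        obtain ⟨p, m, rfl⟩ := h
        induction hs' using Submodule.span_induction with
        | mem x h =>
          obtain ⟨q, m', rfl⟩ := h
          exact hprod p q m m'
        | zero =>
          rw [mul_zero]
          exact W.zero_mem
        | add x y _ _ h1 h2 =>
          rw [mul_add]
          exact W.add_mem h1 h2
        | smul c x _ h =>
          rw [mul_smul_comm]
          exact W.smul_mem _ h
      | zero =>
        rw [zero_mul]
        exact W.zero_mem
      | add x y _ _ h1 h2 =>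
        rw [add_mul]
        exact W.add_mem h1 h2
      | smul c x _ h =>
        rw [smul_mul_assoc]
        exact W.smul_mem _ h
    · exact hJ (Submodule.subset_span ⟨j, ⟨hj, hji⟩, a, b, rfl⟩)
  | zero => exact W.zero_mem
  | add x y _ _ h1 h2 => exact W.add_mem h1 h2
  | smul c x _ h => exact W.smul_mem _ h

/-- only the trivial path starts and ends at `⟨i, none⟩` -/
theorem span_corner (hD : D.Full) (i : I) (x : U K (NG D)) : vn K D i * x * vn K D i ∈
    Submodule.span K {y | ∃ m : ℤ, y = zi K D i m} ⊔ J K D (Lt D i) := by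
  obtain ⟨y, hy, z, hz, h⟩ := Submodule.mem_sup.1 (span_left hD.toOk i x)
  rw [mul_assoc, ← h, mul_add]
  refine Submodule.add_mem _ (Submodule.mem_sup_left ?_) (Submodule.mem_sup_right (J_mul_left _ hz))
  clear h
  induction hy using Submodule.span_induction with
  | mem x h =>
    obtain ⟨⟨u, y⟩, m, rfl⟩ := h
    by_cases hu : (⟨i, none⟩ : NV D) = u
    · subst hu
      have h1 : y = .nil := Yp_self hD.toOk y
      rw [h1, spn_pth_nil, vn_zi, vn_zi]
      exact Submodule.subset_span ⟨m, rfl⟩
    · rw [← mul_assoc, spn_zero (vx_vx _) (vx_pth (⟨u, y⟩ : YY D i)) hu, zero_mul]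
      exact Submodule.zero_mem _
  | zero =>
    rw [mul_zero]
    exact Submodule.zero_mem _
  | add x y _ _ h1 h2 =>
    rw [mul_add]
    exact Submodule.add_mem _ h1 h2
  | smul c x _ h =>
    rw [mul_smul_comm]
    exact Submodule.smul_mem _ _ h

/-- elements killed by almost all members of a sequence -/
theorem spn_kill_J (Z : ℕ → U K (NG D)) {H : Set I}
    (h : ∀ k ∈ H, ∀ a, ∃ M : ℕ, ∀ m ≥ M, Z m * (a * vn K D k) = 0) {x : U K (NG D)}
    (hx : x ∈ J K D H) : ∃ M : ℕ, ∀ m ≥ M, Z m * x = 0 := by
  unfold J at hx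
  induction hx using Submodule.span_induction with
  | mem x hx =>
    obtain ⟨k', hk', a, b, rfl⟩ := hx
    obtain ⟨M, hM⟩ := h k' hk' a
    exact ⟨M, fun m hm => by rw [← mul_assoc, hM m hm, zero_mul]⟩
  | zero => exact ⟨0, fun m _ => mul_zero _⟩
  | add x y _ _ h1 h2 =>
    obtain ⟨M, hM⟩ := h1
    obtain ⟨M', hM'⟩ := h2
    exact ⟨max M M', fun m hm => by
      rw [mul_add, hM m (le_trans (le_max_left _ _) hm), hM' m (le_trans (le_max_right _ _) hm),
        add_zero]⟩
  | smul c x _ h1 =>
    obtain ⟨M, hM⟩ := h1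
    exact ⟨M, fun m hm => by rw [mul_smul_comm, hM m hm, smul_zero]⟩

theorem spn_kill (hD : D.Full) (i : I) (Z : ℕ → U K (NG D)) (hZ : ∀ m, Z m * vn K D i = Z m)
    (hZ' : ∀ l, l ≠ i → ∀ y : Yp D l i, ∃ M : ℕ, ∀ m ≥ M, Z m * pp K D y = 0) {G : Set I}
    (hG : Low D G) (hiG : i ∉ G) {x : U K (NG D)} (hx : x ∈ J K D G) :
    ∃ M : ℕ, ∀ m ≥ M, Z m * x = 0 := by
  obtain ⟨ρ, hρ⟩ := hD.hr
  have key : ∀ N : ℕ, ∀ k ∈ G, ρ k < N → ∀ a, ∃ M : ℕ, ∀ m ≥ M, Z m * (a * vn K D k) = 0 := by
    intro N
    induction N with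
    | zero =>
      intro k' _ h
      exact absurd h (Nat.not_lt_zero _)
    | succ N ih =>
      intro k' hk' hN a
      obtain ⟨s, hs, t, ht, h1⟩ := Submodule.mem_sup.1 (span_left hD.toOk k' a)
      have ht' : ∃ M : ℕ, ∀ m ≥ M, Z m * t = 0 := by
        refine spn_kill_J Z (fun k'' hk'' a' => ?_) ht
        have h2 : ρ k'' < ρ k' := hρ k' k'' hk''
        exact ih k'' (hG k' hk' k'' hk'') (by omega) a'
      have hs' : ∃ M : ℕ, ∀ m ≥ M, Z m * s = 0 := by
        clear h1
        induction hs using Submodule.span_induction with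
        | mem x h =>
          obtain ⟨⟨u, y⟩, n, rfl⟩ := h
          by_cases hu : (⟨i, none⟩ : NV D) = u
          · subst hu
            have hne : k' ≠ i := by
              rintro rfl
              exact hiG hk'
            obtain ⟨M, hM⟩ := hZ' k' hne y
            refine ⟨M, fun m hm => ?_⟩
            rw [spn_pth_none, ← mul_assoc, hM m hm, zero_mul]
          · refine ⟨0, fun m _ => ?_⟩
            rw [← mul_assoc, spn_zero (hZ m) (vx_pth (⟨u, y⟩ : YY D k')) hu, zero_mul]
        | zero => exact ⟨0, fun m _ => mul_zero _⟩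
        | add x y _ _ h1 h2 =>
          obtain ⟨M, hM⟩ := h1
          obtain ⟨M', hM'⟩ := h2
          exact ⟨max M M', fun m hm => by
            rw [mul_add, hM m (le_trans (le_max_left _ _) hm),
              hM' m (le_trans (le_max_right _ _) hm), add_zero]⟩
        | smul c x _ h1 =>
          obtain ⟨M, hM⟩ := h1
          exact ⟨M, fun m hm => by rw [mul_smul_comm, hM m hm, smul_zero]⟩
      obtain ⟨M, hM⟩ := hs'
      obtain ⟨M', hM'⟩ := ht'
      exact ⟨max M M', fun m hm => by
        rw [← h1, mul_add, hM m (le_trans (le_max_left _ _) hm),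
          hM' m (le_trans (le_max_right _ _) hm), add_zero]⟩
  exact spn_kill_J Z (fun k' hk' a => key (ρ k' + 1) k' hk' (Nat.lt_succ_self _) a) hx

theorem kill (hD : D.Full) (i : I) (hi : D.cyc i) {G : Set I} (hG : Low D G) (hiG : i ∉ G)
    {x : U K (NG D)} (hx : x ∈ J K D G) : ∃ M : ℕ, ∀ m ≥ M, zi K D i (-(m : ℤ)) * x = 0 := by
  refine spn_kill hD i (fun m => zi K D i (-(m : ℤ))) (fun m => zi_vn i _) ?_ hG hiG hx
  intro l hl y
  cases y with
  | nil => exact absurd rfl hl
  | cons _ k' j m' y =>
    refine ⟨j + 1, fun m hm => ?_⟩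
    change zi K D i (-(m : ℤ)) * (zi K D i j * ed K (NG D) (.f i k' m') * pp K D y) = 0
    have h1 : (j : ℤ) - (m : ℤ) = -((m - j : ℕ) : ℤ) := by omega
    rw [← mul_assoc, ← mul_assoc, zi_neg_mul i hi, h1, zi_neg_f i k' m' _ (by omega), zero_mul]

theorem kill_sink (hD : D.Full) (i : I) (hi : ¬ D.cyc i) {G : Set I} (hG : Low D G) (hiG : i ∉ G)
    {x : U K (NG D)} (hx : x ∈ J K D G) : vn K D i * x = 0 := by
  obtain ⟨M, hM⟩ := spn_kill hD i (fun _ => vn K D i) (fun _ => vx_vx _) (by
    intro l hl y
    cases y with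
    | nil => exact absurd rfl hl
    | cons _ k' j m' y =>
      refine absurd (hD.hc i k' ?_) hi
      intro h0
      rw [h0] at m'
      exact m'.elim0) hG hiG hx
  exact hM M le_rfl

theorem vn_not_mem (hD : D.Full) (i : I) {G : Set I} (hG : Low D G) (hiG : i ∉ G) :
    vn K D i ∉ J K D G := by
  intro h
  by_cases hi : D.cyc i
  · obtain ⟨M, hM⟩ := kill hD i hi hG hiG h
    have h1 := hM M le_rfl
    rw [zi_vn] at h1
    have h2 := zi_neg_mul (K := K) i hi M M
    rw [h1, zero_mul, sub_self, zi_zero] at h2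
    exact vx_ne_zero _ h2.symm
  · have h1 := kill_sink hD i hi hG hiG h
    rw [vx_vx] at h1
    exact vx_ne_zero _ h1

end Pool.Agent.Helper32.PG
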