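import Pool.Agent.Helper32.PG.Snc
import Pool.Agent.Helper32.TP.Fred

/-! The representations on paths. PIECE 13.

`β l` is the representation of `exists_brB`. For a cycle `k` let `π` be the representation of
`exists_brT` on `YY D k × ℤ`, let `C` be the projection onto the basis vectors with second
component `≥ 0`, and `T k x` the compression of `π x` (identify these basis vectors with
`YY D k × ℕ`). `C * π x - π x * C` has finite rank for every `x` (true for the generators, where it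
is not zero only for the edge `z k` and its ghost, and there of rank one; then use `U_ind`), so `T k` is
multiplicative modulo finite rank. `βT`: by `U_ind`; for a generator the difference vanishes on all
basis vectors except possibly one, namely for the ghost of `f k l m` on the image of
`(⟨⟨k, none⟩, nil⟩, 0)`; for a product use `Tmul`. -/

set_option autoImplicit false
set_option linter.unusedSectionVars false

universe k a

namespace Pool.Agent.Helper32.PG

open Pool.Agent.Helper32.LV Pool.Agent.Helper32.TP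

variable {I : Type a} (K : Type k) [Field K] (D : Dat I)

/-- append `z k ^ j * f k l m` to a path to `k` -/
noncomputable def inn (k l : I) (m : Fin (D.n k l)) : (YY D k × ℕ →₀ K) →ₗ[K] (YY D l →₀ K) :=
  Finsupp.lmapDomain K K fun b => ⟨b.1.1, Yp.snoc b.2 m b.1.2⟩

open Classical in
/-- the representations `β l` and the maps `T k`, multiplicative modulo finite rank -/
structure Reps where
  β : ∀ l, U K (NG D) →ₐ[K] Module.End K (YY D l →₀ K)
  T : ∀ k, U K (NG D) →ₗ[K] Module.End K (YY D k × ℕ →₀ K)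
  βv : ∀ l p b, β l (vx K (NG D) p) (Finsupp.single b 1) =
    if b.1 = p then Finsupp.single b 1 else 0
  Tv : ∀ k, D.cyc k → ∀ p b, T k (vx K (NG D) p) (Finsupp.single b 1) =
    if b.1.1 = p then Finsupp.single b 1 else 0
  Tmul : ∀ k, D.cyc k → ∀ x y, FinRk (T k (x * y) - T k x * T k y)
  βT : ∀ l k (m : Fin (D.n k l)) x, FinRk (β l x ∘ₗ inn K D k l m - inn K D k l m ∘ₗ T k x)

/-- a map which vanishes on all but finitely many basis vectors has finite rank -/
theorem tk_finRk {B : Type*} {W : Type*} [AddCommGroup W] [Module K W] (F : (B →₀ K) →ₗ[K] W)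
    (s : Finset B) (h : ∀ b, b ∉ s → F (Finsupp.single b 1) = 0) : FinRk F := by
  have hle : LinearMap.range F ≤
      Submodule.span K ((fun b => F (Finsupp.single b 1)) '' (s : Set B)) := by
    rintro _ ⟨x, rfl⟩
    induction x using Finsupp.induction_linear with
    | zero => rw [map_zero]; exact Submodule.zero_mem _
    | add x y hx hy => rw [map_add]; exact Submodule.add_mem _ hx hy
    | single b c =>
      have h1 : (Finsupp.single b c : B →₀ K) = c • Finsupp.single b 1 := by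
        rw [Finsupp.smul_single, smul_eq_mul, mul_one]
      rw [h1, map_smul]
      refine Submodule.smul_mem _ _ ?_
      by_cases hb : b ∈ s
      · exact Submodule.subset_span ⟨b, hb, rfl⟩
      · rw [h b hb]
        exact Submodule.zero_mem _
  have hfin : Module.Finite K
      (Submodule.span K ((fun b => F (Finsupp.single b 1)) '' (s : Set B))) :=
    FiniteDimensional.span_of_finite K (s.finite_toSet.image _)
  exact Submodule.finiteDimensional_of_le hle

/-- the index map of `inn` -/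
def tk_in (k l : I) (m : Fin (D.n k l)) (b : YY D k × ℕ) : YY D l :=
  ⟨b.1.1, Yp.snoc b.2 m b.1.2⟩

theorem tk_inn (k l : I) (m : Fin (D.n k l)) (b : YY D k × ℕ) :
    inn K D k l m (Finsupp.single b 1) = Finsupp.single (tk_in D k l m b) 1 := by
  unfold inn
  rw [Finsupp.lmapDomain_apply, Finsupp.mapDomain_single]
  rfl

/-- inclusion of the nonnegative part -/
noncomputable def tk_io (k : I) : (YY D k × ℕ →₀ K) →ₗ[K] (YY D k × ℤ →₀ K) :=
  Finsupp.lmapDomain K K fun b => (b.1, (b.2 : ℤ))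

/-- projection onto the nonnegative part -/
noncomputable def tk_ro (k : I) : (YY D k × ℤ →₀ K) →ₗ[K] (YY D k × ℕ →₀ K) :=
  Finsupp.linearCombination K fun b =>
    if 0 ≤ b.2 then Finsupp.single (b.1, b.2.toNat) 1 else 0

theorem tk_io_single (k : I) (b : YY D k × ℕ) :
    tk_io K D k (Finsupp.single b 1) = Finsupp.single (b.1, (b.2 : ℤ)) 1 := by
  unfold tk_io
  rw [Finsupp.lmapDomain_apply, Finsupp.mapDomain_single]

theorem tk_ro_pos (k : I) (b : YY D k × ℤ) (h : 0 ≤ b.2) :
    tk_ro K D k (Finsupp.single b 1) = Finsupp.single (b.1, b.2.toNat) 1 := by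
  unfold tk_ro
  rw [Finsupp.linearCombination_single, one_smul, if_pos h]

theorem tk_ro_neg (k : I) (b : YY D k × ℤ) (h : ¬ 0 ≤ b.2) :
    tk_ro K D k (Finsupp.single b 1) = 0 := by
  unfold tk_ro
  rw [Finsupp.linearCombination_single, one_smul, if_neg h]

theorem tk_ro_io (k : I) : tk_ro K D k ∘ₗ tk_io K D k = LinearMap.id := by
  refine Finsupp.lhom_ext' fun b => LinearMap.ext_ring ?_
  simp only [LinearMap.comp_apply, Finsupp.lsingle_apply, LinearMap.id_apply]
  rw [tk_io_single, tk_ro_pos _ _ _ _ (Int.natCast_nonneg _)]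
  simp

/-- the properties of the system `brB` -/
structure TkB (l : I) (β : Br (NG D) (YY D l)) : Prop where
  st : ∀ b, β.st b = b.1
  z : ∀ i h (y : Yp D l i), β.act (.z i h) ⟨⟨i, none⟩, y⟩ = ⟨⟨i, none⟩, zact y⟩
  f : ∀ i k m (y : Yp D l k), β.act (.f i k m) ⟨⟨k, none⟩, y⟩ = ⟨⟨i, none⟩, .cons i k 0 m y⟩
  g : ∀ i s (y : Yp D l i), β.act (.g i s) ⟨⟨i, none⟩, y⟩ = ⟨⟨i, some s⟩, y⟩

/-- the properties of the system `brT` -/
structure TkT (l : I) (β : Br (NG D) (YY D l × ℤ)) : Prop where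
  st : ∀ b, β.st b = b.1.1
  z : ∀ i h (y : Yp D l i) r, β.act (.z i h) (⟨⟨i, none⟩, y⟩, r) =
    (⟨⟨i, none⟩, (zactT y r).1⟩, (zactT y r).2)
  f : ∀ i k m (y : Yp D l k) r, β.act (.f i k m) (⟨⟨k, none⟩, y⟩, r) =
    (⟨⟨i, none⟩, .cons i k 0 m y⟩, r)
  g : ∀ i s (y : Yp D l i) r, β.act (.g i s) (⟨⟨i, none⟩, y⟩, r) = (⟨⟨i, some s⟩, y⟩, r)

/-- the properties of the representation of a branching system -/
structure TkH {B : Type*} (β : Br (NG D) B) (T : U K (NG D) →ₐ[K] Module.End K (B →₀ K)) :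
    Prop where
  v : ∀ v b, β.st b = v → T (vx K (NG D) v) (Finsupp.single b 1) = Finsupp.single b 1
  v' : ∀ v b, β.st b ≠ v → T (vx K (NG D) v) (Finsupp.single b 1) = 0
  e : ∀ e b, β.st b = (NG D).r e →
    T (ed K (NG D) e) (Finsupp.single b 1) = Finsupp.single (β.act e b) 1
  e' : ∀ e b, β.st b ≠ (NG D).r e → T (ed K (NG D) e) (Finsupp.single b 1) = 0
  g : ∀ e b, β.st b = (NG D).r e →
    T (gh K (NG D) e) (Finsupp.single (β.act e b) 1) = Finsupp.single b 1
  g' : ∀ e b', (∀ b, β.st b = (NG D).r e → β.act e b ≠ b') →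
    T (gh K (NG D) e) (Finsupp.single b' 1) = 0

variable {D}

theorem tk_act {k l : I} (m : Fin (D.n k l)) {β : Br (NG D) (YY D l)} (hβ : TkB D l β)
    {π : Br (NG D) (YY D k × ℤ)} (hπ : TkT D k π) (e : NE D) (b : YY D k × ℕ)
    (h : b.1.1 = (NG D).r e) : 0 ≤ (π.act e (b.1, (b.2 : ℤ))).2 ∧
      β.act e (tk_in D k l m b) = tk_in D k l m
        ((π.act e (b.1, (b.2 : ℤ))).1, (π.act e (b.1, (b.2 : ℤ))).2.toNat) := by
  obtain ⟨⟨p, y⟩, j⟩ := b
  cases e with
  | z i hi =>
    obtain rfl : p = ⟨i, none⟩ := h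
    simp only
    rw [hπ.z]
    cases y with
    | nil =>
      refine ⟨by simp only [zactT]; omega, ?_⟩
      have h2 : ((j : ℤ) + 1).toNat = j + 1 := by omega
      simp only [tk_in, zactT, h2]
      rw [hβ.z]
      rfl
    | cons _ k' j' m' y' =>
      refine ⟨Int.natCast_nonneg _, ?_⟩
      simp only [tk_in, zactT, Int.toNat_natCast]
      rw [hβ.z]
      rfl
  | f i k' m' =>
    obtain rfl : p = ⟨k', none⟩ := h
    simp only
    rw [hπ.f]
    refine ⟨Int.natCast_nonneg _, ?_⟩
    simp only [tk_in, Int.toNat_natCast]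
    rw [hβ.f]
    rfl
  | g i s =>
    obtain rfl : p = ⟨i, none⟩ := h
    simp only
    rw [hπ.g]
    refine ⟨Int.natCast_nonneg _, ?_⟩
    simp only [tk_in, Int.toNat_natCast]
    rw [hβ.g]

/-- the exceptional basis vector -/
def tk_b0 (D : Dat I) (k : I) : YY D k × ℕ := (⟨⟨k, none⟩, .nil⟩, 0)

theorem tk_pre {k l : I} (m : Fin (D.n k l)) {β : Br (NG D) (YY D l)} (hβ : TkB D l β)
    {π : Br (NG D) (YY D k × ℤ)} (hπ : TkT D k π) (e : NE D) (b : YY D k × ℕ)
    (hb : b ≠ tk_b0 D k) (b'' : YY D l) (h : b''.1 = (NG D).r e)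
    (h' : β.act e b'' = tk_in D k l m b) :
    ∃ b' : YY D k × ℤ, b'.1.1 = (NG D).r e ∧ π.act e b' = (b.1, (b.2 : ℤ)) := by
  obtain ⟨⟨⟨i0, o⟩, y⟩, j⟩ := b
  obtain ⟨p, y''⟩ := b''
  cases e with
  | z i hi =>
    obtain rfl : p = ⟨i, none⟩ := h
    rw [hβ.z] at h'
    have h1 : (⟨i, none⟩ : NV D) = ⟨i0, o⟩ := congrArg (fun b : YY D l => b.1) h'
    obtain rfl : i = i0 := congrArg Sigma.fst h1
    obtain rfl : none = o := by simpa using h1
    cases y with
    | nil =>
      refine ⟨(⟨⟨_, none⟩, .nil⟩, (j : ℤ) - 1), rfl, ?_⟩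
      rw [hπ.z]
      simp [zactT]
    | cons _ k' j' m' y' =>
      have h2 : zact y'' = .cons i k' j' m' (Yp.snoc j m y') := by
        simpa [tk_in, Yp.snoc] using h'
      cases j' with
      | zero => exact absurd h2 (snc_zact_ne _ _ _)
      | succ j' =>
        refine ⟨(⟨⟨i, none⟩, .cons i k' j' m' y'⟩, (j : ℤ)), rfl, ?_⟩
        rw [hπ.z]
        rfl
  | f i k' m' =>
    obtain rfl : p = ⟨k', none⟩ := h
    rw [hβ.f] at h'
    have h1 : (⟨i, none⟩ : NV D) = ⟨i0, o⟩ := congrArg (fun b : YY D l => b.1) h'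
    obtain rfl : i = i0 := congrArg Sigma.fst h1
    obtain rfl : none = o := by simpa using h1
    cases y with
    | nil =>
      exfalso
      apply hb
      have h2 : Yp.cons _ k' 0 m' y'' = .cons _ l j m .nil := by
        simpa [tk_in, Yp.snoc] using h'
      simp only [Yp.cons.injEq] at h2
      obtain ⟨-, h3, -⟩ := h2
      rw [← h3]
      rfl
    | cons _ k1 j1 m1 y1 =>
      have h2 : Yp.cons i k' 0 m' y'' = .cons i k1 j1 m1 (Yp.snoc j m y1) := by
        simpa [tk_in, Yp.snoc] using h'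
      simp only [Yp.cons.injEq] at h2
      obtain ⟨rfl, rfl, h4, -⟩ := h2
      obtain rfl := eq_of_heq h4
      refine ⟨(⟨⟨k', none⟩, y1⟩, (j : ℤ)), rfl, ?_⟩
      rw [hπ.f]
  | g i s =>
    obtain rfl : p = ⟨i, none⟩ := h
    rw [hβ.g] at h'
    have h1 : (⟨i, some s⟩ : NV D) = ⟨i0, o⟩ := congrArg (fun b : YY D l => b.1) h'
    obtain rfl : i = i0 := congrArg Sigma.fst h1
    obtain rfl : some s = o := by simpa using h1
    refine ⟨(⟨⟨i, none⟩, y⟩, (j : ℤ)), rfl, ?_⟩
    rw [hπ.g]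

theorem tk_neg {k : I} {π : Br (NG D) (YY D k × ℤ)} (hπ : TkT D k π) (e : NE D)
    (b : YY D k × ℕ) (hb : b ≠ tk_b0 D k) (b' : YY D k × ℤ) (h : b'.1.1 = (NG D).r e)
    (h' : π.act e b' = (b.1, (b.2 : ℤ))) : 0 ≤ b'.2 := by
  obtain ⟨⟨p, y⟩, r⟩ := b'
  cases e with
  | z i hi =>
    obtain rfl : p = ⟨i, none⟩ := h
    rw [hπ.z] at h'
    cases y with
    | nil =>
      by_contra hr
      apply hb
      have h1 : r + 1 = (b.2 : ℤ) := congrArg Prod.snd h'
      have h2 := congrArg Prod.fst h'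
      have h3 : b.2 = 0 := by simp only at hr; omega
      exact Prod.ext h2.symm h3
    | cons _ k' j' m' y' =>
      have h1 : r = (b.2 : ℤ) := congrArg Prod.snd h'
      simp only [h1]
      omega
  | f i k' m' =>
    obtain rfl : p = ⟨k', none⟩ := h
    rw [hπ.f] at h'
    have h1 : r = (b.2 : ℤ) := congrArg Prod.snd h'
    simp only [h1]
    omega
  | g i s =>
    obtain rfl : p = ⟨i, none⟩ := h
    rw [hπ.g] at h'
    have h1 : r = (b.2 : ℤ) := congrArg Prod.snd h'
    simp only [h1]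
    omega

variable (D)

/-- the compression -/
noncomputable def tk_T (k : I) (P : U K (NG D) →ₐ[K] Module.End K (YY D k × ℤ →₀ K)) :
    U K (NG D) →ₗ[K] Module.End K (YY D k × ℕ →₀ K) where
  toFun x := tk_ro K D k ∘ₗ P x ∘ₗ tk_io K D k
  map_add' x y := by
    rw [map_add]
    ext
    simp
  map_smul' c x := by
    rw [map_smul]
    ext
    simp

theorem tk_T_apply (k : I) (P : U K (NG D) →ₐ[K] Module.End K (YY D k × ℤ →₀ K))
    (x : U K (NG D)) : tk_T K D k P x = tk_ro K D k ∘ₗ P x ∘ₗ tk_io K D k := rfl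

/-- the other part of the compression has finite rank -/
theorem tk_off {k : I} {π : Br (NG D) (YY D k × ℤ)} (hπ : TkT D k π)
    {P : U K (NG D) →ₐ[K] Module.End K (YY D k × ℤ →₀ K)} (hP : TkH K D π P)
    (x : U K (NG D)) :
    FinRk ((LinearMap.id - tk_io K D k ∘ₗ tk_ro K D k) ∘ₗ (P x ∘ₗ tk_io K D k)) := by
  set N : Module.End K (YY D k × ℤ →₀ K) := LinearMap.id - tk_io K D k ∘ₗ tk_ro K D k with hN
  have hNpos : ∀ b : YY D k × ℤ, 0 ≤ b.2 → N (Finsupp.single b 1) = 0 := by
    intro b hb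
    rw [hN, LinearMap.sub_apply, LinearMap.comp_apply, tk_ro_pos _ _ _ _ hb, tk_io_single,
      LinearMap.id_apply]
    simp only [Int.toNat_of_nonneg hb]
    exact sub_self _
  have hNio : N ∘ₗ tk_io K D k = 0 := by
    refine Finsupp.lhom_ext' fun b => LinearMap.ext_ring ?_
    simp only [LinearMap.comp_apply, Finsupp.lsingle_apply, LinearMap.zero_apply]
    rw [tk_io_single, hNpos _ (Int.natCast_nonneg _)]
  induction x using U_ind with
  | hk c =>
    refine tk_finRk K _ ∅ fun b _ => ?_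
    have h1 : P (algebraMap K _ c) = algebraMap K _ c := AlgHom.commutes _ _
    simp only [LinearMap.comp_apply]
    rw [h1, Module.algebraMap_end_apply, map_smul]
    have h2 := LinearMap.congr_fun hNio (Finsupp.single b 1)
    rw [LinearMap.comp_apply] at h2
    rw [h2]
    simp
  | hv v =>
    refine tk_finRk K _ ∅ fun b _ => ?_
    simp only [LinearMap.comp_apply]
    rw [tk_io_single]
    by_cases h : π.st (b.1, (b.2 : ℤ)) = v
    · rw [hP.v _ _ h]
      exact hNpos _ (Int.natCast_nonneg _)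
    · rw [hP.v' _ _ h]
      exact map_zero _
  | he e =>
    refine tk_finRk K _ ∅ fun b _ => ?_
    simp only [LinearMap.comp_apply]
    rw [tk_io_single]
    by_cases h : π.st (b.1, (b.2 : ℤ)) = (NG D).r e
    · rw [hP.e _ _ h]
      refine hNpos _ ?_
      rw [hπ.st] at h
      obtain ⟨⟨p, y⟩, j⟩ := b
      cases e with
      | z i hi =>
        obtain rfl : p = ⟨i, none⟩ := h
        simp only
        rw [hπ.z]
        cases y with
        | nil => simp only [zactT]; omega
        | cons _ k' j' m' y' => exact Int.natCast_nonneg _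
      | f i k' m' =>
        obtain rfl : p = ⟨k', none⟩ := h
        simp only
        rw [hπ.f]
        exact Int.natCast_nonneg _
      | g i s =>
        obtain rfl : p = ⟨i, none⟩ := h
        simp only
        rw [hπ.g]
        exact Int.natCast_nonneg _
    · rw [hP.e' _ _ h]
      exact map_zero _
  | hg e =>
    classical
    refine tk_finRk K _ {tk_b0 D k} fun b hb => ?_
    rw [Finset.mem_singleton] at hb
    simp only [LinearMap.comp_apply]
    rw [tk_io_single]
    by_cases hex : ∃ b', π.st b' = (NG D).r e ∧ π.act e b' = (b.1, (b.2 : ℤ))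
    · obtain ⟨b', h1, h2⟩ := hex
      rw [← h2, hP.g e b' h1]
      rw [hπ.st] at h1
      exact hNpos _ (tk_neg hπ e b hb b' h1 h2)
    · push Not at hex
      rw [hP.g' e _ hex]
      exact map_zero _
  | ha x y hx hy =>
    have h1 : N ∘ₗ (P (x + y) ∘ₗ tk_io K D k) =
        N ∘ₗ (P x ∘ₗ tk_io K D k) + N ∘ₗ (P y ∘ₗ tk_io K D k) := by
      rw [map_add]
      ext
      simp
    rw [h1]
    exact hx.add hy
  | hm x y hx hy =>
    have h1 : N ∘ₗ (P (x * y) ∘ₗ tk_io K D k) =
        (N ∘ₗ (P x ∘ₗ tk_io K D k)) ∘ₗ (tk_ro K D k ∘ₗ P y ∘ₗ tk_io K D k) +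
          (N ∘ₗ P x) ∘ₗ (N ∘ₗ (P y ∘ₗ tk_io K D k)) := by
      have h2 : ∀ w : YY D k × ℤ →₀ K, w = tk_io K D k (tk_ro K D k w) + N w := by
        intro w
        rw [hN]
        simp
      rw [map_mul]
      refine LinearMap.ext fun w => ?_
      simp only [LinearMap.comp_apply, LinearMap.add_apply, Module.End.mul_apply]
      conv_lhs => rw [h2 (P y (tk_io K D k w))]
      rw [map_add, map_add]
    rw [h1]
    exact (hx.comp_right _).add (hy.comp_left _)

theorem tk_mul {k : I} {π : Br (NG D) (YY D k × ℤ)} (hπ : TkT D k π)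
    {P : U K (NG D) →ₐ[K] Module.End K (YY D k × ℤ →₀ K)} (hP : TkH K D π P)
    (x y : U K (NG D)) :
    FinRk (tk_T K D k P (x * y) - tk_T K D k P x * tk_T K D k P y) := by
  have h1 : tk_T K D k P (x * y) - tk_T K D k P x * tk_T K D k P y =
      (tk_ro K D k ∘ₗ P x) ∘ₗ
        ((LinearMap.id - tk_io K D k ∘ₗ tk_ro K D k) ∘ₗ (P y ∘ₗ tk_io K D k)) := by
    refine LinearMap.ext fun w => ?_
    rw [tk_T_apply, tk_T_apply, tk_T_apply, map_mul]
    simp only [LinearMap.comp_apply, LinearMap.sub_apply, Module.End.mul_apply,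
      LinearMap.id_apply, map_sub]
  rw [h1]
  exact (tk_off K D hπ hP y).comp_left _

theorem tk_v {k : I} {π : Br (NG D) (YY D k × ℤ)} (hπ : TkT D k π)
    {P : U K (NG D) →ₐ[K] Module.End K (YY D k × ℤ →₀ K)} (hP : TkH K D π P) (p : NV D)
    (b : YY D k × ℕ) : (b.1.1 = p →
      tk_T K D k P (vx K (NG D) p) (Finsupp.single b 1) = Finsupp.single b 1) ∧
      (b.1.1 ≠ p → tk_T K D k P (vx K (NG D) p) (Finsupp.single b 1) = 0) := by
  rw [tk_T_apply]
  simp only [LinearMap.comp_apply]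
  rw [tk_io_single]
  constructor
  · intro h
    rw [hP.v _ _ (by rw [hπ.st]; exact h), tk_ro_pos _ _ _ _ (Int.natCast_nonneg _)]
    simp
  · intro h
    rw [hP.v' _ _ (by rw [hπ.st]; exact h)]
    exact map_zero _

theorem tk_bt {k l : I} (m : Fin (D.n k l)) {β : Br (NG D) (YY D l)} (hβ : TkB D l β)
    {B : U K (NG D) →ₐ[K] Module.End K (YY D l →₀ K)} (hB : TkH K D β B)
    {π : Br (NG D) (YY D k × ℤ)} (hπ : TkT D k π)
    {P : U K (NG D) →ₐ[K] Module.End K (YY D k × ℤ →₀ K)} (hP : TkH K D π P)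
    (x : U K (NG D)) :
    FinRk (B x ∘ₗ inn K D k l m - inn K D k l m ∘ₗ tk_T K D k P x) := by
  have hT1 : ∀ x b, tk_T K D k P x (Finsupp.single b 1) =
      tk_ro K D k (P x (Finsupp.single (b.1, (b.2 : ℤ)) 1)) := by
    intro x b
    rw [tk_T_apply]
    simp only [LinearMap.comp_apply]
    rw [tk_io_single]
  induction x using U_ind with
  | hk c =>
    refine tk_finRk K _ ∅ fun b _ => ?_
    have h1 : P (algebraMap K _ c) = algebraMap K _ c := AlgHom.commutes _ _
    have h2 : B (algebraMap K _ c) = algebraMap K _ c := AlgHom.commutes _ _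
    simp only [LinearMap.comp_apply, LinearMap.sub_apply]
    rw [hT1, h1, h2, Module.algebraMap_end_apply, Module.algebraMap_end_apply, map_smul,
      tk_ro_pos _ _ _ _ (Int.natCast_nonneg _), map_smul, tk_inn]
    simp [tk_inn]
  | hv v =>
    refine tk_finRk K _ ∅ fun b _ => ?_
    simp only [LinearMap.comp_apply, LinearMap.sub_apply]
    rw [tk_inn]
    by_cases h : b.1.1 = v
    · rw [(tk_v K D hπ hP v b).1 h, tk_inn, hB.v _ _ (by rw [hβ.st]; exact h)]
      exact sub_self _
    · rw [(tk_v K D hπ hP v b).2 h, hB.v' _ _ (by rw [hβ.st]; exact h)]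
      simp
  | he e =>
    refine tk_finRk K _ ∅ fun b _ => ?_
    simp only [LinearMap.comp_apply, LinearMap.sub_apply]
    rw [hT1, tk_inn]
    by_cases h : b.1.1 = (NG D).r e
    · obtain ⟨h1, h2⟩ := tk_act m hβ hπ e b h
      rw [hP.e _ _ (by rw [hπ.st]; exact h), hB.e _ _ (by rw [hβ.st]; exact h), h2,
        tk_ro_pos _ _ _ _ h1, tk_inn]
      exact sub_self _
    · rw [hP.e' _ _ (by rw [hπ.st]; exact h), hB.e' _ _ (by rw [hβ.st]; exact h)]
      simp
  | hg e =>
    classical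
    refine tk_finRk K _ {tk_b0 D k} fun b hb => ?_
    rw [Finset.mem_singleton] at hb
    simp only [LinearMap.comp_apply, LinearMap.sub_apply]
    rw [hT1, tk_inn]
    by_cases hex : ∃ b', π.st b' = (NG D).r e ∧ π.act e b' = (b.1, (b.2 : ℤ))
    · obtain ⟨b', h1, h2⟩ := hex
      rw [← h2, hP.g e b' h1]
      rw [hπ.st] at h1
      have h3 := tk_neg hπ e b hb b' h1 h2
      rw [tk_ro_pos _ _ _ _ h3, tk_inn]
      have h4 : ((b'.1, b'.2.toNat) : YY D k × ℕ).1.1 = (NG D).r e := h1
      obtain ⟨-, h5⟩ := tk_act m hβ hπ e (b'.1, b'.2.toNat) h4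
      have h6 : ((b'.1, ((b'.2.toNat : ℕ) : ℤ)) : YY D k × ℤ) = b' := by
        rw [Int.toNat_of_nonneg h3]
      simp only [h6, h2, Int.toNat_natCast] at h5
      rw [← h5, hB.g e _ (by rw [hβ.st]; exact h1)]
      exact sub_self _
    · have h1 : ∀ b'', β.st b'' = (NG D).r e → β.act e b'' ≠ tk_in D k l m b := by
        intro b'' h2 h3
        rw [hβ.st] at h2
        obtain ⟨b', h4, h5⟩ := tk_pre m hβ hπ e b hb b'' h2 h3
        exact hex ⟨b', by rw [hπ.st]; exact h4, h5⟩
      push Not at hex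
      rw [hB.g' e _ h1, hP.g' e _ hex]
      simp
  | ha x y hx hy =>
    have h1 : B (x + y) ∘ₗ inn K D k l m - inn K D k l m ∘ₗ tk_T K D k P (x + y) =
        (B x ∘ₗ inn K D k l m - inn K D k l m ∘ₗ tk_T K D k P x) +
          (B y ∘ₗ inn K D k l m - inn K D k l m ∘ₗ tk_T K D k P y) := by
      refine LinearMap.ext fun w => ?_
      rw [map_add, map_add]
      simp only [LinearMap.comp_apply, LinearMap.sub_apply, LinearMap.add_apply, map_add]
      abel
    rw [h1]
    exact hx.add hy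
  | hm x y hx hy =>
    have h1 : B (x * y) ∘ₗ inn K D k l m - inn K D k l m ∘ₗ tk_T K D k P (x * y) =
        (B x ∘ₗ (B y ∘ₗ inn K D k l m - inn K D k l m ∘ₗ tk_T K D k P y) +
          (B x ∘ₗ inn K D k l m - inn K D k l m ∘ₗ tk_T K D k P x) ∘ₗ tk_T K D k P y) +
          (-inn K D k l m) ∘ₗ
            (tk_T K D k P (x * y) - tk_T K D k P x * tk_T K D k P y) := by
      refine LinearMap.ext fun w => ?_
      rw [map_mul]
      simp only [LinearMap.comp_apply, LinearMap.sub_apply, LinearMap.add_apply, map_sub,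
        Module.End.mul_apply, LinearMap.neg_apply]
      abel
    rw [h1]
    exact ((hy.comp_left _).add (hx.comp_right _)).add ((tk_mul K D hπ hP x y).comp_left _)

theorem tk_H {B : Type*} (β : Br (NG D) B) :
    ∃ T : U K (NG D) →ₐ[K] Module.End K (B →₀ K), TkH K D β T := by
  obtain ⟨T, g1, g2, g3, g4⟩ := β.exists_hom K
  refine ⟨T, ⟨?_, ?_, ?_, ?_, g3, g4⟩⟩
  · intro v b h
    rw [g1, if_pos h]
  · intro v b h
    rw [g1, if_neg h]
  · intro e b h
    rw [g2, if_pos h]
  · intro e b h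
    rw [g2, if_neg h]

theorem exists_Reps [DecidableEq I] (hD : D.Ok) : Nonempty (Reps K D) := by
  have hB : ∀ l, ∃ (β : Br (NG D) (YY D l))
      (B : U K (NG D) →ₐ[K] Module.End K (YY D l →₀ K)), TkB D l β ∧ TkH K D β B := by
    intro l
    obtain ⟨β, h1, h2, h3, h4⟩ := exists_brB D hD l
    obtain ⟨B, hB⟩ := tk_H K D β
    exact ⟨β, B, ⟨h1, h2, h3, h4⟩, hB⟩
  choose β B hβ hBH using hB
  have hT : ∀ k, ∃ T : U K (NG D) →ₗ[K] Module.End K (YY D k × ℕ →₀ K), D.cyc k →
      (∀ p b, (b.1.1 = p → T (vx K (NG D) p) (Finsupp.single b 1) = Finsupp.single b 1) ∧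
        (b.1.1 ≠ p → T (vx K (NG D) p) (Finsupp.single b 1) = 0)) ∧
      (∀ x y, FinRk (T (x * y) - T x * T y)) ∧
      ∀ l (m : Fin (D.n k l)) x, FinRk (B l x ∘ₗ inn K D k l m - inn K D k l m ∘ₗ T x) := by
    intro k
    by_cases hk : D.cyc k
    · obtain ⟨π, h1, h2, h3, h4⟩ := exists_brT D hD k hk
      obtain ⟨P, hP⟩ := tk_H K D π
      have hπ : TkT D k π := ⟨h1, h2, h3, h4⟩
      exact ⟨tk_T K D k P, fun _ => ⟨tk_v K D hπ hP, tk_mul K D hπ hP,
        fun l m x => tk_bt K D m (hβ l) (hBH l) hπ hP x⟩⟩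
    · exact ⟨0, fun h => absurd h hk⟩
  choose T hT using hT
  refine ⟨{ β := B, T := T, βv := ?_, Tv := ?_, Tmul := ?_, βT := ?_ }⟩
  · intro l p b
    by_cases h : b.1 = p
    · rw [if_pos h, (hBH l).v _ _ (by rw [(hβ l).st]; exact h)]
    · rw [if_neg h, (hBH l).v' _ _ (by rw [(hβ l).st]; exact h)]
  · intro k hk p b
    by_cases h : b.1.1 = p
    · rw [if_pos h, ((hT k hk).1 p b).1 h]
    · rw [if_neg h, ((hT k hk).1 p b).2 h]
  · intro k hk x y
    exact (hT k hk).2.1 x y
  · intro l k m x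
    have hk : D.cyc k := hD.hc k l (fun h0 => by
      have h2 := m.2
      omega)
    exact (hT k hk).2.2 l m x

end Pool.Agent.Helper32.PG
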